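import Pool.Agent.U172.NS.Prod

/-!
The bound of the production by one helical part of the vorticity, at a fixed height `τ`.
-/

open MeasureTheory Set Filter Topology
open scoped ENNReal ComplexConjugate ContDiff

set_option autoImplicit false

namespace Pool.Agent.U172.NS

open H459R3.NS

/-- the Frobenius norm of the gradient -/
noncomputable def mn (v : V → V) (x : V) : ℝ :=
  Real.sqrt (∑ i, ∑ j, pd j (fun y => v y i) x ^ 2)

theorem cs3 (X Y : V) (M : Fin 3 → Fin 3 → ℝ) :
    |∑ i, ∑ j, X i * Y j * M i j| ≤ len X * (len Y * Real.sqrt (∑ i, ∑ j, M i j ^ 2)) := by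
  have h1 : (∑ i, ∑ j, X i * Y j * M i j) ^ 2
      ≤ (∑ p : Fin 3 × Fin 3, (X p.1 * Y p.2) ^ 2) * ∑ p : Fin 3 × Fin 3, M p.1 p.2 ^ 2 := by
    have h := Finset.sum_mul_sq_le_sq_mul_sq Finset.univ
      (fun p : Fin 3 × Fin 3 => X p.1 * Y p.2) (fun p => M p.1 p.2)
    rw [Fintype.sum_prod_type] at h
    exact h
  have h2 : ∑ p : Fin 3 × Fin 3, (X p.1 * Y p.2) ^ 2 = len X ^ 2 * len Y ^ 2 := by
    rw [Fintype.sum_prod_type, len_sq, len_sq, Finset.sum_mul_sum]
    exact Finset.sum_congr rfl fun i _ => Finset.sum_congr rfl fun j _ => mul_pow _ _ _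
  have h3 : ∑ p : Fin 3 × Fin 3, M p.1 p.2 ^ 2 = Real.sqrt (∑ i, ∑ j, M i j ^ 2) ^ 2 := by
    rw [Fintype.sum_prod_type, Real.sq_sqrt (Finset.sum_nonneg fun _ _ =>
      Finset.sum_nonneg fun _ _ => sq_nonneg _)]
  have h4 : (∑ i, ∑ j, X i * Y j * M i j) ^ 2
      ≤ (len X * (len Y * Real.sqrt (∑ i, ∑ j, M i j ^ 2))) ^ 2 := by
    refine h1.trans (le_of_eq ?_)
    rw [h2, h3]
    ring
  exact abs_le_of_sq_le_sq h4 (mul_nonneg (len_nonneg _) (mul_nonneg (len_nonneg _)
    (Real.sqrt_nonneg _)))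

theorem sum_sq_le {ι : Type*} [Fintype ι] (a : ι → ℝ) (ha : ∀ m, 0 ≤ a m) :
    ∑ m, a m ^ 2 ≤ (∑ m, a m) ^ 2 := by
  rw [sq (∑ m, a m), Finset.sum_mul]
  refine Finset.sum_le_sum fun m _ => ?_
  rw [sq]
  exact mul_le_mul_of_nonneg_left
    (Finset.single_le_sum (f := a) (fun _ _ => ha _) (Finset.mem_univ m)) (ha m)

/-- the algebra of the helical splitting -/
theorem qf_split {v O L : V → V} {σ : ℝ} (hσ : σ = 1 ∨ σ = -1) (x : V) :
    qf v O x - qf v L x ≤ 4 * (len (fun i => (O x i + σ * L x i) / 2)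
      * (len (fun i => (O x i - σ * L x i) / 2) * mn v x)) := by
  have hs : σ * σ = 1 := by rcases hσ with h | h <;> rw [h] <;> norm_num
  have h1 := cs3 (fun i => (O x i + σ * L x i) / 2) (fun i => (O x i - σ * L x i) / 2)
    (fun i j => pd j (fun y => v y i) x)
  have h2 := cs3 (fun i => (O x i - σ * L x i) / 2) (fun i => (O x i + σ * L x i) / 2)
    (fun i j => pd j (fun y => v y i) x)
  have e : qf v O x - qf v L x
      = 2 * (∑ i, ∑ j, (fun i => (O x i + σ * L x i) / 2) i * (fun i => (O x i - σ * L x i) / 2) j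
          * (fun i j => pd j (fun y => v y i) x) i j)
        + 2 * (∑ i, ∑ j, (fun i => (O x i - σ * L x i) / 2) i
          * (fun i => (O x i + σ * L x i) / 2) j * (fun i j => pd j (fun y => v y i) x) i j) := by
    unfold qf
    rw [← Finset.sum_sub_distrib, Finset.mul_sum, Finset.mul_sum, ← Finset.sum_add_distrib]
    refine Finset.sum_congr rfl fun i _ => ?_
    rw [← Finset.sum_sub_distrib, Finset.mul_sum, Finset.mul_sum, ← Finset.sum_add_distrib]
    refine Finset.sum_congr rfl fun j _ => ?_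
    linear_combination (L x i * L x j * pd j (fun y => v y i) x) * hs
  rw [e]
  have a1 := (abs_le.1 h1).2
  have a2 := (abs_le.1 h2).2
  unfold mn
  nlinarith [a1, a2]

/-- Sobolev's inequality for sums -/
theorem sob_sum {y : ℝ} (h0 : 0 ≤ y) (h1 : y < 3 / 2) : ∃ C : ℝ, 0 ≤ C ∧
    ∀ (ι : Type) [Fintype ι] (b : ι → K3 → ℂ) (E : ℝ) (g : V → ℝ), (∀ m, Rap (b m)) →
      (∀ m, b m 0 = 0) → (∀ m, hs y (b m) ≤ E) → (∀ x, 0 ≤ g x) →
      (∀ x, g x ≤ ∑ m, |R (b m) x|) →
      eLpNorm g (ENNReal.ofReal (6 / (3 - 2 * y))) (volume.restrict cube)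
        ≤ ENNReal.ofReal (Fintype.card ι * C * Real.sqrt E) := by
  obtain ⟨C, hC0, hC⟩ := sob h0 h1
  refine ⟨C, hC0, fun ι _ b E g hb hb0 hE hg0 hg => ?_⟩
  set P : ℝ≥0∞ := ENNReal.ofReal (6 / (3 - 2 * y)) with hP
  calc eLpNorm g P (volume.restrict cube)
      ≤ eLpNorm (∑ m : ι, fun x => |R (b m) x|) P (volume.restrict cube) := by
        refine eLpNorm_mono_real fun x => ?_
        rw [Real.norm_of_nonneg (hg0 x)]
        refine (hg x).trans (le_of_eq ?_)
        rw [Finset.sum_apply]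
    _ ≤ ∑ m : ι, eLpNorm (fun x => |R (b m) x|) P (volume.restrict cube) := by
        refine eLpNorm_sum_le (fun m _ => ?_) (six_ge h0 h1)
        exact (R_sp (hb m)).cont.abs.aestronglyMeasurable
    _ ≤ ∑ m : ι, ENNReal.ofReal (C * Real.sqrt E) := by
        refine Finset.sum_le_sum fun m _ => ?_
        have e : eLpNorm (fun x => |R (b m) x|) P (volume.restrict cube)
            ≤ eLpNorm (S (b m)) P (volume.restrict cube) := by
          refine eLpNorm_mono fun x => ?_
          rw [Real.norm_of_nonneg (abs_nonneg _)]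
          exact Complex.abs_re_le_norm _
        refine e.trans ((hC (b m) (hb m) (hb0 m)).trans ?_)
        exact ENNReal.ofReal_le_ofReal (mul_le_mul_of_nonneg_left
          (Real.sqrt_le_sqrt (hE m)) hC0)
    _ = ENNReal.ofReal (Fintype.card ι * C * Real.sqrt E) := by
        rw [Finset.sum_const, Finset.card_univ, nsmul_eq_mul]
        rw [← ENNReal.ofReal_natCast, ← ENNReal.ofReal_mul (by positivity)]
        congr 1
        ring

/-- the square of the Sobolev norm in terms of coefficients -/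
noncomputable def EU (s : ℝ) (U : Fin 3 → K3 → ℂ) : ℝ := ∑ i, hs s (U i)

theorem EU_nonneg (s : ℝ) (U : Fin 3 → K3 → ℂ) : 0 ≤ EU s U :=
  Finset.sum_nonneg fun _ _ => hs_nonneg _ _

theorem hs_le_EU (s : ℝ) (U : Fin 3 → K3 → ℂ) (i : Fin 3) : hs s (U i) ≤ EU s U :=
  Finset.single_le_sum (f := fun i => hs s (U i)) (fun _ _ => hs_nonneg _ _) (Finset.mem_univ i)

theorem hs_La {y : ℝ} (h0 : 0 ≤ y) (a : K3 → ℂ) : hs y (La a) = hs (1 + y) a := by
  unfold hs
  refine tsum_congr fun k => ?_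
  unfold La
  rw [norm_mul, Complex.norm_real, Real.norm_of_nonneg (lam_nonneg k), mul_pow, sq (lam k),
    lam_sq, ← mul_assoc, wt_mul_q2 h0, add_comm]

/-- Hölder's inequality, including `p = ∞` -/
theorem holder_P {P : ℝ≥0∞} {y : ℝ} (hy : 3 * (P⁻¹).toReal = 2 * y) (hP0 : P ≠ 0)
    (hy1 : y < 3 / 2) {f g k : V → ℝ} (hf : Continuous f) (hg : Continuous g)
    (hk : Continuous k) : ∫⁻ x in cube, ‖f x * (g x * k x)‖ₑ
      ≤ eLpNorm f P (volume.restrict cube)
        * (eLpNorm g (ENNReal.ofReal (6 / (3 - 2 * y))) (volume.restrict cube)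
          * eLpNorm k (ENNReal.ofReal (6 / (3 - 2 * y))) (volume.restrict cube)) := by
  rcases eq_or_ne P ∞ with hP' | hP'
  · subst hP'
    have hy0 : y = 0 := by
      simp only [ENNReal.inv_top, ENNReal.toReal_zero, mul_zero] at hy
      linarith
    subst hy0
    have e1 : ENNReal.ofReal (6 / (3 - 2 * 0)) = 2 := by norm_num
    rw [e1]
    refine le_trans (le_of_eq ?_) (holder_top hf hg hk)
    refine lintegral_congr fun x => ?_
    rw [enorm_mul, enorm_mul]
  · have hp0 : 0 < P.toReal := ENNReal.toReal_pos hP0 hP'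
    have e : P = ENNReal.ofReal P.toReal := (ENNReal.ofReal_toReal hP').symm
    have hr : 0 < 6 / (3 - 2 * y) := div_pos (by norm_num) (by linarith)
    rw [e]
    refine holder3 hp0 hr hr ?_ hf.aestronglyMeasurable hg.aestronglyMeasurable
      hk.aestronglyMeasurable
    rw [ENNReal.toReal_inv] at hy
    rw [one_div_div, one_div]
    linarith

/-- Hölder's inequality, including `p = ∞`, for measurable functions -/
theorem holder_P2 {P : ℝ≥0∞} {y : ℝ} (hy : 3 * (P⁻¹).toReal = 2 * y) (hP0 : P ≠ 0)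
    (hy1 : y < 3 / 2) {f g k : V → ℝ} (hf : AEStronglyMeasurable f (volume.restrict cube))
    (hg : Continuous g) (hk : Continuous k) : ∫⁻ x in cube, ‖f x * (g x * k x)‖ₑ
      ≤ eLpNorm f P (volume.restrict cube)
        * (eLpNorm g (ENNReal.ofReal (6 / (3 - 2 * y))) (volume.restrict cube)
          * eLpNorm k (ENNReal.ofReal (6 / (3 - 2 * y))) (volume.restrict cube)) := by
  rcases eq_or_ne P ∞ with hP' | hP'
  · subst hP'
    have hy0 : y = 0 := by
      simp only [ENNReal.inv_top, ENNReal.toReal_zero, mul_zero] at hy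
      linarith
    subst hy0
    have e1 : ENNReal.ofReal (6 / (3 - 2 * 0)) = 2 := by norm_num
    rw [e1]
    have i1 : (2 : ℝ≥0∞).HolderTriple 2 1 := ⟨by
      rw [inv_one]
      exact ENNReal.inv_two_add_inv_two⟩
    have h1 := eLpNorm_smul_le_mul_eLpNorm (p := 2) (q := 2) (r := 1)
      (hk.aestronglyMeasurable (μ := volume.restrict cube)) (hg.aestronglyMeasurable)
    have i2 : (∞ : ℝ≥0∞).HolderTriple 1 1 := ⟨by simp⟩
    have h2 := eLpNorm_smul_le_mul_eLpNorm (p := ∞) (q := 1) (r := 1)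
      ((hg.smul hk).aestronglyMeasurable (μ := volume.restrict cube)) hf
    have e : ∫⁻ x in cube, ‖f x * (g x * k x)‖ₑ
        = eLpNorm (f • (g • k)) 1 (volume.restrict cube) := by
      rw [eLpNorm_one_eq_lintegral_enorm]
      rfl
    rw [e]
    exact h2.trans (mul_le_mul_right h1 _)
  · have hp0 : 0 < P.toReal := ENNReal.toReal_pos hP0 hP'
    have e : P = ENNReal.ofReal P.toReal := (ENNReal.ofReal_toReal hP').symm
    have hr : 0 < 6 / (3 - 2 * y) := div_pos (by norm_num) (by linarith)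
    rw [e]
    refine holder3 hp0 hr hr ?_ hf hg.aestronglyMeasurable hk.aestronglyMeasurable
    rw [ENNReal.toReal_inv] at hy
    rw [one_div_div, one_div]
    linarith

/-- **the bound at a fixed height** -/
theorem fixed_bound {P : ℝ≥0∞} {y : ℝ} (hy : 3 * (P⁻¹).toReal = 2 * y) (hP0 : P ≠ 0)
    (hy0 : 0 ≤ y) (hy1 : y ≤ 1) : ∃ K : ℝ, 0 ≤ K ∧
    ∀ (U : Fin 3 → K3 → ℂ) (σ B : ℝ), (∀ i, Rap (U i)) → (σ = 1 ∨ σ = -1) → 0 ≤ B →
      eLpNorm (fun x => len (fun i => (Vf (cu U) x i + σ * Vf (LaV U) x i) / 2)) P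
        (volume.restrict cube) ≤ ENNReal.ofReal B →
      Qf (Vf U) (Vf (cu U)) - Qf (Vf U) (Vf (LaV U)) ≤ K * B * EU (1 + y) U := by
  obtain ⟨C, hC0, hC⟩ := sob_sum hy0 (by linarith : y < 3 / 2)
  refine ⟨4 * ((9 + 3) * C * (9 * C)), by positivity, fun U σ B hU hσ hB hX => ?_⟩
  set v := Vf U with hv
  set O := Vf (cu U) with hO
  set L := Vf (LaV U) with hL
  have hvs : SPV v := Vf_spv hU
  have hOs : SPV O := Vf_spv (rap_cu hU)
  have hLs : SPV L := Vf_spv (rap_LaV hU)
  have hOc : ∀ i, Continuous fun x => O x i := fun i => (hOs.sp i).cont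
  have hLc : ∀ i, Continuous fun x => L x i := fun i => (hLs.sp i).cont
  have hXc : Continuous fun x => len (fun i => (O x i + σ * L x i) / 2) := by
    unfold len
    exact (continuous_finsetSum _ fun i _ =>
      ((((hOc i).add ((hLc i).const_mul σ)).div_const 2).pow 2)).sqrt
  have hYc : Continuous fun x => len (fun i => (O x i - σ * L x i) / 2) := by
    unfold len
    exact (continuous_finsetSum _ fun i _ =>
      ((((hOc i).sub ((hLc i).const_mul σ)).div_const 2).pow 2)).sqrt
  have hMc : Continuous (mn v) := by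
    unfold mn
    exact (continuous_finsetSum _ fun i _ => continuous_finsetSum _ fun j _ =>
      (((hvs.sp i).pd j).cont).pow 2).sqrt
  have hpd : ∀ i j x, pd j (fun y => v y i) x = R (D j (U i)) x := fun i j x => pd_R (hU i) j x
  have hE0 := EU_nonneg (1 + y) U
  have hDE : ∀ i j, hs y (D j (U i)) ≤ EU (1 + y) U := by
    intro i j
    have h1 := hs_D (x := 1 + y) (by linarith) (by linarith) (hU i) j
    rw [add_sub_cancel_left] at h1
    exact h1.trans (hs_le_EU _ _ _)
  have hLE : ∀ i, hs y (La (U i)) ≤ EU (1 + y) U := by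
    intro i
    rw [hs_La hy0]
    exact hs_le_EU _ _ _
  have hD0 : ∀ i j, D j (U i) 0 = 0 := fun i j => by simp [D]
  have hL0 : ∀ i, La (U i) 0 = 0 := fun i => by simp [La, lam_zero]
  -- the norm of the gradient
  have hMn := hC (Fin 3 × Fin 3) (fun p => D p.2 (U p.1)) (EU (1 + y) U) (mn v)
    (fun p => (hU p.1).D p.2) (fun p => hD0 _ _) (fun p => hDE _ _)
    (fun x => Real.sqrt_nonneg _) (fun x => by
      unfold mn
      rw [Real.sqrt_le_left (Finset.sum_nonneg fun _ _ => abs_nonneg _)]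
      have e : ∑ i, ∑ j, pd j (fun y => v y i) x ^ 2
          = ∑ p : Fin 3 × Fin 3, |R (D p.2 (U p.1)) x| ^ 2 := by
        rw [Fintype.sum_prod_type]
        refine Finset.sum_congr rfl fun i _ => Finset.sum_congr rfl fun j _ => ?_
        rw [hpd, sq_abs]
      rw [e]
      exact sum_sq_le _ fun p => abs_nonneg _)
  -- the norm of the other helical part
  have hYn := hC ((Fin 3 × Fin 3) ⊕ Fin 3)
    (Sum.elim (fun p => D p.2 (U p.1)) (fun i => La (U i))) (EU (1 + y) U)
    (fun x => len (fun i => (O x i - σ * L x i) / 2))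
    (fun m => by
      rcases m with p | i
      · exact (hU p.1).D p.2
      · exact rap_La (hU i))
    (fun m => by
      rcases m with p | i
      · exact hD0 _ _
      · exact hL0 _)
    (fun m => by
      rcases m with p | i
      · exact hDE _ _
      · exact hLE _)
    (fun x => len_nonneg _) (fun x => by
      rw [Fintype.sum_sum_type, Fintype.sum_prod_type]
      simp only [Sum.elim_inl, Sum.elim_inr]
      refine (len_le _).trans ?_
      have hσ1 : |σ| = 1 := by rcases hσ with h | h <;> rw [h] <;> norm_num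
      have hL1 : ∀ i, |σ * L x i| = |R (La (U i)) x| := by
        intro i
        rw [abs_mul, hσ1, one_mul]
        rfl
      have hh : ∀ i, |(O x i - σ * L x i) / 2| ≤ |O x i| + |R (La (U i)) x| := by
        intro i
        rw [abs_div, abs_two]
        have h1 := abs_sub (O x i) (σ * L x i)
        rw [hL1] at h1
        have := abs_nonneg (O x i - σ * L x i)
        linarith
      have hO0 : |O x 0| ≤ |R (D 1 (U 2)) x| + |R (D 2 (U 1)) x| := by
        have : O x 0 = R (D 1 (U 2)) x - R (D 2 (U 1)) x := R_sub ((hU 2).D 1) ((hU 1).D 2) x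
        rw [this]; exact abs_sub _ _
      have hO1 : |O x 1| ≤ |R (D 2 (U 0)) x| + |R (D 0 (U 2)) x| := by
        have : O x 1 = R (D 2 (U 0)) x - R (D 0 (U 2)) x := R_sub ((hU 0).D 2) ((hU 2).D 0) x
        rw [this]; exact abs_sub _ _
      have hO2 : |O x 2| ≤ |R (D 0 (U 1)) x| + |R (D 1 (U 0)) x| := by
        have : O x 2 = R (D 0 (U 1)) x - R (D 1 (U 0)) x := R_sub ((hU 1).D 0) ((hU 0).D 1) x
        rw [this]; exact abs_sub _ _
      have s1 := Finset.sum_le_sum fun i (_ : i ∈ (Finset.univ : Finset (Fin 3))) => hh i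
      refine s1.trans ?_
      rw [Finset.sum_add_distrib]
      refine add_le_add ?_ le_rfl
      simp only [Fin.sum_univ_three]
      have n0 := abs_nonneg (R (D 0 (U 0)) x)
      have n1 := abs_nonneg (R (D 1 (U 1)) x)
      have n2 := abs_nonneg (R (D 2 (U 2)) x)
      linarith)
  have hc1 : ((Fintype.card (Fin 3 × Fin 3) : ℕ) : ℝ) = 9 := by
    rw [Fintype.card_prod, Fintype.card_fin]
    norm_num
  have hc2 : ((Fintype.card ((Fin 3 × Fin 3) ⊕ Fin 3) : ℕ) : ℝ) = 9 + 3 := by
    rw [Fintype.card_sum, Fintype.card_prod, Fintype.card_fin]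
    norm_num
  rw [hc1] at hMn
  rw [hc2] at hYn
  set g : V → ℝ := fun x => len (fun i => (O x i + σ * L x i) / 2)
      * (len (fun i => (O x i - σ * L x i) / 2) * mn v x) with hg
  have hgc : Continuous g := hXc.mul (hYc.mul hMc)
  have hg0 : ∀ x, 0 ≤ g x := fun x =>
    mul_nonneg (len_nonneg _) (mul_nonneg (len_nonneg _) (Real.sqrt_nonneg _))
  have hsq := Real.sqrt_nonneg (EU (1 + y) U)
  have h1 : ∫⁻ x in cube, ‖g x‖ₑ ≤ ENNReal.ofReal (B * (((9 + 3) * C * Real.sqrt (EU (1 + y) U))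
      * (9 * C * Real.sqrt (EU (1 + y) U)))) := by
    refine (holder_P hy hP0 (by linarith) hXc hYc hMc).trans ?_
    rw [ENNReal.ofReal_mul hB, ENNReal.ofReal_mul (by positivity)]
    gcongr
  have h2 : ∫ x in cube, g x ≤ B * (((9 + 3) * C * Real.sqrt (EU (1 + y) U))
      * (9 * C * Real.sqrt (EU (1 + y) U))) := by
    rw [integral_eq_lintegral_of_nonneg_ae (Eventually.of_forall hg0)
      hgc.aestronglyMeasurable]
    refine ENNReal.toReal_le_of_le_ofReal (by positivity) ?_
    refine le_trans (le_of_eq ?_) h1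
    exact lintegral_congr fun x => (Real.enorm_eq_ofReal (hg0 x)).symm
  have h3 : Qf v O - Qf v L ≤ 4 * ∫ x in cube, g x := by
    unfold Qf
    rw [← integral_sub (integrableOn_cube (qf_cont hvs hOs.1.continuous))
      (integrableOn_cube (qf_cont hvs hLs.1.continuous)), ← integral_const_mul]
    refine integral_mono ?_ ?_ fun x => qf_split hσ x
    · exact (integrableOn_cube (qf_cont hvs hOs.1.continuous)).sub
        (integrableOn_cube (qf_cont hvs hLs.1.continuous))
    · exact integrableOn_cube (hgc.const_mul 4)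
  have h4 : Real.sqrt (EU (1 + y) U) * Real.sqrt (EU (1 + y) U) = EU (1 + y) U :=
    Real.mul_self_sqrt hE0
  calc Qf v O - Qf v L ≤ 4 * (B * (((9 + 3) * C * Real.sqrt (EU (1 + y) U))
      * (9 * C * Real.sqrt (EU (1 + y) U)))) := by linarith
    _ = 4 * ((9 + 3) * C * (9 * C)) * B
        * (Real.sqrt (EU (1 + y) U) * Real.sqrt (EU (1 + y) U)) := by ring
    _ = _ := by rw [h4]

end Pool.Agent.U172.NS
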