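import Pool.Agent.U172.NS.HelMain

/-!
One-sided criterion in the half space.
-/

open MeasureTheory Set Filter Topology
open scoped ENNReal ComplexConjugate ContDiff

set_option autoImplicit false

namespace Pool.Agent.U172.NS

open H459R3.NS

theorem R_sq_int {a : K3 → ℂ} (ha : Rap a) (hh : Hm a) : ∫ x in cube, R a x ^ 2 = hs 0 a := by
  have h := integral_norm_sq ha.summable
  have e : ∀ x, ‖S a x‖ ^ 2 = R a x ^ 2 := by
    intro x
    rw [S_real hh, Complex.norm_real, Real.norm_eq_abs, sq_abs]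
  simp_rw [e] at h
  rw [h, n2_sq]
  unfold hs
  refine tsum_congr fun k => ?_
  rw [wt_zero_left, one_mul]

theorem Vf_sq_int {A : Fin 3 → K3 → ℂ} (hA : ∀ i, Rap (A i)) (hA' : ∀ i, Hm (A i)) :
    ∫ x in cube, len (Vf A x) ^ 2 = EU 0 A := by
  simp_rw [len_sq]
  unfold Vf EU
  rw [integral_finsetSum]
  · exact Finset.sum_congr rfl fun i _ => R_sq_int (hA i) (hA' i)
  · intro i _
    exact integrableOn_cube ((R_sp (hA i)).cont.pow 2)

theorem EU_LaV {s : ℝ} (hs : 0 ≤ s) (A : Fin 3 → K3 → ℂ) : EU s (LaV A) = EU (1 + s) A :=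
  Finset.sum_congr rfl fun i _ => hs_La hs (A i)

/-- **the bound at a fixed height**, one-sided form -/
theorem fixed_bound2 {P : ℝ≥0∞} {y : ℝ} (hy : 3 * (P⁻¹).toReal = 2 * y) (hP0 : P ≠ 0)
    (hy0 : 0 ≤ y) (hy1 : y ≤ 1) : ∃ K : ℝ, 0 ≤ K ∧
    ∀ (U : Fin 3 → K3 → ℂ) (B κν : ℝ) (f : V → ℝ), (∀ i, Rap (U i)) → (∀ i, Hm (U i)) → 0 ≤ B →
      AEStronglyMeasurable f (volume.restrict cube) →
      eLpNorm f P (volume.restrict cube) ≤ ENNReal.ofReal B →
      (∀ᵐ x ∂(volume.restrict cube), 2 * (qf (Vf U) (Vf (cu U)) x - qf (Vf U) (Vf (LaV U)) x)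
        ≤ f x * (mn (Vf U) x ^ 2 + len (Vf (LaV U) x) ^ 2)
          + 4 * κν * len (Vf (LaV (LaV U)) x) ^ 2) →
      2 * (Qf (Vf U) (Vf (cu U)) - Qf (Vf U) (Vf (LaV U)))
        ≤ K * B * EU (1 + y) U + 4 * κν * EU 2 U := by
  obtain ⟨C, hC0, hC⟩ := sob_sum hy0 (by linarith : y < 3 / 2)
  refine ⟨(9 * C) ^ 2 + (3 * C) ^ 2, by positivity, fun U B κν f hU hU' hB hfm hf hcond => ?_⟩
  set v := Vf U with hv
  set O := Vf (cu U) with hO
  set L := Vf (LaV U) with hL
  set W := Vf (LaV (LaV U)) with hW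
  have hvs : SPV v := Vf_spv hU
  have hOs : SPV O := Vf_spv (rap_cu hU)
  have hLs : SPV L := Vf_spv (rap_LaV hU)
  have hWs : SPV W := Vf_spv (rap_LaV (rap_LaV hU))
  have hMc : Continuous (mn v) := by
    unfold mn
    exact (continuous_finsetSum _ fun i _ => continuous_finsetSum _ fun j _ =>
      (((hvs.sp i).pd j).cont).pow 2).sqrt
  have hLc : Continuous fun x => len (L x) := cont_len hLs.1.continuous
  have hWc : Continuous fun x => len (W x) := cont_len hWs.1.continuous
  have hpd : ∀ i j x, pd j (fun y => v y i) x = R (D j (U i)) x := fun i j x => pd_R (hU i) j x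
  have hE0 := EU_nonneg (1 + y) U
  have hDE : ∀ i j, hs y (D j (U i)) ≤ EU (1 + y) U := by
    intro i j
    have h1 := hs_D (x := 1 + y) (by linarith) (by linarith) (hU i) j
    rw [add_sub_cancel_left] at h1
    exact h1.trans (hs_le_EU _ _ _)
  have hLE : ∀ i, hs y (La (U i)) ≤ EU (1 + y) U := by
    intro i
    rw [hs_La hy0]
    exact hs_le_EU _ _ _
  have hD0 : ∀ i j, D j (U i) 0 = 0 := fun i j => by simp [D]
  have hL0 : ∀ i, La (U i) 0 = 0 := fun i => by simp [La, lam_zero]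
  have hMn := hC (Fin 3 × Fin 3) (fun p => D p.2 (U p.1)) (EU (1 + y) U) (mn v)
    (fun p => (hU p.1).D p.2) (fun p => hD0 _ _) (fun p => hDE _ _)
    (fun x => Real.sqrt_nonneg _) (fun x => by
      unfold mn
      rw [Real.sqrt_le_left (Finset.sum_nonneg fun _ _ => abs_nonneg _)]
      have e : ∑ i, ∑ j, pd j (fun y => v y i) x ^ 2
          = ∑ p : Fin 3 × Fin 3, |R (D p.2 (U p.1)) x| ^ 2 := by
        rw [Fintype.sum_prod_type]
        refine Finset.sum_congr rfl fun i _ => Finset.sum_congr rfl fun j _ => ?_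
        rw [hpd, sq_abs]
      rw [e]
      exact sum_sq_le _ fun p => abs_nonneg _)
  have hLn := hC (Fin 3) (fun i => La (U i)) (EU (1 + y) U) (fun x => len (L x))
    (fun i => rap_La (hU i)) hL0 hLE (fun x => len_nonneg _) (fun x => len_le _)
  have hc1 : ((Fintype.card (Fin 3 × Fin 3) : ℕ) : ℝ) = 9 := by
    rw [Fintype.card_prod, Fintype.card_fin]
    norm_num
  have hc2 : ((Fintype.card (Fin 3) : ℕ) : ℝ) = 3 := by
    rw [Fintype.card_fin]
    norm_num
  rw [hc1] at hMn
  rw [hc2] at hLn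
  have hsq := Real.sqrt_nonneg (EU (1 + y) U)
  have hint : ∀ g : V → ℝ, ∀ c : ℝ, 0 ≤ c → Continuous g → (∀ x, 0 ≤ g x) →
      eLpNorm g (ENNReal.ofReal (6 / (3 - 2 * y))) (volume.restrict cube)
        ≤ ENNReal.ofReal (c * Real.sqrt (EU (1 + y) U)) →
      Integrable (fun x => f x * (g x * g x)) (volume.restrict cube) ∧
      ∫ x in cube, f x * (g x * g x) ≤ c ^ 2 * B * EU (1 + y) U := by
    intro g c hc0 hgc hg0 hgn
    have hbd : ∫⁻ x in cube, ‖f x * (g x * g x)‖ₑ
        ≤ ENNReal.ofReal (B * ((c * Real.sqrt (EU (1 + y) U))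
          * (c * Real.sqrt (EU (1 + y) U)))) := by
      have h1 : ∫⁻ x in cube, ‖f x * (g x * g x)‖ₑ ≤ eLpNorm f P (volume.restrict cube)
          * (eLpNorm g (ENNReal.ofReal (6 / (3 - 2 * y))) (volume.restrict cube)
            * eLpNorm g (ENNReal.ofReal (6 / (3 - 2 * y))) (volume.restrict cube)) :=
        holder_P2 hy hP0 (by linarith) hfm hgc hgc
      refine h1.trans ?_
      rw [ENNReal.ofReal_mul hB, ENNReal.ofReal_mul (mul_nonneg hc0 hsq)]
      gcongr
    have hI : Integrable (fun x => f x * (g x * g x)) (volume.restrict cube) :=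
      ⟨hfm.mul (hgc.mul hgc).aestronglyMeasurable, lt_of_le_of_lt hbd ENNReal.ofReal_lt_top⟩
    refine ⟨hI, ?_⟩
    have h2 : ∫ x in cube, f x * (g x * g x)
        ≤ (∫⁻ x in cube, ‖f x * (g x * g x)‖ₑ).toReal := by
      refine (le_abs_self _).trans ?_
      rw [← Real.norm_eq_abs]
      refine (norm_integral_le_lintegral_norm _).trans (le_of_eq ?_)
      simp_rw [ofReal_norm]
    have h3 := ENNReal.toReal_le_of_le_ofReal (by positivity) hbd
    have h4 : Real.sqrt (EU (1 + y) U) * Real.sqrt (EU (1 + y) U) = EU (1 + y) U :=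
      Real.mul_self_sqrt hE0
    calc ∫ x in cube, f x * (g x * g x) ≤ B * ((c * Real.sqrt (EU (1 + y) U))
          * (c * Real.sqrt (EU (1 + y) U))) := h2.trans h3
      _ = c ^ 2 * B * (Real.sqrt (EU (1 + y) U) * Real.sqrt (EU (1 + y) U)) := by ring
      _ = _ := by rw [h4]
  obtain ⟨i1, b1⟩ := hint (mn v) (9 * C) (by positivity) hMc (fun x => Real.sqrt_nonneg _) hMn
  obtain ⟨i2, b2⟩ := hint (fun x => len (L x)) (3 * C) (by positivity) hLc
    (fun x => len_nonneg _) hLn
  have i3 : Integrable (fun x => 4 * κν * len (W x) ^ 2) (volume.restrict cube) :=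
    integrableOn_cube ((hWc.pow 2).const_mul _)
  have i0 : Integrable (fun x => 2 * (qf v O x - qf v L x)) (volume.restrict cube) :=
    ((integrableOn_cube (qf_cont hvs hOs.1.continuous)).sub
      (integrableOn_cube (qf_cont hvs hLs.1.continuous))).const_mul 2
  have i12 : Integrable (fun x => f x * (mn v x * mn v x) + f x * (len (L x) * len (L x)))
      (volume.restrict cube) := i1.add i2
  have i123 : Integrable (fun x => f x * (mn v x * mn v x) + f x * (len (L x) * len (L x))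
      + 4 * κν * len (W x) ^ 2) (volume.restrict cube) := i12.add i3
  have h5 : ∫ x in cube, 2 * (qf v O x - qf v L x)
      ≤ ∫ x in cube, (f x * (mn v x * mn v x) + f x * (len (L x) * len (L x))
        + 4 * κν * len (W x) ^ 2) := by
    refine integral_mono_ae i0 i123 ?_
    filter_upwards [hcond] with x hx
    refine hx.trans (le_of_eq ?_)
    ring
  rw [integral_const_mul, integral_sub (integrableOn_cube (qf_cont hvs hOs.1.continuous))
      (integrableOn_cube (qf_cont hvs hLs.1.continuous)), integral_add i12 i3, integral_add i1 i2,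
    integral_const_mul, hW, Vf_sq_int (rap_LaV (rap_LaV hU)) (hm_LaV (hm_LaV hU')),
    EU_LaV le_rfl, EU_LaV (by norm_num)] at h5
  rw [show (1 : ℝ) + (1 + 0) = 2 by norm_num] at h5
  unfold Qf
  linarith

end Pool.Agent.U172.NS
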