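import Pool.Agent.U172.NS.Def

/-!
Estimates of the nonlinear term.
-/

open MeasureTheory Set Filter Topology
open scoped ENNReal ComplexConjugate ContDiff

set_option autoImplicit false

namespace Pool.Agent.U172.NS

open H459R3.NS

theorem fr_const (c : ℝ) {k : K3} (hk : k ≠ 0) : fr (fun _ => c) k = 0 := by
  unfold fr fc
  rw [integral_mul_const, integral_ee, if_neg (by simpa using hk), zero_mul]

theorem fr_at_zero (f : V → ℝ) : fr f 0 = ((∫ x in cube, f x : ℝ) : ℂ) := by
  unfold fr fc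
  rw [← integral_complex_ofReal]
  congr 1
  funext x
  simp [ee_zero]

theorem fr_sub {f g : V → ℝ} (hf : Continuous f) (hg : Continuous g) (k : K3) :
    fr (fun x => f x - g x) k = fr f k - fr g k := by
  unfold fr fc
  have i1 : IntegrableOn (fun x => ee (-k) x * (f x : ℂ)) cube :=
    integrableOn_cube ((ee_continuous _).mul (Complex.continuous_ofReal.comp hf))
  have i2 : IntegrableOn (fun x => ee (-k) x * (g x : ℂ)) cube :=
    integrableOn_cube ((ee_continuous _).mul (Complex.continuous_ofReal.comp hg))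
  rw [← integral_sub i1 i2]
  congr 1
  funext x
  push_cast
  ring

theorem fr_fluct {v : V → V} (hv : SPV v) (i : Fin 3) (k : K3) :
    fr (fun y => fluct v y i) k = if k = 0 then 0 else fr (fun y => v y i) k := by
  have h := fr_sub (hv.sp i).cont (continuous_const (y := ∫ y in cube, v y i)) k
  have e : (fun y => fluct v y i) = fun y => v y i - ∫ y in cube, v y i := rfl
  rw [e, h]
  split_ifs with hk
  · rw [hk, fr_at_zero, fr_at_zero, setIntegral_const]
    simp [Measure.real, volume_cube]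
  · rw [fr_const _ hk, sub_zero]

theorem hs_fluct {v : V → V} (hv : SPV v) (i : Fin 3) {σ : ℝ} (hσ : σ ≠ 0) :
    hs σ (fr fun y => fluct v y i) = hs σ (fr fun y => v y i) := by
  unfold hs
  refine tsum_congr fun k => ?_
  rw [fr_fluct hv]
  split_ifs with hk
  · rw [hk, wt_zero hσ, zero_mul, zero_mul]
  · rfl

theorem hs_le_Es (σ : ℝ) (v : V → V) (i : Fin 3) : hs σ (fr fun y => v y i) ≤ Es σ v :=
  Finset.single_le_sum (f := fun i => hs σ (fr fun y => v y i)) (fun _ _ => hs_nonneg _ _)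
    (Finset.mem_univ i)

/-- the Sobolev inequality for smooth functions with mean value zero -/
theorem eLp_of_sob {σ C : ℝ} (hC : ∀ a : K3 → ℂ, Rap a → a 0 = 0 →
      eLpNorm (S a) (ENNReal.ofReal (6 / (3 - 2 * σ))) (volume.restrict cube)
      ≤ ENNReal.ofReal (C * Real.sqrt (hs σ a))) {f : V → ℝ} (hf : SP f) (h0 : fr f 0 = 0) :
    eLpNorm f (ENNReal.ofReal (6 / (3 - 2 * σ))) (volume.restrict cube)
      ≤ ENNReal.ofReal (C * Real.sqrt (hs σ (fr f))) := by
  refine le_trans (le_of_eq ?_) (hC (fr f) (rap_fr hf) h0)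
  have e : S (fr f) = fun x => (f x : ℂ) := funext fun x => S_fr hf x
  rw [e]
  refine eLpNorm_congr_norm_ae (Eventually.of_forall fun x => ?_)
  rw [Complex.norm_real]

theorem six_ge {σ : ℝ} (h0 : 0 ≤ σ) (h1 : σ < 3 / 2) :
    (1 : ℝ≥0∞) ≤ ENNReal.ofReal (6 / (3 - 2 * σ)) := by
  rw [ENNReal.one_le_ofReal, le_div_iff₀ (by linarith)]
  linarith

/-- velocity -/
theorem norm_vel {y : ℝ} (h0 : 0 < y) (h1 : y < 3 / 2) : ∃ C : ℝ, 0 ≤ C ∧ ∀ v : V → V, SPV v →
    eLpNorm (fun x => len (fluct v x)) (ENNReal.ofReal (6 / (3 - 2 * y))) (volume.restrict cube)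
      ≤ ENNReal.ofReal (C * Real.sqrt (Es y v)) := by
  obtain ⟨C, hC0, hC⟩ := sob h0.le h1
  refine ⟨3 * C, by positivity, fun v hv => ?_⟩
  have hsp := fluct_sp hv
  calc eLpNorm (fun x => len (fluct v x)) (ENNReal.ofReal (6 / (3 - 2 * y)))
        (volume.restrict cube)
      ≤ eLpNorm (∑ i : Fin 3, fun x => |fluct v x i|) (ENNReal.ofReal (6 / (3 - 2 * y)))
        (volume.restrict cube) := by
        refine eLpNorm_mono_real fun x => ?_
        rw [Real.norm_of_nonneg (len_nonneg _)]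
        refine (len_le _).trans (le_of_eq ?_)
        rw [Finset.sum_apply]
    _ ≤ ∑ i : Fin 3, eLpNorm (fun x => |fluct v x i|) (ENNReal.ofReal (6 / (3 - 2 * y)))
        (volume.restrict cube) := by
        refine eLpNorm_sum_le (fun i _ => ?_) (six_ge h0.le h1)
        exact (hsp i).cont.abs.aestronglyMeasurable
    _ ≤ ∑ i : Fin 3, ENNReal.ofReal (C * Real.sqrt (Es y v)) := by
        refine Finset.sum_le_sum fun i _ => ?_
        have e : eLpNorm (fun x => |fluct v x i|) (ENNReal.ofReal (6 / (3 - 2 * y)))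
            (volume.restrict cube) = eLpNorm (fun x => fluct v x i)
            (ENNReal.ofReal (6 / (3 - 2 * y))) (volume.restrict cube) :=
          eLpNorm_congr_norm_ae (Eventually.of_forall fun x => by simp)
        rw [e]
        refine (eLp_of_sob hC (hsp i) (by rw [fr_fluct hv, if_pos rfl])).trans ?_
        rw [hs_fluct hv i h0.ne']
        exact ENNReal.ofReal_le_ofReal (mul_le_mul_of_nonneg_left
          (Real.sqrt_le_sqrt (hs_le_Es y v i)) hC0)
    _ = ENNReal.ofReal (3 * C * Real.sqrt (Es y v)) := by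
        rw [Finset.sum_const, Finset.card_univ, Fintype.card_fin, nsmul_eq_mul]
        rw [show ((3 : ℕ) : ℝ≥0∞) = ENNReal.ofReal 3 by norm_num, ← ENNReal.ofReal_mul (by norm_num)]
        congr 1
        ring

theorem hs_D {x : ℝ} (h0 : 1 ≤ x) (h2 : x ≤ 2) {a : K3 → ℂ} (ha : Rap a) (j : Fin 3) :
    hs (x - 1) (D j a) ≤ hs x a := by
  have h1 : ∀ k, wt (x - 1) k * ‖D j a k‖ ^ 2 ≤ wt x k * ‖a k‖ ^ 2 := by
    intro k
    have e : ‖D j a k‖ ^ 2 ≤ q2 k * ‖a k‖ ^ 2 := by
      unfold D q2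
      rw [norm_mul, norm_mul, norm_mul, norm_mul, Complex.norm_I, mul_one, Complex.norm_real,
        Real.norm_eq_abs, abs_of_pos Real.pi_pos, Complex.norm_ofNat, Complex.norm_intCast,
        mul_pow, mul_pow, sq_abs]
      refine mul_le_mul_of_nonneg_right ?_ (sq_nonneg _)
      refine mul_le_mul_of_nonneg_left ?_ (sq_nonneg _)
      exact Finset.single_le_sum (f := fun j => (k j : ℝ) ^ 2) (fun _ _ => sq_nonneg _)
        (Finset.mem_univ j)
    calc wt (x - 1) k * ‖D j a k‖ ^ 2 ≤ wt (x - 1) k * (q2 k * ‖a k‖ ^ 2) :=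
          mul_le_mul_of_nonneg_left e (wt_nonneg _ _)
      _ = wt x k * ‖a k‖ ^ 2 := by
        rw [← mul_assoc, wt_mul_q2 (by linarith), sub_add_cancel]
  exact (summable_hs (by linarith) (ha.D j)).tsum_le_tsum h1 (summable_hs h2 ha)

/-- vorticity -/
theorem norm_curl {x : ℝ} (h0 : 1 ≤ x) (h2 : x ≤ 2) : ∃ C : ℝ, 0 ≤ C ∧ ∀ v : V → V, SPV v →
    eLpNorm (fun y => len (curl v y)) (ENNReal.ofReal (6 / (3 - 2 * (x - 1))))
      (volume.restrict cube) ≤ ENNReal.ofReal (C * Real.sqrt (Es x v)) := by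
  obtain ⟨C, hC0, hC⟩ := sob (σ := x - 1) (by linarith) (by linarith)
  refine ⟨9 * C, by positivity, fun v hv => ?_⟩
  set P : ℝ≥0∞ := ENNReal.ofReal (6 / (3 - 2 * (x - 1))) with hP
  have hsp := hv.sp
  have hpt : ∀ y, len (curl v y) ≤ ∑ p : Fin 3 × Fin 3, |pd p.1 (fun y => v y p.2) y| := by
    intro y
    refine (len_le _).trans ?_
    rw [Fintype.sum_prod_type]
    simp only [Fin.sum_univ_three]
    have e0 : |curl v y 0| ≤ |pd 1 (fun y => v y 2) y| + |pd 2 (fun y => v y 1) y| :=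
      abs_sub _ _
    have e1 : |curl v y 1| ≤ |pd 2 (fun y => v y 0) y| + |pd 0 (fun y => v y 2) y| :=
      abs_sub _ _
    have e2 : |curl v y 2| ≤ |pd 0 (fun y => v y 1) y| + |pd 1 (fun y => v y 0) y| :=
      abs_sub _ _
    have h0 := abs_nonneg (pd 0 (fun y => v y 0) y)
    have h1 := abs_nonneg (pd 1 (fun y => v y 1) y)
    have h2 := abs_nonneg (pd 2 (fun y => v y 2) y)
    linarith
  calc eLpNorm (fun y => len (curl v y)) P (volume.restrict cube)
      ≤ eLpNorm (∑ p : Fin 3 × Fin 3, fun y => |pd p.1 (fun y => v y p.2) y|) P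
        (volume.restrict cube) := by
        refine eLpNorm_mono_real fun y => ?_
        rw [Real.norm_of_nonneg (len_nonneg _)]
        refine (hpt y).trans (le_of_eq ?_)
        rw [Finset.sum_apply]
    _ ≤ ∑ p : Fin 3 × Fin 3, eLpNorm (fun y => |pd p.1 (fun y => v y p.2) y|) P
        (volume.restrict cube) := by
        refine eLpNorm_sum_le (fun p _ => ?_) (six_ge (by linarith) (by linarith))
        exact ((hsp p.2).pd p.1).cont.abs.aestronglyMeasurable
    _ ≤ ∑ p : Fin 3 × Fin 3, ENNReal.ofReal (C * Real.sqrt (Es x v)) := by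
        refine Finset.sum_le_sum fun p _ => ?_
        have e : eLpNorm (fun y => |pd p.1 (fun y => v y p.2) y|) P
            (volume.restrict cube) = eLpNorm (pd p.1 (fun y => v y p.2)) P
            (volume.restrict cube) :=
          eLpNorm_congr_norm_ae (Eventually.of_forall fun x => by simp)
        rw [e]
        refine (eLp_of_sob hC ((hsp p.2).pd p.1) ?_).trans ?_
        · rw [fr_pd (hsp p.2)]
          simp [D]
        · rw [fr_pd (hsp p.2)]
          exact ENNReal.ofReal_le_ofReal (mul_le_mul_of_nonneg_left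
            (Real.sqrt_le_sqrt ((hs_D h0 h2 (rap_fr (hsp p.2)) p.1).trans (hs_le_Es x v p.2))) hC0)
    _ = ENNReal.ofReal (9 * C * Real.sqrt (Es x v)) := by
        rw [Finset.sum_const, Finset.card_univ, Fintype.card_prod, Fintype.card_fin, nsmul_eq_mul]
        rw [show ((3 * 3 : ℕ) : ℝ≥0∞) = ENNReal.ofReal 9 by norm_num,
          ← ENNReal.ofReal_mul (by norm_num)]
        congr 1
        ring

/-- Hölder's inequality for three functions -/
theorem holder3 {p a b : ℝ} (hp : 0 < p) (ha : 0 < a) (hb : 0 < b) (h : 1 / p + 1 / a + 1 / b = 1)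
    {f g k : V → ℝ} (hf : AEStronglyMeasurable f (volume.restrict cube))
    (hg : AEStronglyMeasurable g (volume.restrict cube))
    (hk : AEStronglyMeasurable k (volume.restrict cube)) :
    ∫⁻ x in cube, ‖f x * (g x * k x)‖ₑ
      ≤ eLpNorm f (ENNReal.ofReal p) (volume.restrict cube)
        * (eLpNorm g (ENNReal.ofReal a) (volume.restrict cube)
          * eLpNorm k (ENNReal.ofReal b) (volume.restrict cube)) := by
  set c : ℝ := 1 / (1 / a + 1 / b) with hc
  have hab : 0 < 1 / a + 1 / b := by positivity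
  have hc0 : 0 < c := by rw [hc]; positivity
  have i1 : (ENNReal.ofReal a).HolderTriple (ENNReal.ofReal b) (ENNReal.ofReal c) := by
    constructor
    rw [← ENNReal.ofReal_inv_of_pos ha, ← ENNReal.ofReal_inv_of_pos hb,
      ← ENNReal.ofReal_inv_of_pos hc0, ← ENNReal.ofReal_add (by positivity) (by positivity)]
    congr 1
    rw [hc]
    field_simp
  have i2 : (ENNReal.ofReal p).HolderTriple (ENNReal.ofReal c) 1 := by
    constructor
    rw [← ENNReal.ofReal_inv_of_pos hp, ← ENNReal.ofReal_inv_of_pos hc0,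
      ← ENNReal.ofReal_add (by positivity) (by positivity), inv_one]
    have : p⁻¹ + c⁻¹ = 1 := by
      rw [hc]
      rw [one_div, inv_inv]
      rw [← one_div]
      linarith
    rw [this, ENNReal.ofReal_one]
  have h1 := eLpNorm_smul_le_mul_eLpNorm (p := ENNReal.ofReal a) (q := ENNReal.ofReal b)
    (r := ENNReal.ofReal c) hk hg
  have h2 := eLpNorm_smul_le_mul_eLpNorm (p := ENNReal.ofReal p) (q := ENNReal.ofReal c)
    (r := 1) (hg.smul hk) hf
  have e : ∫⁻ x in cube, ‖f x * (g x * k x)‖ₑ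
      = eLpNorm (f • (g • k)) 1 (volume.restrict cube) := by
    rw [eLpNorm_one_eq_lintegral_enorm]
    rfl
  rw [e]
  refine h2.trans ?_
  gcongr

/-- Young's inequality -/
theorem young2 {θ ε K : ℝ} (h0 : 0 ≤ θ) (h2 : θ < 2) (hε : 0 < ε) (hK : 0 ≤ K) :
    ∃ C : ℝ, 0 ≤ C ∧ ∀ β E D : ℝ, 0 ≤ β → 0 ≤ E → 0 ≤ D →
      K * β * (E ^ ((2 - θ) / 2) * D ^ (θ / 2)) ≤ ε * D + C * β ^ (2 / (2 - θ)) * E := by
  rcases eq_or_lt_of_le h0 with h | h
  · subst h
    refine ⟨K, hK, fun β E D hβ hE hD => ?_⟩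
    have e1 : ((2 : ℝ) - 0) / 2 = 1 := by norm_num
    have e2 : (2 : ℝ) / (2 - 0) = 1 := by norm_num
    rw [e1, e2, zero_div, Real.rpow_one, Real.rpow_zero, Real.rpow_one]
    have := mul_nonneg hε.le hD
    linarith
  · set P : ℝ := 2 / (2 - θ) with hP
    set Q : ℝ := 2 / θ with hQ
    have h2' : 0 < 2 - θ := by linarith
    have hP1 : 1 < P := by rw [hP, lt_div_iff₀ h2']; linarith
    have hQ1 : 1 < Q := by rw [hQ, lt_div_iff₀ h]; linarith
    have hPQ : P.HolderConjugate Q := by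
      rw [Real.holderConjugate_iff]
      refine ⟨hP1, ?_⟩
      rw [hP, hQ, inv_div, inv_div]
      ring
    set l : ℝ := ε ^ (θ / 2) with hl
    have hl0 : 0 < l := Real.rpow_pos_of_pos hε _
    refine ⟨(K / l) ^ P, Real.rpow_nonneg (by positivity) _, fun β E D hβ hE hD => ?_⟩
    have hy := Real.young_inequality_of_nonneg (a := K / l * β * E ^ ((2 - θ) / 2))
      (b := l * D ^ (θ / 2))
      (mul_nonneg (mul_nonneg (by positivity) hβ) (Real.rpow_nonneg hE _))
      (mul_nonneg hl0.le (Real.rpow_nonneg hD _)) hPQ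
    have e1 : K / l * β * E ^ ((2 - θ) / 2) * (l * D ^ (θ / 2))
        = K * β * (E ^ ((2 - θ) / 2) * D ^ (θ / 2)) := by
      field_simp
    have e2 : (K / l * β * E ^ ((2 - θ) / 2)) ^ P = (K / l) ^ P * β ^ P * E := by
      rw [Real.mul_rpow (mul_nonneg (by positivity) hβ) (Real.rpow_nonneg hE _),
        Real.mul_rpow (by positivity) hβ, ← Real.rpow_mul hE]
      have : (2 - θ) / 2 * P = 1 := by rw [hP]; field_simp
      rw [this, Real.rpow_one]
    have e3 : (l * D ^ (θ / 2)) ^ Q = ε * D := by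
      rw [Real.mul_rpow hl0.le (Real.rpow_nonneg hD _), ← Real.rpow_mul hD, hl,
        ← Real.rpow_mul hε.le]
      have : θ / 2 * Q = 1 := by rw [hQ]; field_simp
      rw [this, Real.rpow_one, Real.rpow_one]
    rw [e1, e2, e3] at hy
    have hx1 : 0 ≤ (K / l) ^ P * β ^ P * E :=
      mul_nonneg (mul_nonneg (Real.rpow_nonneg (by positivity) _) (Real.rpow_nonneg hβ _)) hE
    have hx2 : 0 ≤ ε * D := mul_nonneg hε.le hD
    have b1 : (K / l) ^ P * β ^ P * E / P ≤ (K / l) ^ P * β ^ P * E :=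
      div_le_self hx1 hP1.le
    have b2 : ε * D / Q ≤ ε * D := div_le_self hx2 hQ1.le
    linarith

/-- interpolation for vector fields -/
theorem Es_interp {s θ : ℝ} (hs0 : 0 ≤ s) (hs1 : s + 1 ≤ 2) (hθ0 : 0 ≤ θ) (hθ1 : θ ≤ 1)
    {v : V → V} (hv : SPV v) :
    Es (s + θ) v ≤ 3 * (Es s v ^ (1 - θ) * Es (s + 1) v ^ θ) := by
  have h1 : ∀ i : Fin 3, hs (s + θ) (fr fun y => v y i)
      ≤ Es s v ^ (1 - θ) * Es (s + 1) v ^ θ := by
    intro i
    refine (hs_interp hs0 hs1 hθ0 hθ1 (rap_fr (hv.sp i))).trans ?_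
    refine mul_le_mul (Real.rpow_le_rpow (hs_nonneg _ _) (hs_le_Es _ _ _) (by linarith))
      (Real.rpow_le_rpow (hs_nonneg _ _) (hs_le_Es _ _ _) hθ0)
      (Real.rpow_nonneg (hs_nonneg _ _) _) (Real.rpow_nonneg (Es_nonneg _ _) _)
  unfold Es at h1 ⊢
  refine (Finset.sum_le_sum fun i _ => h1 i).trans (le_of_eq ?_)
  rw [Finset.sum_const, Finset.card_univ, Fintype.card_fin, nsmul_eq_mul]
  norm_num

end Pool.Agent.U172.NS
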