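import Pool.Agent.U172.NS.Pos
import Pool.Agent.U172.NS.Est

/-!
The Poisson semigroup is a contraction of `L^p`.
-/

open MeasureTheory Set Filter Topology
open scoped ENNReal ComplexConjugate ContDiff

set_option autoImplicit false

namespace Pool.Agent.U172.NS

open H459R3.NS

/-- The Poisson extension `exp (-τ (-Δ)^{1/2}) f` of a smooth periodic function. -/
noncomputable def pois (τ : ℝ) (f : V → ℝ) (x : V) : ℝ := R (Fl τ (fr f)) x

/-- The Poisson extension of a vector field. -/
noncomputable def poisV (τ : ℝ) (v : V → V) (x : V) : V := fun i => pois τ (fun y => v y i) x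

theorem fr_add {f g : V → ℝ} (hf : Continuous f) (hg : Continuous g) (k : K3) :
    fr (fun x => f x + g x) k = fr f k + fr g k := by
  unfold fr fc
  rw [← integral_add]
  · refine integral_congr_ae (Eventually.of_forall fun x => ?_)
    simp only [Complex.ofReal_add]
    ring
  · exact integrableOn_cube ((ee_continuous _).mul (Complex.continuous_ofReal.comp hf))
  · exact integrableOn_cube ((ee_continuous _).mul (Complex.continuous_ofReal.comp hg))

theorem fr_smul (c : ℝ) (f : V → ℝ) (k : K3) : fr (fun x => c * f x) k = (c : ℂ) * fr f k := by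
  unfold fr fc
  rw [← integral_const_mul]
  refine integral_congr_ae (Eventually.of_forall fun x => ?_)
  simp only [Complex.ofReal_mul]
  ring

theorem sp_smul {f : V → ℝ} (hf : SP f) (c : ℝ) : SP (fun x => c * f x) where
  smooth := contDiff_const.mul hf.smooth
  per := fun i x => by simp only [hf.per i x]

theorem sp_const (c : ℝ) : SP (fun _ => c) := ⟨contDiff_const, fun _ _ => rfl⟩

theorem pois_add {f g : V → ℝ} (hf : SP f) (hg : SP g) {τ : ℝ} (hτ : 0 ≤ τ) (x : V) :
    pois τ (fun x => f x + g x) x = pois τ f x + pois τ g x := by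
  unfold pois
  rw [← R_add (rap_Fl (rap_fr hf) hτ) (rap_Fl (rap_fr hg) hτ)]
  congr 1
  funext k
  unfold Fl
  rw [fr_add hf.cont hg.cont]
  ring

theorem pois_smul (c : ℝ) (f : V → ℝ) (τ : ℝ) (x : V) :
    pois τ (fun x => c * f x) x = c * pois τ f x := by
  unfold pois
  rw [← R_smul]
  congr 1
  funext k
  unfold Fl
  rw [fr_smul]
  ring

theorem pois_const (c : ℝ) (τ : ℝ) (x : V) : pois τ (fun _ => c) x = c := by
  have h : Fl τ (fr fun _ => c) = fr fun _ => c := by
    funext k
    unfold Fl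
    by_cases hk : k = 0
    · subst hk
      rw [lam_zero]
      simp
    · rw [fr_const c hk, mul_zero]
  unfold pois
  rw [h]
  exact R_fr (sp_const c) x

theorem pois_nonneg {f : V → ℝ} (hf : SP f) (h0 : ∀ x, 0 ≤ f x) {τ : ℝ} (hτ : 0 ≤ τ) (x : V) :
    0 ≤ pois τ f x :=
  pos_flow (rap_fr hf) (fun y => by rw [R_fr hf]; exact h0 y) hτ x

theorem pois_mono {f g : V → ℝ} (hf : SP f) (hg : SP g) (h : ∀ x, f x ≤ g x) {τ : ℝ}
    (hτ : 0 ≤ τ) (x : V) : pois τ f x ≤ pois τ g x := by
  have h1 := pois_nonneg (hg.add (sp_smul hf (-1))) (fun x => by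
    have := h x
    linarith) hτ x
  rw [pois_add hg (sp_smul hf (-1)) hτ, pois_smul] at h1
  linarith

theorem pois_sp {f : V → ℝ} (hf : SP f) {τ : ℝ} (hτ : 0 ≤ τ) : SP (pois τ f) :=
  R_sp (rap_Fl (rap_fr hf) hτ)

theorem int_pois {f : V → ℝ} (hf : SP f) {τ : ℝ} (hτ : 0 ≤ τ) :
    ∫ x in cube, pois τ f x = ∫ x in cube, f x := by
  unfold pois
  rw [int_R (rap_Fl (rap_fr hf) hτ).summable]
  unfold Fl
  rw [lam_zero, fr_at_zero]
  simp

/-- Jensen's inequality for powers -/
theorem pois_rpow {m : V → ℝ} (hm : SP m) {ε : ℝ} (hε : 0 < ε) (hm0 : ∀ x, ε ≤ m x) {r : ℝ}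
    (hr : 1 ≤ r) {τ : ℝ} (hτ : 0 ≤ τ) (x : V) :
    SP (fun x => m x ^ r) ∧ pois τ m x ^ r ≤ pois τ (fun x => m x ^ r) x := by
  have hpos : ∀ x, 0 < m x := fun x => hε.trans_le (hm0 x)
  have hmr : SP (fun x => m x ^ r) :=
    ⟨hm.smooth.rpow_const_of_ne fun x => (hpos x).ne', fun i x => by simp only [hm.per i x]⟩
  refine ⟨hmr, ?_⟩
  set s : ℝ := pois τ m x with hs
  have hs0 : 0 < s := by
    have h1 := pois_mono (sp_const ε) hm hm0 hτ x
    rw [pois_const] at h1
    exact hε.trans_le h1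
  have htan : ∀ y, s ^ r + r * s ^ (r - 1) * (m y - s) ≤ m y ^ r := by
    intro y
    have h1 := one_add_mul_self_le_rpow_one_add (s := m y / s - 1) (by
      have := div_pos (hpos y) hs0
      linarith) hr
    rw [add_sub_cancel, Real.div_rpow (hpos y).le hs0.le, le_div_iff₀ (Real.rpow_pos_of_pos hs0 r)]
      at h1
    refine le_trans (le_of_eq ?_) h1
    rw [Real.rpow_sub_one hs0.ne']
    field_simp
  have h2 : SP (fun y => (r * s ^ (r - 1)) * m y) := sp_smul hm _
  have h3 := pois_mono ((sp_const (s ^ r - r * s ^ (r - 1) * s)).add h2) hmr (fun y => by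
    have := htan y
    linarith) hτ x
  rw [pois_add (sp_const _) h2 hτ, pois_const, pois_smul, ← hs] at h3
  linarith

theorem len_smul_le {w : V} (c : ℝ) (h : ∀ e : V, len e ≤ 1 → dot e w ≤ c) (hc : 0 ≤ c) :
    len w ≤ c := by
  rcases eq_or_lt_of_le (len_nonneg w) with h0 | h0
  · rw [← h0]; exact hc
  · have h1 := h (fun i => w i / len w) (by
      have : len (fun i => w i / len w) ^ 2 = 1 := by
        rw [len_sq]
        simp_rw [div_pow]
        rw [← Finset.sum_div, ← len_sq, div_self (pow_ne_zero 2 h0.ne')]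
      nlinarith [len_nonneg fun i => w i / len w])
    have h2 : dot (fun i => w i / len w) w = len w := by
      unfold dot
      have : ∀ i, w i / len w * w i = w i ^ 2 / len w := fun i => by ring
      simp_rw [this]
      rw [← Finset.sum_div, ← len_sq, sq, mul_div_assoc, div_self h0.ne', mul_one]
    rwa [h2] at h1

theorem dot_le {e w : V} (he : len e ≤ 1) : dot e w ≤ len w := by
  have h1 : dot e w ^ 2 ≤ (len e * len w) ^ 2 := by
    rw [mul_pow, len_sq, len_sq]
    unfold dot
    rw [Fin.sum_univ_three, Fin.sum_univ_three, Fin.sum_univ_three]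
    nlinarith [sq_nonneg (e 0 * w 1 - e 1 * w 0), sq_nonneg (e 1 * w 2 - e 2 * w 1),
      sq_nonneg (e 2 * w 0 - e 0 * w 2)]
  have h2 := abs_le_of_sq_le_sq h1 (mul_nonneg (len_nonneg _) (len_nonneg _))
  have h3 : len e * len w ≤ 1 * len w := mul_le_mul_of_nonneg_right he (len_nonneg _)
  linarith [le_abs_self (dot e w)]

/-- the regularized length -/
noncomputable def mreg (ε : ℝ) (w : V → V) (x : V) : ℝ := Real.sqrt (∑ i, w x i ^ 2 + ε ^ 2)

theorem mreg_sp {ε : ℝ} (hε : 0 < ε) {w : V → V} (hw : SPV w) : SP (mreg ε w) where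
  smooth := by
    unfold mreg
    refine ContDiff.sqrt ?_ fun x => ?_
    · exact (ContDiff.sum fun i _ => ((hw.sp i).smooth.pow 2)).add contDiff_const
    · have : 0 ≤ ∑ i, w x i ^ 2 := Finset.sum_nonneg fun _ _ => sq_nonneg _
      positivity
  per := fun i x => by
    unfold mreg
    simp only [hw.2 i x]

theorem le_mreg {ε : ℝ} (hε : 0 < ε) (w : V → V) (x : V) : ε ≤ mreg ε w x := by
  unfold mreg
  refine Real.le_sqrt_of_sq_le ?_
  have : 0 ≤ ∑ i, w x i ^ 2 := Finset.sum_nonneg fun _ _ => sq_nonneg _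
  linarith

theorem len_le_mreg (ε : ℝ) (w : V → V) (x : V) : len (w x) ≤ mreg ε w x := by
  unfold mreg len
  refine Real.sqrt_le_sqrt ?_
  have := sq_nonneg ε
  linarith

theorem mreg_le {ε : ℝ} (hε : 0 < ε) (w : V → V) (x : V) : mreg ε w x ≤ len (w x) + ε := by
  unfold mreg
  rw [← len_sq]
  refine Real.sqrt_le_iff.2 ⟨add_nonneg (len_nonneg _) hε.le, ?_⟩
  nlinarith [len_nonneg (w x)]

theorem pois_dot {w : V → V} (hw : SPV w) (e : V) {τ : ℝ} (hτ : 0 ≤ τ) (x : V) :
    dot e (poisV τ w x) = pois τ (fun y => dot e (w y)) x := by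
  have h0 := sp_smul (hw.sp 0) (e 0)
  have h1 := sp_smul (hw.sp 1) (e 1)
  have h2 := sp_smul (hw.sp 2) (e 2)
  have e1 : (fun y => dot e (w y)) = fun y => (e 0 * w y 0 + e 1 * w y 1) + e 2 * w y 2 := by
    funext y
    unfold dot
    rw [Fin.sum_univ_three]
  rw [e1, pois_add (h0.add h1) h2 hτ, pois_add h0 h1 hτ, pois_smul, pois_smul, pois_smul]
  unfold dot poisV
  rw [Fin.sum_univ_three]

theorem len_pois_le {w : V → V} (hw : SPV w) {ε : ℝ} (hε : 0 < ε) {τ : ℝ} (hτ : 0 ≤ τ) (x : V) :
    len (poisV τ w x) ≤ pois τ (mreg ε w) x := by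
  have hm := mreg_sp hε hw
  refine len_smul_le _ (fun e he => ?_)
    (pois_nonneg hm (fun y => hε.le.trans (le_mreg hε w y)) hτ x)
  rw [pois_dot hw e hτ]
  refine pois_mono ?_ hm (fun y => (dot_le he).trans (len_le_mreg ε w y)) hτ x
  exact SP.sum fun i _ => sp_smul (hw.sp i) (e i)

theorem le_everywhere {m : V → ℝ} (hm : Continuous m) (hp : Per m) {M : ℝ}
    (h : ∀ᵐ x ∂(volume.restrict cube), m x ≤ M) (x : V) : m x ≤ M := by
  have hcube : cube = Set.pi univ fun _ : Fin 3 => Icc (0 : ℝ) 1 := by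
    rw [Set.pi_univ_Icc]
    rfl
  have hmeas : MeasurableSet cube := measurableSet_Icc
  rw [ae_restrict_iff' hmeas] at h
  set U : Set V := {x | M < m x} ∩ Set.pi univ fun _ : Fin 3 => Ioo (0 : ℝ) 1 with hU
  have hUo : IsOpen U := (isOpen_lt continuous_const hm).inter
    (isOpen_set_pi finite_univ fun _ _ => isOpen_Ioo)
  have hU0 : volume U = 0 := by
    refine measure_mono_null ?_ h
    intro y hy hn
    have h1 : y ∈ cube := by
      rw [hcube]
      exact fun i hi => Ioo_subset_Icc_self (hy.2 i hi)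
    exact absurd (hn h1) (not_le.2 hy.1)
  have hUe : U = ∅ := (hUo.measure_eq_zero_iff volume).1 hU0
  have hin : (Set.pi univ fun _ : Fin 3 => Ioo (0 : ℝ) 1) ⊆ {x | m x ≤ M} := by
    intro y hy
    by_contra hn
    have hn' : M < m y := not_le.1 hn
    have : y ∈ U := ⟨hn', hy⟩
    rw [hUe] at this
    exact this
  have hcl : cube ⊆ {x | m x ≤ M} := by
    rw [hcube]
    have h1 : closure (Set.pi univ fun _ : Fin 3 => Ioo (0 : ℝ) 1)
        = Set.pi univ fun _ : Fin 3 => Icc (0 : ℝ) 1 := by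
      rw [closure_pi_set]
      simp only [closure_Ioo (zero_ne_one (α := ℝ))]
    rw [← h1]
    exact (isClosed_le hm continuous_const).closure_subset_iff.2 hin
  obtain ⟨y, hy, hye⟩ := exists_cube hp x
  rw [← hye]
  exact hcl hy

theorem eLp_pois {m : V → ℝ} (hm : SP m) {ε : ℝ} (hε : 0 < ε) (hm0 : ∀ x, ε ≤ m x) {P : ℝ≥0∞}
    (hP : 1 ≤ P) {τ : ℝ} (hτ : 0 ≤ τ) :
    eLpNorm (pois τ m) P (volume.restrict cube) ≤ eLpNorm m P (volume.restrict cube) := by
  have hfin : IsFiniteMeasure (volume.restrict cube) := cube_finite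
  have hg := pois_sp hm hτ
  have hm0' : ∀ x, 0 ≤ m x := fun x => hε.le.trans (hm0 x)
  have hg0 : ∀ x, 0 ≤ pois τ m x := fun x => pois_nonneg hm hm0' hτ x
  rcases eq_or_ne P ∞ with hP' | hP'
  · subst hP'
    obtain ⟨B, hB⟩ := (isCompact_Icc : IsCompact (Icc (0 : V) 1)).exists_bound_of_continuousOn
      hm.cont.continuousOn
    have hlt : eLpNorm m ∞ (volume.restrict cube) < ⊤ := by
      refine lt_of_le_of_lt (b := ENNReal.ofReal B) ?_ ENNReal.ofReal_lt_top
      rw [eLpNorm_exponent_top]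
      refine eLpNormEssSup_le_of_ae_bound ?_
      exact (ae_restrict_iff' measurableSet_Icc).2 (Eventually.of_forall fun x hx => hB x hx)
    set M : ℝ := (eLpNorm m ∞ (volume.restrict cube)).toReal with hM
    have hM0 : 0 ≤ M := ENNReal.toReal_nonneg
    have hMe : eLpNorm m ∞ (volume.restrict cube) = ENNReal.ofReal M :=
      (ENNReal.ofReal_toReal hlt.ne).symm
    have hae : ∀ᵐ x ∂(volume.restrict cube), m x ≤ M := by
      have h1 : ∀ᵐ x ∂(volume.restrict cube), ‖m x‖ₑ ≤ eLpNormEssSup m (volume.restrict cube) :=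
        ae_le_eLpNormEssSup
      rw [← eLpNorm_exponent_top, hMe] at h1
      filter_upwards [h1] with x hx
      rw [Real.enorm_eq_ofReal (hm0' x)] at hx
      exact (ENNReal.ofReal_le_ofReal_iff hM0).1 hx
    have hall := le_everywhere hm.cont hm.per hae
    rw [hMe, eLpNorm_exponent_top]
    refine eLpNormEssSup_le_of_ae_bound (Eventually.of_forall fun x => ?_)
    rw [Real.norm_of_nonneg (hg0 x)]
    have := pois_mono hm (sp_const M) hall hτ x
    rwa [pois_const] at this
  · have hP0 : P ≠ 0 := (lt_of_lt_of_le one_pos hP).ne'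
    set r : ℝ := P.toReal with hr
    have hr1 : 1 ≤ r := by
      rw [hr, ← ENNReal.toReal_one]
      exact ENNReal.toReal_mono hP' hP
    rw [eLpNorm_eq_lintegral_rpow_enorm_toReal hP0 hP',
      eLpNorm_eq_lintegral_rpow_enorm_toReal hP0 hP', ← hr]
    refine ENNReal.rpow_le_rpow ?_ (by positivity)
    have e : ∀ f : V → ℝ, (∀ x, 0 ≤ f x) → SP (fun x => f x ^ r) →
        ∫⁻ x in cube, ‖f x‖ₑ ^ r = ENNReal.ofReal (∫ x in cube, f x ^ r) := by
      intro f hf0 hf
      rw [ofReal_integral_eq_lintegral_ofReal hf.int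
        (Eventually.of_forall fun x => Real.rpow_nonneg (hf0 x) r)]
      refine lintegral_congr fun x => ?_
      rw [Real.enorm_eq_ofReal (hf0 x), ENNReal.ofReal_rpow_of_nonneg (hf0 x) (by linarith)]
    have hgε : ∀ x, ε ≤ pois τ m x := fun x => by
      have := pois_mono (sp_const ε) hm hm0 hτ x
      rwa [pois_const] at this
    have hmr := (pois_rpow hm hε hm0 hr1 hτ 0).1
    have hgr := (pois_rpow hg hε hgε hr1 hτ 0).1
    rw [e _ hg0 hgr, e _ hm0' hmr, ← int_pois hmr hτ]
    refine ENNReal.ofReal_le_ofReal ?_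
    exact integral_mono hgr.int (pois_sp hmr hτ).int fun x => (pois_rpow hm hε hm0 hr1 hτ x).2

/-- **the Poisson semigroup is a contraction of `L^p`**, `1 ≤ p ≤ ∞` -/
theorem contr {w : V → V} (hw : SPV w) {P : ℝ≥0∞} (hP : 1 ≤ P) {τ : ℝ} (hτ : 0 ≤ τ) :
    eLpNorm (fun x => len (poisV τ w x)) P (volume.restrict cube)
      ≤ eLpNorm (fun x => len (w x)) P (volume.restrict cube) := by
  refine ENNReal.le_of_forall_pos_le_add fun ε hε _ => ?_
  have hε' : (0 : ℝ) < ε := hε
  have hm := mreg_sp hε' hw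
  calc eLpNorm (fun x => len (poisV τ w x)) P (volume.restrict cube)
      ≤ eLpNorm (pois τ (mreg ε w)) P (volume.restrict cube) := by
        refine eLpNorm_mono_real fun x => ?_
        rw [Real.norm_of_nonneg (len_nonneg _)]
        exact len_pois_le hw hε' hτ x
    _ ≤ eLpNorm (mreg ε w) P (volume.restrict cube) := eLp_pois hm hε' (le_mreg hε' w) hP hτ
    _ ≤ eLpNorm ((fun x => len (w x)) + fun _ => (ε : ℝ)) P (volume.restrict cube) := by
        refine eLpNorm_mono_real fun x => ?_
        rw [Real.norm_of_nonneg (hε'.le.trans (le_mreg hε' w x))]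
        exact mreg_le hε' w x
    _ ≤ eLpNorm (fun x => len (w x)) P (volume.restrict cube)
        + eLpNorm (fun _ => (ε : ℝ)) P (volume.restrict cube) := by
        have hlc : Continuous fun x => len (w x) := by
          unfold len
          exact (continuous_finsetSum _ fun i _ => ((hw.sp i).cont).pow 2).sqrt
        exact eLpNorm_add_le hlc.aestronglyMeasurable
          continuous_const.aestronglyMeasurable hP
    _ ≤ eLpNorm (fun x => len (w x)) P (volume.restrict cube) + ε := by
        refine add_le_add le_rfl ?_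
        have hP0 : P ≠ 0 := (lt_of_lt_of_le one_pos hP).ne'
        have h1 : volume.restrict cube univ = 1 := by
          rw [Measure.restrict_apply_univ, volume_cube]
        have h2 : volume.restrict cube ≠ 0 := by
          intro h
          rw [h] at h1
          simp at h1
        rw [eLpNorm_const _ hP0 h2, h1, ENNReal.one_rpow, mul_one,
          Real.enorm_eq_ofReal hε'.le, ENNReal.ofReal_coe_nnreal]

end Pool.Agent.U172.NS
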