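import Pool.Agent.U172.NS.Sob2

/-!
Vorticity, the Lamb vector and the nonlinear term.
-/

open MeasureTheory Set Filter Topology
open scoped ENNReal ComplexConjugate ContDiff

set_option autoImplicit false

namespace Pool.Agent.U172.NS

open H459R3.NS

/-- The scalar product of two vectors of `ℝ³`. -/
noncomputable def dot (a b : V) : ℝ := ∑ i, a i * b i

/-- The Euclidean length of a vector of `ℝ³`. -/
noncomputable def len (a : V) : ℝ := Real.sqrt (∑ i, a i ^ 2)

/-- The vorticity `curl v`. -/
noncomputable def curl (v : V → V) (x : V) : V :=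
  ![pd 1 (fun y => v y 2) x - pd 2 (fun y => v y 1) x,
    pd 2 (fun y => v y 0) x - pd 0 (fun y => v y 2) x,
    pd 0 (fun y => v y 1) x - pd 1 (fun y => v y 0) x]

/-- The fluctuation of `v`: `v` minus its mean value over the period cell. -/
noncomputable def fluct (v : V → V) (x : V) : V := fun i => v x i - ∫ y in cube, v y i

/-- The gradient of `g`. -/
noncomputable def grad (g : V → ℝ) (x : V) : V := fun i => pd i g x

/-- The vector field `(-Δ)^s v`. -/
noncomputable def fracV (s : ℝ) (v : V → V) (x : V) : V := fun i => frac s (fun y => v y i) x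

theorem len_nonneg (a : V) : 0 ≤ len a := Real.sqrt_nonneg _

theorem len_le (a : V) : len a ≤ ∑ i, |a i| := by
  unfold len
  rw [Real.sqrt_le_left (Finset.sum_nonneg fun _ _ => abs_nonneg _)]
  rw [Fin.sum_univ_three, Fin.sum_univ_three]
  have h0 := abs_nonneg (a 0)
  have h1 := abs_nonneg (a 1)
  have h2 := abs_nonneg (a 2)
  rw [← sq_abs (a 0), ← sq_abs (a 1), ← sq_abs (a 2)]
  nlinarith [mul_nonneg h0 h1, mul_nonneg h0 h2, mul_nonneg h1 h2]

theorem len_sq (a : V) : len a ^ 2 = ∑ i, a i ^ 2 :=
  Real.sq_sqrt (Finset.sum_nonneg fun _ _ => sq_nonneg _)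

theorem fluct_sp {v : V → V} (hv : SPV v) (i : Fin 3) : SP (fun y => fluct v y i) where
  smooth := (hv.sp i).smooth.sub contDiff_const
  per := fun j x => by
    show v (x + Pi.single j 1) i - _ = v x i - _
    rw [hv.2 j x]

theorem pd_fluct {v : V → V} (j i : Fin 3) (x : V) :
    pd j (fun y => fluct v y i) x = pd j (fun y => v y i) x := by
  unfold pd fluct
  rw [fderiv_sub_const]

theorem curl_fluct (v : V → V) (x : V) : curl (fluct v) x = curl v x := by
  unfold curl
  simp only [pd_fluct]

theorem lamb_eq (v w : V → V) (hw : ∀ i j x, pd j (fun y => w y i) x = pd j (fun y => v y i) x)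
    (i : Fin 3) (x : V) :
    crossProduct (curl v x) (w x) i
      = ∑ j, w x j * (pd j (fun y => w y i) x - pd i (fun y => w y j) x) := by
  simp only [hw]
  rw [Fin.sum_univ_three]
  unfold curl
  rw [cross_apply]
  fin_cases i <;> simp <;> ring

/-- the fields with the same derivative -/
theorem conv_eq {v : V → V} (hv : SPV v) (i : Fin 3) (x : V) :
    conv (fun i y => v y i) i x = crossProduct (curl v x) (fluct v x) i
      + pd i (fun y => (1 / 2) * ∑ j, fluct v y j * fluct v y j) x
      + ∑ j, (∫ y in cube, v y j) * pd j (fun y => v y i) x := by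
  have hw := fluct_sp hv
  have e1 : pd i (fun y => (1 / 2) * ∑ j, fluct v y j * fluct v y j) x
      = ∑ j, fluct v x j * pd i (fun y => v y j) x := by
    have hc : pd i (fun y => (1 / 2) * ∑ j, fluct v y j * fluct v y j) x
        = (1 / 2) * pd i (fun y => ∑ j, fluct v y j * fluct v y j) x := by
      unfold pd
      have hd : DifferentiableAt ℝ (fun y => ∑ j, fluct v y j * fluct v y j) x :=
        (SP.sum fun j (_ : j ∈ Finset.univ) => (hw j).mul (hw j)).diff x
      rw [fderiv_const_mul hd]
      simp
    rw [hc, pd_sum (s := Finset.univ) (f := fun j y => fluct v y j * fluct v y j)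
      fun j _ => (hw j).mul (hw j), Finset.mul_sum]
    refine Finset.sum_congr rfl fun j _ => ?_
    rw [pd_mul (hw j) (hw j), pd_fluct]
    ring
  rw [e1, lamb_eq v (fluct v) (fun i j x => pd_fluct j i x)]
  unfold conv
  simp only [pd_fluct, Fin.sum_univ_three]
  unfold fluct
  ring

/-- the nonlinear term -/
theorem nl_eq {v : V → V} (hv : SPV v) (hdiv : ∀ x, ∑ i, pd i (fun y => v y i) x = 0) {s : ℝ}
    (hs2 : s ≤ 2) :
    ∑ i, ∫ x in cube, frac s (fun y => v y i) x * conv (fun i y => v y i) i x
      = ∫ x in cube, dot (crossProduct (curl v x) (fluct v x)) (fracV s v x) := by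
  have hw := fluct_sp hv
  have hq : SP (fun y => (1 / 2) * ∑ j, fluct v y j * fluct v y j) := by
    have h1 : SP (fun y => ∑ j, fluct v y j * fluct v y j) :=
      SP.sum fun j (_ : j ∈ Finset.univ) => (hw j).mul (hw j)
    exact ⟨contDiff_const.mul h1.smooth, fun j x => by simp only [h1.per j x]⟩
  have hfc : ∀ i, Continuous (frac s fun y => v y i) := fun i => frac_cont hs2 (hv.sp i)
  have hLc : ∀ i, Continuous fun x => crossProduct (curl v x) (fluct v x) i := by
    intro i
    have e : (fun x => crossProduct (curl v x) (fluct v x) i)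
        = fun x => ∑ j, fluct v x j * (pd j (fun y => fluct v y i) x
          - pd i (fun y => fluct v y j) x) :=
      funext fun x => lamb_eq v (fluct v) (fun i j x => pd_fluct j i x) i x
    rw [e]
    exact continuous_finsetSum _ fun j _ => (hw j).cont.mul
      (((hw i).pd j).cont.sub ((hw j).pd i).cont)
  have e1 : ∀ i, ∫ x in cube, frac s (fun y => v y i) x * conv (fun i y => v y i) i x
      = (∫ x in cube, crossProduct (curl v x) (fluct v x) i * frac s (fun y => v y i) x)
        + (∫ x in cube, frac s (fun y => v y i) x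
          * pd i (fun y => (1 / 2) * ∑ j, fluct v y j * fluct v y j) x)
        + ∑ j, (∫ y in cube, v y j) * ∫ x in cube, frac s (fun y => v y i) x
          * pd j (fun y => v y i) x := by
    intro i
    have e : ∀ x, frac s (fun y => v y i) x * conv (fun i y => v y i) i x
        = (crossProduct (curl v x) (fluct v x) i * frac s (fun y => v y i) x
        + frac s (fun y => v y i) x
          * pd i (fun y => (1 / 2) * ∑ j, fluct v y j * fluct v y j) x)
        + ∑ j, (∫ y in cube, v y j) * (frac s (fun y => v y i) x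
          * pd j (fun y => v y i) x) := by
      intro x
      rw [conv_eq hv, mul_add, mul_add, Finset.mul_sum]
      congr 1
      · ring
      · exact Finset.sum_congr rfl fun j _ => by ring
    simp_rw [e]
    have i1 : IntegrableOn (fun x => crossProduct (curl v x) (fluct v x) i
        * frac s (fun y => v y i) x) cube := integrableOn_cube ((hLc i).mul (hfc i))
    have i2 : IntegrableOn (fun x => frac s (fun y => v y i) x
          * pd i (fun y => (1 / 2) * ∑ j, fluct v y j * fluct v y j) x) cube :=
      integrableOn_cube ((hfc i).mul (hq.pd i).cont)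
    have i3 : ∀ j ∈ Finset.univ, IntegrableOn (fun x => (∫ y in cube, v y j)
        * (frac s (fun y => v y i) x * pd j (fun y => v y i) x)) cube := fun j _ =>
      (integrableOn_cube ((hfc i).mul ((hv.sp i).pd j).cont)).const_mul _
    have i12 : IntegrableOn (fun x => crossProduct (curl v x) (fluct v x) i
        * frac s (fun y => v y i) x + frac s (fun y => v y i) x
          * pd i (fun y => (1 / 2) * ∑ j, fluct v y j * fluct v y j) x) cube := i1.add i2
    rw [integral_add i12 (integrable_finsetSum _ i3), integral_add i1 i2,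
      integral_finsetSum _ i3]
    congr 1
    exact Finset.sum_congr rfl fun j _ => integral_const_mul _ _
  simp_rw [e1]
  rw [Finset.sum_add_distrib, Finset.sum_add_distrib,
    sum_frac_grad (v := fun i y => v y i) hv.sp hdiv hs2 hq]
  have e2 : ∀ i j : Fin 3, ∫ x in cube, frac s (fun y => v y i) x * pd j (fun y => v y i) x = 0 :=
    fun i j => frac_const_transport (v := fun i y => v y i) hv.sp hs2 i j
  simp_rw [e2]
  simp only [mul_zero, Finset.sum_const_zero, add_zero]
  unfold dot fracV
  rw [integral_finsetSum]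
  intro i _
  exact integrableOn_cube ((hLc i).mul (hfc i))

/-- divergence-free fields are orthogonal to gradients -/
theorem int_dot_grad {v : V → V} (hv : SPV v) (hdiv : ∀ x, ∑ i, pd i (fun y => v y i) x = 0)
    {g : V → ℝ} (hg : SP g) : ∫ x in cube, dot (v x) (grad g x) = 0 := by
  have h := int_press (v := fun i y => v y i) hv.sp hdiv hg
  unfold dot grad
  rw [integral_finsetSum]
  · exact h
  · intro i _
    exact ((hv.sp i).mul (hg.pd i)).int

theorem curl_spv {v : V → V} (hv : SPV v) : SPV (curl v) := by
  have h : ∀ i, SP (fun x => curl v x i) := by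
    intro i
    have e : ∀ a b : Fin 3, SP (fun x => pd a (fun y => v y b) x - pd b (fun y => v y a) x) :=
      fun a b => ((hv.sp b).pd a).sub ((hv.sp a).pd b)
    fin_cases i
    · exact e 1 2
    · exact e 2 0
    · exact e 0 1
  exact ⟨contDiff_pi.2 fun i => (h i).smooth, fun j x => funext fun i => (h i).per j x⟩

theorem curl_div {v : V → V} (hv : SPV v) (x : V) : ∑ i, pd i (fun y => curl v y i) x = 0 := by
  have hs : ∀ c a b : Fin 3, pd c (fun x => pd a (fun y => v y b) x - pd b (fun y => v y a) x) x
      = pd c (pd a (fun y => v y b)) x - pd c (pd b (fun y => v y a)) x := by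
    intro c a b
    unfold pd
    have d1 := ((hv.sp b).pd a).diff x
    have d2 := ((hv.sp a).pd b).diff x
    unfold pd at d1 d2
    rw [fderiv_fun_sub d1 d2]
    simp
  rw [Fin.sum_univ_three]
  have a0 : pd 0 (fun y => curl v y 0) x = pd 0 (pd 1 (fun y => v y 2)) x
      - pd 0 (pd 2 (fun y => v y 1)) x := hs 0 1 2
  have a1 : pd 1 (fun y => curl v y 1) x = pd 1 (pd 2 (fun y => v y 0)) x
      - pd 1 (pd 0 (fun y => v y 2)) x := hs 1 2 0
  have a2 : pd 2 (fun y => curl v y 2) x = pd 2 (pd 0 (fun y => v y 1)) x
      - pd 2 (pd 1 (fun y => v y 0)) x := hs 2 0 1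
  rw [a0, a1, a2, pd_comm (hv.sp 2) 0 1, pd_comm (hv.sp 1) 0 2, pd_comm (hv.sp 0) 1 2]
  ring

theorem fluct_spv {v : V → V} (hv : SPV v) : SPV (fluct v) :=
  ⟨contDiff_pi.2 fun i => (fluct_sp hv i).smooth, fun j x => funext fun i => (fluct_sp hv i).per j x⟩

theorem fluct_div {v : V → V} (hdiv : ∀ x, ∑ i, pd i (fun y => v y i) x = 0) (x : V) :
    ∑ i, pd i (fun y => fluct v y i) x = 0 := by
  simp only [pd_fluct]
  exact hdiv x

end Pool.Agent.U172.NS
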