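import Pool.Agent.U172.NS.W

/-!
Time dependence of the Fourier coefficients of smooth periodic functions.
-/

open MeasureTheory Set Filter Topology
open scoped ENNReal ComplexConjugate ContDiff

set_option autoImplicit false

namespace Pool.Agent.U172.NS

open H459R3.NS

theorem fr_conj (f : V → ℝ) (k : K3) : fr f (-k) = conj (fr f k) := by
  unfold fr fc
  rw [← integral_conj]
  congr 1
  funext x
  rw [map_mul, Complex.conj_ofReal, ← ee_neg, neg_neg]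

theorem fr_split {f : V → ℝ} (hf : Continuous f) (k : K3) :
    fr f k = ((∫ x in cube, (ee (-k) x).re * f x : ℝ) : ℂ)
      + Complex.I * ((∫ x in cube, (ee (-k) x).im * f x : ℝ) : ℂ) := by
  unfold fr fc
  have h1 : Continuous fun x => (ee (-k) x).re * f x :=
    (Complex.continuous_re.comp (ee_continuous _)).mul hf
  have h2 : Continuous fun x => (ee (-k) x).im * f x :=
    (Complex.continuous_im.comp (ee_continuous _)).mul hf
  have i1 : IntegrableOn (fun x => (((ee (-k) x).re * f x : ℝ) : ℂ)) cube :=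
    integrableOn_cube (Complex.continuous_ofReal.comp h1)
  have i2 : IntegrableOn (fun x => Complex.I * (((ee (-k) x).im * f x : ℝ) : ℂ)) cube :=
    integrableOn_cube (continuous_const.mul (Complex.continuous_ofReal.comp h2))
  rw [← integral_complex_ofReal, ← integral_complex_ofReal, ← integral_const_mul,
    ← integral_add i1 i2]
  congr 1
  funext x
  apply Complex.ext
  · simp
  · simp

section

variable {T : ℝ} {f : ℝ → V → ℝ}

theorem slice_cont (hf : ContDiffOn ℝ ∞ (fun z : ℝ × V => f z.1 z.2) (Ico 0 T ×ˢ univ)) {t : ℝ}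
    (ht : t ∈ Ico 0 T) : Continuous (f t) := (contDiff_slice hf ht).continuous

theorem fr_continuousOn (hf : ContDiffOn ℝ ∞ (fun z : ℝ × V => f z.1 z.2) (Ico 0 T ×ˢ univ))
    (k : K3) : ContinuousOn (fun t => fr (f t) k) (Ico 0 T) := by
  have key : ∀ c : V → ℝ, Continuous c → ContinuousOn (fun t => ∫ x in cube, c x * f t x)
      (Ico 0 T) := fun c hc => continuousOn_int (F := fun t x => c x * f t x)
    ((hc.comp continuous_snd).continuousOn.mul hf.continuousOn)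
  have h1 := key (fun x => (ee (-k) x).re) (Complex.continuous_re.comp (ee_continuous _))
  have h2 := key (fun x => (ee (-k) x).im) (Complex.continuous_im.comp (ee_continuous _))
  have h3 : ContinuousOn (fun t => ((∫ x in cube, (ee (-k) x).re * f t x : ℝ) : ℂ)
      + Complex.I * ((∫ x in cube, (ee (-k) x).im * f t x : ℝ) : ℂ)) (Ico 0 T) :=
    (Complex.continuous_ofReal.comp_continuousOn h1).add
      (continuousOn_const.mul (Complex.continuous_ofReal.comp_continuousOn h2))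
  exact h3.congr fun t ht => fr_split (slice_cont hf ht) k

theorem fr_hasDerivAt (hf : ContDiffOn ℝ ∞ (fun z : ℝ × V => f z.1 z.2) (Ico 0 T ×ˢ univ))
    (k : K3) {t : ℝ} (ht : t ∈ Ioo 0 T) :
    HasDerivAt (fun s => fr (f s) k) (fr (dt f t) k) t := by
  have key : ∀ c : V → ℝ, ContDiff ℝ 1 c → HasDerivAt (fun s => ∫ x in cube, c x * f s x)
      (∫ x in cube, c x * dt f t x) t := by
    intro c hc
    have hF : ContDiffOn ℝ 1 (fun z : ℝ × V => c z.2 * f z.1 z.2) (Ioo 0 T ×ˢ univ) :=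
      (hc.comp contDiff_snd).contDiffOn.mul (mono_Ioo hf (by norm_cast))
    refine (hasDerivAt_int (F := fun s x => c x * f s x) hF ht).congr_deriv ?_
    congr 1
    funext x
    exact deriv_const_mul_field _
  have h1 := key (fun x => (ee (-k) x).re) (Complex.reCLM.contDiff.comp (ee_contDiff _))
  have h2 := key (fun x => (ee (-k) x).im) (Complex.imCLM.contDiff.comp (ee_contDiff _))
  have h3 : HasDerivAt (fun s => ((∫ x in cube, (ee (-k) x).re * f s x : ℝ) : ℂ)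
      + Complex.I * ((∫ x in cube, (ee (-k) x).im * f s x : ℝ) : ℂ))
      (((∫ x in cube, (ee (-k) x).re * dt f t x : ℝ) : ℂ)
      + Complex.I * ((∫ x in cube, (ee (-k) x).im * dt f t x : ℝ) : ℂ)) t :=
    h1.ofReal_comp.add (h2.ofReal_comp.const_mul _)
  rw [← fr_split (contDiff_dt hf ht).continuous] at h3
  refine h3.congr_of_eventuallyEq ?_
  filter_upwards [Ioo_mem_nhds ht.1 ht.2] with s hs
  exact fr_split (slice_cont hf ⟨hs.1.le, hs.2⟩) k

theorem norm_fr_le_int {g : V → ℝ} (hg : Continuous g) {C : ℝ} (hC : ∀ x ∈ cube, |g x| ≤ C)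
    (k : K3) : ‖fr g k‖ ≤ C := by
  have h1 : ‖fr g k‖ ≤ ∫ x in cube, ‖g x‖ := by
    unfold fr fc
    refine (norm_integral_le_integral_norm _).trans (le_of_eq ?_)
    congr 1
    funext x
    rw [norm_mul, norm_ee, one_mul, Complex.norm_real]
  refine h1.trans ?_
  have := cube_finite
  have h2 : ∫ x in cube, ‖g x‖ ≤ ∫ x in cube, C := by
    refine setIntegral_mono_on (integrableOn_cube hg.norm) (integrable_const _)
      measurableSet_cube fun x hx => hC x hx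
  refine h2.trans (le_of_eq ?_)
  rw [integral_const]
  simp [Measure.real, volume_cube]

theorem iter_smooth (hf : ContDiffOn ℝ ∞ (fun z : ℝ × V => f z.1 z.2) (Ico 0 T ×ˢ univ))
    (j : Fin 3) (n : ℕ) :
    ContDiffOn ℝ ∞ (fun z : ℝ × V => (pd j)^[n] (f z.1) z.2) (Ico 0 T ×ˢ univ) := by
  induction n with
  | zero => exact hf
  | succ n ih =>
    simp only [Function.iterate_succ_apply']
    exact contDiffOn_pd (f := fun t => (pd j)^[n] (f t)) ih j

theorem unif_fr (hf : ContDiffOn ℝ ∞ (fun z : ℝ × V => f z.1 z.2) (Ico 0 T ×ˢ univ))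
    (hper : ∀ t ∈ Ico 0 T, Per (f t)) {b : ℝ} (hb : b < T) (n : ℕ) :
    ∃ C : ℝ, 0 ≤ C ∧ ∀ t ∈ Icc 0 b, ∀ k, (N k : ℝ) ^ n * ‖fr (f t) k‖ ≤ C := by
  have hK : IsCompact (Icc 0 b ×ˢ cube) := isCompact_Icc.prod isCompact_Icc
  have hsub : Icc 0 b ×ˢ cube ⊆ Ico 0 T ×ˢ (univ : Set V) :=
    prod_mono (fun s hs => ⟨hs.1, hs.2.trans_lt hb⟩) (subset_univ _)
  choose C hC using fun j => hK.exists_bound_of_continuousOn
    ((iter_smooth hf j n).continuousOn.mono hsub)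
  refine ⟨∑ j, |C j|, Finset.sum_nonneg fun _ _ => abs_nonneg _, fun t ht k => ?_⟩
  have htI : t ∈ Ico 0 T := ⟨ht.1, ht.2.trans_lt hb⟩
  have hsp : SP (f t) := ⟨contDiff_slice hf htI, hper t htI⟩
  have h1 : ∀ j, |(k j : ℝ)| ^ n * ‖fr (f t) k‖ ≤ |C j| := by
    intro j
    have h2 : ‖fr ((pd j)^[n] (f t)) k‖ ≤ |C j| := by
      refine norm_fr_le_int (hsp.iter j n).cont (fun x hx => ?_) k
      exact (hC j (t, x) ⟨ht, hx⟩).trans (le_abs_self _)
    refine le_trans ?_ h2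
    rw [fr_iter hsp, norm_mul, norm_pow]
    gcongr
    rw [norm_mul, norm_mul, norm_mul, Complex.norm_I, mul_one, Complex.norm_real,
      Real.norm_eq_abs, abs_of_pos Real.pi_pos, Complex.norm_ofNat, Complex.norm_intCast]
    have h0 : 0 ≤ |(k j : ℝ)| := abs_nonneg _
    have := Real.pi_gt_three
    nlinarith
  calc (N k : ℝ) ^ n * ‖fr (f t) k‖ ≤ (∑ j, |(k j : ℝ)| ^ n) * ‖fr (f t) k‖ := by
        gcongr
        exact N_pow_le k n
    _ = ∑ j, |(k j : ℝ)| ^ n * ‖fr (f t) k‖ := Finset.sum_mul _ _ _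
    _ ≤ ∑ j, |C j| := Finset.sum_le_sum fun j _ => h1 j

theorem unif_dt (hf : ContDiffOn ℝ ∞ (fun z : ℝ × V => f z.1 z.2) (Ico 0 T ×ˢ univ))
    {a b : ℝ} (ha : 0 < a) (hb : b < T) :
    ∃ C : ℝ, 0 ≤ C ∧ ∀ t ∈ Icc a b, ∀ k, ‖fr (dt f t) k‖ ≤ C := by
  have hK : IsCompact (Icc a b ×ˢ cube) := isCompact_Icc.prod isCompact_Icc
  have hsub : Icc a b ×ˢ cube ⊆ Ioo 0 T ×ˢ (univ : Set V) :=
    prod_mono (fun s hs => ⟨ha.trans_le hs.1, hs.2.trans_lt hb⟩) (subset_univ _)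
  have hO : IsOpen (Ioo 0 T ×ˢ (univ : Set V)) := isOpen_Ioo.prod isOpen_univ
  have hd : ContinuousOn (fun z : ℝ × V =>
      fderiv ℝ (fun z : ℝ × V => f z.1 z.2) z (1, 0)) (Ioo 0 T ×ˢ univ) :=
    ((mono_Ioo hf (n := 1) (by norm_cast)).continuousOn_fderiv_of_isOpen hO le_rfl).clm_apply
      continuousOn_const
  obtain ⟨C, hC⟩ := hK.exists_bound_of_continuousOn (hd.mono hsub)
  refine ⟨|C|, abs_nonneg _, fun t ht k => ?_⟩
  have htI : t ∈ Ioo 0 T := ⟨ha.trans_le ht.1, ht.2.trans_lt hb⟩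
  refine norm_fr_le_int (contDiff_dt hf htI).continuous (fun x hx => ?_) k
  rw [dt_eq hf htI x]
  exact (hC (t, x) ⟨ht, hx⟩).trans (le_abs_self _)

end

/-- a summable majorant -/
noncomputable def maj (k : K3) : ℝ :=
  (1 / (1 + (k 0 : ℝ) ^ 2)) * ((1 / (1 + (k 1 : ℝ) ^ 2)) * (1 / (1 + (k 2 : ℝ) ^ 2)))

theorem maj_nonneg (k : K3) : 0 ≤ maj k := by unfold maj; positivity

theorem le_maj {k : K3} {x C D : ℝ} (hx : 0 ≤ x) (h0 : x ≤ C) (h1 : (N k : ℝ) ^ 6 * x ≤ D) :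
    x ≤ 64 * (C + D) * maj k := by
  have hN : (0 : ℝ) ≤ N k := by positivity
  have h2 : (1 + (N k : ℝ)) ^ 6 ≤ 64 * (1 + (N k : ℝ) ^ 6) := by
    rcases le_total (N k : ℝ) 1 with h | h
    · have : (1 + (N k : ℝ)) ^ 6 ≤ (1 + 1) ^ 6 := by gcongr
      nlinarith [pow_nonneg hN 6]
    · have : (1 + (N k : ℝ)) ^ 6 ≤ ((N k : ℝ) + (N k : ℝ)) ^ 6 := by gcongr
      have e : ((N k : ℝ) + (N k : ℝ)) ^ 6 = 64 * (N k : ℝ) ^ 6 := by ring
      linarith
  have h3 : (1 + (N k : ℝ)) ^ 6 * x ≤ 64 * (C + D) := by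
    calc (1 + (N k : ℝ)) ^ 6 * x ≤ (64 * (1 + (N k : ℝ) ^ 6)) * x := by gcongr
      _ = 64 * (x + (N k : ℝ) ^ 6 * x) := by ring
      _ ≤ _ := by linarith
  have a0 := one_add_sq_le k 0
  have a1 := one_add_sq_le k 1
  have a2 := one_add_sq_le k 2
  have hprod : (1 + (k 0 : ℝ) ^ 2) * ((1 + (k 1 : ℝ) ^ 2) * (1 + (k 2 : ℝ) ^ 2))
      ≤ (1 + (N k : ℝ)) ^ 6 := by
    calc (1 + (k 0 : ℝ) ^ 2) * ((1 + (k 1 : ℝ) ^ 2) * (1 + (k 2 : ℝ) ^ 2))
        ≤ (1 + (N k : ℝ)) ^ 2 * ((1 + (N k : ℝ)) ^ 2 * (1 + (N k : ℝ)) ^ 2) := by gcongr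
      _ = _ := by ring
  have hP : (0 : ℝ) < (1 + (k 0 : ℝ) ^ 2) * ((1 + (k 1 : ℝ) ^ 2) * (1 + (k 2 : ℝ) ^ 2)) := by
    positivity
  have e : 64 * (C + D) * maj k
    = (64 * (C + D)) / ((1 + (k 0 : ℝ) ^ 2) * ((1 + (k 1 : ℝ) ^ 2) * (1 + (k 2 : ℝ) ^ 2))) := by
    unfold maj
    field_simp
  rw [e, le_div_iff₀ hP, mul_comm]
  exact (mul_le_mul_of_nonneg_right hprod hx).trans h3

theorem summable_maj : Summable maj := summable_K3

section

variable {T : ℝ} {f : ℝ → V → ℝ}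

/-- weighted coefficients, uniformly on compact time intervals -/
theorem unif_wt (hf : ContDiffOn ℝ ∞ (fun z : ℝ × V => f z.1 z.2) (Ico 0 T ×ˢ univ))
    (hper : ∀ t ∈ Ico 0 T, Per (f t)) {b : ℝ} (hb : b < T) {s : ℝ} (hs2 : s ≤ 2) :
    ∃ C : ℝ, 0 ≤ C ∧ ∀ t ∈ Icc 0 b, ∀ k, wt s k * ‖fr (f t) k‖ ≤ C * maj k := by
  obtain ⟨C0, hC00, hC0⟩ := unif_fr hf hper hb 0
  obtain ⟨C4, hC40, hC4⟩ := unif_fr hf hper hb 4
  obtain ⟨C6, hC60, hC6⟩ := unif_fr hf hper hb 6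
  obtain ⟨C10, hC100, hC10⟩ := unif_fr hf hper hb 10
  refine ⟨64 * ((192 ^ 2 * C4 + C0) + (192 ^ 2 * C10 + C6)), by positivity, fun t ht k => ?_⟩
  have hn := norm_nonneg (fr (f t) k)
  have h0 := hC0 t ht k
  have h4 := hC4 t ht k
  have h6 := hC6 t ht k
  have h10 := hC10 t ht k
  rw [pow_zero, one_mul] at h0
  refine le_maj (mul_nonneg (wt_nonneg s k) hn) ?_ ?_
  · have := mul_le_mul_of_nonneg_right (wt_le_N hs2 k) hn
    linarith
  · have h1 := mul_le_mul_of_nonneg_right (wt_le_N hs2 k) hn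
    have h2 := mul_le_mul_of_nonneg_left h1 (by positivity : (0 : ℝ) ≤ (N k : ℝ) ^ 6)
    have e : (N k : ℝ) ^ 6 * ((192 ^ 2 * (N k : ℝ) ^ 4 + 1) * ‖fr (f t) k‖)
        = 192 ^ 2 * ((N k : ℝ) ^ 10 * ‖fr (f t) k‖) + (N k : ℝ) ^ 6 * ‖fr (f t) k‖ := by ring
    rw [e] at h2
    linarith

theorem hs_continuousOn (hf : ContDiffOn ℝ ∞ (fun z : ℝ × V => f z.1 z.2) (Ico 0 T ×ˢ univ))
    (hper : ∀ t ∈ Ico 0 T, Per (f t)) {s : ℝ} (hs2 : s ≤ 2) :
    ContinuousOn (fun t => hs s (fr (f t))) (Ico 0 T) := by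
  intro t ht
  obtain ⟨b, hb1, hb2⟩ := exists_between ht.2
  obtain ⟨C, hC0, hC⟩ := unif_wt hf hper hb2 hs2
  obtain ⟨D, hD0, hD⟩ := unif_fr hf hper hb2 0
  have h1 : ContinuousOn (fun t => hs s (fr (f t))) (Ico 0 b) := by
    unfold hs
    refine continuousOn_tsum (u := fun k => C * maj k * D) (fun k => ?_)
      ((summable_maj.mul_left C).mul_right D) (fun k τ hτ => ?_)
    · exact continuousOn_const.mul (((fr_continuousOn hf k).mono
        (Ico_subset_Ico_right hb2.le)).norm.pow 2)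
    · have hτ' : τ ∈ Icc 0 b := ⟨hτ.1, hτ.2.le⟩
      have a1 := hC τ hτ' k
      have a2 := hD τ hτ' k
      rw [pow_zero, one_mul] at a2
      rw [Real.norm_of_nonneg (mul_nonneg (wt_nonneg s k) (sq_nonneg _))]
      calc wt s k * ‖fr (f τ) k‖ ^ 2 = (wt s k * ‖fr (f τ) k‖) * ‖fr (f τ) k‖ := by ring
        _ ≤ (C * maj k) * D := mul_le_mul a1 a2 (norm_nonneg _) (mul_nonneg hC0 (maj_nonneg k))
  have h2 : ContinuousWithinAt (fun t => hs s (fr (f t))) (Ico 0 b) t := h1 t ⟨ht.1, hb1⟩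
  refine h2.mono_of_mem_nhdsWithin ?_
  have : Ico 0 T ∩ Iio b ⊆ Ico 0 b := fun x hx => ⟨hx.1.1, hx.2⟩
  exact mem_of_superset (inter_mem_nhdsWithin _ (Iio_mem_nhds hb1)) this

theorem hs_hasDerivAt (hf : ContDiffOn ℝ ∞ (fun z : ℝ × V => f z.1 z.2) (Ico 0 T ×ˢ univ))
    (hper : ∀ t ∈ Ico 0 T, Per (f t)) {s : ℝ} (hs2 : s ≤ 2) {t : ℝ} (ht : t ∈ Ioo 0 T) :
    HasDerivAt (fun t => hs s (fr (f t)))
      (∑' k, wt s k * (2 * (conj (fr (f t) k) * fr (dt f t) k).re)) t := by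
  obtain ⟨a, ha1, ha2⟩ := exists_between ht.1
  obtain ⟨b, hb1, hb2⟩ := exists_between ht.2
  obtain ⟨C, hC0, hC⟩ := unif_wt hf hper hb2 hs2
  obtain ⟨D, hD0, hD⟩ := unif_fr hf hper hb2 0
  obtain ⟨D', hD0', hD'⟩ := unif_dt hf ha1 hb2
  have hder : ∀ (k : K3) (τ : ℝ), τ ∈ Ioo a b → HasDerivAt (fun t => wt s k * ‖fr (f t) k‖ ^ 2)
      (wt s k * (2 * (conj (fr (f τ) k) * fr (dt f τ) k).re)) τ := by
    intro k τ hτ
    have hτ' : τ ∈ Ioo 0 T := ⟨ha1.trans hτ.1, hτ.2.trans hb2⟩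
    have h1 := fr_hasDerivAt hf k hτ'
    have h2 : HasDerivAt (fun t => ‖fr (f t) k‖ ^ 2)
        (2 * (conj (fr (f τ) k) * fr (dt f τ) k).re) τ := by
      have hre : HasDerivAt (fun t => (fr (f t) k).re) (fr (dt f τ) k).re τ :=
        (Complex.reCLM.hasFDerivAt.comp_hasDerivAt τ h1)
      have him : HasDerivAt (fun t => (fr (f t) k).im) (fr (dt f τ) k).im τ :=
        (Complex.imCLM.hasFDerivAt.comp_hasDerivAt τ h1)
      have h3 := (hre.mul hre).add (him.mul him)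
      have e : (fun t => ‖fr (f t) k‖ ^ 2) = fun t => (fr (f t) k).re * (fr (f t) k).re
          + (fr (f t) k).im * (fr (f t) k).im := by
        funext t
        rw [← Complex.normSq_eq_norm_sq, Complex.normSq_apply]
      rw [e]
      refine h3.congr_deriv ?_
      simp only [Complex.mul_re, Complex.conj_re, Complex.conj_im]
      ring
    exact h2.const_mul _
  unfold hs
  refine hasDerivAt_tsum_of_isPreconnected (u := fun k => C * maj k * (2 * D'))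
    ((summable_maj.mul_left C).mul_right (2 * D')) isOpen_Ioo (isPreconnected_Ioo) hder
    (fun k τ hτ => ?_) (y₀ := t) ⟨ha2, hb1⟩ ?_ ⟨ha2, hb1⟩
  · have hτ' : τ ∈ Icc 0 b := ⟨ha1.le.trans hτ.1.le, hτ.2.le⟩
    have a1 := hC τ hτ' k
    have a2 := hD' τ ⟨hτ.1.le, hτ.2.le⟩ k
    have h3 : |(conj (fr (f τ) k) * fr (dt f τ) k).re| ≤ ‖fr (f τ) k‖ * ‖fr (dt f τ) k‖ := by
      refine (Complex.abs_re_le_norm _).trans (le_of_eq ?_)
      rw [norm_mul, Complex.norm_conj]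
    rw [Real.norm_eq_abs, abs_mul, abs_of_nonneg (wt_nonneg s k), abs_mul,
      abs_of_pos (by norm_num : (0 : ℝ) < 2)]
    calc wt s k * (2 * |(conj (fr (f τ) k) * fr (dt f τ) k).re|)
        ≤ wt s k * (2 * (‖fr (f τ) k‖ * ‖fr (dt f τ) k‖)) :=
          mul_le_mul_of_nonneg_left (by linarith) (wt_nonneg s k)
      _ = (wt s k * ‖fr (f τ) k‖) * (2 * ‖fr (dt f τ) k‖) := by ring
      _ ≤ (C * maj k) * (2 * D') := mul_le_mul a1 (by linarith)
          (by positivity) (mul_nonneg hC0 (maj_nonneg k))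
  · have hsp : SP (f t) := ⟨contDiff_slice hf ⟨ht.1.le, ht.2⟩, hper t ⟨ht.1.le, ht.2⟩⟩
    exact summable_hs hs2 (rap_fr hsp)

end

end Pool.Agent.U172.NS
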