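import Pool.Agent.U172.NS.Main

/-!
The criterion for one helical component of the vorticity.
-/

open MeasureTheory Set Filter Topology
open scoped ENNReal ComplexConjugate ContDiff

set_option autoImplicit false

namespace Pool.Agent.U172.NS

open H459R3.NS

/-- The helical part of the vorticity with sign `σ`: `(ω + σ (-Δ)^{1/2} v) / 2`, `ω = curl v`. -/
noncomputable def helVort (σ : ℝ) (v : V → V) (x : V) : V :=
  fun i => (curl v x i + σ * fracV (1 / 2) v x i) / 2

theorem lagrange (a b c : V) : |dot (crossProduct a b) c| ≤ len c * (len a * len b) := by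
  have h1 : dot (crossProduct a b) c ^ 2 ≤ (len c * (len a * len b)) ^ 2 := by
    rw [mul_pow, mul_pow, len_sq, len_sq, len_sq]
    unfold dot
    rw [Fin.sum_univ_three, Fin.sum_univ_three, Fin.sum_univ_three, Fin.sum_univ_three]
    simp only [cross_apply, Matrix.cons_val_zero, Matrix.cons_val_one, Matrix.cons_val]
    have key : (c 0 ^ 2 + c 1 ^ 2 + c 2 ^ 2) * ((a 0 ^ 2 + a 1 ^ 2 + a 2 ^ 2)
          * (b 0 ^ 2 + b 1 ^ 2 + b 2 ^ 2))
        - ((a 1 * b 2 - a 2 * b 1) * c 0 + (a 2 * b 0 - a 0 * b 2) * c 1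
          + (a 0 * b 1 - a 1 * b 0) * c 2) ^ 2
        = (c 0 ^ 2 + c 1 ^ 2 + c 2 ^ 2) * (a 0 * b 0 + a 1 * b 1 + a 2 * b 2) ^ 2
          + (((a 1 * b 2 - a 2 * b 1) * c 1 - (a 2 * b 0 - a 0 * b 2) * c 0) ^ 2
            + ((a 2 * b 0 - a 0 * b 2) * c 2 - (a 0 * b 1 - a 1 * b 0) * c 1) ^ 2
            + ((a 0 * b 1 - a 1 * b 0) * c 0 - (a 1 * b 2 - a 2 * b 1) * c 2) ^ 2) := by
      ring
    have h2 : 0 ≤ (c 0 ^ 2 + c 1 ^ 2 + c 2 ^ 2) * (a 0 * b 0 + a 1 * b 1 + a 2 * b 2) ^ 2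
          + (((a 1 * b 2 - a 2 * b 1) * c 1 - (a 2 * b 0 - a 0 * b 2) * c 0) ^ 2
            + ((a 2 * b 0 - a 0 * b 2) * c 2 - (a 0 * b 1 - a 1 * b 0) * c 1) ^ 2
            + ((a 0 * b 1 - a 1 * b 0) * c 0 - (a 1 * b 2 - a 2 * b 1) * c 2) ^ 2) := by
      positivity
    linarith
  have h2 : 0 ≤ len c * (len a * len b) :=
    mul_nonneg (len_nonneg _) (mul_nonneg (len_nonneg _) (len_nonneg _))
  exact abs_le_of_sq_le_sq h1 h2

theorem abs_dot_le (a b : V) : |dot a b| ≤ len a * len b := by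
  have h1 : dot a b ^ 2 ≤ (len a * len b) ^ 2 := by
    rw [mul_pow, len_sq, len_sq]
    unfold dot
    rw [Fin.sum_univ_three, Fin.sum_univ_three, Fin.sum_univ_three]
    nlinarith [sq_nonneg (a 0 * b 1 - a 1 * b 0), sq_nonneg (a 1 * b 2 - a 2 * b 1),
      sq_nonneg (a 2 * b 0 - a 0 * b 2)]
  exact abs_le_of_sq_le_sq h1 (mul_nonneg (len_nonneg _) (len_nonneg _))

theorem len_half_le {σ : ℝ} (hσ : σ = 1 ∨ σ = -1) (a b : V) :
    len (fun i => (a i + σ * b i) / 2) ≤ (len a + len b) / 2 := by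
  have hs : σ * σ = 1 := by rcases hσ with h | h <;> rw [h] <;> norm_num
  have ha := len_nonneg a
  have hb := len_nonneg b
  have hd := abs_le.1 (abs_dot_le a b)
  have h1 : len (fun i => (a i + σ * b i) / 2) ^ 2 ≤ ((len a + len b) / 2) ^ 2 := by
    have e : len (fun i => (a i + σ * b i) / 2) ^ 2
        = (len a ^ 2 + 2 * σ * dot a b + len b ^ 2) / 4 := by
      rw [len_sq, len_sq, len_sq]
      unfold dot
      rw [Fin.sum_univ_three, Fin.sum_univ_three, Fin.sum_univ_three, Fin.sum_univ_three]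
      linear_combination ((b 0 ^ 2 + b 1 ^ 2 + b 2 ^ 2) / 4) * hs
    rw [e]
    rcases hσ with h | h <;> rw [h] <;> nlinarith [hd.1, hd.2]
  exact le_of_sq_le_sq h1 (by positivity)

theorem lamb_hel (v : V → V) (x : V) :
    -dot (crossProduct (curl v x) (fluct v x)) (fracV (1 / 2) v x)
      ≤ min (len (helVort 1 v x)) (len (helVort (-1) v x))
        * ((len (curl v x) + len (fracV (1 / 2) v x)) * len (fluct v x)) := by
  have h1 := lagrange (helVort 1 v x) (fluct v x) (helVort (-1) v x)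
  have h2 : -dot (crossProduct (curl v x) (fluct v x)) (fracV (1 / 2) v x)
      = 2 * dot (crossProduct (helVort 1 v x) (fluct v x)) (helVort (-1) v x) := by
    unfold dot helVort
    rw [Fin.sum_univ_three, Fin.sum_univ_three]
    simp only [cross_apply, Matrix.cons_val_zero, Matrix.cons_val_one, Matrix.cons_val]
    ring
  rw [h2]
  have h3 := (abs_le.1 h1).2
  have hp : len (helVort 1 v x) ≤ (len (curl v x) + len (fracV (1 / 2) v x)) / 2 :=
    len_half_le (Or.inl rfl) _ _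
  have hm : len (helVort (-1) v x) ≤ (len (curl v x) + len (fracV (1 / 2) v x)) / 2 :=
    len_half_le (Or.inr rfl) _ _
  have np := len_nonneg (helVort 1 v x)
  have nm := len_nonneg (helVort (-1) v x)
  have nf := len_nonneg (fluct v x)
  have h4 : len (helVort (-1) v x) * len (helVort 1 v x)
      ≤ min (len (helVort 1 v x)) (len (helVort (-1) v x))
        * ((len (curl v x) + len (fracV (1 / 2) v x)) / 2) := by
    rcases le_total (len (helVort 1 v x)) (len (helVort (-1) v x)) with h | h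
    · rw [min_eq_left h, mul_comm]
      exact mul_le_mul_of_nonneg_left hm np
    · rw [min_eq_right h]
      exact mul_le_mul_of_nonneg_left hp nm
  have h5 := mul_le_mul_of_nonneg_right h4 nf
  nlinarith [h5, h3]

theorem cond_triv {s κν : ℝ} (hs2 : s ≤ 2) (hκ : 0 ≤ κν) {v : V → V} (hv : SPV v) {p : ℝ}
    (hp0 : 0 < p) : ∃ M : ℝ, 0 ≤ M ∧ ∃ f G H : V → ℝ,
      AEStronglyMeasurable f (volume.restrict cube) ∧
      eLpNorm f (ENNReal.ofReal p) (volume.restrict cube) ≤ ENNReal.ofReal M ∧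
      SP G ∧ SP H ∧ Cond s κν v f G H := by
  have hc : Continuous fun x => len (fracV s v x) := cont_len (cont_fracV hs2 hv)
  have hfin : eLpNorm (fun x => len (fracV s v x)) (ENNReal.ofReal p) (volume.restrict cube)
      < ⊤ := by
    obtain ⟨B, hB⟩ := (isCompact_Icc : IsCompact (Icc (0 : V) 1)).exists_bound_of_continuousOn
      hc.continuousOn
    have h1 : eLpNorm (fun x => len (fracV s v x)) (ENNReal.ofReal p) (volume.restrict cube)
        ≤ volume.restrict cube univ ^ (ENNReal.ofReal p).toReal⁻¹ * ENNReal.ofReal B := by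
      refine eLpNorm_le_of_ae_bound ?_
      exact (ae_restrict_iff' measurableSet_Icc).2 (Filter.Eventually.of_forall fun x hx => hB x hx)
    refine lt_of_le_of_lt h1 (ENNReal.mul_lt_top ?_ ENNReal.ofReal_lt_top)
    refine ENNReal.rpow_lt_top_of_nonneg (by positivity) ?_
    rw [Measure.restrict_apply_univ]
    exact (isCompact_Icc (a := (0 : V)) (b := 1)).measure_lt_top.ne
  have hz : SP (fun _ => (0 : ℝ)) := ⟨contDiff_const, fun _ _ => rfl⟩
  refine ⟨(eLpNorm (fun x => len (fracV s v x)) (ENNReal.ofReal p)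
    (volume.restrict cube)).toReal, ENNReal.toReal_nonneg, fun x => len (fracV s v x),
    fun _ => 0, fun _ => 0, hc.aestronglyMeasurable, ?_, hz, hz, ?_⟩
  · rw [ENNReal.ofReal_toReal hfin.ne]
  · refine Filter.Eventually.of_forall fun x => ?_
    have h1 := (abs_le.1 (lagrange (curl v x) (fluct v x) (fracV s v x))).1
    have h2 : 0 ≤ κν * len (fracV ((s + 1) / 2) v x) ^ 2 := by positivity
    have h4 : 0 ≤ len (fracV s v x) * (len (fracV (1 / 2) v x) * len (fluct v x)) :=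
      mul_nonneg (len_nonneg _) (mul_nonneg (len_nonneg _) (len_nonneg _))
    have h3 : ∀ a : V, dot a (grad (fun _ => (0 : ℝ)) x) = 0 := by
      intro a
      unfold dot grad pd
      simp
    rw [h3, h3]
    linarith

open Classical in
/-- The criterion at almost every time. -/
theorem main_ae {s p q κ ν : ℝ} (hs0 : 1 / 2 ≤ s) (hs1 : s ≤ 1) (hp0 : 0 < p)
    (hp1 : 6 < p * (2 * s + 3)) (hp2 : p * s ≤ 3) (hq : 2 / q = 1 + 2 * s - 3 / p)
    (hν : 0 < ν) (hκ0 : 0 ≤ κ) (hκ : κ < 1) :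
    ∃ C : ℝ, 0 ≤ C ∧ ∀ (T : ℝ) (u : ℝ → V → V) (P : ℝ → V → ℝ) (β : ℝ → ℝ), IsSol ν T u P →
      (∀ t ∈ Ioo 0 T, 0 ≤ β t) → IntegrableOn (fun t => β t ^ q) (Ioo 0 T) →
      (∀ᵐ t ∂(volume.restrict (Ioo 0 T)), ∃ f G H : V → ℝ,
        AEStronglyMeasurable f (volume.restrict cube) ∧
        eLpNorm f (ENNReal.ofReal p) (volume.restrict cube) ≤ ENNReal.ofReal (β t) ∧
        SP G ∧ SP H ∧ Cond s (κ * ν) (u t) f G H) →
      (∀ t ∈ Ico 0 T, Es s (u t) ≤ Es s (u 0) * Real.exp (C * ∫ τ in Ioo 0 T, β τ ^ q)) ∧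
      ∃ M, ∀ t ∈ Ico 0 T, ∀ x i, |u t x i| ≤ M := by
  obtain ⟨C, hC0, hC⟩ := main_all hs0 hs1 hp0 hp1 hp2 hq hν hκ
  refine ⟨C, hC0, fun T u P β h hβ0 hβi hc => ?_⟩
  set Q : ℝ → ℝ → Prop := fun t b => ∃ f G H : V → ℝ,
        AEStronglyMeasurable f (volume.restrict cube) ∧
        eLpNorm f (ENNReal.ofReal p) (volume.restrict cube) ≤ ENNReal.ofReal b ∧
        SP G ∧ SP H ∧ Cond s (κ * ν) (u t) f G H with hQ
  have hex : ∀ t ∈ Ioo 0 T, ∃ M : ℝ, 0 ≤ M ∧ Q t M := fun t ht =>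
    cond_triv (by linarith) (mul_nonneg hκ0 hν.le) (spv_of_sol h ⟨ht.1.le, ht.2⟩) hp0
  set β' : ℝ → ℝ := fun t => if Q t (β t) then β t else
    if ht : t ∈ Ioo 0 T then (hex t ht).choose else 0 with hβ'
  have hae : ∀ᵐ t ∂(volume.restrict (Ioo 0 T)), β' t ^ q = β t ^ q := by
    filter_upwards [hc] with t ht
    simp only [hβ']
    rw [if_pos ht]
  have hint : ∫ τ in Ioo 0 T, β' τ ^ q = ∫ τ in Ioo 0 T, β τ ^ q := integral_congr_ae hae
  have h1 := hC T u P β' h ?_ ?_ ?_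
  · rw [hint] at h1
    exact h1
  · intro t ht
    simp only [hβ']
    split_ifs with h2
    · exact hβ0 t ht
    · exact (hex t ht).choose_spec.1
  · exact hβi.congr (by filter_upwards [hae] with t ht using ht.symm)
  · intro t ht
    by_cases h2 : Q t (β t)
    · simp only [hβ']
      rw [if_pos h2]
      exact h2
    · simp only [hβ']
      rw [if_neg h2, dif_pos ht]
      exact (hex t ht).choose_spec.2

theorem helVort_cont (σ : ℝ) {v : V → V} (hv : SPV v) : Continuous (helVort σ v) := by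
  refine continuous_pi fun i => ?_
  have h1 : Continuous fun x => curl v x i := (continuous_apply i).comp (curl_spv hv).1.continuous
  have h2 : Continuous fun x => fracV (1 / 2) v x i := frac_cont (by norm_num) (hv.sp i)
  exact (h1.add (h2.const_mul σ)).div_const 2

/-- The pointwise smaller helical part of the vorticity. -/
theorem main_hel {p q ν : ℝ} (hp1 : 3 / 2 < p) (hp2 : p ≤ 6) (hq : 2 / q = 2 - 3 / p)
    (hν : 0 < ν) :
    ∃ C : ℝ, 0 ≤ C ∧ ∀ (T : ℝ) (u : ℝ → V → V) (P : ℝ → V → ℝ) (β : ℝ → ℝ), IsSol ν T u P →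
      (∀ t ∈ Ioo 0 T, 0 ≤ β t) → IntegrableOn (fun t => β t ^ q) (Ioo 0 T) →
      (∀ᵐ t ∂(volume.restrict (Ioo 0 T)),
        eLpNorm (fun x => min (len (helVort 1 (u t) x)) (len (helVort (-1) (u t) x)))
          (ENNReal.ofReal p) (volume.restrict cube) ≤ ENNReal.ofReal (β t)) →
      (∀ t ∈ Ico 0 T, Es (1 / 2) (u t)
        ≤ Es (1 / 2) (u 0) * Real.exp (C * ∫ τ in Ioo 0 T, β τ ^ q)) ∧
      ∃ M, ∀ t ∈ Ico 0 T, ∀ x i, |u t x i| ≤ M := by
  obtain ⟨C, hC0, hC⟩ := main_ae (s := 1 / 2) (p := p) (q := q) (κ := 0) le_rfl (by norm_num)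
    (by linarith) (by linarith) (by linarith) (by rw [hq]; ring) hν le_rfl one_pos
  refine ⟨C, hC0, fun T u P β h hβ0 hβi hc => hC T u P β h hβ0 hβi ?_⟩
  have hI : ∀ᵐ t ∂(volume.restrict (Ioo 0 T)), t ∈ Ioo 0 T := ae_restrict_mem measurableSet_Ioo
  have hz : SP (fun _ => (0 : ℝ)) := ⟨contDiff_const, fun _ _ => rfl⟩
  filter_upwards [hc, hI] with t hn htI
  have hv := spv_of_sol h ⟨htI.1.le, htI.2⟩
  refine ⟨fun x => min (len (helVort 1 (u t) x)) (len (helVort (-1) (u t) x)), fun _ => 0,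
    fun _ => 0, ((cont_len (helVort_cont 1 hv)).min
      (cont_len (helVort_cont (-1) hv))).aestronglyMeasurable, hn, hz, hz, ?_⟩
  refine Filter.Eventually.of_forall fun x => ?_
  have h3 : ∀ a : V, dot a (grad (fun _ => (0 : ℝ)) x) = 0 := by
    intro a
    unfold dot grad pd
    simp
  rw [h3, h3]
  have := lamb_hel (u t) x
  linarith

end Pool.Agent.U172.NS
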