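import Pool.Agent.U172.NS.Wts
import Pool.Agent.U172.NS.Hel

/-!
Regularity criteria for one helical part of the vorticity.
-/

open MeasureTheory Set Filter Topology
open scoped ENNReal ComplexConjugate ContDiff

set_option autoImplicit false

namespace Pool.Agent.U172.NS

open H459R3.NS

/-- the coefficients of the fluctuation -/
noncomputable def Uf (v : V → V) (i : Fin 3) : K3 → ℂ := fr fun y => fluct v y i

section
variable {v : V → V} (hv : SPV v)

include hv in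
theorem rap_Uf (i : Fin 3) : Rap (Uf v i) := rap_fr (fluct_sp hv i)

theorem hm_Uf (v : V → V) (i : Fin 3) : Hm (Uf v i) := hm_fr _

include hv in
theorem Vf_Uf : Vf (Uf v) = fluct v := by
  funext x i
  exact R_fr (fluct_sp hv i) x

include hv in
theorem Vf_cu : Vf (cu (Uf v)) = curl v := by
  funext x
  rw [← curl_Vf (rap_Uf hv), Vf_Uf hv, curl_fluct]

include hv in
theorem La_Uf (i : Fin 3) : La (Uf v i) = fun k => (wt (1 / 2) k : ℂ) * fr (fun y => v y i) k := by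
  funext k
  unfold La Uf
  rw [fr_fluct hv]
  by_cases hk : k = 0
  · subst hk
    rw [lam_zero, wt_zero (by norm_num)]
    simp
  · rw [if_neg hk]
    rfl

include hv in
theorem Vf_La : Vf (LaV (Uf v)) = fracV (1 / 2) v := by
  funext x i
  show R (La (Uf v i)) x = _
  rw [La_Uf hv]
  rfl

include hv in
theorem div_Uf (hdiv : ∀ x, ∑ i, pd i (fun y => v y i) x = 0) (k : K3) :
    ∑ i, D i (Uf v i) k = 0 := by
  have e : ∀ i, D i (Uf v i) = fr (pd i fun y => fluct v y i) := fun i =>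
    (fr_pd (fluct_sp hv i) i).symm
  simp_rw [e]
  have h1 : ∀ x, pd 0 (fun y => fluct v y 0) x + (pd 1 (fun y => fluct v y 1) x
      + pd 2 (fun y => fluct v y 2) x) = 0 := by
    intro x
    have := fluct_div hdiv x
    rw [Fin.sum_univ_three] at this
    linarith
  have c : ∀ i, SP (pd i fun y => fluct v y i) := fun i => (fluct_sp hv i).pd i
  rw [Fin.sum_univ_three, add_assoc, ← fr_add (c 1).cont (c 2).cont k,
    ← fr_add (c 0).cont ((c 1).add (c 2)).cont k]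
  unfold fr fc
  refine (integral_congr_ae (Eventually.of_forall fun x => ?_)).trans (integral_zero _ _)
  show ee (-k) x * ((pd 0 (fun y => fluct v y 0) x + (pd 1 (fun y => fluct v y 1) x
      + pd 2 (fun y => fluct v y 2) x) : ℝ) : ℂ) = 0
  rw [h1]
  simp

include hv in
theorem EU_Uf {s : ℝ} (hs : s ≠ 0) : EU s (Uf v) = Es s v := by
  unfold EU Es
  exact Finset.sum_congr rfl fun i _ => hs_fluct hv i hs

include hv in
theorem TD_Uf : TD (cu (Uf v)) (Uf v) (LaV (Uf v))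
    = ∫ x in cube, dot (crossProduct (curl v x) (fluct v x)) (fracV (1 / 2) v x) := by
  unfold TD
  rw [Vf_cu hv, Vf_Uf hv, Vf_La hv]

include hv in
theorem helVort_spv (σ : ℝ) : SPV (helVort σ v) := by
  have h1 := curl_spv hv
  have h2 : SPV (fracV (1 / 2) v) := by
    rw [← Vf_La hv]
    exact Vf_spv (rap_LaV (rap_Uf hv))
  refine ⟨contDiff_pi.2 fun i => ?_, fun j x => ?_⟩
  · unfold helVort
    exact ((h1.sp i).smooth.add (contDiff_const.mul (h2.sp i).smooth)).div_const 2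
  · unfold helVort
    funext i
    rw [h1.2 j x, h2.2 j x]

include hv in
theorem pois_helVort (σ : ℝ) {τ : ℝ} (hτ : 0 ≤ τ) (x : V) : poisV τ (helVort σ v) x
    = fun i => (Vf (FlV τ (cu (Uf v))) x i + σ * Vf (FlV τ (LaV (Uf v))) x i) / 2 := by
  funext i
  have h1 : SP (fun y => curl v y i) := (curl_spv hv).sp i
  have h2 : SP (fun y => fracV (1 / 2) v y i) := by
    rw [← Vf_La hv]
    exact (Vf_spv (rap_LaV (rap_Uf hv))).sp i
  have p1 : pois τ (fun y => curl v y i) x = Vf (FlV τ (cu (Uf v))) x i := by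
    rw [← Vf_cu hv]
    show R (Fl τ (fr (R (cu (Uf v) i)))) x = R (Fl τ (cu (Uf v) i)) x
    congr 2
    funext k
    exact fr_R (rap_cu (rap_Uf hv) i) (hm_cu (hm_Uf v) i) k
  have p2 : pois τ (fun y => fracV (1 / 2) v y i) x = Vf (FlV τ (LaV (Uf v))) x i := by
    rw [← Vf_La hv]
    show R (Fl τ (fr (R (La (Uf v i))))) x = R (Fl τ (La (Uf v i))) x
    congr 2
    funext k
    exact fr_R (rap_La (rap_Uf hv i)) (hm_Uf v i).La k
  have e : (fun y => helVort σ v y i)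
      = fun y => (1 / 2) * curl v y i + (σ / 2) * fracV (1 / 2) v y i := by
    funext y
    unfold helVort
    ring
  show pois τ (fun y => helVort σ v y i) x = _
  rw [e, pois_add (sp_smul h1 _) (sp_smul h2 _) hτ, pois_smul, pois_smul, p1, p2]
  ring

end

/-- the `L^P` based Besov norm of order `a - 1` of `w` is at most `b` -/
def BesovLe (a : ℝ) (P : ℝ≥0∞) (w : V → V) (b : ℝ) : Prop :=
  ∀ τ : ℝ, 0 < τ → eLpNorm (fun x => len (poisV τ w x)) P (volume.restrict cube)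
    ≤ ENNReal.ofReal (b * τ ^ (a - 1))

theorem prod_field {a : ℝ} (ha : 0 < a) (ha1 : a ≤ 1) {P : ℝ≥0∞} {y : ℝ}
    (hy : 3 * (P⁻¹).toReal = 2 * y) (hP0 : P ≠ 0) (hy0 : 0 ≤ y) (hy1 : y ≤ 1) :
    ∃ K : ℝ, 0 ≤ K ∧ ∀ (v : V → V) (σ B : ℝ), SPV v →
      (∀ x, ∑ i, pd i (fun y => v y i) x = 0) → (σ = 1 ∨ σ = -1) → 0 ≤ B →
      BesovLe a P (helVort σ v) B →
      -∫ x in cube, dot (crossProduct (curl v x) (fluct v x)) (fracV (1 / 2) v x)
        ≤ K * B * Es (1 + y - a / 2) v := by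
  obtain ⟨K, hK0, hK⟩ := prod_le ha ha1 hy hP0 hy0 hy1
  refine ⟨K, hK0, fun v σ B hv hdiv hσ hB hb => ?_⟩
  have h := hK (Uf v) σ B (rap_Uf hv) (hm_Uf v) (div_Uf hv hdiv) hσ hB (fun τ hτ => by
    have h1 := hb τ hτ
    simp_rw [pois_helVort hv σ hτ.le] at h1
    exact h1)
  rw [TD_Uf hv, EU_Uf hv (by linarith)] at h
  exact h

/-- `L^P` is contained in the Besov space of order `0` -/
theorem besov_one {P : ℝ≥0∞} (hP : 1 ≤ P) {w : V → V} (hw : SPV w) {b : ℝ}
    (h : eLpNorm (fun x => len (w x)) P (volume.restrict cube) ≤ ENNReal.ofReal b) :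
    BesovLe 1 P w b := by
  intro τ hτ
  rw [sub_self, Real.rpow_zero, mul_one]
  exact (contr hw hP hτ.le).trans h

theorem besov_fin {w : V → V} (hw : SPV w) : ∃ b : ℝ, 0 ≤ b ∧ BesovLe 1 ∞ w b := by
  have hc : Continuous fun x => len (w x) := cont_len hw.1.continuous
  obtain ⟨B, hB⟩ := (isCompact_Icc : IsCompact (Icc (0 : V) 1)).exists_bound_of_continuousOn
    hc.continuousOn
  refine ⟨max B 0, le_max_right _ _, besov_one le_top hw ?_⟩
  rw [eLpNorm_exponent_top]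
  refine eLpNormEssSup_le_of_ae_bound ?_
  exact (ae_restrict_iff' measurableSet_Icc).2 (Eventually.of_forall fun x hx =>
    (hB x hx).trans (le_max_left _ _))

/-- Gronwall's inequality at the level `s = 1/2` -/
theorem gron_half {ν δ T B : ℝ} {u : ℝ → V → V} {P : ℝ → V → ℝ} (h : IsSol ν T u P)
    (hν : 0 < ν) (hδ : 0 < δ) {g : ℝ → ℝ} (hg0 : ∀ t ∈ Ioo 0 T, 0 ≤ g t)
    (hgi : ∀ t ∈ Ico 0 T, IntegrableOn g (Icc 0 t))
    (hgB : ∀ t ∈ Ico 0 T, ∫ τ in (0 : ℝ)..t, g τ ≤ B)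
    (hle : ∀ t ∈ Ioo 0 T, -(2 * ν * Es (1 / 2 + 1) (u t))
      + 2 * -(∫ x in cube, dot (crossProduct (curl (u t) x) (fluct (u t) x))
        (fracV (1 / 2) (u t) x)) ≤ -(δ * Es (1 / 2 + 1) (u t)) + g t * Es (1 / 2) (u t)) :
    (∀ t ∈ Ico 0 T, Es (1 / 2) (u t) ≤ Es (1 / 2) (u 0) * Real.exp B) ∧
      ∃ M, ∀ t ∈ Ico 0 T, ∀ x i, |u t x i| ≤ M := by
  have hEc := Es_continuousOn h (s := 1 / 2) (by norm_num)
  have hDc := Es_continuousOn h (s := 1 / 2 + 1) (by norm_num)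
  obtain ⟨hb1, hb2⟩ := gronG (δ := δ) hδ hEc hDc (fun t => Es_nonneg _ _)
    (fun t => Es_nonneg _ _) (fun t ht => Es_hasDerivAt h (by norm_num) (by norm_num) ht)
    (g := g) (B := B) (by
      intro t ht
      have hI : t ∈ Ico 0 T := ⟨ht.1.le, ht.2⟩
      have hv := spv_of_sol h hI
      have hdiv := h.divfree t hI
      have h3 := nl_eq hv hdiv (s := 1 / 2) (by norm_num)
      rw [h3]
      have := hle t ht
      linarith) hg0 hgi hgB
  refine ⟨hb1, ?_⟩
  set Bd : ℝ := Es (1 / 2) (u 0) * Real.exp B with hBd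
  have hBd0 : 0 ≤ Bd := mul_nonneg (Es_nonneg _ _) (Real.exp_pos _).le
  set L : ℝ := (Es (1 / 2) (u 0) + Es (1 / 2) (u 0) * Real.exp B * B) / δ with hL
  refine bounded_of_enst h hν (K := 9 * Bd * L) fun t ht => ?_
  have hpt : ∀ τ ∈ Icc 0 t, Es 1 (u τ) ^ 2 ≤ 9 * Bd * Es (1 / 2 + 1) (u τ) := by
    intro τ hτ
    have hI : τ ∈ Ico 0 T := ⟨hτ.1, hτ.2.trans_lt ht.2⟩
    have hv := spv_of_sol h hI
    have h1 := Es_interp (s := 1 / 2) (θ := 1 / 2) (by norm_num) (by norm_num) (by norm_num)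
      (by norm_num) hv
    rw [add_halves, show (1 : ℝ) - 1 / 2 = 1 / 2 by norm_num] at h1
    have hE0 := Es_nonneg (1 / 2) (u τ)
    have hD0 := Es_nonneg (1 / 2 + 1) (u τ)
    have h2 : Es 1 (u τ) ^ 2
        ≤ (3 * (Es (1 / 2) (u τ) ^ (1 / 2 : ℝ) * Es (1 / 2 + 1) (u τ) ^ (1 / 2 : ℝ))) ^ 2 :=
      pow_le_pow_left₀ (Es_nonneg _ _) h1 2
    rw [← Real.sqrt_eq_rpow, ← Real.sqrt_eq_rpow, mul_pow, mul_pow, Real.sq_sqrt hE0,
      Real.sq_sqrt hD0] at h2
    have h3 := mul_le_mul_of_nonneg_right (hb1 τ hI) hD0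
    linarith
  have hc1 : ContinuousOn (fun τ => Es 1 (u τ) ^ 2) (Icc 0 t) :=
    ((Es_continuousOn h (s := 1) (by norm_num)).pow 2).mono
      fun τ hτ => ⟨hτ.1, hτ.2.trans_lt ht.2⟩
  have hc2 : ContinuousOn (fun τ => Es (1 / 2 + 1) (u τ)) (Icc 0 t) :=
    hDc.mono fun τ hτ => ⟨hτ.1, hτ.2.trans_lt ht.2⟩
  have j3 : IntervalIntegrable (fun τ => Es 1 (u τ) ^ 2) volume 0 t :=
    hc1.intervalIntegrable_of_Icc ht.1
  have j4 : IntervalIntegrable (fun τ => 9 * Bd * Es (1 / 2 + 1) (u τ)) volume 0 t :=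
    (continuousOn_const.mul hc2).intervalIntegrable_of_Icc ht.1
  have h5 := intervalIntegral.integral_mono_on ht.1 j3 j4 hpt
  refine h5.trans ?_
  rw [intervalIntegral.integral_const_mul]
  exact mul_le_mul_of_nonneg_left (hb2 t ht) (by positivity)

end Pool.Agent.U172.NS
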