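import Pool.Agent.U172.NS.Sm

/-!
The Poisson semigroup on Fourier coefficients: derivative in `τ`, positivity.
-/

open MeasureTheory Set Filter Topology
open scoped ENNReal ComplexConjugate ContDiff

set_option autoImplicit false

namespace Pool.Agent.U172.NS

open H459R3.NS

/-! ### sums of exponentials -/

/-- `∑ exp (-τ Lᵢ) cᵢ` -/
noncomputable def Ex {ι : Type*} (L : ι → ℝ) (c : ι → ℂ) (τ : ℝ) : ℂ :=
  ∑' i, ((Real.exp (-(τ * L i)) : ℝ) : ℂ) * c i

theorem norm_ex_le {ι : Type*} {L : ι → ℝ} (hL : ∀ i, 0 ≤ L i) (c : ι → ℂ) {τ : ℝ} (hτ : 0 ≤ τ)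
    (i : ι) : ‖((Real.exp (-(τ * L i)) : ℝ) : ℂ) * c i‖ ≤ ‖c i‖ := by
  rw [norm_mul, Complex.norm_real, Real.norm_of_nonneg (Real.exp_pos _).le]
  have h : Real.exp (-(τ * L i)) ≤ 1 := Real.exp_le_one_iff.2 (by
    have := mul_nonneg hτ (hL i)
    linarith)
  calc Real.exp (-(τ * L i)) * ‖c i‖ ≤ 1 * ‖c i‖ :=
        mul_le_mul_of_nonneg_right h (norm_nonneg _)
    _ = ‖c i‖ := one_mul _

theorem Ex_hasDerivAt {ι : Type*} {L : ι → ℝ} (hL : ∀ i, 0 ≤ L i) {c : ι → ℂ}
    (hc : Summable fun i => ‖c i‖) (hLc : Summable fun i => L i * ‖c i‖) {τ : ℝ} (hτ : 0 < τ) :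
    HasDerivAt (Ex L c) (-(Ex L (fun i => (L i : ℂ) * c i) τ)) τ := by
  have h1 : ∀ (i : ι) (y : ℝ), HasDerivAt (fun y => ((Real.exp (-(y * L i)) : ℝ) : ℂ) * c i)
      (-(((Real.exp (-(y * L i)) : ℝ) : ℂ) * ((L i : ℂ) * c i))) y := by
    intro i y
    have h2 : HasDerivAt (fun y : ℝ => Real.exp (-(y * L i)))
        (Real.exp (-(y * L i)) * -(1 * L i)) y :=
      (((hasDerivAt_id y).mul_const (L i)).neg).exp
    have h3 := (h2.ofReal_comp).mul_const (c i)
    refine h3.congr_deriv ?_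
    push_cast
    ring
  have h := hasDerivAt_tsum_of_isPreconnected (𝕜 := ℝ) (t := Ioi 0)
    (g := fun i y => ((Real.exp (-(y * L i)) : ℝ) : ℂ) * c i)
    (g' := fun i y => -(((Real.exp (-(y * L i)) : ℝ) : ℂ) * ((L i : ℂ) * c i)))
    hLc isOpen_Ioi (convex_Ioi 0).isPreconnected (fun i y _ => h1 i y) (fun i y hy => by
      rw [norm_neg]
      refine (norm_ex_le hL (fun i => (L i : ℂ) * c i) (le_of_lt hy) i).trans (le_of_eq ?_)
      rw [norm_mul, Complex.norm_real, Real.norm_of_nonneg (hL i)]) (y₀ := 1) (mem_Ioi.2 one_pos)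
    (Summable.of_norm (Summable.of_nonneg_of_le (fun _ => norm_nonneg _)
      (fun i => norm_ex_le hL c zero_le_one i) hc)) (mem_Ioi.2 hτ)
  refine h.congr_deriv ?_
  unfold Ex
  rw [← tsum_neg]

theorem Ex_continuousOn {ι : Type*} {L : ι → ℝ} (hL : ∀ i, 0 ≤ L i) {c : ι → ℂ}
    (hc : Summable fun i => ‖c i‖) : ContinuousOn (Ex L c) (Ici 0) := by
  unfold Ex
  refine continuousOn_tsum (fun i => ?_) hc (fun i τ hτ => norm_ex_le hL c hτ i)
  exact ((Complex.continuous_ofReal.comp (Real.continuous_exp.comp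
    (continuous_id.mul continuous_const).neg)).mul continuous_const).continuousOn

/-! ### the flow -/

/-- the symbol of `(-Δ)^{1/2}` -/
noncomputable def lam (k : K3) : ℝ := wt (1 / 2) k

theorem lam_nonneg (k : K3) : 0 ≤ lam k := wt_nonneg _ _

theorem lam_neg (k : K3) : lam (-k) = lam k := wt_neg _ _

theorem lam_sq (k : K3) : lam k * lam k = q2 k := by
  unfold lam wt
  rw [← Real.rpow_add' (q2_nonneg k) (by norm_num)]
  norm_num

theorem lam_zero : lam 0 = 0 := wt_zero (by norm_num)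

theorem one_le_lam {k : K3} (hk : k ≠ 0) : 1 ≤ lam k := by
  have h1 := one_le_q2 hk
  have h2 := lam_nonneg k
  have h3 := lam_sq k
  nlinarith

theorem lam_le (k : K3) : lam k ≤ 14 * (N k : ℝ) := by
  have h1 := q2_le k
  have h2 := lam_sq k
  have h3 : (0 : ℝ) ≤ N k := by positivity
  have h4 := lam_nonneg k
  nlinarith

/-- the Poisson semigroup on coefficients -/
noncomputable def Fl (τ : ℝ) (a : K3 → ℂ) (k : K3) : ℂ :=
  ((Real.exp (-(τ * lam k)) : ℝ) : ℂ) * a k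

/-- `(-Δ)^{1/2}` on coefficients -/
noncomputable def La (a : K3 → ℂ) (k : K3) : ℂ := (lam k : ℂ) * a k

theorem Hm.Fl {a : K3 → ℂ} (ha : Hm a) (τ : ℝ) : Hm (Fl τ a) :=
  ha.mul (w := fun k => Real.exp (-(τ * lam k))) fun k => by rw [lam_neg]

theorem Hm.La {a : K3 → ℂ} (ha : Hm a) : Hm (La a) := ha.mul (w := lam) lam_neg

theorem rap_Fl {a : K3 → ℂ} (ha : Rap a) {τ : ℝ} (hτ : 0 ≤ τ) : Rap (Fl τ a) :=
  rap_wmul ha (w := fun k => Real.exp (-(τ * lam k))) (C := 1) (m := 0) fun k => by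
    rw [abs_of_pos (Real.exp_pos _), pow_zero, mul_one]
    exact Real.exp_le_one_iff.2 (by
      have := mul_nonneg hτ (lam_nonneg k)
      linarith)

theorem rap_La {a : K3 → ℂ} (ha : Rap a) : Rap (La a) :=
  rap_wmul ha (w := lam) (C := 14) (m := 1) fun k => by
    rw [abs_of_nonneg (lam_nonneg k), pow_one]
    exact lam_le k

theorem D_Fl (j : Fin 3) (τ : ℝ) (a : K3 → ℂ) : D j (Fl τ a) = Fl τ (D j a) := by
  funext k
  unfold D Fl
  ring

theorem La_Fl (τ : ℝ) (a : K3 → ℂ) : La (Fl τ a) = Fl τ (La a) := by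
  funext k
  unfold La Fl
  ring

theorem D_La (j : Fin 3) (a : K3 → ℂ) : D j (La a) = La (D j a) := by
  funext k
  unfold D La
  ring

theorem Fl_zero (a : K3 → ℂ) : Fl 0 a = a := by
  funext k
  unfold Fl
  simp

theorem lap_symb (a : K3 → ℂ) (k : K3) : La (La a) k + ∑ j, D j (D j a) k = 0 := by
  have h : (q2 k : ℂ) = (2 * Real.pi) ^ 2 * ∑ j, (k j : ℂ) ^ 2 := by
    unfold q2
    push_cast
    ring
  unfold La D
  rw [← mul_assoc, ← Complex.ofReal_mul, lam_sq, h, Finset.mul_sum, Finset.sum_mul,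
    ← Finset.sum_add_distrib]
  refine Finset.sum_eq_zero fun j _ => ?_
  have hI : Complex.I * Complex.I = -1 := Complex.I_mul_I
  linear_combination (4 * (Real.pi : ℂ) ^ 2 * (k j : ℂ) ^ 2 * a k) * hI

theorem S_Fl (τ : ℝ) (a : K3 → ℂ) (x : V) : S (Fl τ a) x = Ex lam (fun k => a k * ee k x) τ := by
  unfold S Ex Fl
  exact tsum_congr fun k => mul_assoc _ _ _

theorem S_Fl_hasDerivAt {a : K3 → ℂ} (ha : Rap a) (x : V) {τ : ℝ} (hτ : 0 < τ) :
    HasDerivAt (fun τ => S (Fl τ a) x) (-(S (Fl τ (La a)) x)) τ := by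
  have h := Ex_hasDerivAt (L := lam) lam_nonneg (c := fun k => a k * ee k x)
    (by simp_rw [norm_term]; exact ha.summable.norm)
    (by
      simp_rw [norm_term]
      refine ((rap_La ha).summable.norm).congr fun k => ?_
      unfold La
      rw [norm_mul, Complex.norm_real, Real.norm_of_nonneg (lam_nonneg k)]) hτ
  have e : (fun τ => S (Fl τ a) x) = Ex lam (fun k => a k * ee k x) :=
    funext fun τ => S_Fl τ a x
  rw [e, S_Fl]
  refine h.congr_deriv ?_
  congr 2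
  funext k
  unfold La
  ring

theorem R_Fl_hasDerivAt {a : K3 → ℂ} (ha : Rap a) (x : V) {τ : ℝ} (hτ : 0 < τ) :
    HasDerivAt (fun τ => R (Fl τ a) x) (-(R (Fl τ (La a)) x)) τ := by
  have h := Complex.reCLM.hasFDerivAt.comp_hasDerivAt τ (S_Fl_hasDerivAt ha x hτ)
  refine h.congr_deriv ?_
  unfold R
  simp

theorem R_line_hasDerivAt {a : K3 → ℂ} (ha : Rap a) (x : V) (j : Fin 3) (s : ℝ) :
    HasDerivAt (fun s => R a (x + s • Pi.single j 1)) (R (D j a) (x + s • Pi.single j 1)) s := by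
  have h1 : HasDerivAt (fun s : ℝ => x + s • (Pi.single j 1 : V)) ((1 : ℝ) • Pi.single j 1) s :=
    ((hasDerivAt_id s).smul_const (Pi.single j 1 : V)).const_add x
  have h2 : HasFDerivAt (R a) (fderiv ℝ (R a) (x + s • Pi.single j 1)) (x + s • Pi.single j 1) :=
    ((R_sp ha).diff _).hasFDerivAt
  have h3 := h2.comp_hasDerivAt s h1
  refine h3.congr_deriv ?_
  rw [one_smul]
  exact pd_R ha j _

theorem R_add {a b : K3 → ℂ} (ha : Rap a) (hb : Rap b) (x : V) :
    R (fun k => a k + b k) x = R a x + R b x := by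
  unfold R S
  rw [← Complex.add_re, ← (summable_term ha.summable x).tsum_add (summable_term hb.summable x)]
  congr 1
  exact tsum_congr fun k => add_mul _ _ _

theorem R_sum {ι : Type*} (s : Finset ι) {a : ι → K3 → ℂ} (ha : ∀ i ∈ s, Rap (a i)) (x : V) :
    R (fun k => ∑ i ∈ s, a i k) x = ∑ i ∈ s, R (a i) x := by
  unfold R S
  rw [← Complex.re_sum, ← Summable.tsum_finsetSum fun i hi => summable_term (ha i hi).summable x]
  congr 1
  exact tsum_congr fun k => Finset.sum_mul _ _ _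

theorem R_smul (c : ℝ) (a : K3 → ℂ) (x : V) : R (fun k => (c : ℂ) * a k) x = c * R a x := by
  unfold R S
  simp_rw [mul_assoc]
  rw [tsum_mul_left, Complex.re_ofReal_mul]

theorem R_zero (x : V) : R (fun _ => 0) x = 0 := by
  unfold R S
  simp

end Pool.Agent.U172.NS
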