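import Pool.Agent.U172.NS.Bd2

/-!
One-sided criterion in the half space: integration over the height.
-/

open MeasureTheory Set Filter Topology
open scoped ENNReal ComplexConjugate ContDiff

set_option autoImplicit false

namespace Pool.Agent.U172.NS

open H459R3.NS

theorem hs_Fl_eq (s : ℝ) (a : K3 → ℂ) (τ : ℝ) : hs s (Fl τ a)
    = (Ex (fun k => 2 * lam k) (fun k => ((wt s k * ‖a k‖ ^ 2 : ℝ) : ℂ)) τ).re := by
  have e : Ex (fun k => 2 * lam k) (fun k => ((wt s k * ‖a k‖ ^ 2 : ℝ) : ℂ)) τ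
      = ((hs s (Fl τ a) : ℝ) : ℂ) := by
    unfold Ex hs
    rw [Complex.ofReal_tsum]
    refine tsum_congr fun k => ?_
    rw [← Complex.ofReal_mul]
    congr 1
    unfold Fl
    rw [norm_mul, Complex.norm_real, Real.norm_of_nonneg (Real.exp_pos _).le, mul_pow,
      ← Real.exp_nat_mul]
    rw [show ((2 : ℕ) : ℝ) * -(τ * lam k) = -(τ * (2 * lam k)) by push_cast; ring]
    ring
  rw [e, Complex.ofReal_re]

theorem wt_lam {s : ℝ} (hs : 0 < s) (k : K3) : lam k * wt s k = wt (s + 1 / 2) k := by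
  by_cases hk : k = 0
  · subst hk
    rw [lam_zero, zero_mul, wt_zero (by linarith)]
  · unfold lam wt
    rw [← Real.rpow_add (q2_pos hk)]
    congr 1
    ring

section
variable {s : ℝ} (hs0 : 0 < s) (hs2 : s ≤ 3 / 2) {U : Fin 3 → K3 → ℂ} (hU : ∀ i, Rap (U i))

include hs2 hU in
theorem sm1 (i : Fin 3) : Summable fun k => ‖((wt s k * ‖U i k‖ ^ 2 : ℝ) : ℂ)‖ := by
  refine (summable_hs (by linarith : s ≤ 2) (hU i)).congr fun k => ?_
  rw [Complex.norm_real, Real.norm_of_nonneg (mul_nonneg (wt_nonneg _ _) (sq_nonneg _))]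

include hs2 hU in
theorem sm2 (i : Fin 3) : Summable fun k => 2 * lam k * ‖((wt s k * ‖U i k‖ ^ 2 : ℝ) : ℂ)‖ := by
  refine ((summable_wl (by linarith : s ≤ 2) hU i).mul_left 2).congr fun k => ?_
  rw [Complex.norm_real, Real.norm_of_nonneg (mul_nonneg (wt_nonneg _ _) (sq_nonneg _))]
  ring

include hs0 hs2 hU in
theorem EU_hasDerivAt {τ : ℝ} (hτ : 0 < τ) :
    HasDerivAt (fun τ => EU s (FlV τ U)) (-(2 * EU (s + 1 / 2) (FlV τ U))) τ := by
  unfold EU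
  have h : ∀ i, HasDerivAt (fun τ => hs s (FlV τ U i)) (-(2 * hs (s + 1 / 2) (FlV τ U i))) τ := by
    intro i
    have h1 := Ex_hasDerivAt (L := fun k => 2 * lam k)
      (fun k => mul_nonneg (by norm_num) (lam_nonneg k)) (sm1 hs2 hU i) (sm2 hs2 hU i) hτ
    have h2 := Complex.reCLM.hasFDerivAt.comp_hasDerivAt τ h1
    have e : (fun τ => hs s (FlV τ U i))
        = Complex.reCLM ∘ Ex (fun k => 2 * lam k) (fun k => ((wt s k * ‖U i k‖ ^ 2 : ℝ) : ℂ)) :=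
      funext fun τ => hs_Fl_eq s (U i) τ
    rw [e]
    refine h2.congr_deriv ?_
    rw [show hs (s + 1 / 2) (FlV τ U i) = hs (s + 1 / 2) (Fl τ (U i)) from rfl,
      hs_Fl_eq (s + 1 / 2) (U i) τ]
    simp only [Complex.reCLM_apply, Complex.neg_re]
    congr 1
    have e2 : ∀ k, ((2 * lam k : ℝ) : ℂ) * ((wt s k * ‖U i k‖ ^ 2 : ℝ) : ℂ)
        = (2 : ℂ) * ((wt (s + 1 / 2) k * ‖U i k‖ ^ 2 : ℝ) : ℂ) := by
      intro k
      rw [← wt_lam hs0 k]
      push_cast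
      ring
    simp_rw [e2]
    unfold Ex
    simp_rw [← mul_assoc, mul_comm _ (2 : ℂ), mul_assoc]
    rw [tsum_mul_left]
    simp
  have h3 := HasDerivAt.fun_sum fun i (_ : i ∈ (Finset.univ : Finset (Fin 3))) => h i
  refine h3.congr_deriv ?_
  rw [Finset.sum_neg_distrib, ← Finset.mul_sum]

include hs2 hU in
theorem EU_continuousOn : ContinuousOn (fun τ => EU s (FlV τ U)) (Ici 0) := by
  unfold EU
  refine continuousOn_finsetSum _ fun i _ => ?_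
  have h := Complex.continuous_re.comp_continuousOn
    (Ex_continuousOn (L := fun k => 2 * lam k)
      (fun k => mul_nonneg (by norm_num) (lam_nonneg k)) (sm1 hs2 hU i))
  exact h.congr fun τ _ => hs_Fl_eq s (U i) τ

end

/-- **the production is controlled by a one-sided bound in the half space** -/
theorem prod_le2 {a : ℝ} (ha : 0 < a) (ha1 : a ≤ 1) {P : ℝ≥0∞} {y : ℝ}
    (hy : 3 * (P⁻¹).toReal = 2 * y) (hP0 : P ≠ 0) (hy0 : 0 ≤ y) (hy1 : y ≤ 1) :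
    ∃ K : ℝ, 0 ≤ K ∧
    ∀ (U : Fin 3 → K3 → ℂ) (B κν : ℝ), (∀ i, Rap (U i)) → (∀ i, Hm (U i)) →
      (∀ k, ∑ i, D i (U i) k = 0) → 0 ≤ B → 0 ≤ κν →
      (∀ τ, 0 < τ → ∃ f : V → ℝ, AEStronglyMeasurable f (volume.restrict cube) ∧
        eLpNorm f P (volume.restrict cube) ≤ ENNReal.ofReal (B * τ ^ (a - 1)) ∧
        (∀ᵐ x ∂(volume.restrict cube), 2 * (qf (Vf (FlV τ U)) (Vf (FlV τ (cu U))) x
            - qf (Vf (FlV τ U)) (Vf (FlV τ (LaV U))) x)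
          ≤ f x * (mn (Vf (FlV τ U)) x ^ 2 + len (Vf (FlV τ (LaV U)) x) ^ 2)
            + 4 * κν * len (Vf (FlV τ (LaV (LaV U))) x) ^ 2)) →
      2 * -TD (cu U) U (LaV U) ≤ K * B * EU (1 + y - a / 2) U + 2 * κν * EU (1 / 2 + 1) U := by
  obtain ⟨K, hK0, hK⟩ := fixed_bound2 hy hP0 hy0 hy1
  refine ⟨K / (a * 2 ^ (a - 1)), by positivity, fun U B κν hU hU' hdiv hB hκ hX => ?_⟩
  set ζ : ℝ := 1 + y - a / 2 with hζ
  have hζ2 : ζ ≤ 2 := by rw [hζ]; linarith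
  have hζ0 : 0 < ζ := by rw [hζ]; linarith
  have hζa : ζ + a / 2 = 1 + y := by rw [hζ]; ring
  set Ψ : ℝ → ℝ := fun τ => TD (FlV τ (cu U)) (FlV τ U) (FlV τ (LaV U)) with hΨ
  have hΨc : ContinuousOn Ψ (Ici 0) :=
    TD_continuousOn (rap_cu hU) hU (rap_LaV hU) (hm_cu hU') hU' (hm_LaV hU')
  have hΨt : Tendsto Ψ atTop (𝓝 0) :=
    TD_tendsto (rap_cu hU) hU (rap_LaV hU) (hm_cu hU') hU' (hm_LaV hU') (cu_zero U)
  set c : ℝ := K / (a * 2 ^ (a - 1)) * B with hc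
  have hc0 : 0 ≤ c := by positivity
  set Z : ℝ → ℝ := fun τ => EU (3 / 2) (FlV τ U) with hZ
  have hZc : ContinuousOn Z (Ici 0) := EU_continuousOn le_rfl hU
  set h : ℝ → ℝ := fun τ => c * Gw a ζ U τ - 2 * Ψ τ - 2 * κν * Z τ with hh
  have hhc : ContinuousOn h (Ici 0) :=
    ((continuousOn_const.mul (Gw_continuousOn ha hζ2 hU)).sub (continuousOn_const.mul hΨc)).sub
      (continuousOn_const.mul hZc)
  have hderiv : ∀ τ, 0 < τ → HasDerivAt h
      (c * (∑ i, ∑' k, wt ζ k * ‖U i k‖ ^ 2 * dph2 a (lam k) τ)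
        - 2 * (Qf (Vf (FlV τ U)) (Vf (FlV τ (cu U))) - Qf (Vf (FlV τ U)) (Vf (FlV τ (LaV U))))
        - 2 * κν * (-(2 * EU (3 / 2 + 1 / 2) (FlV τ U)))) τ :=
    fun τ hτ => (((Gw_hasDerivAt ha ha1 hζ2 hU hτ).const_mul c).sub
      ((Psi_hasDerivAt hU hU' hdiv hτ).const_mul 2)).sub
      ((EU_hasDerivAt (by norm_num) le_rfl hU hτ).const_mul (2 * κν))
  have hnn : ∀ τ, 0 < τ → 0 ≤ c * (∑ i, ∑' k, wt ζ k * ‖U i k‖ ^ 2 * dph2 a (lam k) τ)
        - 2 * (Qf (Vf (FlV τ U)) (Vf (FlV τ (cu U))) - Qf (Vf (FlV τ U)) (Vf (FlV τ (LaV U))))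
        - 2 * κν * (-(2 * EU (3 / 2 + 1 / 2) (FlV τ U))) := by
    intro τ hτ
    have h1 := Gw_deriv_ge ha ha1 hζ2 hU (by rw [hζa]; linarith) hζ0 hτ
    rw [hζa] at h1
    have hBτ : 0 ≤ B * τ ^ (a - 1) := by positivity
    obtain ⟨f, hfm, hf, hcond⟩ := hX τ hτ
    have eL : ∀ A, LaV (FlV τ A) = FlV τ (LaV A) := fun A => funext fun i => La_Fl τ (A i)
    have h2 := hK (FlV τ U) (B * τ ^ (a - 1)) κν f (rap_FlV hU hτ.le)
      (fun i => (hU' i).Fl τ) hBτ hfm hf (by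
        rw [cu_Fl, eL, eL]
        exact hcond)
    rw [eL, cu_Fl] at h2
    have h3 := mul_le_mul_of_nonneg_left h1 hc0
    have h4 : c * (a * (2 * τ) ^ (a - 1) * EU (1 + y) (FlV τ U))
        = K * (B * τ ^ (a - 1)) * EU (1 + y) (FlV τ U) := by
      rw [hc, Real.mul_rpow (by norm_num) hτ.le]
      field_simp
    rw [show (3 / 2 : ℝ) + 1 / 2 = 2 by norm_num]
    linarith
  have hmono : MonotoneOn h (Ici 0) := by
    refine monotoneOn_of_deriv_nonneg (convex_Ici 0) hhc ?_ ?_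
    · rw [interior_Ici]
      exact fun τ hτ => (hderiv τ hτ).differentiableAt.differentiableWithinAt
    · rw [interior_Ici]
      intro τ hτ
      rw [(hderiv τ hτ).deriv]
      exact hnn τ hτ
  have hfin : ∀ᶠ r in atTop, 2 * -TD (cu U) U (LaV U)
      ≤ c * EU ζ U + 2 * κν * EU (1 / 2 + 1) U - 2 * Ψ r := by
    filter_upwards [eventually_ge_atTop (0 : ℝ)] with r hr
    have h1 := hmono (mem_Ici.2 le_rfl) (mem_Ici.2 hr) hr
    simp only [hh] at h1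
    have e : ∀ A : Fin 3 → K3 → ℂ, FlV 0 A = A := fun A => funext fun i => Fl_zero (A i)
    have h0 : Ψ 0 = TD (cu U) U (LaV U) := by
      simp only [hΨ]
      rw [e, e, e]
    have hZ0 : Z 0 = EU (1 / 2 + 1) U := by
      simp only [hZ]
      rw [e, show (3 / 2 : ℝ) = 1 / 2 + 1 by norm_num]
    rw [Gw_zero ha, h0, hZ0] at h1
    have h2 := mul_le_mul_of_nonneg_left (Gw_le ha hζ2 hU hr) hc0
    have h3 : 0 ≤ 2 * κν * Z r := mul_nonneg (by linarith) (EU_nonneg _ _)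
    linarith
  have hlim : Tendsto (fun r => c * EU ζ U + 2 * κν * EU (1 / 2 + 1) U - 2 * Ψ r) atTop
      (𝓝 (c * EU ζ U + 2 * κν * EU (1 / 2 + 1) U - 2 * 0)) :=
    tendsto_const_nhds.sub (hΨt.const_mul 2)
  rw [mul_zero, sub_zero] at hlim
  exact ge_of_tendsto hlim hfin

/-! ### fields -/

section
variable {v : V → V} (hv : SPV v)

include hv in
theorem D_Fl_Uf (τ : ℝ) (i j : Fin 3) : D j (Fl τ (fr fun y => v y i)) = D j (Fl τ (Uf v i)) := by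
  funext k
  unfold D Fl Uf
  rw [fr_fluct hv]
  by_cases hk : k = 0
  · subst hk; simp
  · rw [if_neg hk]

include hv in
theorem pd_poisV {τ : ℝ} (hτ : 0 ≤ τ) (i j : Fin 3) (x : V) :
    pd j (fun y => poisV τ v y i) x = pd j (fun y => Vf (FlV τ (Uf v)) y i) x := by
  have h1 : pd j (fun y => poisV τ v y i) x = R (D j (Fl τ (fr fun y => v y i))) x :=
    pd_R (rap_Fl (rap_fr (hv.sp i)) hτ) j x
  have h2 : pd j (fun y => Vf (FlV τ (Uf v)) y i) x = R (D j (Fl τ (Uf v i))) x :=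
    pd_R (rap_Fl (rap_Uf hv i) hτ) j x
  rw [h1, h2, D_Fl_Uf hv]

include hv in
theorem curl_poisV {τ : ℝ} (hτ : 0 ≤ τ) (x : V) :
    curl (poisV τ v) x = Vf (FlV τ (cu (Uf v))) x := by
  rw [← cu_Fl, ← curl_Vf (rap_FlV (rap_Uf hv) hτ)]
  unfold curl
  simp only [pd_poisV hv hτ]

include hv in
theorem frac_poisV {τ : ℝ} (hτ : 0 ≤ τ) (x : V) :
    fracV (1 / 2) (poisV τ v) x = Vf (FlV τ (LaV (Uf v))) x := by
  funext i
  show (S (fun k => (wt (1 / 2) k : ℂ) * fr (R (Fl τ (fr fun y => v y i))) k) x).re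
    = (S (Fl τ (La (Uf v i))) x).re
  congr 2
  funext k
  rw [fr_R (rap_Fl (rap_fr (hv.sp i)) hτ) ((hm_fr _).Fl τ)]
  unfold Fl La Uf
  rw [fr_fluct hv]
  by_cases hk : k = 0
  · subst hk
    rw [wt_zero (by norm_num), lam_zero]
    simp
  · rw [if_neg hk]
    unfold lam
    ring

include hv in
theorem frac1_poisV {τ : ℝ} (hτ : 0 ≤ τ) (x : V) :
    fracV 1 (poisV τ v) x = Vf (FlV τ (LaV (LaV (Uf v)))) x := by
  funext i
  show (S (fun k => (wt 1 k : ℂ) * fr (R (Fl τ (fr fun y => v y i))) k) x).re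
    = (S (Fl τ (La (La (Uf v i)))) x).re
  congr 2
  funext k
  rw [fr_R (rap_Fl (rap_fr (hv.sp i)) hτ) ((hm_fr _).Fl τ)]
  unfold Fl La Uf
  rw [fr_fluct hv]
  by_cases hk : k = 0
  · subst hk
    rw [wt_zero (by norm_num), lam_zero]
    simp
  · rw [if_neg hk]
    have : (wt 1 k : ℂ) = (lam k : ℂ) * (lam k : ℂ) := by
      rw [← Complex.ofReal_mul, lam_sq]
      unfold wt
      rw [Real.rpow_one]
    rw [this]
    ring

end

/-- the one-sided condition at the height `τ` on a field `V` -/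
def HalfCond (κν : ℝ) (W : V → V) (f : V → ℝ) : Prop :=
  ∀ᵐ x ∂(volume.restrict cube), 2 * (qf W (curl W) x - qf W (fracV (1 / 2) W) x)
    ≤ f x * (mn W x ^ 2 + len (fracV (1 / 2) W x) ^ 2) + 4 * κν * len (fracV 1 W x) ^ 2

theorem prod_field2 {a : ℝ} (ha : 0 < a) (ha1 : a ≤ 1) {P : ℝ≥0∞} {y : ℝ}
    (hy : 3 * (P⁻¹).toReal = 2 * y) (hP0 : P ≠ 0) (hy0 : 0 ≤ y) (hy1 : y ≤ 1) :
    ∃ K : ℝ, 0 ≤ K ∧ ∀ (v : V → V) (B κν : ℝ), SPV v →
      (∀ x, ∑ i, pd i (fun y => v y i) x = 0) → 0 ≤ B → 0 ≤ κν →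
      (∀ τ, 0 < τ → ∃ f : V → ℝ, AEStronglyMeasurable f (volume.restrict cube) ∧
        eLpNorm f P (volume.restrict cube) ≤ ENNReal.ofReal (B * τ ^ (a - 1)) ∧
        HalfCond κν (poisV τ v) f) →
      2 * -∫ x in cube, dot (crossProduct (curl v x) (fluct v x)) (fracV (1 / 2) v x)
        ≤ K * B * Es (1 + y - a / 2) v + 2 * κν * Es (1 / 2 + 1) v := by
  obtain ⟨K, hK0, hK⟩ := prod_le2 ha ha1 hy hP0 hy0 hy1
  refine ⟨K, hK0, fun v B κν hv hdiv hB hκ hb => ?_⟩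
  have h := hK (Uf v) B κν (rap_Uf hv) (hm_Uf v) (div_Uf hv hdiv) hB hκ (fun τ hτ => by
    obtain ⟨f, hfm, hf, hcond⟩ := hb τ hτ
    refine ⟨f, hfm, hf, ?_⟩
    filter_upwards [hcond] with x hx
    have e1 : qf (poisV τ v) (curl (poisV τ v)) x
        = qf (Vf (FlV τ (Uf v))) (Vf (FlV τ (cu (Uf v)))) x := by
      unfold qf
      simp only [pd_poisV hv hτ.le, curl_poisV hv hτ.le]
    have e2 : qf (poisV τ v) (fracV (1 / 2) (poisV τ v)) x
        = qf (Vf (FlV τ (Uf v))) (Vf (FlV τ (LaV (Uf v)))) x := by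
      unfold qf
      simp only [pd_poisV hv hτ.le, frac_poisV hv hτ.le]
    have e3 : mn (poisV τ v) x = mn (Vf (FlV τ (Uf v))) x := by
      unfold mn
      simp only [pd_poisV hv hτ.le]
    rw [e1, e2, e3, frac_poisV hv hτ.le, frac1_poisV hv hτ.le] at hx
    exact hx)
  rw [TD_Uf hv, EU_Uf hv (by linarith), EU_Uf hv (by norm_num)] at h
  exact h

end Pool.Agent.U172.NS
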