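import Pool.Agent.U172.NS.Gen

/-!
One-sided criterion in the half space: final form.
-/

open MeasureTheory Set Filter Topology
open scoped ENNReal ComplexConjugate ContDiff

set_option autoImplicit false

namespace Pool.Agent.U172.NS

open H459R3.NS

/-- the one-sided condition with the exponent `P` and the weight `b τ^(a-1)` -/
def HalfLe (a : ℝ) (P : ℝ≥0∞) (κν b : ℝ) (v : V → V) : Prop :=
  ∀ τ : ℝ, 0 < τ → ∃ f : V → ℝ, AEStronglyMeasurable f (volume.restrict cube) ∧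
    eLpNorm f P (volume.restrict cube) ≤ ENNReal.ofReal (b * τ ^ (a - 1)) ∧
    HalfCond κν (poisV τ v) f

open Classical in
theorem main_gen {a : ℝ} (ha : 0 < a) (ha1 : a ≤ 1) {P : ℝ≥0∞} {y q κ ν : ℝ}
    (hy : 3 * (P⁻¹).toReal = 2 * y) (hP0 : P ≠ 0) (hya : 2 * y < 1 + a)
    (hq : 2 / q = 1 + a - 2 * y) (hν : 0 < ν) (hκ0 : 0 ≤ κ) (hκ : κ < 1) :
    ∃ C c : ℝ, 0 ≤ C ∧ 0 < c ∧ ∀ (T : ℝ) (u : ℝ → V → V) (p : ℝ → V → ℝ) (β : ℝ → ℝ),
      IsSol ν T u p → (∀ t ∈ Ioo 0 T, 0 ≤ β t) → IntegrableOn (fun t => β t ^ q) (Ioo 0 T) →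
      (∀ᵐ t ∂(volume.restrict (Ioo 0 T)), HalfLe a P (κ * ν) (β t) (u t) ∨
        HalfLe a (ENNReal.ofReal (3 / (1 + a))) (κ * ν) (c * ν) (u t)) →
      (∀ t ∈ Ico 0 T, Es (1 / 2) (u t)
        ≤ Es (1 / 2) (u 0) * Real.exp (C * ∫ τ in Ioo 0 T, β τ ^ q)) ∧
      ∃ M, ∀ t ∈ Ico 0 T, ∀ x i, |u t x i| ≤ M := by
  have hy0 : 0 ≤ y := by
    have : 0 ≤ (P⁻¹).toReal := ENNReal.toReal_nonneg
    linarith
  obtain ⟨K1, hK10, hK1⟩ := prod_field2 ha ha1 hy hP0 hy0 (by linarith)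
  have hp0 : (0 : ℝ) < 3 / (1 + a) := by positivity
  have hy2 : 3 * ((ENNReal.ofReal (3 / (1 + a)))⁻¹).toReal = 2 * ((1 + a) / 2) := by
    rw [ENNReal.toReal_inv, ENNReal.toReal_ofReal hp0.le, inv_div]
    ring
  obtain ⟨K2, hK20, hK2⟩ := prod_field2 ha ha1 hy2 (ENNReal.ofReal_pos.2 hp0).ne'
    (by linarith) (by linarith)
  have hy3 : 3 * ((∞ : ℝ≥0∞)⁻¹).toReal = 2 * 0 := by simp
  obtain ⟨K3, hK30, hK3⟩ := prod_field one_pos le_rfl hy3 ENNReal.top_ne_zero le_rfl zero_le_one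
  set θ : ℝ := 2 * (1 / 2 + y - a / 2) with hθ
  have hθ0 : 0 ≤ θ := by rw [hθ]; linarith
  have hθ2 : θ < 2 := by rw [hθ]; linarith
  have hqθ : q = 2 / (2 - θ) := by
    have e : 2 - θ = 2 / q := by rw [hq, hθ]; ring
    rw [e]
    have : q ≠ 0 := by
      intro h0
      rw [h0, div_zero] at hq
      linarith
    field_simp
  have hκ1 : 0 < 1 - κ := by linarith
  have hδ : 0 < (1 - κ) * ν := mul_pos hκ1 hν
  have hκν : 0 ≤ κ * ν := mul_nonneg hκ0 hν.le
  obtain ⟨C, hC0, hC⟩ := young2 (K := 3 * K1) hθ0 hθ2 hδ (by positivity)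
  refine ⟨C, (1 - κ) / (K2 + 1), hC0, by positivity, fun T u p β h hβ0 hβi hc => ?_⟩
  set Q : ℝ → Prop := fun t => HalfLe a P (κ * ν) (β t) (u t) ∨
        HalfLe a (ENNReal.ofReal (3 / (1 + a))) (κ * ν) ((1 - κ) / (K2 + 1) * ν) (u t) with hQ
  have hsp : ∀ t ∈ Ioo 0 T, SPV (u t) := fun t ht => spv_of_sol h ⟨ht.1.le, ht.2⟩
  set g : ℝ → ℝ := fun t => if Q t then C * β t ^ q else
    if ht : t ∈ Ioo 0 T then 2 * K3 * (besov_fin (helVort_spv (hsp t ht) 1)).choose else 0 with hg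
  have hgae : ∀ᵐ t ∂(volume.restrict (Ioo 0 T)), C * β t ^ q = g t := by
    filter_upwards [hc] with t ht
    simp only [hg]
    rw [if_pos ht]
  have hgi : IntegrableOn g (Ioo 0 T) := (hβi.const_mul C).congr hgae
  have hgint : ∫ t in Ioo 0 T, g t = C * ∫ t in Ioo 0 T, β t ^ q := by
    rw [← integral_const_mul]
    exact (integral_congr_ae hgae).symm
  have hg0 : ∀ t ∈ Ioo 0 T, 0 ≤ g t := by
    intro t ht
    simp only [hg]
    split_ifs with h1
    · exact mul_nonneg hC0 (Real.rpow_nonneg (hβ0 t ht) q)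
    · exact mul_nonneg (by positivity) (besov_fin (helVort_spv (hsp t ht) 1)).choose_spec.1
  refine gron_half h hν hδ (g := g) hg0 ?_ ?_ ?_
  · intro t ht
    rw [integrableOn_Icc_iff_integrableOn_Ioc, integrableOn_Ioc_iff_integrableOn_Ioo]
    exact hgi.mono_set (Ioo_subset_Ioo_right ht.2.le)
  · intro t ht
    rw [intervalIntegral.integral_of_le ht.1, integral_Ioc_eq_integral_Ioo, ← hgint]
    refine setIntegral_mono_set hgi ?_ (Ioo_subset_Ioo_right ht.2.le).eventuallyLE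
    filter_upwards [ae_restrict_mem measurableSet_Ioo] with τ hτ
    exact hg0 τ hτ
  · intro t ht
    have hv := hsp t ht
    have hdiv := h.divfree t ⟨ht.1.le, ht.2⟩
    have hE0 := Es_nonneg (1 / 2) (u t)
    have hD0 := Es_nonneg (1 / 2 + 1) (u t)
    by_cases hq : Q t
    · have hgt : g t = C * β t ^ q := by simp only [hg]; rw [if_pos hq]
      rw [hgt]
      have hβt := hβ0 t ht
      have hg1 : 0 ≤ C * β t ^ q * Es (1 / 2) (u t) :=
        mul_nonneg (mul_nonneg hC0 (Real.rpow_nonneg hβt q)) hE0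
      rcases hq with h1 | h1
      · have h2 := hK1 (u t) (β t) (κ * ν) hv hdiv hβt hκν h1
        have h3 := Es_interp (s := 1 / 2) (θ := 1 / 2 + y - a / 2) (by norm_num) (by norm_num)
          (by linarith) (by linarith) hv
        rw [show (1 / 2 : ℝ) + (1 / 2 + y - a / 2) = 1 + y - a / 2 by ring] at h3
        have h4 := hC (β t) (Es (1 / 2) (u t)) (Es (1 / 2 + 1) (u t)) hβt hE0 hD0
        rw [← hqθ] at h4
        have e1 : (2 - θ) / 2 = 1 - (1 / 2 + y - a / 2) := by rw [hθ]; ring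
        have e2 : θ / 2 = 1 / 2 + y - a / 2 := by rw [hθ]; ring
        rw [e1, e2] at h4
        have h5 := mul_le_mul_of_nonneg_left h3 (mul_nonneg hK10 hβt)
        linarith
      · have hcν : 0 ≤ (1 - κ) / (K2 + 1) * ν := by positivity
        have h2 := hK2 (u t) _ (κ * ν) hv hdiv hcν hκν h1
        rw [show 1 + (1 + a) / 2 - a / 2 = 1 / 2 + 1 by ring] at h2
        have h3 : K2 * ((1 - κ) / (K2 + 1) * ν) ≤ (1 - κ) * ν := by
          have : K2 * ((1 - κ) / (K2 + 1) * ν) = K2 / (K2 + 1) * ((1 - κ) * ν) := by ring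
          rw [this]
          refine mul_le_of_le_one_left hδ.le ?_
          rw [div_le_one (by positivity)]
          linarith
        have h4 := mul_le_mul_of_nonneg_right h3 hD0
        linarith
    · have hgt : g t = 2 * K3 * (besov_fin (helVort_spv hv 1)).choose := by
        simp only [hg]
        rw [if_neg hq, dif_pos ht]
      rw [hgt]
      have hb := (besov_fin (helVort_spv hv 1)).choose_spec
      have h2 := hK3 (u t) 1 _ hv hdiv (Or.inl rfl) hb.1 hb.2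
      rw [show (1 : ℝ) + 0 - 1 / 2 = 1 / 2 by norm_num] at h2
      have h3 := mul_nonneg hκν hD0
      have h4 := mul_nonneg hδ.le hD0
      linarith

end Pool.Agent.U172.NS
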