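import Pool.Agent.U172.NS.Est
import Pool.Agent.H459R3.NS.Iso

/-!
Gronwall's inequality, and the passage from fractional norms to bounded velocities.
-/

open MeasureTheory Set Filter Topology
open scoped ENNReal ComplexConjugate ContDiff

set_option autoImplicit false

namespace Pool.Agent.U172.NS

open H459R3.NS

theorem gronG {T δ B : ℝ} {y D g y' : ℝ → ℝ} (hδ : 0 < δ) (hy : ContinuousOn y (Ico 0 T))
    (hD : ContinuousOn D (Ico 0 T)) (hy0 : ∀ t, 0 ≤ y t) (hD0 : ∀ t, 0 ≤ D t)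
    (hder : ∀ t ∈ Ioo 0 T, HasDerivAt y (y' t) t)
    (hle : ∀ t ∈ Ioo 0 T, y' t ≤ -(δ * D t) + g t * y t) (hg0 : ∀ t ∈ Ioo 0 T, 0 ≤ g t)
    (hgi : ∀ t ∈ Ico 0 T, IntegrableOn g (Icc 0 t))
    (hgB : ∀ t ∈ Ico 0 T, ∫ s in (0 : ℝ)..t, g s ≤ B) :
    (∀ t ∈ Ico 0 T, y t ≤ y 0 * Real.exp B) ∧
    ∀ t ∈ Ico 0 T, ∫ s in (0 : ℝ)..t, D s ≤ (y 0 + y 0 * Real.exp B * B) / δ := by
  have hen : ∀ t ∈ Ico 0 T, y t ≤ y 0 * Real.exp B := by
    intro t ht
    have hyc : ContinuousOn y (Icc 0 t) := hy.mono fun s hs => ⟨hs.1, hs.2.trans_lt ht.2⟩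
    have hlog : ∀ ε : ℝ, 0 < ε → y t + ε ≤ (y 0 + ε) * Real.exp B := by
      intro ε hε
      have hpos : ∀ s, 0 < y s + ε := fun s => by linarith [hy0 s]
      have hc : ContinuousOn (fun s => Real.log (y s + ε)) (Icc 0 t) :=
        (hyc.add continuousOn_const).log fun s _ => (hpos s).ne'
      have hd' : ∀ s ∈ Ioo 0 t, HasDerivWithinAt (fun s => Real.log (y s + ε))
          (y' s / (y s + ε)) (Ioi s) s := by
        intro s hs
        exact (((hder s ⟨hs.1, hs.2.trans ht.2⟩).add_const ε).log (hpos s).ne').hasDerivWithinAt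
      have hle' : ∀ s ∈ Ioo 0 t, y' s / (y s + ε) ≤ g s := by
        intro s hs
        have hs' : s ∈ Ioo 0 T := ⟨hs.1, hs.2.trans ht.2⟩
        rw [div_le_iff₀ (hpos s)]
        refine (hle s hs').trans ?_
        have h1 : 0 ≤ δ * D s := mul_nonneg hδ.le (hD0 s)
        have h2 : 0 ≤ g s * ε := mul_nonneg (hg0 s hs') hε.le
        linarith
      have h1 := intervalIntegral.sub_le_integral_of_hasDeriv_right_of_le ht.1 hc hd' (hgi t ht) hle'
      have h2 : Real.log (y t + ε) ≤ Real.log (y 0 + ε) + B := by linarith [hgB t ht]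
      calc y t + ε = Real.exp (Real.log (y t + ε)) := (Real.exp_log (hpos t)).symm
        _ ≤ Real.exp (Real.log (y 0 + ε) + B) := Real.exp_le_exp.2 h2
        _ = (y 0 + ε) * Real.exp B := by rw [Real.exp_add, Real.exp_log (hpos 0)]
    have hlim1 : Tendsto (fun ε : ℝ => y t + ε) (𝓝[>] 0) (𝓝 (y t + 0)) :=
      (tendsto_const_nhds.add tendsto_id).mono_left nhdsWithin_le_nhds
    have hlim2 : Tendsto (fun ε : ℝ => (y 0 + ε) * Real.exp B) (𝓝[>] 0)
        (𝓝 ((y 0 + 0) * Real.exp B)) :=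
      ((tendsto_const_nhds.add tendsto_id).mul_const _).mono_left nhdsWithin_le_nhds
    have := le_of_tendsto_of_tendsto hlim1 hlim2 (by
      filter_upwards [self_mem_nhdsWithin] with ε hε
      exact hlog ε hε)
    simpa using this
  refine ⟨hen, fun t ht => ?_⟩
  set Y : ℝ := y 0 * Real.exp B with hY
  have hY0 : 0 ≤ Y := mul_nonneg (hy0 0) (Real.exp_pos _).le
  have hyc : ContinuousOn y (Icc 0 t) := hy.mono fun s hs => ⟨hs.1, hs.2.trans_lt ht.2⟩
  have hDc : ContinuousOn D (Icc 0 t) := hD.mono fun s hs => ⟨hs.1, hs.2.trans_lt ht.2⟩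
  have hD1 : IntegrableOn D (Icc 0 t) := hDc.integrableOn_Icc
  have i2 : IntervalIntegrable D volume 0 t :=
    (intervalIntegrable_iff_integrableOn_Icc_of_le ht.1).2 hD1
  have i1 : IntervalIntegrable g volume 0 t :=
    (intervalIntegrable_iff_integrableOn_Icc_of_le ht.1).2 (hgi t ht)
  have hg1 : IntegrableOn (fun s => -(δ * D s) + Y * g s) (Icc 0 t) :=
    ((hD1.const_mul δ).neg).add ((hgi t ht).const_mul _)
  have h1 := intervalIntegral.sub_le_integral_of_hasDeriv_right_of_le ht.1 hyc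
    (fun s hs => (hder s ⟨hs.1, hs.2.trans ht.2⟩).hasDerivWithinAt) hg1
    (fun s hs => by
      have hs' : s ∈ Ioo 0 T := ⟨hs.1, hs.2.trans ht.2⟩
      have a1 := hle s hs'
      have a2 : g s * y s ≤ Y * g s := by
        rw [mul_comm]
        exact mul_le_mul_of_nonneg_right (hen s ⟨hs'.1.le, hs'.2⟩) (hg0 s hs')
      linarith)
  have j1 : IntervalIntegrable (fun s => -(δ * D s)) volume 0 t := (i2.const_mul δ).neg
  have j2 : IntervalIntegrable (fun s => Y * g s) volume 0 t := i1.const_mul _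
  rw [intervalIntegral.integral_add j1 j2, intervalIntegral.integral_neg,
    intervalIntegral.integral_const_mul, intervalIntegral.integral_const_mul] at h1
  have a1 := mul_le_mul_of_nonneg_left (hgB t ht) hY0
  have a4 := hy0 t
  rw [le_div_iff₀ hδ]
  linarith

theorem enst_eq {v : V → V} (hv : SPV v) : enstrophy v = Es 1 v := by
  unfold enstrophy Es
  refine Finset.sum_congr rfl fun i _ => ?_
  have h1 : ∀ j, ∫ x in cube, pd j (fun y => v y i) x ^ 2
      = ∑' k, ‖D j (fr fun y => v y i) k‖ ^ 2 := by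
    intro j
    rw [← n2_fr ((hv.sp i).pd j), n2_sq, fr_pd (hv.sp i)]
  simp_rw [h1]
  have hs : ∀ j : Fin 3, Summable fun k => ‖D j (fr fun y => v y i) k‖ ^ 2 := fun j =>
    summable_sq ((rap_fr (hv.sp i)).D j).summable
  rw [← Summable.tsum_finsetSum fun j _ => hs j]
  unfold NS.hs
  refine tsum_congr fun k => ?_
  unfold wt D q2
  rw [Real.rpow_one, Finset.mul_sum, Finset.sum_mul]
  refine Finset.sum_congr rfl fun j _ => ?_
  rw [norm_mul, norm_mul, norm_mul, norm_mul, Complex.norm_I, mul_one, Complex.norm_real,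
    Real.norm_eq_abs, abs_of_pos Real.pi_pos, Complex.norm_ofNat, Complex.norm_intCast,
    mul_pow, mul_pow, sq_abs]

theorem spv_of_sol {ν T : ℝ} {u : ℝ → V → V} {P : ℝ → V → ℝ} (h : IsSol ν T u P) {t : ℝ}
    (ht : t ∈ Ico 0 T) : SPV (u t) :=
  ⟨contDiff_pi.2 fun i => (h.sp ht i).smooth, h.per_u t ht⟩

theorem dimTwo_zero : DimTwo 1 {(0 : K3)} := by
  intro x r hr
  have h1 : ({q ∈ ({0} : Set K3) | ∀ j, |q j - x j| ≤ r}).ncard ≤ 1 := by
    refine (Set.ncard_le_ncard (fun q hq => hq.1) (Set.finite_singleton 0)).trans ?_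
    rw [Set.ncard_singleton]
  have h2 : (1 : ℝ) ≤ r := by exact_mod_cast hr
  have h3 : (({q ∈ ({0} : Set K3) | ∀ j, |q j - x j| ≤ r}).ncard : ℝ) ≤ 1 := by exact_mod_cast h1
  nlinarith

/-- A solution with square integrable enstrophy is bounded. -/
theorem bounded_of_enst {ν T : ℝ} {u : ℝ → V → V} {P : ℝ → V → ℝ} (h : IsSol ν T u P)
    (hν : 0 < ν) {K : ℝ} (hK : ∀ t ∈ Ico 0 T, ∫ s in (0 : ℝ)..t, Es 1 (u s) ^ 2 ≤ K) :
    ∃ M, ∀ t ∈ Ico 0 T, ∀ x i, |u t x i| ≤ M := by
  rcases le_or_gt T 0 with hT | hT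
  · exact ⟨0, fun t ht => absurd (ht.1.trans_lt ht.2) (by linarith)⟩
  obtain ⟨C6, hC60, hC6⟩ := sob (σ := 1) (by norm_num) (by norm_num)
  have h6 : (6 : ℝ) / (3 - 2 * 1) = 6 := by norm_num
  have h6' : ENNReal.ofReal 6 = 6 := by norm_num
  rw [h6, h6'] at hC6
  have h3 : (3 : ℝ≥0∞) < 6 := by norm_num
  have hpq : 3 * ((6 : ℝ≥0∞)⁻¹).toReal + 2 / (4 : ℝ) = 1 := by
    rw [ENNReal.toReal_inv]
    norm_num
  obtain ⟨C, hC0, hC⟩ := serrin h3 hpq hν (K := 0) (lam := 0) (κ := 0) le_rfl le_rfl (by norm_num)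
  have hcont : ContinuousOn (fun s => Es 1 (u s)) (Ico 0 T) := Es_continuousOn h (by norm_num)
  set β : ℝ → ℝ := fun t => C6 * Real.sqrt (Es 1 (u t)) with hβ
  have hβ4 : ∀ t, β t ^ (4 : ℝ) = C6 ^ 4 * Es 1 (u t) ^ 2 := by
    intro t
    rw [show (4 : ℝ) = ((4 : ℕ) : ℝ) by norm_num, Real.rpow_natCast]
    simp only [hβ]
    rw [mul_pow]
    congr 1
    calc Real.sqrt (Es 1 (u t)) ^ 4 = (Real.sqrt (Es 1 (u t)) ^ 2) ^ 2 := by ring
      _ = _ := by rw [Real.sq_sqrt (Es_nonneg _ _)]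
  have hint : IntegrableOn (fun s => Es 1 (u s) ^ 2) (Ioo 0 T) := by
    have h1 : IntegrableOn (fun s => Es 1 (u s) ^ 2) (Ioc 0 T) := by
      refine integrableOn_Ioc_of_intervalIntegral_norm_bounded_right (I := K) (l := atTop)
        (b := fun n : ℕ => T - T / (n + 2)) (fun n => ?_) ?_ (Eventually.of_forall fun n => ?_)
      · have hn : T - T / ((n : ℝ) + 2) < T := by
          have : 0 < T / ((n : ℝ) + 2) := by positivity
          linarith
        have hc : ContinuousOn (fun s => Es 1 (u s) ^ 2) (Icc 0 (T - T / ((n : ℝ) + 2))) :=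
          (hcont.pow 2).mono fun s hs => ⟨hs.1, hs.2.trans_lt hn⟩
        exact hc.integrableOn_Icc.mono_set Ioc_subset_Icc_self
      · have h2 : Tendsto (fun n : ℕ => T / ((n : ℝ) + 2)) atTop (𝓝 0) := by
          refine tendsto_const_nhds.div_atTop ?_
          exact tendsto_atTop_add_const_right _ _ tendsto_natCast_atTop_atTop
        simpa using tendsto_const_nhds (x := T).sub h2
      · have hn0 : 0 ≤ T - T / ((n : ℝ) + 2) := by
          have h5 : (1 : ℝ) ≤ (n : ℝ) + 2 := by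
            have : (0 : ℝ) ≤ n := Nat.cast_nonneg n
            linarith
          have : T / ((n : ℝ) + 2) ≤ T := div_le_self hT.le h5
          linarith
        have hn : T - T / ((n : ℝ) + 2) < T := by
          have : 0 < T / ((n : ℝ) + 2) := by positivity
          linarith
        have h5 := hK _ ⟨hn0, hn⟩
        rw [intervalIntegral.integral_of_le hn0] at h5
        refine le_trans (le_of_eq ?_) h5
        refine setIntegral_congr_fun measurableSet_Ioc fun s _ => ?_
        exact Real.norm_of_nonneg (sq_nonneg _)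
    exact h1.mono_set Ioo_subset_Ioc_self
  refine (hC T 1 u P β (fun _ => 0) h zero_le_one (fun t _ =>
    ⟨mul_nonneg hC60 (Real.sqrt_nonneg _), le_rfl⟩) ?_ integrableOn_zero fun t ht => ?_).2
  · simp_rw [hβ4]
    exact hint.const_mul _
  · have hI : t ∈ Ico 0 T := ⟨ht.1.le, ht.2⟩
    have hv := spv_of_sol h hI
    have hz : SPV (fun _ => (0 : V)) := SPV.zero
    have hw : SPV (fun _ : V => (fun i => ∫ y in cube, u t y i : V)) :=
      ⟨contDiff_const, fun _ _ => rfl⟩
    have hpz : ∀ (j : Fin 3) (c : ℝ), pd j (fun _ : V => c) = fun _ => 0 := by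
      intro j c
      funext x
      unfold pd
      simp
    refine ⟨fun _ => 0, fun _ => fun i => ∫ y in cube, u t y i, {0}, hz, hw, dimTwo_zero,
      fun i k hk => fr_const _ hk, ?_, ?_, ?_, ?_, fun i => ?_⟩
    · rw [enstrophy_zero]
      simp
    · have : palin (fun _ => (0 : V)) = 0 := by
        unfold palin lap
        simp [hpz]
      rw [this]
      simp
    · have : enstrophy (fun _ : V => (fun i => ∫ y in cube, u t y i : V)) = 0 := by
        unfold enstrophy
        simp [hpz]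
      rw [this]
      simp
    · have : stretch (fun _ => (0 : V)) = 0 := by
        unfold stretch
        simp [hpz]
      rw [this]
      simp
    · have e : (fun x => u t x i - (fun _ : V => (0 : V)) x i
          - (fun _ : V => (fun i => ∫ y in cube, u t y i : V)) x i) = fun x => fluct (u t) x i := by
        funext x
        unfold fluct
        simp
      rw [e]
      have h1 := eLp_of_sob (σ := 1) (C := C6) (by rw [h6, h6']; exact hC6) (fluct_sp hv i)
        (by rw [fr_fluct hv, if_pos rfl])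
      rw [h6, h6', hs_fluct hv i one_ne_zero] at h1
      refine h1.trans (ENNReal.ofReal_le_ofReal ?_)
      exact mul_le_mul_of_nonneg_left (Real.sqrt_le_sqrt (hs_le_Es 1 _ i)) hC60

end Pool.Agent.U172.NS
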