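import Pool.Agent.U172.NS.Fin

/-!
Regularity criteria for one helical part of the vorticity: final form.
-/

open MeasureTheory Set Filter Topology
open scoped ENNReal ComplexConjugate ContDiff

set_option autoImplicit false

namespace Pool.Agent.U172.NS

open H459R3.NS

open Classical in
theorem main_bes {a : ℝ} (ha : 0 < a) (ha1 : a ≤ 1) {P : ℝ≥0∞} {y q ν : ℝ}
    (hy : 3 * (P⁻¹).toReal = 2 * y) (hP0 : P ≠ 0) (hya : 2 * y < 1 + a)
    (hq : 2 / q = 1 + a - 2 * y) (hν : 0 < ν) :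
    ∃ C c : ℝ, 0 ≤ C ∧ 0 < c ∧ ∀ (T : ℝ) (u : ℝ → V → V) (p : ℝ → V → ℝ) (β : ℝ → ℝ),
      IsSol ν T u p → (∀ t ∈ Ioo 0 T, 0 ≤ β t) → IntegrableOn (fun t => β t ^ q) (Ioo 0 T) →
      (∀ᵐ t ∂(volume.restrict (Ioo 0 T)), ∃ σ : ℝ, (σ = 1 ∨ σ = -1) ∧
        (BesovLe a P (helVort σ (u t)) (β t) ∨
          BesovLe a (ENNReal.ofReal (3 / (1 + a))) (helVort σ (u t)) (c * ν))) →
      (∀ t ∈ Ico 0 T, Es (1 / 2) (u t)
        ≤ Es (1 / 2) (u 0) * Real.exp (C * ∫ τ in Ioo 0 T, β τ ^ q)) ∧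
      ∃ M, ∀ t ∈ Ico 0 T, ∀ x i, |u t x i| ≤ M := by
  have hy0 : 0 ≤ y := by
    have : 0 ≤ (P⁻¹).toReal := ENNReal.toReal_nonneg
    linarith
  obtain ⟨K1, hK10, hK1⟩ := prod_field ha ha1 hy hP0 hy0 (by linarith)
  have hp0 : (0 : ℝ) < 3 / (1 + a) := by positivity
  have hy2 : 3 * ((ENNReal.ofReal (3 / (1 + a)))⁻¹).toReal = 2 * ((1 + a) / 2) := by
    rw [ENNReal.toReal_inv, ENNReal.toReal_ofReal hp0.le, inv_div]
    ring
  obtain ⟨K2, hK20, hK2⟩ := prod_field ha ha1 hy2 (ENNReal.ofReal_pos.2 hp0).ne'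
    (by linarith) (by linarith)
  have hy3 : 3 * ((∞ : ℝ≥0∞)⁻¹).toReal = 2 * 0 := by simp
  obtain ⟨K3, hK30, hK3⟩ := prod_field one_pos le_rfl hy3 ENNReal.top_ne_zero le_rfl zero_le_one
  set θ : ℝ := 2 * (1 / 2 + y - a / 2) with hθ
  have hθ0 : 0 ≤ θ := by rw [hθ]; linarith
  have hθ2 : θ < 2 := by rw [hθ]; linarith
  have hqθ : q = 2 / (2 - θ) := by
    have e : 2 - θ = 2 / q := by rw [hq, hθ]; ring
    rw [e]
    have : q ≠ 0 := by
      intro h0
      rw [h0, div_zero] at hq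
      linarith
    field_simp
  obtain ⟨C, hC0, hC⟩ := young2 (K := 6 * K1) hθ0 hθ2 hν (by positivity)
  refine ⟨C, 1 / (2 * K2 + 1), hC0, by positivity, fun T u p β h hβ0 hβi hc => ?_⟩
  set Q : ℝ → Prop := fun t => ∃ σ : ℝ, (σ = 1 ∨ σ = -1) ∧
        (BesovLe a P (helVort σ (u t)) (β t) ∨
          BesovLe a (ENNReal.ofReal (3 / (1 + a))) (helVort σ (u t)) (1 / (2 * K2 + 1) * ν)) with hQ
  have hsp : ∀ t ∈ Ioo 0 T, SPV (u t) := fun t ht => spv_of_sol h ⟨ht.1.le, ht.2⟩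
  set g : ℝ → ℝ := fun t => if Q t then C * β t ^ q else
    if ht : t ∈ Ioo 0 T then 2 * K3 * (besov_fin (helVort_spv (hsp t ht) 1)).choose else 0 with hg
  have hgae : ∀ᵐ t ∂(volume.restrict (Ioo 0 T)), C * β t ^ q = g t := by
    filter_upwards [hc] with t ht
    simp only [hg]
    rw [if_pos ht]
  have hgi : IntegrableOn g (Ioo 0 T) := (hβi.const_mul C).congr hgae
  have hgint : ∫ t in Ioo 0 T, g t = C * ∫ t in Ioo 0 T, β t ^ q := by
    rw [← integral_const_mul]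
    exact (integral_congr_ae hgae).symm
  have hg0 : ∀ t ∈ Ioo 0 T, 0 ≤ g t := by
    intro t ht
    simp only [hg]
    split_ifs with h1
    · exact mul_nonneg hC0 (Real.rpow_nonneg (hβ0 t ht) q)
    · exact mul_nonneg (by positivity) (besov_fin (helVort_spv (hsp t ht) 1)).choose_spec.1
  refine gron_half h hν hν (g := g) hg0 ?_ ?_ ?_
  · intro t ht
    rw [integrableOn_Icc_iff_integrableOn_Ioc, integrableOn_Ioc_iff_integrableOn_Ioo]
    exact hgi.mono_set (Ioo_subset_Ioo_right ht.2.le)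
  · intro t ht
    rw [intervalIntegral.integral_of_le ht.1, integral_Ioc_eq_integral_Ioo, ← hgint]
    refine setIntegral_mono_set hgi ?_ (Ioo_subset_Ioo_right ht.2.le).eventuallyLE
    filter_upwards [ae_restrict_mem measurableSet_Ioo] with τ hτ
    exact hg0 τ hτ
  · intro t ht
    have hv := hsp t ht
    have hdiv := h.divfree t ⟨ht.1.le, ht.2⟩
    have hE0 := Es_nonneg (1 / 2) (u t)
    have hD0 := Es_nonneg (1 / 2 + 1) (u t)
    by_cases hq : Q t
    · have hgt : g t = C * β t ^ q := by simp only [hg]; rw [if_pos hq]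
      rw [hgt]
      have hβt := hβ0 t ht
      have hg1 : 0 ≤ C * β t ^ q * Es (1 / 2) (u t) :=
        mul_nonneg (mul_nonneg hC0 (Real.rpow_nonneg hβt q)) hE0
      obtain ⟨σ, hσ, h1 | h1⟩ := hq
      · have h2 := hK1 (u t) σ (β t) hv hdiv hσ hβt h1
        have h3 := Es_interp (s := 1 / 2) (θ := 1 / 2 + y - a / 2) (by norm_num) (by norm_num)
          (by linarith) (by linarith) hv
        rw [show (1 / 2 : ℝ) + (1 / 2 + y - a / 2) = 1 + y - a / 2 by ring] at h3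
        have h4 := hC (β t) (Es (1 / 2) (u t)) (Es (1 / 2 + 1) (u t)) hβt hE0 hD0
        rw [← hqθ] at h4
        have e1 : (2 - θ) / 2 = 1 - (1 / 2 + y - a / 2) := by rw [hθ]; ring
        have e2 : θ / 2 = 1 / 2 + y - a / 2 := by rw [hθ]; ring
        rw [e1, e2] at h4
        have h5 := mul_le_mul_of_nonneg_left h3 (mul_nonneg hK10 hβt)
        linarith
      · have hcν : 0 ≤ 1 / (2 * K2 + 1) * ν := by positivity
        have h2 := hK2 (u t) σ _ hv hdiv hσ hcν h1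
        rw [show 1 + (1 + a) / 2 - a / 2 = 1 / 2 + 1 by ring] at h2
        have h3 : 2 * (K2 * (1 / (2 * K2 + 1) * ν)) ≤ ν := by
          have : 2 * (K2 * (1 / (2 * K2 + 1) * ν)) = (2 * K2) / (2 * K2 + 1) * ν := by ring
          rw [this]
          refine mul_le_of_le_one_left hν.le ?_
          rw [div_le_one (by positivity)]
          linarith
        have h4 := mul_le_mul_of_nonneg_right h3 hD0
        linarith
    · have hgt : g t = 2 * K3 * (besov_fin (helVort_spv hv 1)).choose := by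
        simp only [hg]
        rw [if_neg hq, dif_pos ht]
      rw [hgt]
      have hb := (besov_fin (helVort_spv hv 1)).choose_spec
      have h2 := hK3 (u t) 1 _ hv hdiv (Or.inl rfl) hb.1 hb.2
      rw [show (1 : ℝ) + 0 - 1 / 2 = 1 / 2 by norm_num] at h2
      have := mul_nonneg hν.le hD0
      linarith

/-- `L^p` form -/
theorem main_vort {P : ℝ≥0∞} (hP : 3 / 2 < P) {q ν : ℝ} (hq : 3 * (P⁻¹).toReal + 2 / q = 2)
    (hν : 0 < ν) :
    ∃ C c : ℝ, 0 ≤ C ∧ 0 < c ∧ ∀ (T : ℝ) (u : ℝ → V → V) (p : ℝ → V → ℝ) (β : ℝ → ℝ),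
      IsSol ν T u p → (∀ t ∈ Ioo 0 T, 0 ≤ β t) → IntegrableOn (fun t => β t ^ q) (Ioo 0 T) →
      (∀ᵐ t ∂(volume.restrict (Ioo 0 T)), ∃ σ : ℝ, (σ = 1 ∨ σ = -1) ∧
        (eLpNorm (fun x => len (helVort σ (u t) x)) P (volume.restrict cube)
            ≤ ENNReal.ofReal (β t) ∨
          eLpNorm (fun x => len (helVort σ (u t) x)) (3 / 2) (volume.restrict cube)
            ≤ ENNReal.ofReal (c * ν))) →
      (∀ t ∈ Ico 0 T, Es (1 / 2) (u t)
        ≤ Es (1 / 2) (u 0) * Real.exp (C * ∫ τ in Ioo 0 T, β τ ^ q)) ∧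
      ∃ M, ∀ t ∈ Ico 0 T, ∀ x i, |u t x i| ≤ M := by
  have hP0 : P ≠ 0 := (lt_of_le_of_lt zero_le hP).ne'
  have h32 : (1 : ℝ≥0∞) ≤ 3 / 2 := by
    rw [ENNReal.le_div_iff_mul_le (Or.inl (by norm_num)) (Or.inl (by norm_num))]
    norm_num
  have hP1 : 1 ≤ P := h32.trans hP.le
  have hlt : 3 * (P⁻¹).toReal < 2 := by
    rcases eq_or_ne P ∞ with h | h
    · rw [h]; simp
    · have h1 : (3 / 2 : ℝ) < P.toReal := by
        have := (ENNReal.toReal_lt_toReal (lt_of_lt_of_le hP le_top).ne h).2 hP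
        rwa [ENNReal.toReal_div, ENNReal.toReal_ofNat, ENNReal.toReal_ofNat] at this
      rw [ENNReal.toReal_inv, ← div_eq_mul_inv, div_lt_iff₀ (by linarith)]
      linarith
  obtain ⟨C, c, hC0, hc0, hC⟩ := main_bes one_pos le_rfl (P := P) (y := 3 * (P⁻¹).toReal / 2)
    (q := q) (ν := ν) (by ring) hP0 (by linarith) (by linarith) hν
  refine ⟨C, c, hC0, hc0, fun T u p β h hβ0 hβi hc => hC T u p β h hβ0 hβi ?_⟩
  have hI : ∀ᵐ t ∂(volume.restrict (Ioo 0 T)), t ∈ Ioo 0 T := ae_restrict_mem measurableSet_Ioo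
  filter_upwards [hc, hI] with t ht htI
  have hv := spv_of_sol h ⟨htI.1.le, htI.2⟩
  obtain ⟨σ, hσ, h1 | h1⟩ := ht
  · exact ⟨σ, hσ, Or.inl (besov_one hP1 (helVort_spv hv σ) h1)⟩
  · refine ⟨σ, hσ, Or.inr ?_⟩
    have e : ENNReal.ofReal (3 / (1 + 1)) = 3 / 2 := by
      rw [ENNReal.ofReal_div_of_pos (by norm_num)]
      norm_num
    rw [e]
    exact besov_one h32 (helVort_spv hv σ) h1

end Pool.Agent.U172.NS
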