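import Pool.Agent.U172.NS.Contr

/-!
The production of the `H^{1/2}` norm as an integral over the harmonic extension.
-/

open MeasureTheory Set Filter Topology
open scoped ENNReal ComplexConjugate ContDiff

set_option autoImplicit false

namespace Pool.Agent.U172.NS

open H459R3.NS

/-- the real vector field with coefficients `A` -/
noncomputable def Vf (A : Fin 3 → K3 → ℂ) (x : V) : V := fun i => R (A i) x

noncomputable def FlV (τ : ℝ) (A : Fin 3 → K3 → ℂ) : Fin 3 → K3 → ℂ := fun i => Fl τ (A i)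

noncomputable def LaV (A : Fin 3 → K3 → ℂ) : Fin 3 → K3 → ℂ := fun i => La (A i)

/-- the curl on coefficients -/
noncomputable def cu (A : Fin 3 → K3 → ℂ) : Fin 3 → K3 → ℂ :=
  ![fun k => D 1 (A 2) k - D 2 (A 1) k, fun k => D 2 (A 0) k - D 0 (A 2) k,
    fun k => D 0 (A 1) k - D 1 (A 0) k]

theorem rap_sub {a b : K3 → ℂ} (ha : Rap a) (hb : Rap b) : Rap fun k => a k - b k := by
  intro n
  refine Summable.of_nonneg_of_le (fun k => by positivity) (fun k => ?_) ((ha n).add (hb n))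
  rw [← mul_add]
  exact mul_le_mul_of_nonneg_left (norm_sub_le _ _) (by positivity)

theorem hm_sub {a b : K3 → ℂ} (ha : Hm a) (hb : Hm b) : Hm fun k => a k - b k := by
  intro k
  simp only [ha k, hb k, map_sub]

theorem R_sub {a b : K3 → ℂ} (ha : Rap a) (hb : Rap b) (x : V) :
    R (fun k => a k - b k) x = R a x - R b x := by
  unfold R S
  rw [← Complex.sub_re, ← (summable_term ha.summable x).tsum_sub (summable_term hb.summable x)]
  congr 1
  exact tsum_congr fun k => sub_mul _ _ _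

theorem rap_cu {A : Fin 3 → K3 → ℂ} (hA : ∀ i, Rap (A i)) (i : Fin 3) : Rap (cu A i) := by
  fin_cases i
  · exact rap_sub ((hA 2).D 1) ((hA 1).D 2)
  · exact rap_sub ((hA 0).D 2) ((hA 2).D 0)
  · exact rap_sub ((hA 1).D 0) ((hA 0).D 1)

theorem hm_cu {A : Fin 3 → K3 → ℂ} (hA : ∀ i, Hm (A i)) (i : Fin 3) : Hm (cu A i) := by
  fin_cases i
  · exact hm_sub ((hA 2).D 1) ((hA 1).D 2)
  · exact hm_sub ((hA 0).D 2) ((hA 2).D 0)
  · exact hm_sub ((hA 1).D 0) ((hA 0).D 1)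

theorem cu_zero (A : Fin 3 → K3 → ℂ) (i : Fin 3) : cu A i 0 = 0 := by
  fin_cases i <;> simp [cu, D]

theorem Vf_spv {A : Fin 3 → K3 → ℂ} (hA : ∀ i, Rap (A i)) : SPV (Vf A) :=
  ⟨contDiff_pi.2 fun i => (R_sp (hA i)).smooth, fun i x => funext fun j => (R_sp (hA j)).per i x⟩

theorem curl_Vf {A : Fin 3 → K3 → ℂ} (hA : ∀ i, Rap (A i)) (x : V) :
    curl (Vf A) x = Vf (cu A) x := by
  unfold curl Vf
  funext i
  fin_cases i
  · show pd 1 (R (A 2)) x - pd 2 (R (A 1)) x = R (fun k => D 1 (A 2) k - D 2 (A 1) k) x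
    rw [R_sub ((hA 2).D 1) ((hA 1).D 2), pd_R (hA 2), pd_R (hA 1)]
  · show pd 2 (R (A 0)) x - pd 0 (R (A 2)) x = R (fun k => D 2 (A 0) k - D 0 (A 2) k) x
    rw [R_sub ((hA 0).D 2) ((hA 2).D 0), pd_R (hA 0), pd_R (hA 2)]
  · show pd 0 (R (A 1)) x - pd 1 (R (A 0)) x = R (fun k => D 0 (A 1) k - D 1 (A 0) k) x
    rw [R_sub ((hA 1).D 0) ((hA 0).D 1), pd_R (hA 1), pd_R (hA 0)]

theorem cu_Fl (τ : ℝ) (A : Fin 3 → K3 → ℂ) : cu (FlV τ A) = FlV τ (cu A) := by
  funext i k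
  fin_cases i
  · show D 1 (Fl τ (A 2)) k - D 2 (Fl τ (A 1)) k = Fl τ (fun k => D 1 (A 2) k - D 2 (A 1) k) k
    rw [D_Fl, D_Fl]; unfold Fl; ring
  · show D 2 (Fl τ (A 0)) k - D 0 (Fl τ (A 2)) k = Fl τ (fun k => D 2 (A 0) k - D 0 (A 2) k) k
    rw [D_Fl, D_Fl]; unfold Fl; ring
  · show D 0 (Fl τ (A 1)) k - D 1 (Fl τ (A 0)) k = Fl τ (fun k => D 0 (A 1) k - D 1 (A 0) k) k
    rw [D_Fl, D_Fl]; unfold Fl; ring

theorem cu_La (A : Fin 3 → K3 → ℂ) : cu (LaV A) = LaV (cu A) := by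
  funext i k
  fin_cases i
  · show D 1 (La (A 2)) k - D 2 (La (A 1)) k = La (fun k => D 1 (A 2) k - D 2 (A 1) k) k
    rw [D_La, D_La]; unfold La; ring
  · show D 2 (La (A 0)) k - D 0 (La (A 2)) k = La (fun k => D 2 (A 0) k - D 0 (A 2) k) k
    rw [D_La, D_La]; unfold La; ring
  · show D 0 (La (A 1)) k - D 1 (La (A 0)) k = La (fun k => D 0 (A 1) k - D 1 (A 0) k) k
    rw [D_La, D_La]; unfold La; ring

/-- `curl curl = -Δ` on divergence free fields -/
theorem cu_cu {A : Fin 3 → K3 → ℂ} (hdiv : ∀ k, ∑ i, D i (A i) k = 0) :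
    cu (cu A) = LaV (LaV A) := by
  have hI : Complex.I * Complex.I = -1 := Complex.I_mul_I
  funext i k
  have hd := hdiv k
  rw [Fin.sum_univ_three] at hd
  have hl := fun i => lap_symb (A i) k
  simp only [Fin.sum_univ_three] at hl
  fin_cases i
  · show D 1 (cu A 2) k - D 2 (cu A 1) k = La (La (A 0)) k
    have hl := hl 0
    show D 1 (fun k => D 0 (A 1) k - D 1 (A 0) k) k - D 2 (fun k => D 2 (A 0) k - D 0 (A 2) k) k
      = La (La (A 0)) k
    unfold D at hd hl ⊢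
    linear_combination (-1 : ℂ) * hl + (2 * Real.pi * Complex.I * (k 0 : ℂ)) * hd
  · show D 2 (cu A 0) k - D 0 (cu A 2) k = La (La (A 1)) k
    have hl := hl 1
    show D 2 (fun k => D 1 (A 2) k - D 2 (A 1) k) k - D 0 (fun k => D 0 (A 1) k - D 1 (A 0) k) k
      = La (La (A 1)) k
    unfold D at hd hl ⊢
    linear_combination (-1 : ℂ) * hl + (2 * Real.pi * Complex.I * (k 1 : ℂ)) * hd
  · show D 0 (cu A 1) k - D 1 (cu A 0) k = La (La (A 2)) k
    have hl := hl 2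
    show D 0 (fun k => D 2 (A 0) k - D 0 (A 2) k) k - D 1 (fun k => D 1 (A 2) k - D 2 (A 1) k) k
      = La (La (A 2)) k
    unfold D at hd hl ⊢
    linear_combination (-1 : ℂ) * hl + (2 * Real.pi * Complex.I * (k 2 : ℂ)) * hd

/-! ### trilinear integrals along the flow -/

noncomputable def t3 (a b c : K3 → ℂ) : ℝ := ∫ x in cube, R a x * (R b x * R c x)

theorem t3_eq {a b c : K3 → ℂ} (ha : Summable a) (hb : Summable b) (hc : Summable c)
    (ha' : Hm a) (hb' : Hm b) (hc' : Hm c) : t3 a b c = (Tri a b c).re := by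
  rw [tri_eq ha hb hc]
  have e : ∀ x, S a x * (S b x * S c x) = ((R a x * (R b x * R c x) : ℝ) : ℂ) := by
    intro x
    rw [S_real ha', S_real hb', S_real hc']
    push_cast
    ring
  simp_rw [e]
  rw [integral_complex_ofReal, Complex.ofReal_re]
  rfl

/-- the exponents -/
noncomputable def Lp3 (p : K3 × K3) : ℝ := lam p.1 + lam p.2 + lam (-p.1 - p.2)

theorem Lp3_nonneg (p : K3 × K3) : 0 ≤ Lp3 p :=
  add_nonneg (add_nonneg (lam_nonneg _) (lam_nonneg _)) (lam_nonneg _)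

theorem tri_Fl (a b c : K3 → ℂ) (τ : ℝ) : Tri (Fl τ a) (Fl τ b) (Fl τ c)
    = Ex Lp3 (fun p => a p.1 * b p.2 * c (-p.1 - p.2)) τ := by
  unfold Tri Ex Fl
  refine tsum_congr fun p => ?_
  have h : Real.exp (-(τ * Lp3 p)) = Real.exp (-(τ * lam p.1)) * Real.exp (-(τ * lam p.2))
      * Real.exp (-(τ * lam (-p.1 - p.2))) := by
    rw [← Real.exp_add, ← Real.exp_add]
    congr 1
    unfold Lp3
    ring
  rw [h]
  push_cast
  ring

section
variable {a b c : K3 → ℂ} (ha : Rap a) (hb : Rap b) (hc : Rap c) (ha' : Hm a) (hb' : Hm b)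
  (hc' : Hm c)

include ha hb hc ha' hb' hc' in
theorem t3_Fl {τ : ℝ} (hτ : 0 ≤ τ) : t3 (Fl τ a) (Fl τ b) (Fl τ c)
    = (Ex Lp3 (fun p => a p.1 * b p.2 * c (-p.1 - p.2)) τ).re := by
  rw [t3_eq (rap_Fl ha hτ).summable (rap_Fl hb hτ).summable (rap_Fl hc hτ).summable
    (ha'.Fl τ) (hb'.Fl τ) (hc'.Fl τ), tri_Fl]

include ha hb hc in
theorem summable_Lp3 : Summable fun p : K3 × K3 => Lp3 p * ‖a p.1 * b p.2 * c (-p.1 - p.2)‖ := by
  have h1 := summable_norm_tri (rap_La ha).summable hb.summable hc.summable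
  have h2 := summable_norm_tri ha.summable (rap_La hb).summable hc.summable
  have h3 := summable_norm_tri ha.summable hb.summable (rap_La hc).summable
  refine ((h1.add h2).add h3).congr fun p => ?_
  unfold Lp3 La
  simp only [norm_mul, Complex.norm_real, Real.norm_of_nonneg (lam_nonneg _)]
  ring

include ha hb hc in
theorem summable_p3 : Summable fun p : K3 × K3 => ‖a p.1 * b p.2 * c (-p.1 - p.2)‖ :=
  (summable_norm_tri ha.summable hb.summable hc.summable).congr fun p => by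
    rw [norm_mul, norm_mul]

include ha hb hc ha' hb' hc' in
theorem t3_hasDerivAt {τ : ℝ} (hτ : 0 < τ) :
    HasDerivAt (fun τ => t3 (Fl τ a) (Fl τ b) (Fl τ c))
      (-(t3 (Fl τ (La a)) (Fl τ b) (Fl τ c) + t3 (Fl τ a) (Fl τ (La b)) (Fl τ c)
        + t3 (Fl τ a) (Fl τ b) (Fl τ (La c)))) τ := by
  have h := Ex_hasDerivAt Lp3_nonneg (summable_p3 ha hb hc) (summable_Lp3 ha hb hc) hτ
  have h2 := Complex.reCLM.hasFDerivAt.comp_hasDerivAt τ h
  have e : (fun τ => t3 (Fl τ a) (Fl τ b) (Fl τ c)) =ᶠ[𝓝 τ]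
      (Complex.reCLM ∘ Ex Lp3 (fun p => a p.1 * b p.2 * c (-p.1 - p.2))) := by
    filter_upwards [lt_mem_nhds hτ] with s hs
    exact t3_Fl ha hb hc ha' hb' hc' (le_of_lt hs)
  refine (h2.congr_of_eventuallyEq e).congr_deriv ?_
  rw [t3_Fl (rap_La ha) hb hc ha'.La hb' hc' hτ.le, t3_Fl ha (rap_La hb) hc ha' hb'.La hc' hτ.le,
    t3_Fl ha hb (rap_La hc) ha' hb' hc'.La hτ.le]
  have s : ∀ {a b c : K3 → ℂ}, Rap a → Rap b → Rap c →
      Summable fun p : K3 × K3 => ((Real.exp (-(τ * Lp3 p)) : ℝ) : ℂ)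
        * (a p.1 * b p.2 * c (-p.1 - p.2)) := fun {a b c} ha hb hc =>
    Summable.of_norm (Summable.of_nonneg_of_le (fun _ => norm_nonneg _)
      (fun p => norm_ex_le Lp3_nonneg (fun p => a p.1 * b p.2 * c (-p.1 - p.2)) hτ.le p)
      (summable_p3 ha hb hc))
  rw [← Complex.add_re, ← Complex.add_re]
  simp only [Complex.reCLM_apply, Complex.neg_re]
  congr 2
  unfold Ex
  rw [← (s (rap_La ha) hb hc).tsum_add (s ha (rap_La hb) hc),
    ← ((s (rap_La ha) hb hc).add (s ha (rap_La hb) hc)).tsum_add (s ha hb (rap_La hc))]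
  refine tsum_congr fun p => ?_
  unfold Lp3 La
  push_cast
  ring

include ha hb hc ha' hb' hc' in
theorem t3_continuousOn : ContinuousOn (fun τ => t3 (Fl τ a) (Fl τ b) (Fl τ c)) (Ici 0) := by
  have h := Complex.continuous_re.comp_continuousOn
    (Ex_continuousOn Lp3_nonneg (summable_p3 ha hb hc))
  refine h.congr fun τ hτ => ?_
  exact t3_Fl ha hb hc ha' hb' hc' hτ

include ha hb hc ha' hb' hc' in
theorem t3_tendsto (h0 : a 0 = 0) :
    Tendsto (fun τ => t3 (Fl τ a) (Fl τ b) (Fl τ c)) atTop (𝓝 0) := by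
  set M : ℝ := ∑' p : K3 × K3, ‖a p.1 * b p.2 * c (-p.1 - p.2)‖ with hM
  have h1 : Tendsto (fun r : ℝ => Real.exp (-r) * M) atTop (𝓝 (0 * M)) :=
    (Real.tendsto_exp_neg_atTop_nhds_zero).mul_const _
  rw [zero_mul] at h1
  refine squeeze_zero_norm' ?_ h1
  filter_upwards [eventually_ge_atTop (0 : ℝ)] with τ hτ
  rw [t3_Fl ha hb hc ha' hb' hc' hτ, Real.norm_eq_abs]
  refine (Complex.abs_re_le_norm _).trans ?_
  have hle : ∀ p : K3 × K3, ‖((Real.exp (-(τ * Lp3 p)) : ℝ) : ℂ)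
      * (a p.1 * b p.2 * c (-p.1 - p.2))‖ ≤ Real.exp (-τ) * ‖a p.1 * b p.2 * c (-p.1 - p.2)‖ := by
    intro p
    by_cases hp : p.1 = 0
    · rw [hp, h0]
      simp
    · rw [norm_mul, Complex.norm_real, Real.norm_of_nonneg (Real.exp_pos _).le]
      refine mul_le_mul_of_nonneg_right ?_ (norm_nonneg _)
      refine Real.exp_le_exp.2 ?_
      have h2 : 1 ≤ Lp3 p := by
        have := one_le_lam hp
        have := lam_nonneg p.2
        have := lam_nonneg (-p.1 - p.2)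
        unfold Lp3
        linarith
      nlinarith
  have hs1 := (summable_p3 ha hb hc).mul_left (Real.exp (-τ))
  have hs2 := Summable.of_nonneg_of_le (fun _ => norm_nonneg _) hle hs1
  unfold Ex
  refine (norm_tsum_le_tsum_norm hs2).trans ?_
  rw [hM, ← tsum_mul_left]
  exact hs2.tsum_le_tsum hle hs1

end

end Pool.Agent.U172.NS
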