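import Pool.Agent.U172.NS.Gro
import Pool.Agent.U172.NS.Bd

/-!
The regularity criterion in terms of the component of `(-Δ)^s u` along the Lamb vector.
-/

open MeasureTheory Set Filter Topology
open scoped ENNReal ComplexConjugate ContDiff

set_option autoImplicit false

namespace Pool.Agent.U172.NS

open H459R3.NS

theorem fr_frac {σ : ℝ} (hσ2 : σ ≤ 2) {f : V → ℝ} (hf : SP f) (k : K3) :
    fr (frac σ f) k = (wt σ k : ℂ) * fr f k := by
  have h := integral_ee_S (-k) (summable_wfr hσ2 hf)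
  rw [neg_neg] at h
  rw [← h]
  show ∫ x in cube, ee (-k) x * ((frac σ f x : ℝ) : ℂ) = _
  refine integral_congr_ae (Filter.Eventually.of_forall fun x => ?_)
  show ee (-k) x * ((frac σ f x : ℝ) : ℂ) = _
  rw [← frac_coe (s := σ) x]

/-- Parseval's identity for the fractional Laplacian -/
theorem int_frac_sq {σ : ℝ} (hσ0 : 0 < σ) (hσ1 : σ ≤ 1) {f : V → ℝ} (hf : SP f) :
    ∫ x in cube, frac σ f x ^ 2 = hs (2 * σ) (fr f) := by
  have e : ∀ x, frac σ f x ^ 2 = frac σ f x * frac σ f x := fun x => sq _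
  simp_rw [e]
  rw [int_frac_mul (by linarith) hf (frac_cont (by linarith) hf)]
  unfold hs
  refine tsum_congr fun k => ?_
  rw [fr_frac (by linarith) hf]
  have h1 : wt σ k * wt σ k = wt (2 * σ) k := by
    by_cases hk : k = 0
    · subst hk
      rw [wt_zero hσ0.ne', wt_zero (by linarith), mul_zero]
    · unfold wt
      rw [← Real.rpow_add (q2_pos hk)]
      congr 1
      ring
  rw [← h1, ← Complex.normSq_eq_norm_sq, Complex.normSq_apply]
  simp only [Complex.mul_re, Complex.mul_im, Complex.ofReal_re,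
    Complex.ofReal_im, Complex.conj_re, Complex.conj_im]
  ring

theorem int_len_frac {σ : ℝ} (hσ0 : 0 < σ) (hσ1 : σ ≤ 1) {v : V → V} (hv : SPV v) :
    ∫ x in cube, len (fracV σ v x) ^ 2 = Es (2 * σ) v := by
  simp_rw [len_sq]
  unfold fracV Es
  rw [integral_finsetSum]
  · exact Finset.sum_congr rfl fun i _ => int_frac_sq hσ0 hσ1 (hv.sp i)
  · intro i _
    exact integrableOn_cube ((frac_cont (by linarith) (hv.sp i)).pow 2)

theorem cont_len {a : V → V} (ha : Continuous a) : Continuous fun x => len (a x) := by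
  unfold len
  exact (continuous_finsetSum _ fun i _ => ((continuous_apply i).comp ha).pow 2).sqrt

theorem cont_dot {a b : V → V} (ha : Continuous a) (hb : Continuous b) :
    Continuous fun x => dot (a x) (b x) := by
  unfold dot
  exact continuous_finsetSum _ fun i _ =>
    ((continuous_apply i).comp ha).mul ((continuous_apply i).comp hb)

theorem cont_cross {a b : V → V} (ha : Continuous a) (hb : Continuous b) :
    Continuous fun x => crossProduct (a x) (b x) := by
  refine continuous_pi fun i => ?_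
  have c : ∀ j, Continuous fun x => a x j := fun j => (continuous_apply j).comp ha
  have d : ∀ j, Continuous fun x => b x j := fun j => (continuous_apply j).comp hb
  simp only [cross_apply]
  fin_cases i
  · exact ((c 1).mul (d 2)).sub ((c 2).mul (d 1))
  · exact ((c 2).mul (d 0)).sub ((c 0).mul (d 2))
  · exact ((c 0).mul (d 1)).sub ((c 1).mul (d 0))

theorem cont_grad {g : V → ℝ} (hg : SP g) : Continuous (grad g) :=
  continuous_pi fun i => (hg.pd i).cont

theorem cont_fracV {s : ℝ} (hs2 : s ≤ 2) {v : V → V} (hv : SPV v) : Continuous (fracV s v) :=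
  continuous_pi fun i => frac_cont hs2 (hv.sp i)

/-- The condition on the field `v` at one time: `f` bounds the production from above. -/
def Cond (s κν : ℝ) (v : V → V) (f G H : V → ℝ) : Prop :=
  ∀ᵐ x ∂(volume.restrict cube),
    -dot (crossProduct (curl v x) (fluct v x)) (fracV s v x)
      ≤ f x * ((len (curl v x) + len (fracV (1 / 2) v x)) * len (fluct v x))
        + dot (v x) (grad G x)
        + dot (curl v x) (grad H x) + κν * len (fracV ((s + 1) / 2) v x) ^ 2

theorem norm_frac {x : ℝ} (h0 : 1 ≤ x) (h2 : x ≤ 2) : ∃ C : ℝ, 0 ≤ C ∧ ∀ v : V → V, SPV v →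
    eLpNorm (fun y => len (curl v y) + len (fracV (1 / 2) v y))
      (ENNReal.ofReal (6 / (3 - 2 * (x - 1)))) (volume.restrict cube)
      ≤ ENNReal.ofReal (C * Real.sqrt (Es x v)) := by
  obtain ⟨C1, hC10, hC1⟩ := norm_curl h0 h2
  obtain ⟨C2, hC20, hC2⟩ := sob_sum (y := x - 1) (by linarith) (by linarith)
  refine ⟨C1 + 3 * C2, by positivity, fun v hv => ?_⟩
  have h3 := hC2 (Fin 3) (fun i => La (fr fun y => v y i)) (Es x v)
    (fun y => len (fracV (1 / 2) v y)) (fun i => rap_La (rap_fr (hv.sp i)))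
    (fun i => by simp [La, lam_zero]) (fun i => by
      rw [hs_La (by linarith), show 1 + (x - 1) = x by ring]
      exact hs_le_Es x v i) (fun y => len_nonneg _) (fun y => len_le _)
  have hc1 : Continuous fun y => len (curl v y) := cont_len (curl_spv hv).1.continuous
  have hc2 : Continuous fun y => len (fracV (1 / 2) v y) := cont_len (cont_fracV (by norm_num) hv)
  have hcard : ((Fintype.card (Fin 3) : ℕ) : ℝ) = 3 := by
    rw [Fintype.card_fin]
    norm_num
  rw [hcard] at h3
  calc eLpNorm (fun y => len (curl v y) + len (fracV (1 / 2) v y))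
        (ENNReal.ofReal (6 / (3 - 2 * (x - 1)))) (volume.restrict cube)
      ≤ eLpNorm (fun y => len (curl v y)) (ENNReal.ofReal (6 / (3 - 2 * (x - 1))))
          (volume.restrict cube)
        + eLpNorm (fun y => len (fracV (1 / 2) v y)) (ENNReal.ofReal (6 / (3 - 2 * (x - 1))))
          (volume.restrict cube) :=
        eLpNorm_add_le hc1.aestronglyMeasurable hc2.aestronglyMeasurable
          (six_ge (by linarith) (by linarith))
    _ ≤ ENNReal.ofReal (C1 * Real.sqrt (Es x v)) + ENNReal.ofReal (3 * C2 * Real.sqrt (Es x v)) :=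
        add_le_add (hC1 v hv) h3
    _ = _ := by
        rw [← ENNReal.ofReal_add (by positivity) (by positivity)]
        congr 1
        ring

/-- the estimate of the production -/
theorem prod_bound {s p : ℝ} (hs0 : 1 / 2 ≤ s) (hs1 : s ≤ 1) (hp0 : 0 < p)
    (hp1 : 6 < p * (2 * s + 3)) (hp2 : p * s ≤ 3) : ∃ K : ℝ, 0 ≤ K ∧
    ∀ (v : V → V) (β κν : ℝ) (f G H : V → ℝ), SPV v →
      (∀ x, ∑ i, pd i (fun y => v y i) x = 0) → 0 ≤ β →
      AEStronglyMeasurable f (volume.restrict cube) →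
      eLpNorm f (ENNReal.ofReal p) (volume.restrict cube) ≤ ENNReal.ofReal β → SP G → SP H →
      Cond s κν v f G H →
      -∫ x in cube, dot (crossProduct (curl v x) (fluct v x)) (fracV s v x)
        ≤ κν * Es (s + 1) v + K * β * (Es s v ^ ((2 - (1 + 3 / p - 2 * s)) / 2)
          * Es (s + 1) v ^ ((1 + 3 / p - 2 * s) / 2)) := by
  set z : ℝ := 3 / p - s with hz
  have hz0 : 0 ≤ z := by
    rw [hz, sub_nonneg, le_div_iff₀ hp0]
    linarith
  have hz1 : z < 3 / 2 := by
    rw [hz, sub_lt_iff_lt_add, div_lt_iff₀ hp0]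
    nlinarith
  set x : ℝ := 1 + (2 * s / 3) * z with hx
  set y : ℝ := s + (1 - 2 * s / 3) * z with hy
  have hxy : x + y = 1 + 3 / p := by rw [hx, hy, hz]; ring
  have hx1 : 1 ≤ x := by
    have : 0 ≤ (2 * s / 3) * z := by positivity
    linarith
  have hxs : x ≤ s + 1 := by
    have : (2 * s / 3) * z ≤ (2 * s / 3) * (3 / 2) :=
      mul_le_mul_of_nonneg_left hz1.le (by positivity)
    have e : (2 * s / 3) * (3 / 2) = s := by ring
    linarith
  have hc0 : 0 < 1 - 2 * s / 3 := by linarith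
  have hys : s ≤ y := by
    have : 0 ≤ (1 - 2 * s / 3) * z := mul_nonneg hc0.le hz0
    linarith
  have hy1 : y < 3 / 2 := by
    have : (1 - 2 * s / 3) * z < (1 - 2 * s / 3) * (3 / 2) := mul_lt_mul_of_pos_left hz1 hc0
    have e : (1 - 2 * s / 3) * (3 / 2) = 3 / 2 - s := by ring
    linarith
  have hys1 : y ≤ s + 1 := by linarith
  obtain ⟨C1, hC10, hC1⟩ := norm_frac hx1 (by linarith : x ≤ 2)
  obtain ⟨C2, hC20, hC2⟩ := norm_vel (by linarith : 0 < y) hy1
  refine ⟨3 * (C1 * C2), by positivity, fun v β κν f G H hv hdiv hβ hf hfp hG hH hcond => ?_⟩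
  have hcv : Continuous v := hv.1.continuous
  have hcc : Continuous (curl v) := (curl_spv hv).1.continuous
  have hcf : Continuous (fluct v) := (fluct_spv hv).1.continuous
  have hlc : Continuous fun x => len (curl v x) + len (fracV (1 / 2) v x) :=
    (cont_len hcc).add (cont_len (cont_fracV (by norm_num) hv))
  have hlf : Continuous fun x => len (fluct v x) := cont_len hcf
  set a : ℝ := 6 / (3 - 2 * (x - 1)) with ha
  set b : ℝ := 6 / (3 - 2 * y) with hb
  have ha0 : 0 < a := div_pos (by norm_num) (by linarith)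
  have hb0 : 0 < b := div_pos (by norm_num) (by linarith)
  have hpab : 1 / p + 1 / a + 1 / b = 1 := by
    rw [ha, hb, one_div_div, one_div_div]
    have : 3 / p = x + y - 1 := by linarith
    have e : 1 / p = (x + y - 1) / 3 := by rw [← this]; field_simp
    rw [e]
    ring
  have hH3 := holder3 hp0 ha0 hb0 hpab hf hlc.aestronglyMeasurable hlf.aestronglyMeasurable
  have hbd : ∫⁻ x in cube, ‖f x * ((len (curl v x) + len (fracV (1 / 2) v x)) * len (fluct v x))‖ₑ
      ≤ ENNReal.ofReal (β * (C1 * Real.sqrt (Es x v) * (C2 * Real.sqrt (Es y v)))) := by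
    refine hH3.trans ?_
    rw [ENNReal.ofReal_mul hβ, ENNReal.ofReal_mul (mul_nonneg hC10 (Real.sqrt_nonneg _))]
    gcongr
    · exact hC1 v hv
    · exact hC2 v hv
  have hfint : Integrable (fun x => f x * ((len (curl v x) + len (fracV (1 / 2) v x)) * len (fluct v x)))
      (volume.restrict cube) := by
    refine ⟨hf.mul (hlc.mul hlf).aestronglyMeasurable, ?_⟩
    exact lt_of_le_of_lt hbd ENNReal.ofReal_lt_top
  have hfle : ∫ x in cube, f x * ((len (curl v x) + len (fracV (1 / 2) v x)) * len (fluct v x))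
      ≤ β * (C1 * Real.sqrt (Es x v) * (C2 * Real.sqrt (Es y v))) := by
    have h1 : ∫ x in cube, f x * ((len (curl v x) + len (fracV (1 / 2) v x)) * len (fluct v x))
        ≤ (∫⁻ x in cube, ‖f x * ((len (curl v x) + len (fracV (1 / 2) v x)) * len (fluct v x))‖ₑ).toReal := by
      refine (le_abs_self _).trans ?_
      rw [← Real.norm_eq_abs]
      refine (norm_integral_le_lintegral_norm _).trans (le_of_eq ?_)
      simp_rw [ofReal_norm]
    refine h1.trans ?_
    refine ENNReal.toReal_le_of_le_ofReal ?_ hbd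
    have := Real.sqrt_nonneg (Es x v)
    have := Real.sqrt_nonneg (Es y v)
    positivity
  have i0 : Integrable (fun x => -dot (crossProduct (curl v x) (fluct v x)) (fracV s v x))
      (volume.restrict cube) :=
    (integrableOn_cube (cont_dot (cont_cross hcc hcf) (cont_fracV (by linarith) hv))).neg
  have i2 : Integrable (fun x => dot (v x) (grad G x)) (volume.restrict cube) :=
    integrableOn_cube (cont_dot hcv (cont_grad hG))
  have i3 : Integrable (fun x => dot (curl v x) (grad H x)) (volume.restrict cube) :=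
    integrableOn_cube (cont_dot hcc (cont_grad hH))
  have i4 : Integrable (fun x => κν * len (fracV ((s + 1) / 2) v x) ^ 2)
      (volume.restrict cube) :=
    (integrableOn_cube ((cont_len (cont_fracV (by linarith) hv)).pow 2)).const_mul _
  have i12 : Integrable (fun x => f x * ((len (curl v x) + len (fracV (1 / 2) v x)) * len (fluct v x)) + dot (v x) (grad G x))
      (volume.restrict cube) := hfint.add i2
  have i123 : Integrable (fun x => f x * ((len (curl v x) + len (fracV (1 / 2) v x)) * len (fluct v x)) + dot (v x) (grad G x)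
      + dot (curl v x) (grad H x)) (volume.restrict cube) := i12.add i3
  have i1234 : Integrable (fun x => f x * ((len (curl v x) + len (fracV (1 / 2) v x)) * len (fluct v x))
      + dot (v x) (grad G x) + dot (curl v x) (grad H x)
      + κν * len (fracV ((s + 1) / 2) v x) ^ 2) (volume.restrict cube) := i123.add i4
  have hmain : -∫ x in cube, dot (crossProduct (curl v x) (fluct v x)) (fracV s v x)
      ≤ (∫ x in cube, f x * ((len (curl v x) + len (fracV (1 / 2) v x)) * len (fluct v x))) + κν * Es (s + 1) v := by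
    rw [← integral_neg]
    refine (integral_mono_ae i0 i1234 hcond).trans (le_of_eq ?_)
    rw [integral_add i123 i4, integral_add i12 i3, integral_add hfint i2,
      int_dot_grad hv hdiv hG, int_dot_grad (curl_spv hv) (curl_div hv) hH,
      integral_const_mul, int_len_frac (by linarith) (by linarith) hv]
    rw [show 2 * ((s + 1) / 2) = s + 1 by ring]
    ring
  -- interpolation
  set E := Es s v with hE
  set D := Es (s + 1) v with hD
  have hE0 : 0 ≤ E := Es_nonneg _ _
  have hD0 : 0 ≤ D := Es_nonneg _ _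
  have hIx : Es x v ≤ 3 * (E ^ (1 - (x - s)) * D ^ (x - s)) := by
    have := Es_interp (s := s) (θ := x - s) (by linarith) (by linarith) (by linarith)
      (by linarith) hv
    rwa [add_sub_cancel] at this
  have hIy : Es y v ≤ 3 * (E ^ (1 - (y - s)) * D ^ (y - s)) := by
    have := Es_interp (s := s) (θ := y - s) (by linarith) (by linarith) (by linarith)
      (by linarith) hv
    rwa [add_sub_cancel] at this
  have hsq : Real.sqrt (Es x v) * Real.sqrt (Es y v)
      ≤ 3 * (E ^ ((2 - (1 + 3 / p - 2 * s)) / 2) * D ^ ((1 + 3 / p - 2 * s) / 2)) := by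
    rw [← Real.sqrt_mul (Es_nonneg _ _)]
    refine Real.sqrt_le_iff.2 ⟨?_, ?_⟩
    · have := Real.rpow_nonneg hE0 ((2 - (1 + 3 / p - 2 * s)) / 2)
      have := Real.rpow_nonneg hD0 ((1 + 3 / p - 2 * s) / 2)
      positivity
    · have e1 : (E ^ ((2 - (1 + 3 / p - 2 * s)) / 2)) ^ 2
          = E ^ (1 - (x - s)) * E ^ (1 - (y - s)) := by
        rw [← Real.rpow_natCast, ← Real.rpow_mul hE0,
          ← Real.rpow_add_of_nonneg hE0 (by linarith) (by linarith)]
        congr 1
        push_cast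
        linarith
      have e2 : (D ^ ((1 + 3 / p - 2 * s) / 2)) ^ 2 = D ^ (x - s) * D ^ (y - s) := by
        rw [← Real.rpow_natCast, ← Real.rpow_mul hD0,
          ← Real.rpow_add_of_nonneg hD0 (by linarith) (by linarith)]
        congr 1
        push_cast
        linarith
      rw [mul_pow, mul_pow, e1, e2]
      calc Es x v * Es y v ≤ (3 * (E ^ (1 - (x - s)) * D ^ (x - s)))
            * (3 * (E ^ (1 - (y - s)) * D ^ (y - s))) :=
            mul_le_mul hIx hIy (Es_nonneg _ _) (by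
              have := Real.rpow_nonneg hE0 (1 - (x - s))
              have := Real.rpow_nonneg hD0 (x - s)
              positivity)
        _ = _ := by ring
  have hfin : β * (C1 * Real.sqrt (Es x v) * (C2 * Real.sqrt (Es y v)))
      ≤ 3 * (C1 * C2) * β * (E ^ ((2 - (1 + 3 / p - 2 * s)) / 2)
        * D ^ ((1 + 3 / p - 2 * s) / 2)) := by
    calc β * (C1 * Real.sqrt (Es x v) * (C2 * Real.sqrt (Es y v)))
        = (C1 * C2 * β) * (Real.sqrt (Es x v) * Real.sqrt (Es y v)) := by ring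
      _ ≤ (C1 * C2 * β) * (3 * (E ^ ((2 - (1 + 3 / p - 2 * s)) / 2)
        * D ^ ((1 + 3 / p - 2 * s) / 2))) := mul_le_mul_of_nonneg_left hsq (by positivity)
      _ = _ := by ring
  linarith

theorem main_all {s p q κ ν : ℝ} (hs0 : 1 / 2 ≤ s) (hs1 : s ≤ 1) (hp0 : 0 < p)
    (hp1 : 6 < p * (2 * s + 3)) (hp2 : p * s ≤ 3) (hq : 2 / q = 1 + 2 * s - 3 / p)
    (hν : 0 < ν) (hκ : κ < 1) :
    ∃ C : ℝ, 0 ≤ C ∧ ∀ (T : ℝ) (u : ℝ → V → V) (P : ℝ → V → ℝ) (β : ℝ → ℝ), IsSol ν T u P →
      (∀ t ∈ Ioo 0 T, 0 ≤ β t) → IntegrableOn (fun t => β t ^ q) (Ioo 0 T) →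
      (∀ t ∈ Ioo 0 T, ∃ f G H : V → ℝ, AEStronglyMeasurable f (volume.restrict cube) ∧
        eLpNorm f (ENNReal.ofReal p) (volume.restrict cube) ≤ ENNReal.ofReal (β t) ∧
        SP G ∧ SP H ∧ Cond s (κ * ν) (u t) f G H) →
      (∀ t ∈ Ico 0 T, Es s (u t) ≤ Es s (u 0) * Real.exp (C * ∫ τ in Ioo 0 T, β τ ^ q)) ∧
      ∃ M, ∀ t ∈ Ico 0 T, ∀ x i, |u t x i| ≤ M := by
  obtain ⟨K, hK0, hK⟩ := prod_bound hs0 hs1 hp0 hp1 hp2
  set θ : ℝ := 1 + 3 / p - 2 * s with hθ
  have h3p : s ≤ 3 / p := by rw [le_div_iff₀ hp0]; linarith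
  have h3p' : 3 / p < s + 3 / 2 := by rw [div_lt_iff₀ hp0]; nlinarith
  have hθ0 : 0 ≤ θ := by rw [hθ]; linarith
  have hθ2 : θ < 2 := by rw [hθ]; linarith
  have hqθ : q = 2 / (2 - θ) := by
    have e : 2 - θ = 2 / q := by rw [hq, hθ]; ring
    rw [e]
    have : q ≠ 0 := by
      intro h0
      rw [h0, div_zero] at hq
      rw [hθ] at hθ2
      linarith
    field_simp
  have hκ1 : 0 < 1 - κ := by linarith
  obtain ⟨C, hC0, hC⟩ := young2 (K := 2 * K) hθ0 hθ2 (mul_pos hκ1 hν) (by positivity)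
  refine ⟨C, hC0, fun T u P β h hβ0 hβi hc => ?_⟩
  have hEc := Es_continuousOn h (s := s) (by linarith)
  have hDc := Es_continuousOn h (s := s + 1) (by linarith)
  have hI0 : 0 ≤ ∫ τ in Ioo 0 T, β τ ^ q :=
    setIntegral_nonneg measurableSet_Ioo fun τ hτ => Real.rpow_nonneg (hβ0 τ hτ) q
  have hβ1 : ∀ t ∈ Ico 0 T, IntegrableOn (fun τ => β τ ^ q) (Icc 0 t) := by
    intro t ht
    rw [integrableOn_Icc_iff_integrableOn_Ioc, integrableOn_Ioc_iff_integrableOn_Ioo]
    exact hβi.mono_set (Ioo_subset_Ioo_right ht.2.le)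
  set g : ℝ → ℝ := fun t => C * β t ^ q with hg
  have hg0 : ∀ t ∈ Ioo 0 T, 0 ≤ g t := fun t ht =>
    mul_nonneg hC0 (Real.rpow_nonneg (hβ0 t ht) q)
  have hgi : ∀ t ∈ Ico 0 T, IntegrableOn g (Icc 0 t) := fun t ht => (hβ1 t ht).const_mul C
  have hgB : ∀ t ∈ Ico 0 T, ∫ τ in (0 : ℝ)..t, g τ ≤ C * ∫ τ in Ioo 0 T, β τ ^ q := by
    intro t ht
    simp only [hg]
    rw [intervalIntegral.integral_const_mul]
    refine mul_le_mul_of_nonneg_left ?_ hC0
    rw [intervalIntegral.integral_of_le ht.1, integral_Ioc_eq_integral_Ioo]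
    refine setIntegral_mono_set hβi ?_ (Ioo_subset_Ioo_right ht.2.le).eventuallyLE
    filter_upwards [ae_restrict_mem measurableSet_Ioo] with τ hτ
    exact Real.rpow_nonneg (hβ0 τ hτ) q
  have hle : ∀ t ∈ Ioo 0 T, (-(2 * ν * Es (s + 1) (u t))
      - 2 * ∑ i, ∫ x in cube, frac s (fun y => u t y i) x * conv (fun i y => u t y i) i x)
      ≤ -((1 - κ) * ν * Es (s + 1) (u t)) + g t * Es s (u t) := by
    intro t ht
    have hI : t ∈ Ico 0 T := ⟨ht.1.le, ht.2⟩
    have hv := spv_of_sol h hI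
    have hdiv := h.divfree t hI
    obtain ⟨f, G, H, hf, hfp, hG, hH, hcond⟩ := hc t ht
    have h1 := hK (u t) (β t) (κ * ν) f G H hv hdiv (hβ0 t ht) hf hfp hG hH hcond
    have h2 := hC (β t) (Es s (u t)) (Es (s + 1) (u t)) (hβ0 t ht) (Es_nonneg _ _)
      (Es_nonneg _ _)
    rw [← hqθ] at h2
    have h3 := nl_eq hv hdiv (s := s) (by linarith)
    rw [h3]
    simp only [hg]
    linarith
  obtain ⟨hb1, hb2⟩ := gronG (δ := (1 - κ) * ν) (mul_pos hκ1 hν) hEc hDc (fun t => Es_nonneg _ _)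
    (fun t => Es_nonneg _ _) (fun t ht => Es_hasDerivAt h (by linarith) hs1 ht) hle hg0 hgi hgB
  refine ⟨hb1, ?_⟩
  -- bounded velocity
  set Bd : ℝ := Es s (u 0) * Real.exp (C * ∫ τ in Ioo 0 T, β τ ^ q) with hBd
  have hBd0 : 0 ≤ Bd := mul_nonneg (Es_nonneg _ _) (Real.exp_pos _).le
  set L : ℝ := (Es s (u 0) + Es s (u 0) * Real.exp (C * ∫ τ in Ioo 0 T, β τ ^ q)
    * (C * ∫ τ in Ioo 0 T, β τ ^ q)) / ((1 - κ) * ν) with hL
  refine bounded_of_enst h hν (K := 9 * Bd ^ (2 * s) * (T + L)) fun t ht => ?_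
  have hpt : ∀ τ ∈ Icc 0 t, Es 1 (u τ) ^ 2 ≤ 9 * Bd ^ (2 * s) * (1 + Es (s + 1) (u τ)) := by
    intro τ hτ
    have hI : τ ∈ Ico 0 T := ⟨hτ.1, hτ.2.trans_lt ht.2⟩
    have hv := spv_of_sol h hI
    have h1 := Es_interp (s := s) (θ := 1 - s) (by linarith) (by linarith) (by linarith)
      (by linarith) hv
    rw [add_sub_cancel, sub_sub_cancel] at h1
    have hE0 := Es_nonneg s (u τ)
    have hD0 := Es_nonneg (s + 1) (u τ)
    have h2 : Es 1 (u τ) ^ 2 ≤ (3 * (Es s (u τ) ^ s * Es (s + 1) (u τ) ^ (1 - s))) ^ 2 :=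
      pow_le_pow_left₀ (Es_nonneg _ _) h1 2
    have e1 : (Es s (u τ) ^ s) ^ 2 = Es s (u τ) ^ (2 * s) := by
      rw [← Real.rpow_natCast, ← Real.rpow_mul hE0]
      congr 1
      push_cast
      ring
    have e2 : (Es (s + 1) (u τ) ^ (1 - s)) ^ 2 = Es (s + 1) (u τ) ^ (2 - 2 * s) := by
      rw [← Real.rpow_natCast, ← Real.rpow_mul hD0]
      congr 1
      push_cast
      ring
    have h3 : Es s (u τ) ^ (2 * s) ≤ Bd ^ (2 * s) :=
      Real.rpow_le_rpow hE0 (hb1 τ hI) (by linarith)
    have h4 : Es (s + 1) (u τ) ^ (2 - 2 * s) ≤ 1 + Es (s + 1) (u τ) := by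
      rcases le_total (Es (s + 1) (u τ)) 1 with h5 | h5
      · have := Real.rpow_le_one hD0 h5 (by linarith : 0 ≤ 2 - 2 * s)
        linarith
      · have := Real.rpow_le_rpow_of_exponent_le h5 (by linarith : 2 - 2 * s ≤ 1)
        rw [Real.rpow_one] at this
        linarith
    calc Es 1 (u τ) ^ 2 ≤ 9 * ((Es s (u τ) ^ s) ^ 2 * (Es (s + 1) (u τ) ^ (1 - s)) ^ 2) := by
          refine h2.trans (le_of_eq ?_)
          ring
      _ ≤ 9 * (Bd ^ (2 * s) * (1 + Es (s + 1) (u τ))) := by
          rw [e1, e2]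
          have := Real.rpow_nonneg hD0 (2 - 2 * s)
          have := Real.rpow_nonneg hBd0 (2 * s)
          gcongr
      _ = _ := by ring
  have hc1 : ContinuousOn (fun τ => Es 1 (u τ) ^ 2) (Icc 0 t) :=
    ((Es_continuousOn h (s := 1) (by norm_num)).pow 2).mono
      fun τ hτ => ⟨hτ.1, hτ.2.trans_lt ht.2⟩
  have hc2 : ContinuousOn (fun τ => Es (s + 1) (u τ)) (Icc 0 t) :=
    hDc.mono fun τ hτ => ⟨hτ.1, hτ.2.trans_lt ht.2⟩
  have hc3 : ContinuousOn (fun τ => 9 * Bd ^ (2 * s) * (1 + Es (s + 1) (u τ))) (Icc 0 t) :=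
    continuousOn_const.mul (continuousOn_const.add hc2)
  have j3 : IntervalIntegrable (fun τ => Es 1 (u τ) ^ 2) volume 0 t :=
    hc1.intervalIntegrable_of_Icc ht.1
  have j4 : IntervalIntegrable (fun τ => 9 * Bd ^ (2 * s) * (1 + Es (s + 1) (u τ)))
    volume 0 t := hc3.intervalIntegrable_of_Icc ht.1
  have h5 := intervalIntegral.integral_mono_on ht.1 j3 j4 hpt
  refine h5.trans ?_
  have j1 : IntervalIntegrable (fun _ : ℝ => (1 : ℝ)) volume 0 t := intervalIntegrable_const
  have j2 : IntervalIntegrable (fun τ => Es (s + 1) (u τ)) volume 0 t :=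
    hc2.intervalIntegrable_of_Icc ht.1
  rw [intervalIntegral.integral_const_mul, intervalIntegral.integral_add j1 j2,
    intervalIntegral.integral_const]
  refine mul_le_mul_of_nonneg_left ?_ (mul_nonneg (by norm_num) (Real.rpow_nonneg hBd0 _))
  have h6 := hb2 t ht
  have : (t - 0) • (1 : ℝ) = t := by simp
  rw [this]
  linarith [ht.2]

end Pool.Agent.U172.NS
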