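import Pool.Agent.U172.NS.GenMain

/-!
Mixed criteria: different conditions at different times.
-/

open MeasureTheory Set Filter Topology
open scoped ENNReal ComplexConjugate ContDiff

set_option autoImplicit false

namespace Pool.Agent.U172.NS

open H459R3.NS

/-- the production of `‖v‖²_{H^{1/2}}` by the nonlinear term -/
noncomputable def prodH (v : V → V) : ℝ :=
  2 * -∫ x in cube, dot (crossProduct (curl v x) (fluct v x)) (fracV (1 / 2) v x)

/-- the Lamb vector condition at the level `s = 1/2` -/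
def LambLe (r κν b : ℝ) (v : V → V) : Prop :=
  ∃ f G H : V → ℝ, AEStronglyMeasurable f (volume.restrict cube) ∧
    eLpNorm f (ENNReal.ofReal r) (volume.restrict cube) ≤ ENNReal.ofReal b ∧
    SP G ∧ SP H ∧ Cond (1 / 2) κν v f G H

open Classical in
theorem gron_ae {ν δ T : ℝ} {u : ℝ → V → V} {P : ℝ → V → ℝ} (h : IsSol ν T u P)
    (hν : 0 < ν) (hδ : 0 < δ) (hδν : δ ≤ 2 * ν) {g : ℝ → ℝ} (hg0 : ∀ t ∈ Ioo 0 T, 0 ≤ g t)
    (hgi : IntegrableOn g (Ioo 0 T))
    (hle : ∀ᵐ t ∂(volume.restrict (Ioo 0 T)), -(2 * ν * Es (1 / 2 + 1) (u t)) + prodH (u t)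
      ≤ -(δ * Es (1 / 2 + 1) (u t)) + g t * Es (1 / 2) (u t)) :
    (∀ t ∈ Ico 0 T, Es (1 / 2) (u t) ≤ Es (1 / 2) (u 0) * Real.exp (∫ τ in Ioo 0 T, g τ)) ∧
      ∃ M, ∀ t ∈ Ico 0 T, ∀ x i, |u t x i| ≤ M := by
  have hy3 : 3 * ((∞ : ℝ≥0∞)⁻¹).toReal = 2 * 0 := by simp
  obtain ⟨K3, hK30, hK3⟩ := prod_field one_pos le_rfl hy3 ENNReal.top_ne_zero le_rfl zero_le_one
  set Q : ℝ → Prop := fun t => -(2 * ν * Es (1 / 2 + 1) (u t)) + prodH (u t)
      ≤ -(δ * Es (1 / 2 + 1) (u t)) + g t * Es (1 / 2) (u t) with hQ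
  have hsp : ∀ t ∈ Ioo 0 T, SPV (u t) := fun t ht => spv_of_sol h ⟨ht.1.le, ht.2⟩
  set g' : ℝ → ℝ := fun t => if Q t then g t else
    if ht : t ∈ Ioo 0 T then 2 * K3 * (besov_fin (helVort_spv (hsp t ht) 1)).choose else 0 with hg'
  have hgae : ∀ᵐ t ∂(volume.restrict (Ioo 0 T)), g t = g' t := by
    filter_upwards [hle] with t ht
    simp only [hg']
    rw [if_pos ht]
  have hgi' : IntegrableOn g' (Ioo 0 T) := hgi.congr hgae
  have hgint : ∫ t in Ioo 0 T, g' t = ∫ t in Ioo 0 T, g t := (integral_congr_ae hgae).symm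
  have hg0' : ∀ t ∈ Ioo 0 T, 0 ≤ g' t := by
    intro t ht
    simp only [hg']
    split_ifs with h1
    · exact hg0 t ht
    · exact mul_nonneg (by positivity) (besov_fin (helVort_spv (hsp t ht) 1)).choose_spec.1
  refine gron_half h hν hδ (g := g') hg0' ?_ ?_ ?_
  · intro t ht
    rw [integrableOn_Icc_iff_integrableOn_Ioc, integrableOn_Ioc_iff_integrableOn_Ioo]
    exact hgi'.mono_set (Ioo_subset_Ioo_right ht.2.le)
  · intro t ht
    rw [intervalIntegral.integral_of_le ht.1, integral_Ioc_eq_integral_Ioo, ← hgint]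
    refine setIntegral_mono_set hgi' ?_ (Ioo_subset_Ioo_right ht.2.le).eventuallyLE
    filter_upwards [ae_restrict_mem measurableSet_Ioo] with τ hτ
    exact hg0' τ hτ
  · intro t ht
    have hv := hsp t ht
    have hdiv := h.divfree t ⟨ht.1.le, ht.2⟩
    have hE0 := Es_nonneg (1 / 2) (u t)
    have hD0 := Es_nonneg (1 / 2 + 1) (u t)
    by_cases hq : Q t
    · have hgt : g' t = g t := by simp only [hg']; rw [if_pos hq]
      rw [hgt]
      exact hq
    · have hgt : g' t = 2 * K3 * (besov_fin (helVort_spv hv 1)).choose := by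
        simp only [hg']
        rw [if_neg hq, dif_pos ht]
      rw [hgt]
      have hb := (besov_fin (helVort_spv hv 1)).choose_spec
      have h2 := hK3 (u t) 1 _ hv hdiv (Or.inl rfl) hb.1 hb.2
      rw [show (1 : ℝ) + 0 - 1 / 2 = 1 / 2 by norm_num] at h2
      have h3 := mul_le_mul_of_nonneg_right hδν hD0
      linarith

/-- the half space condition at one time -/
theorem half_step {a : ℝ} (ha : 0 < a) (ha1 : a ≤ 1) {P : ℝ≥0∞} {y q κ ν : ℝ}
    (hy : 3 * (P⁻¹).toReal = 2 * y) (hP0 : P ≠ 0) (hya : 2 * y < 1 + a)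
    (hq : 2 / q = 1 + a - 2 * y) (hν : 0 < ν) (hκ0 : 0 ≤ κ) (hκ : κ < 1) :
    ∃ C c : ℝ, 0 ≤ C ∧ 0 < c ∧ ∀ (v : V → V) (b : ℝ), SPV v →
      (∀ x, ∑ i, pd i (fun y => v y i) x = 0) → 0 ≤ b →
      (HalfLe a P (κ * ν) b v ∨ HalfLe a (ENNReal.ofReal (3 / (1 + a))) (κ * ν) (c * ν) v) →
      -(2 * ν * Es (1 / 2 + 1) v) + prodH v
        ≤ -((1 - κ) * ν * Es (1 / 2 + 1) v) + C * b ^ q * Es (1 / 2) v := by
  have hy0 : 0 ≤ y := by
    have : 0 ≤ (P⁻¹).toReal := ENNReal.toReal_nonneg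
    linarith
  obtain ⟨K1, hK10, hK1⟩ := prod_field2 ha ha1 hy hP0 hy0 (by linarith)
  have hp0 : (0 : ℝ) < 3 / (1 + a) := by positivity
  have hy2 : 3 * ((ENNReal.ofReal (3 / (1 + a)))⁻¹).toReal = 2 * ((1 + a) / 2) := by
    rw [ENNReal.toReal_inv, ENNReal.toReal_ofReal hp0.le, inv_div]
    ring
  obtain ⟨K2, hK20, hK2⟩ := prod_field2 ha ha1 hy2 (ENNReal.ofReal_pos.2 hp0).ne'
    (by linarith) (by linarith)
  set θ : ℝ := 2 * (1 / 2 + y - a / 2) with hθ
  have hθ0 : 0 ≤ θ := by rw [hθ]; linarith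
  have hθ2 : θ < 2 := by rw [hθ]; linarith
  have hqθ : q = 2 / (2 - θ) := by
    have e : 2 - θ = 2 / q := by rw [hq, hθ]; ring
    rw [e]
    have : q ≠ 0 := by
      intro h0
      rw [h0, div_zero] at hq
      linarith
    field_simp
  have hκ1 : 0 < 1 - κ := by linarith
  have hδ : 0 < (1 - κ) * ν := mul_pos hκ1 hν
  have hκν : 0 ≤ κ * ν := mul_nonneg hκ0 hν.le
  obtain ⟨C, hC0, hC⟩ := young2 (K := 3 * K1) hθ0 hθ2 hδ (by positivity)
  refine ⟨C, (1 - κ) / (K2 + 1), hC0, by positivity, fun v b hv hdiv hb hcond => ?_⟩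
  have hE0 := Es_nonneg (1 / 2) v
  have hD0 := Es_nonneg (1 / 2 + 1) v
  have hg1 : 0 ≤ C * b ^ q * Es (1 / 2) v :=
    mul_nonneg (mul_nonneg hC0 (Real.rpow_nonneg hb q)) hE0
  unfold prodH
  rcases hcond with h1 | h1
  · have h2 := hK1 v b (κ * ν) hv hdiv hb hκν h1
    have h3 := Es_interp (s := 1 / 2) (θ := 1 / 2 + y - a / 2) (by norm_num) (by norm_num)
      (by linarith) (by linarith) hv
    rw [show (1 / 2 : ℝ) + (1 / 2 + y - a / 2) = 1 + y - a / 2 by ring] at h3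
    have h4 := hC b (Es (1 / 2) v) (Es (1 / 2 + 1) v) hb hE0 hD0
    rw [← hqθ] at h4
    have e1 : (2 - θ) / 2 = 1 - (1 / 2 + y - a / 2) := by rw [hθ]; ring
    have e2 : θ / 2 = 1 / 2 + y - a / 2 := by rw [hθ]; ring
    rw [e1, e2] at h4
    have h5 := mul_le_mul_of_nonneg_left h3 (mul_nonneg hK10 hb)
    linarith
  · have hcν : 0 ≤ (1 - κ) / (K2 + 1) * ν := by positivity
    have h2 := hK2 v _ (κ * ν) hv hdiv hcν hκν h1
    rw [show 1 + (1 + a) / 2 - a / 2 = 1 / 2 + 1 by ring] at h2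
    have h3 : K2 * ((1 - κ) / (K2 + 1) * ν) ≤ (1 - κ) * ν := by
      have : K2 * ((1 - κ) / (K2 + 1) * ν) = K2 / (K2 + 1) * ((1 - κ) * ν) := by ring
      rw [this]
      refine mul_le_of_le_one_left hδ.le ?_
      rw [div_le_one (by positivity)]
      linarith
    have h4 := mul_le_mul_of_nonneg_right h3 hD0
    linarith

/-- the Lamb vector condition at one time -/
theorem lamb_step {r m κ ν : ℝ} (hr1 : 3 / 2 < r) (hr2 : r ≤ 6) (hm : 2 / m = 2 - 3 / r)
    (hν : 0 < ν) (hκ : κ < 1) :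
    ∃ C : ℝ, 0 ≤ C ∧ ∀ (v : V → V) (b : ℝ), SPV v →
      (∀ x, ∑ i, pd i (fun y => v y i) x = 0) → 0 ≤ b → LambLe r (κ * ν) b v →
      -(2 * ν * Es (1 / 2 + 1) v) + prodH v
        ≤ -((1 - κ) * ν * Es (1 / 2 + 1) v) + C * b ^ m * Es (1 / 2) v := by
  have hr0 : 0 < r := by linarith
  obtain ⟨K, hK0, hK⟩ := prod_bound (s := 1 / 2) (p := r) le_rfl (by norm_num) hr0
    (by linarith) (by linarith)
  set θ : ℝ := 1 + 3 / r - 2 * (1 / 2) with hθ
  have h3p : 1 / 2 ≤ 3 / r := by rw [le_div_iff₀ hr0]; linarith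
  have h3p' : 3 / r < 1 / 2 + 3 / 2 := by rw [div_lt_iff₀ hr0]; nlinarith
  have hθ0 : 0 ≤ θ := by rw [hθ]; linarith
  have hθ2 : θ < 2 := by rw [hθ]; linarith
  have hqθ : m = 2 / (2 - θ) := by
    have e : 2 - θ = 2 / m := by rw [hm, hθ]; ring
    rw [e]
    have : m ≠ 0 := by
      intro h0
      rw [h0, div_zero] at hm
      linarith
    field_simp
  have hκ1 : 0 < 1 - κ := by linarith
  obtain ⟨C, hC0, hC⟩ := young2 (K := 2 * K) hθ0 hθ2 (mul_pos hκ1 hν) (by positivity)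
  refine ⟨C, hC0, fun v b hv hdiv hb hcond => ?_⟩
  obtain ⟨f, G, H, hf, hfp, hG, hH, hcond⟩ := hcond
  have h1 := hK v b (κ * ν) f G H hv hdiv hb hf hfp hG hH hcond
  have h2 := hC b (Es (1 / 2) v) (Es (1 / 2 + 1) v) hb (Es_nonneg _ _) (Es_nonneg _ _)
  rw [← hqθ] at h2
  unfold prodH
  linarith

/-- the bound of one helical part implies the half space condition -/
theorem half_of_hel {P : ℝ≥0∞} (hP : 1 ≤ P) {v : V → V} (hv : SPV v) {σ b : ℝ}
    (hσ : σ = 1 ∨ σ = -1)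
    (h : eLpNorm (fun x => len (helVort σ v x)) P (volume.restrict cube) ≤ ENNReal.ofReal b) :
    HalfLe 1 P 0 (8 * b) v := by
  intro τ hτ
  have hw := helVort_spv hv σ
  have hc : Continuous fun x => len (poisV τ (helVort σ v) x) := by
    refine cont_len (continuous_pi fun i => ?_)
    exact (pois_sp (hw.sp i) hτ.le).cont
  refine ⟨fun x => 8 * len (poisV τ (helVort σ v) x), (hc.const_mul 8).aestronglyMeasurable,
    ?_, ?_⟩
  · have h2 : eLpNorm (fun x => 8 * len (poisV τ (helVort σ v) x)) P (volume.restrict cube)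
        = ‖(8 : ℝ)‖ₑ * eLpNorm (fun x => len (poisV τ (helVort σ v) x)) P
          (volume.restrict cube) :=
      eLpNorm_const_smul (8 : ℝ) (fun x => len (poisV τ (helVort σ v) x)) _ _
    rw [h2, sub_self, Real.rpow_zero, mul_one, ENNReal.ofReal_mul (by norm_num),
      Real.enorm_eq_ofReal (by norm_num)]
    gcongr
    exact (contr hw hP hτ.le).trans h
  · refine Eventually.of_forall fun x => ?_
    set W := poisV τ v with hW
    have h1 := qf_split (v := W) (O := curl W) (L := fracV (1 / 2) W) hσ x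
    have e1 : (fun i => (curl W x i + σ * fracV (1 / 2) W x i) / 2)
        = poisV τ (helVort σ v) x := by
      rw [pois_helVort hv σ hτ.le, hW, curl_poisV hv hτ.le, frac_poisV hv hτ.le]
    have hσ' : -σ = 1 ∨ -σ = -1 := by
      rcases hσ with h | h
      · right; rw [h]
      · left; rw [h]; norm_num
    have h2 := len_half_le hσ' (curl W x) (fracV (1 / 2) W x)
    have e2 : (fun i => (curl W x i + -σ * fracV (1 / 2) W x i) / 2)
        = fun i => (curl W x i - σ * fracV (1 / 2) W x i) / 2 := by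
      funext i
      ring
    rw [e2] at h2
    rw [e1] at h1
    have hO : len (curl W x) ^ 2 ≤ 2 * mn W x ^ 2 := by
      rw [len_sq]
      unfold mn
      rw [Real.sq_sqrt (Finset.sum_nonneg fun _ _ => Finset.sum_nonneg fun _ _ => sq_nonneg _)]
      simp only [Fin.sum_univ_three]
      unfold curl
      simp only [Matrix.cons_val_zero, Matrix.cons_val_one, Matrix.cons_val]
      nlinarith [sq_nonneg (pd 1 (fun y => W y 2) x + pd 2 (fun y => W y 1) x),
        sq_nonneg (pd 2 (fun y => W y 0) x + pd 0 (fun y => W y 2) x),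
        sq_nonneg (pd 0 (fun y => W y 1) x + pd 1 (fun y => W y 0) x),
        sq_nonneg (pd 0 (fun y => W y 0) x), sq_nonneg (pd 1 (fun y => W y 1) x),
        sq_nonneg (pd 2 (fun y => W y 2) x)]
    have nO := len_nonneg (curl W x)
    have nL := len_nonneg (fracV (1 / 2) W x)
    have nM : 0 ≤ mn W x := Real.sqrt_nonneg _
    have nX := len_nonneg (poisV τ (helVort σ v) x)
    have h3 : len (fun i => (curl W x i - σ * fracV (1 / 2) W x i) / 2) * mn W x
        ≤ mn W x ^ 2 + len (fracV (1 / 2) W x) ^ 2 := by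
      have a1 := mul_le_mul_of_nonneg_right h2 nM
      nlinarith [sq_nonneg (len (curl W x) - mn W x), sq_nonneg (len (fracV (1 / 2) W x) - mn W x)]
    have h4 := mul_le_mul_of_nonneg_left h3 nX
    linarith

end Pool.Agent.U172.NS
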