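import Pool.Agent.U172.NS.Mix

/-!
Mixed criteria: final form.
-/

open MeasureTheory Set Filter Topology
open scoped ENNReal ComplexConjugate ContDiff

set_option autoImplicit false

namespace Pool.Agent.U172.NS

open H459R3.NS

theorem mix_main {a : ℝ} (ha : 0 < a) (ha1 : a ≤ 1) {P : ℝ≥0∞} {q r m κ ν : ℝ}
    (hP0 : P ≠ 0) (hya : 3 * (P⁻¹).toReal < 1 + a)
    (hq : 3 * (P⁻¹).toReal + 2 / q = 1 + a) (hr1 : 3 / 2 < r) (hr2 : r ≤ 6)
    (hm : 3 / r + 2 / m = 2) (hν : 0 < ν) (hκ0 : 0 ≤ κ) (hκ : κ < 1) :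
    ∃ C c : ℝ, 0 ≤ C ∧ 0 < c ∧ ∀ (T : ℝ) (u : ℝ → V → V) (p : ℝ → V → ℝ) (β γ : ℝ → ℝ),
      IsSol ν T u p → (∀ t ∈ Ioo 0 T, 0 ≤ β t ∧ 0 ≤ γ t) →
      IntegrableOn (fun t => β t ^ q) (Ioo 0 T) → IntegrableOn (fun t => γ t ^ m) (Ioo 0 T) →
      (∀ᵐ t ∂(volume.restrict (Ioo 0 T)), (HalfLe a P (κ * ν) (β t) (u t) ∨
        HalfLe a (ENNReal.ofReal (3 / (1 + a))) (κ * ν) (c * ν) (u t)) ∨
        LambLe r (κ * ν) (γ t) (u t)) →
      (∀ t ∈ Ico 0 T, Es (1 / 2) (u t) ≤ Es (1 / 2) (u 0)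
        * Real.exp (C * ((∫ τ in Ioo 0 T, β τ ^ q) + ∫ τ in Ioo 0 T, γ τ ^ m))) ∧
      ∃ M, ∀ t ∈ Ico 0 T, ∀ x i, |u t x i| ≤ M := by
  obtain ⟨C1, c, hC10, hc0, h1⟩ := half_step ha ha1 (P := P) (y := 3 * (P⁻¹).toReal / 2)
    (q := q) (κ := κ) (ν := ν) (by ring) hP0 (by linarith) (by linarith) hν hκ0 hκ
  obtain ⟨C2, hC20, h2⟩ := lamb_step (r := r) (m := m) (κ := κ) (ν := ν) hr1 hr2 (by linarith)
    hν hκ
  set C : ℝ := max C1 C2 with hC
  have hC0 : 0 ≤ C := hC10.trans (le_max_left _ _)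
  refine ⟨C, c, hC0, hc0, fun T u p β γ h hβγ hβi hγi hcond => ?_⟩
  set g : ℝ → ℝ := fun t => C * β t ^ q + C * γ t ^ m with hg
  have hgi : IntegrableOn g (Ioo 0 T) := (hβi.const_mul C).add (hγi.const_mul C)
  have hκ1 : 0 < 1 - κ := by linarith
  have hint : ∫ t in Ioo 0 T, g t
      = C * ((∫ τ in Ioo 0 T, β τ ^ q) + ∫ τ in Ioo 0 T, γ τ ^ m) := by
    simp only [hg]
    rw [integral_add (hβi.const_mul C) (hγi.const_mul C), integral_const_mul, integral_const_mul]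
    ring
  rw [← hint]
  have hI : ∀ᵐ t ∂(volume.restrict (Ioo 0 T)), t ∈ Ioo 0 T := ae_restrict_mem measurableSet_Ioo
  refine gron_ae h hν (mul_pos hκ1 hν) ?_ ?_ hgi ?_
  · nlinarith
  · intro t ht
    obtain ⟨hb, hc⟩ := hβγ t ht
    exact add_nonneg (mul_nonneg hC0 (Real.rpow_nonneg hb q))
      (mul_nonneg hC0 (Real.rpow_nonneg hc m))
  · filter_upwards [hcond, hI] with t ht htI
    obtain ⟨hb, hc⟩ := hβγ t htI
    have hv := spv_of_sol h ⟨htI.1.le, htI.2⟩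
    have hdiv := h.divfree t ⟨htI.1.le, htI.2⟩
    have hE0 := Es_nonneg (1 / 2) (u t)
    have hbq := Real.rpow_nonneg hb q
    have hcm := Real.rpow_nonneg hc m
    have e1 : C1 * β t ^ q * Es (1 / 2) (u t) ≤ C * β t ^ q * Es (1 / 2) (u t) :=
      mul_le_mul_of_nonneg_right (mul_le_mul_of_nonneg_right (le_max_left _ _) hbq) hE0
    have e2 : C2 * γ t ^ m * Es (1 / 2) (u t) ≤ C * γ t ^ m * Es (1 / 2) (u t) :=
      mul_le_mul_of_nonneg_right (mul_le_mul_of_nonneg_right (le_max_right _ _) hcm) hE0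
    have e3 : 0 ≤ C * β t ^ q * Es (1 / 2) (u t) := mul_nonneg (mul_nonneg hC0 hbq) hE0
    have e4 : 0 ≤ C * γ t ^ m * Es (1 / 2) (u t) := mul_nonneg (mul_nonneg hC0 hcm) hE0
    have e5 : g t * Es (1 / 2) (u t)
        = C * β t ^ q * Es (1 / 2) (u t) + C * γ t ^ m * Es (1 / 2) (u t) := by
      simp only [hg]
      ring
    rw [e5]
    rcases ht with h3 | h3
    · have := h1 (u t) (β t) hv hdiv hb h3
      linarith
    · have := h2 (u t) (γ t) hv hdiv hc h3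
      linarith

/-- helical parts of the vorticity -/
theorem mix_hel {P : ℝ≥0∞} (hP : 3 / 2 < P) {q r m ν : ℝ} (hq : 3 * (P⁻¹).toReal + 2 / q = 2)
    (hr1 : 3 / 2 < r) (hr2 : r ≤ 6) (hm : 3 / r + 2 / m = 2) (hν : 0 < ν) :
    ∃ C c : ℝ, 0 ≤ C ∧ 0 < c ∧ ∀ (T : ℝ) (u : ℝ → V → V) (p : ℝ → V → ℝ) (β γ : ℝ → ℝ),
      IsSol ν T u p → (∀ t ∈ Ioo 0 T, 0 ≤ β t ∧ 0 ≤ γ t) →
      IntegrableOn (fun t => β t ^ q) (Ioo 0 T) → IntegrableOn (fun t => γ t ^ m) (Ioo 0 T) →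
      (∀ᵐ t ∂(volume.restrict (Ioo 0 T)),
        (∃ σ : ℝ, (σ = 1 ∨ σ = -1) ∧
          (eLpNorm (fun x => len (helVort σ (u t) x)) P (volume.restrict cube)
              ≤ ENNReal.ofReal (β t) ∨
            eLpNorm (fun x => len (helVort σ (u t) x)) (3 / 2) (volume.restrict cube)
              ≤ ENNReal.ofReal (c * ν))) ∨
        eLpNorm (fun x => min (len (helVort 1 (u t) x)) (len (helVort (-1) (u t) x)))
          (ENNReal.ofReal r) (volume.restrict cube) ≤ ENNReal.ofReal (γ t)) →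
      (∀ t ∈ Ico 0 T, Es (1 / 2) (u t) ≤ Es (1 / 2) (u 0)
        * Real.exp (C * ((∫ τ in Ioo 0 T, β τ ^ q) + ∫ τ in Ioo 0 T, γ τ ^ m))) ∧
      ∃ M, ∀ t ∈ Ico 0 T, ∀ x i, |u t x i| ≤ M := by
  have hP0 : P ≠ 0 := (lt_of_le_of_lt zero_le hP).ne'
  have h32 : (1 : ℝ≥0∞) ≤ 3 / 2 := by
    rw [ENNReal.le_div_iff_mul_le (Or.inl (by norm_num)) (Or.inl (by norm_num))]
    norm_num
  have hP1 : 1 ≤ P := h32.trans hP.le
  have hlt : 3 * (P⁻¹).toReal < 2 := by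
    rcases eq_or_ne P ∞ with h | h
    · rw [h]; simp
    · have h1 : (3 / 2 : ℝ) < P.toReal := by
        have := (ENNReal.toReal_lt_toReal (lt_of_lt_of_le hP le_top).ne h).2 hP
        rwa [ENNReal.toReal_div, ENNReal.toReal_ofNat, ENNReal.toReal_ofNat] at this
      rw [ENNReal.toReal_inv, ← div_eq_mul_inv, div_lt_iff₀ (by linarith)]
      linarith
  have hqpos : 0 < q := by
    by_contra hq0
    push Not at hq0
    have : 2 / q ≤ 0 := div_nonpos_of_nonneg_of_nonpos (by norm_num) hq0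
    linarith
  obtain ⟨C, c, hC0, hc0, hC⟩ := mix_main one_pos le_rfl (P := P) (q := q) (r := r) (m := m)
    (κ := 0) (ν := ν) hP0 (by linarith) (by linarith) hr1 hr2 hm hν le_rfl one_pos
  have h8 : (1 : ℝ) ≤ 8 ^ q := Real.one_le_rpow (by norm_num) hqpos.le
  refine ⟨C * 8 ^ q, c / 8, by positivity, by positivity, fun T u p β γ h hβγ hβi hγi hc => ?_⟩
  have e : ∀ t ∈ Ioo 0 T, (8 * β t) ^ q = 8 ^ q * β t ^ q := fun t ht =>
    Real.mul_rpow (by norm_num) (hβγ t ht).1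
  have hae : ∀ᵐ t ∂(volume.restrict (Ioo 0 T)), 8 ^ q * β t ^ q = (8 * β t) ^ q :=
    (ae_restrict_iff' measurableSet_Ioo).2 (Filter.Eventually.of_forall fun t ht => (e t ht).symm)
  have hint : ∫ τ in Ioo 0 T, (8 * β τ) ^ q = 8 ^ q * ∫ τ in Ioo 0 T, β τ ^ q := by
    rw [← integral_const_mul]
    exact (integral_congr_ae hae).symm
  have hI : ∀ᵐ t ∂(volume.restrict (Ioo 0 T)), t ∈ Ioo 0 T := ae_restrict_mem measurableSet_Ioo
  have hz : SP (fun _ => (0 : ℝ)) := ⟨contDiff_const, fun _ _ => rfl⟩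
  have key := hC T u p (fun t => 8 * β t) γ h
    (fun t ht => ⟨mul_nonneg (by norm_num) (hβγ t ht).1, (hβγ t ht).2⟩)
    ((hβi.const_mul (8 ^ q)).congr hae) hγi ?_
  · refine ⟨fun t ht => (key.1 t ht).trans ?_, key.2⟩
    refine mul_le_mul_of_nonneg_left (Real.exp_le_exp.2 ?_) (Es_nonneg _ _)
    rw [hint]
    have hγ0 : 0 ≤ ∫ τ in Ioo 0 T, γ τ ^ m :=
      setIntegral_nonneg measurableSet_Ioo fun τ hτ => Real.rpow_nonneg (hβγ τ hτ).2 m
    have h9 : C * ∫ τ in Ioo 0 T, γ τ ^ m ≤ C * 8 ^ q * ∫ τ in Ioo 0 T, γ τ ^ m := by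
      rw [mul_assoc]
      refine mul_le_mul_of_nonneg_left ?_ hC0
      exact le_mul_of_one_le_left hγ0 h8
    linarith
  · filter_upwards [hc, hI] with t ht htI
    have hv := spv_of_sol h ⟨htI.1.le, htI.2⟩
    rcases ht with ⟨σ, hσ, h1 | h1⟩ | h1
    · left; left
      rw [zero_mul]
      exact half_of_hel hP1 hv hσ h1
    · left; right
      have e : ENNReal.ofReal (3 / (1 + 1)) = 3 / 2 := by
        rw [ENNReal.ofReal_div_of_pos (by norm_num)]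
        norm_num
      have h2 := half_of_hel h32 hv hσ h1
      rw [e, zero_mul]
      rwa [show 8 * (c / 8 * ν) = c * ν by ring] at h2
    · right
      refine ⟨fun x => min (len (helVort 1 (u t) x)) (len (helVort (-1) (u t) x)), fun _ => 0,
        fun _ => 0, ((cont_len (helVort_cont 1 hv)).min
          (cont_len (helVort_cont (-1) hv))).aestronglyMeasurable, h1, hz, hz, ?_⟩
      refine Filter.Eventually.of_forall fun x => ?_
      have h3 : ∀ a : V, dot a (grad (fun _ => (0 : ℝ)) x) = 0 := by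
        intro a
        unfold dot grad pd
        simp
      rw [h3, h3]
      have := lamb_hel (u t) x
      linarith

end Pool.Agent.U172.NS
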