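import Pool.Agent.U172.NS.Ev

/-!
The fractional Laplacian and the evolution of the fractional Sobolev norms.
-/

open MeasureTheory Set Filter Topology
open scoped ENNReal ComplexConjugate ContDiff

set_option autoImplicit false

namespace Pool.Agent.U172.NS

open H459R3.NS

/-- `(-Δ)^s f` -/
noncomputable def frac (s : ℝ) (f : V → ℝ) (x : V) : ℝ :=
  (S (fun k => (wt s k : ℂ) * fr f k) x).re

theorem summable_wfr {s : ℝ} (hs2 : s ≤ 2) {f : V → ℝ} (hf : SP f) :
    Summable fun k => (wt s k : ℂ) * fr f k := by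
  refine Summable.of_norm ?_
  have := summable_wt hs2 (rap_fr hf)
  refine this.congr fun k => ?_
  rw [norm_mul, Complex.norm_real, Real.norm_of_nonneg (wt_nonneg s k)]

theorem wt_neg (s : ℝ) (k : K3) : wt s (-k) = wt s k := by
  unfold wt q2; simp

theorem frac_coe {s : ℝ} {f : V → ℝ} (x : V) :
    S (fun k => (wt s k : ℂ) * fr f k) x = (frac s f x : ℂ) := by
  have h1 : conj (S (fun k => (wt s k : ℂ) * fr f k) x) = S (fun k => (wt s k : ℂ) * fr f k) x := by
    unfold S
    rw [Complex.conj_tsum, ← (Equiv.neg K3).tsum_eq]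
    refine tsum_congr fun k => ?_
    simp only [Equiv.neg_apply, map_mul, Complex.conj_ofReal]
    rw [wt_neg, fr_conj, Complex.conj_conj, ee_neg, Complex.conj_conj]
  exact (Complex.conj_eq_iff_re.1 h1).symm

theorem frac_cont {s : ℝ} (hs2 : s ≤ 2) {f : V → ℝ} (hf : SP f) : Continuous (frac s f) :=
  Complex.continuous_re.comp (S_continuous (summable_wfr hs2 hf))

theorem fr_bdd {g : V → ℝ} (hg : Continuous g) : ∃ C : ℝ, 0 ≤ C ∧ ∀ k, ‖fr g k‖ ≤ C := by
  have hK : IsCompact cube := isCompact_Icc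
  obtain ⟨C, hC⟩ := hK.exists_bound_of_continuousOn hg.continuousOn
  exact ⟨|C|, abs_nonneg _, fun k =>
    norm_fr_le_int hg (fun x hx => (hC x hx).trans (le_abs_self _)) k⟩

/-- Parseval's identity -/
theorem int_frac_mul {s : ℝ} (hs2 : s ≤ 2) {f g : V → ℝ} (hf : SP f) (hg : Continuous g) :
    ∫ x in cube, frac s f x * g x = ∑' k, wt s k * (conj (fr f k) * fr g k).re := by
  have h := integral_S_mul (summable_wfr hs2 hf)
    (g := fun x => (g x : ℂ)) (Complex.continuous_ofReal.comp hg)
  have e1 : (∫ x in cube, S (fun k => (wt s k : ℂ) * fr f k) x * (g x : ℂ))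
      = ((∫ x in cube, frac s f x * g x : ℝ) : ℂ) := by
    rw [← integral_complex_ofReal]
    congr 1
    funext x
    rw [frac_coe]
    push_cast
    ring
  rw [e1] at h
  have h2 := Complex.hasSum_re h
  rw [Complex.ofReal_re] at h2
  rw [← h2.tsum_eq]
  refine tsum_congr fun k => ?_
  have e2 : ∫ x in cube, ee k x * (g x : ℂ) = conj (fr g k) := by
    rw [← fr_conj]
    unfold fr fc
    rw [neg_neg]
  rw [e2]
  simp only [Complex.mul_re, Complex.mul_im, Complex.ofReal_re, Complex.ofReal_im,
    Complex.conj_re, Complex.conj_im]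
  ring

theorem summable_pair {s : ℝ} (hs2 : s ≤ 2) {f g : V → ℝ} (hf : SP f) (hg : Continuous g) :
    Summable fun k => wt s k * (conj (fr f k) * fr g k).re := by
  obtain ⟨C, hC0, hC⟩ := fr_bdd hg
  refine Summable.of_norm_bounded ((summable_wt hs2 (rap_fr hf)).mul_right C) fun k => ?_
  rw [Real.norm_eq_abs, abs_mul, abs_of_nonneg (wt_nonneg s k), mul_assoc]
  refine mul_le_mul_of_nonneg_left ?_ (wt_nonneg s k)
  refine (Complex.abs_re_le_norm _).trans ?_
  rw [norm_mul, Complex.norm_conj]
  exact mul_le_mul_of_nonneg_left (hC k) (norm_nonneg _)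

theorem fr_lap {f : V → ℝ} (hf : SP f) (k : K3) : fr (lap f) k = -(q2 k : ℂ) * fr f k := by
  have e : fr (lap f) k = ∑ j, D j (D j (fr f)) k := by
    unfold lap
    rw [fr_sum fun j _ => (hf.pd j).pd j]
    refine Finset.sum_congr rfl fun j _ => ?_
    rw [fr_pd (hf.pd j), fr_pd hf]
  rw [e]
  unfold D q2
  push_cast
  rw [Finset.mul_sum, ← Finset.sum_neg_distrib, Finset.sum_mul]
  refine Finset.sum_congr rfl fun j _ => ?_
  have := Complex.I_sq
  linear_combination ((2 * Real.pi : ℂ) ^ 2 * (k j : ℂ) ^ 2 * fr f k) * this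

theorem int_frac_lap {s : ℝ} (hs0 : 0 ≤ s) (hs1 : s ≤ 1) {f : V → ℝ} (hf : SP f) :
    ∫ x in cube, frac s f x * lap f x = -hs (s + 1) (fr f) := by
  rw [int_frac_mul (by linarith) hf hf.lap.cont]
  unfold hs
  rw [← tsum_neg]
  refine tsum_congr fun k => ?_
  rw [fr_lap hf, ← wt_mul_q2 hs0, ← Complex.normSq_eq_norm_sq, Complex.normSq_apply]
  simp only [Complex.mul_re, Complex.mul_im, Complex.neg_re, Complex.neg_im, Complex.ofReal_re,
    Complex.ofReal_im, Complex.conj_re, Complex.conj_im]
  ring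

section

variable {v : Fin 3 → V → ℝ} (hv : ∀ i, SP (v i)) (hdiv : ∀ x, ∑ i, pd i (v i) x = 0)

include hv hdiv in
/-- gradients are orthogonal to `(-Δ)^s v` -/
theorem sum_frac_grad {s : ℝ} (hs2 : s ≤ 2) {g : V → ℝ} (hg : SP g) :
    ∑ i, ∫ x in cube, frac s (v i) x * pd i g x = 0 := by
  have h1 : ∀ i, ∫ x in cube, frac s (v i) x * pd i g x
      = ∑' k, wt s k * (conj (fr (v i) k) * fr (pd i g) k).re := fun i =>
    int_frac_mul hs2 (hv i) (hg.pd i).cont
  simp_rw [h1]
  rw [← Summable.tsum_finsetSum fun i _ => summable_pair hs2 (hv i) (hg.pd i).cont]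
  rw [← tsum_zero (β := K3)]
  refine tsum_congr fun k => ?_
  have h2 := fr_div hv hdiv k
  have h3 : ∑ i, (conj (fr (v i) k) * fr (pd i g) k) = 0 := by
    have e : ∀ i, conj (fr (v i) k) * fr (pd i g) k
        = (2 * Real.pi * Complex.I * fr g k) * ((k i : ℂ) * conj (fr (v i) k)) := by
      intro i
      rw [fr_pd hg, D]
      ring
    simp_rw [e]
    rw [← Finset.mul_sum]
    have h4 : ∑ i, (k i : ℂ) * conj (fr (v i) k) = 0 := by
      have := congrArg conj h2
      rw [map_sum, map_zero] at this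
      rw [← this]
      refine Finset.sum_congr rfl fun i _ => ?_
      rw [map_mul]
      congr 1
      exact (Complex.conj_ofReal ((k i : ℝ))).symm.trans (by push_cast; rfl)
    rw [h4, mul_zero]
  rw [← Finset.mul_sum]
  have h5 : ∑ i, (conj (fr (v i) k) * fr (pd i g) k).re = 0 := by
    rw [← Complex.re_sum, h3, Complex.zero_re]
  rw [h5, mul_zero]

include hv in
/-- constant vector fields -/
theorem frac_const_transport {s : ℝ} (hs2 : s ≤ 2) (i j : Fin 3) :
    ∫ x in cube, frac s (v i) x * pd j (v i) x = 0 := by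
  rw [int_frac_mul hs2 (hv i) ((hv i).pd j).cont, ← tsum_zero (β := K3)]
  refine tsum_congr fun k => ?_
  rw [fr_pd (hv i), D]
  simp only [Complex.mul_re, Complex.mul_im, Complex.ofReal_re,
    Complex.ofReal_im, Complex.conj_re, Complex.conj_im, Complex.I_re, Complex.I_im,
    Complex.intCast_re, Complex.intCast_im]
  norm_num
  ring_nf
  tauto

end

/-- the square of the norm of order `s` of a vector field -/
noncomputable def Es (s : ℝ) (v : V → V) : ℝ := ∑ i, hs s (fr fun y => v y i)

theorem Es_nonneg (s : ℝ) (v : V → V) : 0 ≤ Es s v := Finset.sum_nonneg fun _ _ => hs_nonneg _ _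

section evolution

variable {ν T : ℝ} {u : ℝ → V → V} {p : ℝ → V → ℝ}

theorem Es_continuousOn (h : IsSol ν T u p) {s : ℝ} (hs2 : s ≤ 2) :
    ContinuousOn (fun t => Es s (u t)) (Ico 0 T) := by
  unfold Es
  refine continuousOn_finsetSum _ fun i _ => ?_
  exact hs_continuousOn (f := fun t y => u t y i) (h.smooth_c i)
    (fun t ht => (h.sp ht i).per) hs2

theorem Es_hasDerivAt (h : IsSol ν T u p) {s : ℝ} (hs0 : 0 ≤ s) (hs1 : s ≤ 1) {t : ℝ}
    (ht : t ∈ Ioo 0 T) :
    HasDerivAt (fun t => Es s (u t)) (-(2 * ν * Es (s + 1) (u t))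
      - 2 * ∑ i, ∫ x in cube, frac s (fun y => u t y i) x * conv (fun i y => u t y i) i x) t := by
  have hI : t ∈ Ico 0 T := ⟨ht.1.le, ht.2⟩
  set v : Fin 3 → V → ℝ := fun i y => u t y i with hv
  have hsp : ∀ i, SP (v i) := fun i => h.sp hI i
  have hdiv : ∀ x, ∑ i, pd i (v i) x = 0 := h.divfree t hI
  have h1 : ∀ i, HasDerivAt (fun t => hs s (fr fun y => u t y i))
      (2 * ∫ x in cube, frac s (v i) x * dt (fun s y => u s y i) t x) t := by
    intro i
    have h2 := hs_hasDerivAt (f := fun t y => u t y i) (h.smooth_c i)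
      (fun t ht => (h.sp ht i).per) (by linarith : s ≤ 2) ht
    refine h2.congr_deriv ?_
    rw [int_frac_mul (by linarith) (hsp i) (h.sp_dt ht i).cont, ← tsum_mul_left]
    exact tsum_congr fun k => by ring
  have h2 : HasDerivAt (fun t => Es s (u t))
      (∑ i, 2 * ∫ x in cube, frac s (v i) x * dt (fun s y => u s y i) t x) t :=
    HasDerivAt.fun_sum fun i _ => h1 i
  refine h2.congr_deriv ?_
  have hfc : ∀ i, Continuous (frac s (v i)) := fun i => frac_cont (by linarith) (hsp i)
  have e1 : ∀ i, ∫ x in cube, frac s (v i) x * dt (fun s y => u s y i) t x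
      = ν * (∫ x in cube, frac s (v i) x * lap (v i) x)
        - (∫ x in cube, frac s (v i) x * conv v i x)
        - ∫ x in cube, frac s (v i) x * pd i (p t) x := by
    intro i
    have e : ∀ x, frac s (v i) x * dt (fun s y => u s y i) t x
        = ν * (frac s (v i) x * lap (v i) x) - frac s (v i) x * conv v i x
          - frac s (v i) x * pd i (p t) x := by
      intro x
      rw [h.dt_eq ht]
      ring
    simp_rw [e]
    have i1 : IntegrableOn (fun x => ν * (frac s (v i) x * lap (v i) x)) cube :=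
      (integrableOn_cube ((hfc i).mul (hsp i).lap.cont)).const_mul ν
    have i2 : IntegrableOn (fun x => frac s (v i) x * conv v i x) cube :=
      integrableOn_cube ((hfc i).mul (sp_conv hsp i).cont)
    have i3 : IntegrableOn (fun x => frac s (v i) x * pd i (p t) x) cube :=
      integrableOn_cube ((hfc i).mul ((h.sp_p hI).pd i).cont)
    have i12 : IntegrableOn (fun x => ν * (frac s (v i) x * lap (v i) x)
        - frac s (v i) x * conv v i x) cube := i1.sub i2
    rw [integral_sub i12 i3, integral_sub i1 i2, integral_const_mul]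
  simp_rw [e1]
  rw [← Finset.mul_sum, Finset.sum_sub_distrib, Finset.sum_sub_distrib,
    sum_frac_grad hsp hdiv (by linarith) (h.sp_p hI), ← Finset.mul_sum]
  have e2 : ∑ i, ∫ x in cube, frac s (v i) x * lap (v i) x = -Es (s + 1) (u t) := by
    unfold Es
    rw [← Finset.sum_neg_distrib]
    exact Finset.sum_congr rfl fun i _ => int_frac_lap hs0 hs1 (hsp i)
  rw [e2]
  ring

end evolution

end Pool.Agent.U172.NS
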