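import Pool.Agent.U172.NS.Fl

/-!
The Poisson semigroup preserves positivity (minimum principle for the harmonic extension).
-/

open MeasureTheory Set Filter Topology
open scoped ENNReal ComplexConjugate ContDiff

set_option autoImplicit false

namespace Pool.Agent.U172.NS

open H459R3.NS

theorem second_nonneg {f f' : ℝ → ℝ} {a c : ℝ} (h1 : ∀ᶠ x in 𝓝 a, HasDerivAt f (f' x) x)
    (h2 : HasDerivAt f' c a) (hmin : IsLocalMin f a) : 0 ≤ c := by
  by_contra hc
  push Not at hc
  have e1 : deriv f =ᶠ[𝓝 a] f' := by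
    filter_upwards [h1] with x hx using hx.deriv
  have h3 : deriv (deriv f) a = c := by
    rw [e1.deriv_eq]
    exact h2.deriv
  have h4 : deriv f a = 0 := hmin.deriv_eq_zero
  have h5 : ContinuousAt f a := (h1.self_of_nhds).continuousAt
  have hmax : IsLocalMax f a := isLocalMax_of_deriv_deriv_neg (by rw [h3]; exact hc) h4 h5
  have h6 : f =ᶠ[𝓝 a] fun _ => f a := by
    filter_upwards [hmin, hmax] with x hx1 hx2 using le_antisymm hx2 hx1
  have h7 : deriv f =ᶠ[𝓝 a] fun _ => 0 := by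
    have := h6.deriv
    refine this.trans ?_
    simp
  have h8 : deriv (deriv f) a = 0 := by
    rw [h7.deriv_eq]
    simp
  rw [h8] at h3
  linarith

/-- behaviour for large `τ` -/
theorem R_Fl_large {a : K3 → ℂ} (ha : Rap a) {τ : ℝ} (hτ : 0 ≤ τ) (x : V) :
    |R (Fl τ a) x - (a 0).re| ≤ Real.exp (-τ) * ∑' k, ‖a k‖ := by
  classical
  set b : K3 → ℂ := fun k => if k = 0 then 0 else Fl τ a k with hb
  have hFs := (rap_Fl ha hτ).summable
  have h1 : S (Fl τ a) x = a 0 + ∑' k, b k * ee k x := by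
    unfold S
    have h2 := (summable_term hFs x).tsum_eq_add_tsum_ite 0
    rw [h2]
    congr 1
    · unfold Fl
      rw [lam_zero, ee_zero]
      simp
    · refine tsum_congr fun k => ?_
      simp only [hb]
      by_cases hk : k = 0
      · rw [if_pos hk, if_pos hk, zero_mul]
      · rw [if_neg hk, if_neg hk]
  have hble : ∀ k, ‖b k‖ ≤ Real.exp (-τ) * ‖a k‖ := by
    intro k
    simp only [hb]
    by_cases hk : k = 0
    · rw [if_pos hk, norm_zero]
      positivity
    · rw [if_neg hk]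
      unfold Fl
      rw [norm_mul, Complex.norm_real, Real.norm_of_nonneg (Real.exp_pos _).le]
      refine mul_le_mul_of_nonneg_right ?_ (norm_nonneg _)
      refine Real.exp_le_exp.2 ?_
      have := mul_le_mul_of_nonneg_left (one_le_lam hk) hτ
      linarith
  have hbs : Summable b := Summable.of_norm (Summable.of_nonneg_of_le (fun _ => norm_nonneg _)
    hble (ha.summable.norm.mul_left _))
  have h3 : ‖∑' k, b k * ee k x‖ ≤ Real.exp (-τ) * ∑' k, ‖a k‖ := by
    refine (norm_S_le hbs x).trans ?_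
    rw [← tsum_mul_left]
    exact hbs.norm.tsum_le_tsum hble (ha.summable.norm.mul_left _)
  unfold R
  rw [h1, Complex.add_re, add_sub_cancel_left]
  exact (Complex.abs_re_le_norm _).trans h3

theorem int_R {a : K3 → ℂ} (ha : Summable a) : ∫ x in cube, R a x = (a 0).re := by
  have h := integral_ee_S 0 ha
  simp only [ee_zero, one_mul, neg_zero] at h
  rw [← h]
  unfold R
  exact integral_re (integrableOn_cube (S_continuous ha))

theorem R_Fl_continuousOn {a : K3 → ℂ} (ha : Rap a) :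
    ContinuousOn (fun z : ℝ × V => R (Fl z.1 a) z.2) (Ici 0 ×ˢ univ) := by
  unfold R S
  refine Complex.continuous_re.comp_continuousOn ?_
  refine continuousOn_tsum (u := fun k => ‖a k‖) (fun k => ?_) ha.summable.norm (fun k z hz => ?_)
  · refine Continuous.continuousOn ?_
    unfold Fl
    exact ((Complex.continuous_ofReal.comp (Real.continuous_exp.comp
      (continuous_fst.mul continuous_const).neg)).mul continuous_const).mul
      ((ee_continuous k).comp continuous_snd)
  · rw [norm_mul, norm_ee, mul_one]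
    exact norm_ex_le lam_nonneg a hz.1 k

/-- reduction to the period cell -/
theorem exists_cube {f : V → ℝ} (hf : Per f) (x : V) : ∃ y ∈ cube, f y = f x := by
  refine ⟨x + fun i => ((-⌊x i⌋ : ℤ) : ℝ), ⟨fun i => ?_, fun i => ?_⟩, hf.int (fun i => -⌊x i⌋) x⟩
  · simp only [Pi.add_apply, Int.cast_neg, Pi.zero_apply]
    have := Int.floor_le (x i)
    linarith
  · simp only [Pi.add_apply, Int.cast_neg, Pi.one_apply]
    have := Int.lt_floor_add_one (x i)
    linarith

/-- **the Poisson semigroup preserves positivity** -/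
theorem pos_flow {a : K3 → ℂ} (ha : Rap a) (h0 : ∀ x, 0 ≤ R a x) {τ : ℝ} (hτ : 0 ≤ τ) (x : V) :
    0 ≤ R (Fl τ a) x := by
  by_contra hneg
  push Not at hneg
  set ε : ℝ := -(R (Fl τ a) x) / 2 with hε
  have hε0 : 0 < ε := by rw [hε]; linarith
  set G : ℝ × V → ℝ := fun z => R (Fl z.1 a) z.2 + ε * (1 - Real.exp (-z.1)) with hG
  have hGc : ContinuousOn G (Ici 0 ×ˢ univ) := by
    refine (R_Fl_continuousOn ha).add (Continuous.continuousOn ?_)
    fun_prop
  have hper : ∀ s, Per fun y => G (s, y) := by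
    intro s i y
    simp only [hG]
    unfold R
    rw [per_S (Fl s a) i y]
  have ha0 : 0 ≤ (a 0).re := by
    rw [← int_R ha.summable]
    exact integral_nonneg fun x => h0 x
  -- a large time
  obtain ⟨r, hr⟩ : ∃ r : ℝ, τ < r ∧ Real.exp (-r) * ∑' k, ‖a k‖ < ε / 2 := by
    have h1 : Tendsto (fun r : ℝ => Real.exp (-r) * ∑' k, ‖a k‖) atTop (𝓝 (0 * ∑' k, ‖a k‖)) :=
      (Real.tendsto_exp_neg_atTop_nhds_zero).mul_const _
    rw [zero_mul] at h1
    have h2 := (h1.eventually (gt_mem_nhds (by linarith : (0 : ℝ) < ε / 2))).and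
      (eventually_gt_atTop τ)
    obtain ⟨r, hr⟩ := h2.exists
    exact ⟨r, hr.2, hr.1⟩
  have hr0 : 0 < r := hτ.trans_lt hr.1
  have hK : IsCompact (Icc 0 r ×ˢ cube) := isCompact_Icc.prod isCompact_Icc
  obtain ⟨x', hx', hxe⟩ := exists_cube (hper τ) x
  have hsub : Icc 0 r ×ˢ cube ⊆ Ici 0 ×ˢ (univ : Set V) :=
    prod_mono (fun s hs => hs.1) (subset_univ _)
  obtain ⟨z, hz, hzmin⟩ := hK.exists_isMinOn ⟨(τ, x'), ⟨⟨hτ, hr.1.le⟩, hx'⟩⟩ (hGc.mono hsub)
  have hmin : ∀ s ∈ Icc 0 r, ∀ y, G z ≤ G (s, y) := by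
    intro s hs y
    obtain ⟨y', hy', hye⟩ := exists_cube (hper s) y
    rw [← hye]
    exact hzmin (show (s, y') ∈ Icc 0 r ×ˢ cube from ⟨hs, hy'⟩)
  have hGz : G z ≤ -ε := by
    refine (hmin τ ⟨hτ, hr.1.le⟩ x).trans ?_
    have h1 : Real.exp (-τ) ≥ 0 := (Real.exp_pos _).le
    have h2 : R (Fl τ a) x = -(2 * ε) := by rw [hε]; ring
    have h3 : G (τ, x) = R (Fl τ a) x + ε * (1 - Real.exp (-τ)) := rfl
    rw [h3, h2]
    nlinarith
  have hz0 : z.1 ≠ 0 := by
    intro h
    have h1 : G z = R (Fl z.1 a) z.2 + ε * (1 - Real.exp (-z.1)) := rfl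
    rw [h1, h, Fl_zero] at hGz
    simp only [neg_zero, Real.exp_zero, sub_self, mul_zero, add_zero] at hGz
    have := h0 z.2
    linarith
  have hzr : z.1 ≠ r := by
    intro h
    have h1 : G z = R (Fl z.1 a) z.2 + ε * (1 - Real.exp (-z.1)) := rfl
    rw [h1, h] at hGz
    have h2 := (abs_le.1 (R_Fl_large ha hr0.le z.2)).1
    have h3 : Real.exp (-r) ≤ 1 := Real.exp_le_one_iff.2 (by linarith)
    have h4 : 0 ≤ ε * (1 - Real.exp (-r)) := mul_nonneg hε0.le (by linarith)
    linarith [hr.2]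
  have hz1 : 0 < z.1 := lt_of_le_of_ne hz.1.1 (Ne.symm hz0)
  have hz2 : z.1 < r := lt_of_le_of_ne hz.1.2 hzr
  -- the second derivative in time
  have ht : 0 ≤ R (Fl z.1 (La (La a))) z.2 - ε * Real.exp (-z.1) := by
    refine second_nonneg (f := fun s => G (s, z.2))
      (f' := fun s => -(R (Fl s (La a)) z.2) + ε * Real.exp (-s)) (a := z.1) ?_ ?_ ?_
    · filter_upwards [lt_mem_nhds hz1] with s hs
      have h1 := R_Fl_hasDerivAt ha z.2 hs
      have h2 : HasDerivAt (fun s : ℝ => ε * (1 - Real.exp (-s))) (ε * (-(Real.exp (-s) * (-1)))) s :=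
        (((hasDerivAt_id s).neg.exp).const_sub 1).const_mul ε
      refine (h1.add h2).congr_deriv ?_
      ring
    · have h1 := R_Fl_hasDerivAt (rap_La ha) z.2 hz1
      have h2 : HasDerivAt (fun s : ℝ => ε * Real.exp (-s)) (ε * (Real.exp (-z.1) * (-1))) z.1 :=
        ((hasDerivAt_id z.1).neg.exp).const_mul ε
      refine (h1.neg.add h2).congr_deriv ?_
      ring
    · filter_upwards [Icc_mem_nhds hz1 hz2] with s hs
      exact hmin s hs z.2
  -- the second derivatives in space
  have hx : ∀ j, 0 ≤ R (Fl z.1 (D j (D j a))) z.2 := by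
    intro j
    have hF := rap_Fl ha hz1.le
    have h1 : HasDerivAt (fun s : ℝ => R (D j (Fl z.1 a)) (z.2 + s • Pi.single j 1))
        (R (D j (D j (Fl z.1 a))) (z.2 + (0 : ℝ) • Pi.single j 1)) (0 : ℝ) :=
      R_line_hasDerivAt (hF.D j) z.2 j 0
    rw [zero_smul, add_zero, D_Fl, D_Fl] at h1
    refine second_nonneg (f := fun s : ℝ => G (z.1, z.2 + s • Pi.single j 1))
      (f' := fun s : ℝ => R (Fl z.1 (D j a)) (z.2 + s • Pi.single j 1)) (a := 0) ?_ h1 ?_
    · refine Eventually.of_forall fun s => ?_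
      have h2 := R_line_hasDerivAt hF z.2 j s
      rw [D_Fl] at h2
      exact h2.add_const (ε * (1 - Real.exp (-z.1)))
    · refine Eventually.of_forall fun s => ?_
      simp only [zero_smul, add_zero]
      exact hmin z.1 hz.1 _
  have hsum : R (Fl z.1 (La (La a))) z.2 + ∑ j, R (Fl z.1 (D j (D j a))) z.2 = 0 := by
    rw [← R_sum Finset.univ (a := fun j => Fl z.1 (D j (D j a)))
      (fun j _ => rap_Fl ((ha.D j).D j) hz1.le), ← R_add (rap_Fl (rap_La (rap_La ha)) hz1.le)]
    · rw [← R_zero z.2]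
      congr 1
      funext k
      have := lap_symb a k
      unfold Fl
      rw [← Finset.mul_sum, ← mul_add, this, mul_zero]
    · intro n
      have h1 : Summable fun k => ∑ j : Fin 3, (N k : ℝ) ^ n * ‖Fl z.1 (D j (D j a)) k‖ :=
        summable_sum fun j _ => rap_Fl ((ha.D j).D j) hz1.le n
      refine Summable.of_nonneg_of_le (fun k => by positivity) (fun k => ?_) h1
      rw [← Finset.mul_sum]
      exact mul_le_mul_of_nonneg_left (norm_sum_le _ _) (by positivity)
  have hs2 : 0 ≤ ∑ j, R (Fl z.1 (D j (D j a))) z.2 := Finset.sum_nonneg fun j _ => hx j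
  have := mul_pos hε0 (Real.exp_pos (-z.1))
  linarith

end Pool.Agent.U172.NS
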