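import Pool.Agent.U172.NS.Ident

/-!
The production of the `H^{1/2}` norm as an integral over the harmonic extension.
-/

open MeasureTheory Set Filter Topology
open scoped ENNReal ComplexConjugate ContDiff

set_option autoImplicit false

namespace Pool.Agent.U172.NS

open H459R3.NS

/-- the integrand `X · (X · ∇) v` -/
noncomputable def qf (v X : V → V) (x : V) : ℝ :=
  ∑ i, ∑ j, X x i * X x j * pd j (fun y => v y i) x

/-- `∫ X · (X · ∇) v` -/
noncomputable def Qf (v X : V → V) : ℝ := ∫ x in cube, qf v X x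

theorem qf_cont {v X : V → V} (hv : SPV v) (hX : Continuous X) : Continuous (qf v X) := by
  unfold qf
  refine continuous_finsetSum _ fun i _ => continuous_finsetSum _ fun j _ => ?_
  exact (((continuous_apply i).comp hX).mul ((continuous_apply j).comp hX)).mul
    ((hv.sp i).pd j).cont

theorem pd_half {X : V → V} (hX : SPV X) (j : Fin 3) (x : V) :
    pd j (fun y => (1 / 2) * ∑ i, X y i * X y i) x = ∑ i, X x i * pd j (fun y => X y i) x := by
  have hw := fun i => hX.sp i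
  have hc : pd j (fun y => (1 / 2) * ∑ i, X y i * X y i) x
      = (1 / 2) * pd j (fun y => ∑ i, X y i * X y i) x := by
    unfold pd
    have hd : DifferentiableAt ℝ (fun y => ∑ i, X y i * X y i) x :=
      (SP.sum fun i (_ : i ∈ Finset.univ) => (hw i).mul (hw i)).diff x
    rw [fderiv_const_mul hd]
    simp
  rw [hc, pd_sum (s := Finset.univ) (f := fun i y => X y i * X y i)
    fun i _ => (hw i).mul (hw i), Finset.mul_sum]
  refine Finset.sum_congr rfl fun i _ => ?_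
  rw [pd_mul (hw i) (hw i)]
  ring

theorem pd_vX {v X : V → V} (hv : SPV v) (hX : SPV X) (j : Fin 3) (x : V) :
    pd j (fun y => ∑ i, v y i * X y i) x
      = ∑ i, (v x i * pd j (fun y => X y i) x + pd j (fun y => v y i) x * X x i) := by
  rw [pd_sum (s := Finset.univ) (f := fun i y => v y i * X y i)
    fun i _ => (hv.sp i).mul (hX.sp i)]
  exact Finset.sum_congr rfl fun i _ => pd_mul (hv.sp i) (hX.sp i) j x

theorem cross_cont {a b : V → V} (ha : Continuous a) (hb : Continuous b) :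
    Continuous fun x => crossProduct (a x) (b x) := by
  refine continuous_pi fun i => ?_
  have c : ∀ j, Continuous fun x => a x j := fun j => (continuous_apply j).comp ha
  have d : ∀ j, Continuous fun x => b x j := fun j => (continuous_apply j).comp hb
  simp only [cross_apply]
  fin_cases i
  · exact ((c 1).mul (d 2)).sub ((c 2).mul (d 1))
  · exact ((c 2).mul (d 0)).sub ((c 0).mul (d 2))
  · exact ((c 0).mul (d 1)).sub ((c 1).mul (d 0))

theorem dot_cont {a b : V → V} (ha : Continuous a) (hb : Continuous b) :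
    Continuous fun x => dot (a x) (b x) := by
  unfold dot
  exact continuous_finsetSum _ fun i _ =>
    ((continuous_apply i).comp ha).mul ((continuous_apply i).comp hb)

theorem ibp_cross {v X : V → V} (hv : SPV v) (hX : SPV X)
    (hdv : ∀ x, ∑ i, pd i (fun y => v y i) x = 0) (hdX : ∀ x, ∑ i, pd i (fun y => X y i) x = 0) :
    ∫ x in cube, dot (crossProduct (v x) (X x)) (curl X x) = Qf v X := by
  have hG1 : SP (fun y => (1 / 2) * ∑ i, X y i * X y i) := by
    have h1 : SP (fun y => ∑ i, X y i * X y i) :=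
      SP.sum fun j (_ : j ∈ Finset.univ) => (hX.sp j).mul (hX.sp j)
    exact ⟨contDiff_const.mul h1.smooth, fun j x => by simp only [h1.per j x]⟩
  have hG2 : SP (fun y => ∑ i, v y i * X y i) :=
    SP.sum fun j (_ : j ∈ Finset.univ) => (hv.sp j).mul (hX.sp j)
  have e : ∀ x, dot (crossProduct (v x) (X x)) (curl X x)
      = dot (v x) (grad (fun y => (1 / 2) * ∑ i, X y i * X y i) x)
        - dot (X x) (grad (fun y => ∑ i, v y i * X y i) x) + qf v X x := by
    intro x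
    unfold dot grad qf
    simp only [pd_half hX, pd_vX hv hX]
    unfold curl
    simp only [Fin.sum_univ_three, cross_apply, Matrix.cons_val_zero, Matrix.cons_val_one,
      Matrix.cons_val]
    ring
  simp_rw [e]
  have c1 : Continuous fun x => dot (v x) (grad (fun y => (1 / 2) * ∑ i, X y i * X y i) x) :=
    dot_cont hv.1.continuous (continuous_pi fun i => (hG1.pd i).cont)
  have c2 : Continuous fun x => dot (X x) (grad (fun y => ∑ i, v y i * X y i) x) :=
    dot_cont hX.1.continuous (continuous_pi fun i => (hG2.pd i).cont)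
  have c12 : IntegrableOn (fun x => dot (v x) (grad (fun y => (1 / 2) * ∑ i, X y i * X y i) x)
      - dot (X x) (grad (fun y => ∑ i, v y i * X y i) x)) cube := integrableOn_cube (c1.sub c2)
  rw [integral_add c12 (integrableOn_cube (qf_cont hv hX.1.continuous)),
    integral_sub (integrableOn_cube c1) (integrableOn_cube c2), int_dot_grad hv hdv hG1,
    int_dot_grad hX hdX hG2]
  unfold Qf
  ring

/-! ### the trilinear form -/

noncomputable def TD (A B C : Fin 3 → K3 → ℂ) : ℝ :=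
  ∫ x in cube, dot (crossProduct (Vf A x) (Vf B x)) (Vf C x)

theorem TD_eq {A B C : Fin 3 → K3 → ℂ} (hA : ∀ i, Rap (A i)) (hB : ∀ i, Rap (B i))
    (hC : ∀ i, Rap (C i)) : TD A B C = (t3 (A 1) (B 2) (C 0) - t3 (A 2) (B 1) (C 0))
      + (t3 (A 2) (B 0) (C 1) - t3 (A 0) (B 2) (C 1))
      + (t3 (A 0) (B 1) (C 2) - t3 (A 1) (B 0) (C 2)) := by
  have cA : ∀ i, Continuous (R (A i)) := fun i => (R_sp (hA i)).cont
  have cB : ∀ i, Continuous (R (B i)) := fun i => (R_sp (hB i)).cont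
  have cC : ∀ i, Continuous (R (C i)) := fun i => (R_sp (hC i)).cont
  have hi : ∀ i j k, IntegrableOn (fun x => R (A i) x * (R (B j) x * R (C k) x)) cube :=
    fun i j k => integrableOn_cube ((cA i).mul ((cB j).mul (cC k)))
  have e : ∀ x, dot (crossProduct (Vf A x) (Vf B x)) (Vf C x)
      = ((R (A 1) x * (R (B 2) x * R (C 0) x) - R (A 2) x * (R (B 1) x * R (C 0) x))
        + (R (A 2) x * (R (B 0) x * R (C 1) x) - R (A 0) x * (R (B 2) x * R (C 1) x)))
        + (R (A 0) x * (R (B 1) x * R (C 2) x) - R (A 1) x * (R (B 0) x * R (C 2) x)) := by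
    intro x
    unfold dot Vf
    simp only [Fin.sum_univ_three, cross_apply, Matrix.cons_val_zero, Matrix.cons_val_one,
      Matrix.cons_val]
    ring
  unfold TD t3
  simp_rw [e]
  have s1 : IntegrableOn (fun x => R (A 1) x * (R (B 2) x * R (C 0) x)
      - R (A 2) x * (R (B 1) x * R (C 0) x)) cube := (hi 1 2 0).sub (hi 2 1 0)
  have s2 : IntegrableOn (fun x => R (A 2) x * (R (B 0) x * R (C 1) x)
      - R (A 0) x * (R (B 2) x * R (C 1) x)) cube := (hi 2 0 1).sub (hi 0 2 1)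
  have s3 : IntegrableOn (fun x => R (A 0) x * (R (B 1) x * R (C 2) x)
      - R (A 1) x * (R (B 0) x * R (C 2) x)) cube := (hi 0 1 2).sub (hi 1 0 2)
  have s12 : IntegrableOn (fun x => (R (A 1) x * (R (B 2) x * R (C 0) x)
      - R (A 2) x * (R (B 1) x * R (C 0) x)) + (R (A 2) x * (R (B 0) x * R (C 1) x)
      - R (A 0) x * (R (B 2) x * R (C 1) x))) cube := s1.add s2
  rw [integral_add s12 s3, integral_add s1 s2,
    integral_sub (hi 1 2 0) (hi 2 1 0), integral_sub (hi 2 0 1) (hi 0 2 1),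
    integral_sub (hi 0 1 2) (hi 1 0 2)]

section
variable {A B C : Fin 3 → K3 → ℂ} (hA : ∀ i, Rap (A i)) (hB : ∀ i, Rap (B i))
    (hC : ∀ i, Rap (C i)) (hA' : ∀ i, Hm (A i)) (hB' : ∀ i, Hm (B i)) (hC' : ∀ i, Hm (C i))

include hA in
theorem rap_FlV {τ : ℝ} (hτ : 0 ≤ τ) (i : Fin 3) : Rap (FlV τ A i) := rap_Fl (hA i) hτ

include hA in
theorem rap_LaV (i : Fin 3) : Rap (LaV A i) := rap_La (hA i)

include hA' in
theorem hm_LaV (i : Fin 3) : Hm (LaV A i) := (hA' i).La

include hA hB hC hA' hB' hC' in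
theorem TD_hasDerivAt {τ : ℝ} (hτ : 0 < τ) :
    HasDerivAt (fun τ => TD (FlV τ A) (FlV τ B) (FlV τ C))
      (-(TD (FlV τ (LaV A)) (FlV τ B) (FlV τ C) + TD (FlV τ A) (FlV τ (LaV B)) (FlV τ C)
        + TD (FlV τ A) (FlV τ B) (FlV τ (LaV C)))) τ := by
  have d : ∀ i j k, HasDerivAt (fun τ => t3 (FlV τ A i) (FlV τ B j) (FlV τ C k))
      (-(t3 (FlV τ (LaV A) i) (FlV τ B j) (FlV τ C k)
        + t3 (FlV τ A i) (FlV τ (LaV B) j) (FlV τ C k)
        + t3 (FlV τ A i) (FlV τ B j) (FlV τ (LaV C) k))) τ := fun i j k =>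
    t3_hasDerivAt (hA i) (hB j) (hC k) (hA' i) (hB' j) (hC' k) hτ
  have h := ((((d 1 2 0).sub (d 2 1 0)).add ((d 2 0 1).sub (d 0 2 1))).add
    ((d 0 1 2).sub (d 1 0 2)))
  have e : (fun τ => TD (FlV τ A) (FlV τ B) (FlV τ C)) =ᶠ[𝓝 τ]
      fun τ => (t3 (FlV τ A 1) (FlV τ B 2) (FlV τ C 0) - t3 (FlV τ A 2) (FlV τ B 1) (FlV τ C 0))
      + (t3 (FlV τ A 2) (FlV τ B 0) (FlV τ C 1) - t3 (FlV τ A 0) (FlV τ B 2) (FlV τ C 1))
      + (t3 (FlV τ A 0) (FlV τ B 1) (FlV τ C 2) - t3 (FlV τ A 1) (FlV τ B 0) (FlV τ C 2)) := by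
    filter_upwards [lt_mem_nhds hτ] with s hs
    exact TD_eq (rap_FlV hA (le_of_lt hs)) (rap_FlV hB (le_of_lt hs)) (rap_FlV hC (le_of_lt hs))
  refine (h.congr_of_eventuallyEq e).congr_deriv ?_
  rw [TD_eq (rap_FlV (rap_LaV hA) hτ.le) (rap_FlV hB hτ.le) (rap_FlV hC hτ.le),
    TD_eq (rap_FlV hA hτ.le) (rap_FlV (rap_LaV hB) hτ.le) (rap_FlV hC hτ.le),
    TD_eq (rap_FlV hA hτ.le) (rap_FlV hB hτ.le) (rap_FlV (rap_LaV hC) hτ.le)]
  ring

include hA hB hC hA' hB' hC' in
theorem TD_continuousOn : ContinuousOn (fun τ => TD (FlV τ A) (FlV τ B) (FlV τ C)) (Ici 0) := by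
  have d : ∀ i j k, ContinuousOn (fun τ => t3 (FlV τ A i) (FlV τ B j) (FlV τ C k)) (Ici 0) :=
    fun i j k => t3_continuousOn (hA i) (hB j) (hC k) (hA' i) (hB' j) (hC' k)
  have h := ((((d 1 2 0).sub (d 2 1 0)).add ((d 2 0 1).sub (d 0 2 1))).add
    ((d 0 1 2).sub (d 1 0 2)))
  refine h.congr fun s hs => ?_
  exact TD_eq (rap_FlV hA hs) (rap_FlV hB hs) (rap_FlV hC hs)

include hA hB hC hA' hB' hC' in
theorem TD_tendsto (h0 : ∀ i, A i 0 = 0) :
    Tendsto (fun τ => TD (FlV τ A) (FlV τ B) (FlV τ C)) atTop (𝓝 0) := by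
  have d : ∀ i j k, Tendsto (fun τ => t3 (FlV τ A i) (FlV τ B j) (FlV τ C k)) atTop (𝓝 0) :=
    fun i j k => t3_tendsto (hA i) (hB j) (hC k) (hA' i) (hB' j) (hC' k) (h0 i)
  have h := ((((d 1 2 0).sub (d 2 1 0)).add ((d 2 0 1).sub (d 0 2 1))).add
    ((d 0 1 2).sub (d 1 0 2)))
  simp only [sub_self, add_zero] at h
  refine h.congr' ?_
  filter_upwards [eventually_ge_atTop (0 : ℝ)] with s hs
  exact (TD_eq (rap_FlV hA hs) (rap_FlV hB hs) (rap_FlV hC hs)).symm

end

theorem div_Vf {A : Fin 3 → K3 → ℂ} (hA : ∀ i, Rap (A i)) (hdiv : ∀ k, ∑ i, D i (A i) k = 0)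
    (x : V) : ∑ i, pd i (fun y => Vf A y i) x = 0 := by
  have e : ∀ i, pd i (fun y => Vf A y i) x = R (D i (A i)) x := fun i => pd_R (hA i) i x
  simp_rw [e]
  rw [← R_sum Finset.univ (a := fun i => D i (A i)) (fun i _ => (hA i).D i), ← R_zero x]
  congr 1
  funext k
  exact hdiv k

theorem div_FlV {A : Fin 3 → K3 → ℂ} (hdiv : ∀ k, ∑ i, D i (A i) k = 0) (τ : ℝ) (k : K3) :
    ∑ i, D i (FlV τ A i) k = 0 := by
  have e : ∀ i, D i (FlV τ A i) k = ((Real.exp (-(τ * lam k)) : ℝ) : ℂ) * D i (A i) k := by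
    intro i
    unfold FlV
    rw [D_Fl]
    rfl
  simp_rw [e]
  rw [← Finset.mul_sum, hdiv, mul_zero]

theorem div_LaV {A : Fin 3 → K3 → ℂ} (hdiv : ∀ k, ∑ i, D i (A i) k = 0) (k : K3) :
    ∑ i, D i (LaV A i) k = 0 := by
  have e : ∀ i, D i (LaV A i) k = (lam k : ℂ) * D i (A i) k := by
    intro i
    unfold LaV
    rw [D_La]
    rfl
  simp_rw [e]
  rw [← Finset.mul_sum, hdiv, mul_zero]

/-- **the identity** -/
theorem Psi_hasDerivAt {U : Fin 3 → K3 → ℂ} (hU : ∀ i, Rap (U i)) (hU' : ∀ i, Hm (U i))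
    (hdiv : ∀ k, ∑ i, D i (U i) k = 0) {τ : ℝ} (hτ : 0 < τ) :
    HasDerivAt (fun τ => TD (FlV τ (cu U)) (FlV τ U) (FlV τ (LaV U)))
      (Qf (Vf (FlV τ U)) (Vf (FlV τ (cu U))) - Qf (Vf (FlV τ U)) (Vf (FlV τ (LaV U)))) τ := by
  have h := TD_hasDerivAt (rap_cu hU) hU (rap_LaV hU) (hm_cu hU') hU' (hm_LaV hU') hτ
  refine h.congr_deriv ?_
  rw [← cu_La, ← cu_cu hdiv, ← cu_Fl, ← cu_Fl τ (cu U)]
  set Vt := Vf (FlV τ U) with hVt
  set O := Vf (FlV τ (cu U)) with hO
  set L := Vf (FlV τ (LaV U)) with hL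
  have hVs : SPV Vt := Vf_spv (rap_FlV hU hτ.le)
  have hOs : SPV O := Vf_spv (rap_FlV (rap_cu hU) hτ.le)
  have hLs : SPV L := Vf_spv (rap_FlV (rap_LaV hU) hτ.le)
  have hVd : ∀ x, ∑ i, pd i (fun y => Vt y i) x = 0 :=
    div_Vf (rap_FlV hU hτ.le) (div_FlV hdiv τ)
  have hLd : ∀ x, ∑ i, pd i (fun y => L y i) x = 0 :=
    div_Vf (rap_FlV (rap_LaV hU) hτ.le) (div_FlV (div_LaV hdiv) τ)
  have hOd : ∀ x, ∑ i, pd i (fun y => O y i) x = 0 := by
    have e : O = curl Vt := by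
      funext x
      rw [hVt, curl_Vf (rap_FlV hU hτ.le), cu_Fl]
    rw [e]
    exact curl_div hVs
  have e1 : TD (cu (FlV τ (LaV U))) (FlV τ U) (FlV τ (LaV U)) = Qf Vt L := by
    rw [← ibp_cross hVs hLs hVd hLd]
    unfold TD
    refine integral_congr_ae (Eventually.of_forall fun x => ?_)
    simp only [← curl_Vf (rap_FlV (rap_LaV hU) hτ.le)]
    rw [← hVt, ← hL]
    unfold dot
    simp only [Fin.sum_univ_three, cross_apply, Matrix.cons_val_zero, Matrix.cons_val_one,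
      Matrix.cons_val]
    ring
  have e2 : TD (FlV τ (cu U)) (FlV τ (LaV U)) (FlV τ (LaV U)) = 0 := by
    unfold TD
    have : ∀ x, dot (crossProduct (Vf (FlV τ (cu U)) x) (Vf (FlV τ (LaV U)) x))
        (Vf (FlV τ (LaV U)) x) = 0 := by
      intro x
      unfold dot
      simp only [Fin.sum_univ_three, cross_apply, Matrix.cons_val_zero, Matrix.cons_val_one,
        Matrix.cons_val]
      ring
    simp_rw [this]
    simp
  have e3 : TD (FlV τ (cu U)) (FlV τ U) (cu (FlV τ (cu U))) = -Qf Vt O := by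
    rw [← ibp_cross hVs hOs hVd hOd, ← integral_neg]
    unfold TD
    refine integral_congr_ae (Eventually.of_forall fun x => ?_)
    simp only [← curl_Vf (rap_FlV (rap_cu hU) hτ.le)]
    rw [← hVt, ← hO]
    unfold dot
    simp only [Fin.sum_univ_three, cross_apply, Matrix.cons_val_zero, Matrix.cons_val_one,
      Matrix.cons_val]
    ring
  rw [e1, e2, e3]
  ring

end Pool.Agent.U172.NS
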