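import Pool.Agent.U172.NS.Nl

/-!
Fourier series with rapidly decreasing coefficients are smooth.
-/

open MeasureTheory Set Filter Topology
open scoped ENNReal ComplexConjugate ContDiff

set_option autoImplicit false

namespace Pool.Agent.U172.NS

open H459R3.NS

/-- `h ↦ h j • z` -/
noncomputable def pz (j : Fin 3) : ℂ →L[ℝ] (V →L[ℝ] ℂ) :=
  ContinuousLinearMap.smulRightL ℝ V ℂ (ContinuousLinearMap.proj j)

theorem pz_apply (j : Fin 3) (z : ℂ) (h : V) : pz j z h = h j • z := rfl

theorem norm_pz_le (j : Fin 3) (z : ℂ) : ‖pz j z‖ ≤ ‖z‖ := by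
  refine ContinuousLinearMap.opNorm_le_bound _ (norm_nonneg _) fun h => ?_
  rw [pz_apply, norm_smul, mul_comm]
  exact mul_le_mul_of_nonneg_left (norm_le_pi_norm h j) (norm_nonneg _)

theorem hasFDerivAt_term (a : K3 → ℂ) (k : K3) (x : V) :
    HasFDerivAt (fun y => a k * ee k y) (∑ j, pz j (D j a k * ee k x)) x := by
  have h1 : HasFDerivAt (ph k) (∑ j, (k j : ℝ) • (ContinuousLinearMap.proj j : V →L[ℝ] ℝ)) x := by
    unfold ph
    refine HasFDerivAt.fun_sum fun j _ => ?_
    exact ((ContinuousLinearMap.proj j : V →L[ℝ] ℝ).hasFDerivAt (x := x)).const_mul (k j : ℝ)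
  have h2 : HasFDerivAt (fun y => (2 * Real.pi * Complex.I * (ph k y : ℂ)))
      ((2 * Real.pi * Complex.I : ℂ) • (Complex.ofRealCLM.comp
        (∑ j, (k j : ℝ) • (ContinuousLinearMap.proj j : V →L[ℝ] ℝ)))) x := by
    exact ((Complex.ofRealCLM.hasFDerivAt.comp x h1).const_mul (2 * Real.pi * Complex.I : ℂ))
  have h3 := (h2.cexp).const_mul (a k)
  unfold ee
  refine h3.congr_fderiv ?_
  ext h
  simp only [_root_.smul_apply, ContinuousLinearMap.comp_apply,
    _root_.sum_apply, ContinuousLinearMap.proj_apply, Complex.ofRealCLM_apply,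
    smul_eq_mul, pz_apply, Complex.real_smul]
  push_cast
  rw [Finset.mul_sum, Finset.mul_sum, Finset.mul_sum]
  refine Finset.sum_congr rfl fun j _ => ?_
  unfold D
  ring

theorem hasFDerivAt_S {a : K3 → ℂ} (ha : Rap a) (x : V) :
    HasFDerivAt (S a) (∑ j, pz j (S (D j a) x)) x := by
  have hsum : Summable fun k => ∑ j : Fin 3, ‖D j a k‖ :=
    summable_sum fun j _ => (ha.D j).summable.norm
  have h := hasFDerivAt_tsum (𝕜 := ℝ) (f := fun k y => a k * ee k y)
    (f' := fun k y => ∑ j, pz j (D j a k * ee k y)) hsum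
    (fun k y => hasFDerivAt_term a k y) (fun k y => by
      refine (norm_sum_le _ _).trans (Finset.sum_le_sum fun j _ => ?_)
      refine (norm_pz_le _ _).trans (le_of_eq ?_)
      rw [norm_mul, norm_ee, mul_one]) (summable_term ha.summable 0) x
  refine h.congr_fderiv ?_
  have h2 : HasSum (fun k => ∑ j, pz j (D j a k * ee k x)) (∑ j, pz j (S (D j a) x)) := by
    refine hasSum_sum fun j _ => ?_
    exact (pz j).hasSum (summable_term (ha.D j).summable x).hasSum
  exact h2.tsum_eq

theorem contDiff_S_nat (n : ℕ) : ∀ {a : K3 → ℂ}, Rap a → ContDiff ℝ n (S a) := by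
  induction n with
  | zero => exact fun {a} ha => contDiff_zero.2 (S_continuous ha.summable)
  | succ n ih =>
    intro a ha
    rw [show ((n + 1 : ℕ) : WithTop ℕ∞) = (n : WithTop ℕ∞) + 1 by norm_cast]
    rw [contDiff_succ_iff_hasFDerivAt]
    refine ⟨fun x => ∑ j, pz j (S (D j a) x), ?_, fun x => hasFDerivAt_S ha x⟩
    exact ContDiff.sum fun j _ => (pz j).contDiff.comp (ih (ha.D j))

theorem contDiff_S {a : K3 → ℂ} (ha : Rap a) : ContDiff ℝ ∞ (S a) :=
  contDiff_infty.2 fun n => contDiff_S_nat n ha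

theorem per_S (a : K3 → ℂ) : Per (S a) := fun i x => by
  unfold S
  exact tsum_congr fun k => by rw [ee_per k i x]

theorem pd_S {a : K3 → ℂ} (ha : Rap a) (j : Fin 3) (x : V) : pd j (S a) x = S (D j a) x := by
  unfold pd
  rw [(hasFDerivAt_S ha x).fderiv]
  simp only [_root_.sum_apply, pz_apply, Pi.single_apply]
  simp

/-- real coefficient sequences: the coefficients of real functions -/
def Hm (a : K3 → ℂ) : Prop := ∀ k, a (-k) = conj (a k)

/-- the real function with coefficients `a` -/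
noncomputable def R (a : K3 → ℂ) (x : V) : ℝ := (S a x).re

theorem S_real {a : K3 → ℂ} (ha : Hm a) (x : V) : S a x = (R a x : ℂ) := by
  have h1 : conj (S a x) = S a x := by
    unfold S
    rw [Complex.conj_tsum, ← (Equiv.neg K3).tsum_eq]
    refine tsum_congr fun k => ?_
    simp only [Equiv.neg_apply, map_mul]
    rw [ha k, Complex.conj_conj, ee_neg, Complex.conj_conj]
  exact (Complex.conj_eq_iff_re.1 h1).symm

theorem R_sp {a : K3 → ℂ} (ha : Rap a) : SP (R a) where
  smooth := Complex.reCLM.contDiff.comp (contDiff_S ha)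
  per := fun i x => by
    unfold R
    rw [per_S a i x]

theorem pd_R {a : K3 → ℂ} (ha : Rap a) (j : Fin 3) (x : V) : pd j (R a) x = R (D j a) x := by
  have h : HasFDerivAt (R a) (Complex.reCLM.comp (∑ j, pz j (S (D j a) x))) x :=
    Complex.reCLM.hasFDerivAt.comp x (hasFDerivAt_S ha x)
  unfold pd
  rw [h.fderiv]
  unfold R
  simp [pz_apply, Pi.single_apply]

theorem Hm.D {a : K3 → ℂ} (ha : Hm a) (j : Fin 3) : Hm (D j a) := by
  intro k
  unfold H459R3.NS.D
  rw [ha k]
  simp only [Pi.neg_apply, map_mul, Complex.conj_ofReal, Complex.conj_I, map_ofNat,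
    Int.cast_neg, map_intCast]
  ring

theorem hm_fr (f : V → ℝ) : Hm (fr f) := fun k => fr_conj f k

/-- real multipliers -/
theorem Hm.mul {a : K3 → ℂ} (ha : Hm a) {w : K3 → ℝ} (hw : ∀ k, w (-k) = w k) :
    Hm (fun k => (w k : ℂ) * a k) := by
  intro k
  simp only [hw, ha k, map_mul, Complex.conj_ofReal]

theorem rap_wmul {a : K3 → ℂ} (ha : Rap a) {w : K3 → ℝ} {C : ℝ} {m : ℕ}
    (hw : ∀ k, |w k| ≤ C * (N k : ℝ) ^ m) : Rap (fun k => (w k : ℂ) * a k) := by
  intro n
  refine Summable.of_nonneg_of_le (fun k => by positivity) (fun k => ?_) ((ha (n + m)).mul_left C)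
  rw [norm_mul, Complex.norm_real, Real.norm_eq_abs]
  calc (N k : ℝ) ^ n * (|w k| * ‖a k‖) ≤ (N k : ℝ) ^ n * ((C * (N k : ℝ) ^ m) * ‖a k‖) := by
        gcongr
        exact hw k
    _ = C * ((N k : ℝ) ^ (n + m) * ‖a k‖) := by ring

theorem R_fr {f : V → ℝ} (hf : SP f) (x : V) : R (fr f) x = f x := by
  have h := hasSum_fc (f := fun x => (f x : ℂ)) (fun i x => by simp only [hf.per i x])
    (Complex.continuous_ofReal.comp hf.cont) (rap_fr hf).summable x
  unfold R S
  have h1 : ∑' k, fr f k * ee k x = (f x : ℂ) := h.tsum_eq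
  rw [h1, Complex.ofReal_re]

theorem fr_R {a : K3 → ℂ} (ha : Rap a) (hh : Hm a) (k : K3) : fr (R a) k = a k := by
  have h := integral_ee_S (-k) ha.summable
  rw [neg_neg] at h
  rw [← h]
  show ∫ x in cube, ee (-k) x * ((R a x : ℝ) : ℂ) = _
  refine integral_congr_ae (Filter.Eventually.of_forall fun x => ?_)
  show ee (-k) x * ((R a x : ℝ) : ℂ) = _
  rw [← S_real hh]

end Pool.Agent.U172.NS
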