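import Pool.Agent.U172.NS.Nl

/-!
The Sobolev embedding of fractional order on the torus.
-/

open MeasureTheory Set Filter Topology
open scoped ENNReal ComplexConjugate ContDiff

set_option autoImplicit false

namespace Pool.Agent.U172.NS

open H459R3.NS

/-- the box of frequencies of sup norm at most `n` -/
noncomputable def B (n : ℕ) : Finset K3 := Fintype.piFinset fun _ : Fin 3 => Finset.Icc (-(n : ℤ)) n

theorem mem_B (n : ℕ) (k : K3) : k ∈ B n ↔ N k ≤ n := by
  unfold B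
  rw [Fintype.mem_piFinset, N_le_iff]
  simp only [Finset.mem_Icc, abs_le]

theorem card_B (n : ℕ) : (B n).card = (2 * n + 1) ^ 3 := by
  unfold B
  rw [Fintype.card_piFinset]
  simp only [Int.card_Icc, Finset.prod_const, Finset.card_univ, Fintype.card_fin]
  congr 1
  omega

theorem B_mono {m n : ℕ} (h : m ≤ n) : B m ⊆ B n := fun k hk =>
  (mem_B n k).2 (((mem_B m k).1 hk).trans h)

theorem card_sdiff_B (n : ℕ) : ((B (n + 1) \ B n).card : ℝ) ≤ 26 * ((n : ℝ) + 1) ^ 2 := by
  have h := Finset.card_sdiff_add_card_eq_card (B_mono (Nat.le_succ n))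
  rw [Nat.succ_eq_add_one, card_B, card_B] at h
  have h2 : ((B (n + 1) \ B n).card : ℝ) + (2 * (n : ℝ) + 1) ^ 3 = (2 * ((n : ℝ) + 1) + 1) ^ 3 := by
    exact_mod_cast h
  have hn : (0 : ℝ) ≤ n := Nat.cast_nonneg n
  nlinarith

/-- the weight `N(k)^(-2σ)` -/
noncomputable def gw (σ : ℝ) (k : K3) : ℝ := if k = 0 then 0 else (N k : ℝ) ^ (-(2 * σ))

theorem step_rpow {γ : ℝ} (h0 : 0 < γ) {m : ℝ} (hm : 1 ≤ m) :
    min 1 γ * m ^ (γ - 1) ≤ m ^ γ - (m - 1) ^ γ := by
  have hm0 : 0 < m := by linarith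
  have e1 : m ^ γ = m ^ (γ - 1) * m := by
    conv_lhs => rw [show γ = (γ - 1) + 1 by ring, Real.rpow_add hm0, Real.rpow_one]
  have hx0 : 0 ≤ 1 - 1 / m := by
    rw [sub_nonneg, div_le_one hm0]; exact hm
  have hx1 : 1 - 1 / m ≤ 1 := by
    have : 0 < 1 / m := by positivity
    linarith
  have e2 : (m - 1) ^ γ = m ^ γ * (1 - 1 / m) ^ γ := by
    rw [← Real.mul_rpow hm0.le hx0]
    congr 1
    field_simp
  have key : (1 - 1 / m) ^ γ ≤ 1 - min 1 γ * (1 / m) := by
    rcases le_total γ 1 with h | h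
    · rw [min_eq_right h]
      have := rpow_one_add_le_one_add_mul_self (s := -(1 / m)) (by linarith) h0.le h
      have e : (1 : ℝ) + -(1 / m) = 1 - 1 / m := by ring
      rw [e] at this
      linarith
    · rw [min_eq_left h, one_mul]
      have := Real.rpow_le_rpow_of_exponent_ge' hx0 hx1 zero_le_one h
      rwa [Real.rpow_one] at this
  rw [e2]
  have hp : 0 ≤ m ^ γ := Real.rpow_nonneg hm0.le γ
  calc min 1 γ * m ^ (γ - 1) = m ^ γ * (min 1 γ * (1 / m)) := by
        rw [e1]; field_simp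
    _ ≤ m ^ γ * (1 - (1 - 1 / m) ^ γ) := mul_le_mul_of_nonneg_left (by linarith) hp
    _ = _ := by ring

/-- the sum of `N(k)^(-2σ)` over a box -/
theorem sum_gw {σ : ℝ} (h1 : σ < 3 / 2) (n : ℕ) :
    ∑ k ∈ B n, gw σ k ≤ 26 / min 1 (3 - 2 * σ) * (n : ℝ) ^ (3 - 2 * σ) := by
  have hγ : 0 < 3 - 2 * σ := by linarith
  have hc : 0 < min 1 (3 - 2 * σ) := lt_min one_pos hγ
  induction n with
  | zero =>
    have : ∑ k ∈ B 0, gw σ k = 0 := by
      refine Finset.sum_eq_zero fun k hk => ?_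
      have hk0 : k = 0 := N_eq_zero.1 (Nat.le_zero.1 ((mem_B 0 k).1 hk))
      unfold gw
      rw [if_pos hk0]
    rw [this, Nat.cast_zero, Real.zero_rpow hγ.ne', mul_zero]
  | succ n ih =>
    rw [← Finset.sum_sdiff (B_mono (Nat.le_succ n))]
    have hm : (1 : ℝ) ≤ (n : ℝ) + 1 := by
      have : (0 : ℝ) ≤ n := Nat.cast_nonneg n
      linarith
    have h2 : ∑ k ∈ B (n + 1) \ B n, gw σ k ≤ 26 * ((n : ℝ) + 1) ^ 2 * ((n : ℝ) + 1) ^ (-(2 * σ)) := by
      have h3 : ∀ k ∈ B (n + 1) \ B n, gw σ k = ((n : ℝ) + 1) ^ (-(2 * σ)) := by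
        intro k hk
        rw [Finset.mem_sdiff, mem_B, mem_B] at hk
        have hN : N k = n + 1 := by omega
        have hk0 : k ≠ 0 := by
          intro h
          rw [h, N_eq_zero.2 rfl] at hN
          omega
        unfold gw
        rw [if_neg hk0, hN]
        push_cast
        rfl
      rw [Finset.sum_congr rfl h3, Finset.sum_const, nsmul_eq_mul]
      exact mul_le_mul_of_nonneg_right (card_sdiff_B n) (Real.rpow_nonneg (by linarith) _)
    have h4 : 26 * ((n : ℝ) + 1) ^ 2 * ((n : ℝ) + 1) ^ (-(2 * σ))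
        = 26 * ((n : ℝ) + 1) ^ ((3 - 2 * σ) - 1) := by
      rw [mul_assoc, ← Real.rpow_natCast ((n : ℝ) + 1) 2, ← Real.rpow_add (by linarith)]
      congr 2
      push_cast
      ring
    have h5 := step_rpow hγ hm
    rw [add_sub_cancel_right] at h5
    have h6 : 26 * ((n : ℝ) + 1) ^ ((3 - 2 * σ) - 1)
        ≤ 26 / min 1 (3 - 2 * σ) * (((n : ℝ) + 1) ^ (3 - 2 * σ) - (n : ℝ) ^ (3 - 2 * σ)) := by
      rw [div_mul_eq_mul_div, le_div_iff₀ hc]
      nlinarith
    push_cast
    calc _ ≤ 26 / min 1 (3 - 2 * σ) * (((n : ℝ) + 1) ^ (3 - 2 * σ) - (n : ℝ) ^ (3 - 2 * σ))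
          + 26 / min 1 (3 - 2 * σ) * (n : ℝ) ^ (3 - 2 * σ) := by
          refine add_le_add ?_ ih
          rw [h4] at h2
          exact h2.trans h6
      _ = _ := by ring

theorem N_rpow_le_wt {σ : ℝ} (h0 : 0 ≤ σ) (k : K3) : (N k : ℝ) ^ (2 * σ) ≤ wt σ k := by
  unfold wt
  rw [Real.rpow_mul (Nat.cast_nonneg _), show (N k : ℝ) ^ (2 : ℝ) = (N k : ℝ) ^ 2 by
    rw [show (2 : ℝ) = ((2 : ℕ) : ℝ) by norm_num, Real.rpow_natCast]]
  exact Real.rpow_le_rpow (sq_nonneg _) (N_sq_le_q2 k) h0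

/-- low frequencies -/
theorem low_le {σ : ℝ} (h0 : 0 ≤ σ) (h1 : σ < 3 / 2) {a : K3 → ℂ} (ha : Rap a) (ha0 : a 0 = 0)
    (n : ℕ) : ∑ k ∈ B n, ‖a k‖
      ≤ Real.sqrt (26 / min 1 (3 - 2 * σ) * (n : ℝ) ^ (3 - 2 * σ)) * Real.sqrt (hs σ a) := by
  have hγ : 0 < 3 - 2 * σ := by linarith
  have e : ∀ k ∈ B n, ‖a k‖ = Real.sqrt (gw σ k) * Real.sqrt ((N k : ℝ) ^ (2 * σ) * ‖a k‖ ^ 2) := by
    intro k _
    by_cases hk : k = 0
    · subst hk
      rw [ha0]
      simp
    · have hN : (0 : ℝ) < N k := lt_of_lt_of_le one_pos (one_le_N hk)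
      unfold gw
      rw [if_neg hk, ← Real.sqrt_mul (Real.rpow_nonneg hN.le _), ← mul_assoc,
        ← Real.rpow_add hN, neg_add_cancel, Real.rpow_zero, one_mul,
        Real.sqrt_sq (norm_nonneg _)]
  rw [Finset.sum_congr rfl e]
  have hg0 : ∀ k, 0 ≤ gw σ k := by
    intro k
    unfold gw
    split_ifs
    · exact le_rfl
    · exact Real.rpow_nonneg (Nat.cast_nonneg _) _
  refine (Real.sum_sqrt_mul_sqrt_le (B n) (fun k => hg0 k) (fun k =>
    mul_nonneg (Real.rpow_nonneg (Nat.cast_nonneg _) _) (sq_nonneg _))).trans ?_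
  refine mul_le_mul (Real.sqrt_le_sqrt (sum_gw h1 n)) (Real.sqrt_le_sqrt ?_)
    (Real.sqrt_nonneg _) (Real.sqrt_nonneg _)
  unfold hs
  refine le_trans (Finset.sum_le_sum fun k _ =>
    mul_le_mul_of_nonneg_right (N_rpow_le_wt h0 k) (sq_nonneg _)) ?_
  exact (summable_hs (by linarith) ha).sum_le_tsum _ fun k _ =>
    mul_nonneg (wt_nonneg _ _) (sq_nonneg _)

theorem S_split {a : K3 → ℂ} (ha : Summable a) (R : Set K3) (x : V) :
    S a x = S (R.indicator a) x + S (Rᶜ.indicator a) x := by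
  unfold S
  rw [← Summable.tsum_add (summable_term (ha.indicator R) x) (summable_term (ha.indicator Rᶜ) x)]
  refine tsum_congr fun k => ?_
  rw [← add_mul]
  congr 1
  exact (congrFun (Set.indicator_self_add_compl R a) k).symm

/-- the measure of the set on which the high frequencies are large -/
theorem meas_high {b : K3 → ℂ} (hb : Summable b) {t : ℝ} (ht : 0 < t) :
    (volume.restrict cube) {x | t ≤ ‖S b x‖}
      ≤ ENNReal.ofReal ((1 / t ^ 2) * ∑' k, ‖b k‖ ^ 2) := by
  have hc2 : Continuous fun x => ‖S b x‖ ^ 2 := (S_continuous hb).norm.pow 2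
  have h1 := mul_meas_ge_le_lintegral (μ := volume.restrict cube)
    (f := fun x => ENNReal.ofReal (‖S b x‖ ^ 2))
    (ENNReal.measurable_ofReal.comp hc2.measurable) (ENNReal.ofReal (t ^ 2))
  have e1 : {x | ENNReal.ofReal (t ^ 2) ≤ ENNReal.ofReal (‖S b x‖ ^ 2)} = {x | t ≤ ‖S b x‖} := by
    ext x
    rw [mem_ofPred_eq, mem_ofPred_eq, ENNReal.ofReal_le_ofReal_iff (sq_nonneg _)]
    exact pow_le_pow_iff_left₀ ht.le (norm_nonneg _) (by norm_num)
  rw [e1] at h1
  have e2 : ∫⁻ x in cube, ENNReal.ofReal (‖S b x‖ ^ 2) = ENNReal.ofReal (∑' k, ‖b k‖ ^ 2) := by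
    rw [← ofReal_integral_eq_lintegral_ofReal (integrableOn_cube hc2)
      (Eventually.of_forall fun x => sq_nonneg _), integral_norm_sq hb, n2_sq]
  rw [e2] at h1
  have ht2 : (0 : ℝ) < t ^ 2 := by positivity
  rw [one_div, ENNReal.ofReal_mul (by positivity), ENNReal.ofReal_inv_of_pos ht2]
  rw [← ENNReal.mul_le_iff_le_inv (by positivity) ENNReal.ofReal_ne_top]
  exact h1


theorem lint_rpow {r τ : ℝ} (hr : 2 < r) (hτ : 0 ≤ τ) :
    ∫⁻ t in Ioo 0 τ, ENNReal.ofReal (t ^ (r - 3)) = ENNReal.ofReal (τ ^ (r - 2) / (r - 2)) := by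
  have h1 : IntegrableOn (fun t : ℝ => t ^ (r - 3)) (Ioo 0 τ) := by
    have := (intervalIntegral.intervalIntegrable_rpow' (a := 0) (b := τ)
      (by linarith : -1 < r - 3))
    exact ((intervalIntegrable_iff_integrableOn_Ioc_of_le hτ).1 this).mono_set Ioo_subset_Ioc_self
  rw [← ofReal_integral_eq_lintegral_ofReal h1]
  · congr 1
    rw [← integral_Ioc_eq_integral_Ioo, ← intervalIntegral.integral_of_le hτ,
      integral_rpow (Or.inl (by linarith))]
    rw [show r - 3 + 1 = r - 2 by ring, Real.zero_rpow (by linarith), sub_zero]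
  · filter_upwards [ae_restrict_mem measurableSet_Ioo] with t ht
    exact Real.rpow_nonneg ht.1.le _

theorem sob_pos {σ : ℝ} (h0 : 0 < σ) (h1 : σ < 3 / 2) : ∃ C : ℝ, 0 ≤ C ∧ ∀ a : K3 → ℂ, Rap a →
    a 0 = 0 → eLpNorm (S a) (ENNReal.ofReal (6 / (3 - 2 * σ))) (volume.restrict cube)
      ≤ ENNReal.ofReal (C * Real.sqrt (hs σ a)) := by
  set γ : ℝ := 3 - 2 * σ with hγ
  have hγ0 : 0 < γ := by rw [hγ]; linarith
  have hγ3 : γ < 3 := by rw [hγ]; linarith
  set r : ℝ := 6 / γ with hr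
  have hr2 : 2 < r := by
    rw [hr, lt_div_iff₀ hγ0]; linarith
  have hr0 : 0 < r := by linarith
  set K0 : ℝ := 26 / min 1 γ with hK0
  have hK00 : 0 < K0 := div_pos (by norm_num) (lt_min one_pos hγ0)
  set c0 : ℝ := 2 * Real.sqrt K0 with hc0
  have hsK : 0 < Real.sqrt K0 := Real.sqrt_pos.2 hK00
  have hc00 : 0 < c0 := by rw [hc0]; linarith
  set Q : ℝ := r * (4 * c0 ^ (r - 2) / (r - 2)) with hQ
  have hQ0 : 0 ≤ Q := by
    have : 0 ≤ c0 ^ (r - 2) := Real.rpow_nonneg hc00.le _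
    have : 0 < r - 2 := by linarith
    positivity
  refine ⟨Q ^ (1 / r), Real.rpow_nonneg hQ0 _, fun a ha ha0 => ?_⟩
  set M : ℝ := Real.sqrt (hs σ a) with hM
  have hM0 : 0 ≤ M := Real.sqrt_nonneg _
  have hM2 : M ^ 2 = hs σ a := Real.sq_sqrt (hs_nonneg _ _)
  have hp0 : ENNReal.ofReal r ≠ 0 := by
    rw [Ne, ENNReal.ofReal_eq_zero]; linarith
  have hsum := summable_hs (s := σ) (by linarith) ha
  rcases eq_or_lt_of_le hM0 with hMz | hMpos
  · -- the trivial case
    have hz : ∀ k, a k = 0 := by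
      intro k
      by_cases hk : k = 0
      · rw [hk]; exact ha0
      · have h2 : wt σ k * ‖a k‖ ^ 2 ≤ hs σ a :=
          hsum.le_tsum k fun j _ => mul_nonneg (wt_nonneg _ _) (sq_nonneg _)
        have h3 : 0 < wt σ k := Real.rpow_pos_of_pos (q2_pos hk) _
        rw [← hM2, ← hMz] at h2
        have h4 : ‖a k‖ ^ 2 ≤ 0 := by
          by_contra hcon
          push Not at hcon
          have := mul_pos h3 hcon
          linarith
        have h5 : ‖a k‖ = 0 := by
          have := sq_nonneg ‖a k‖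
          exact pow_eq_zero_iff (two_ne_zero) |>.1 (le_antisymm h4 this)
        exact norm_eq_zero.1 h5
    have : S a = fun _ => 0 := by
      funext x
      unfold S
      simp [hz]
    rw [this]
    simp
  set τ : K3 → ℝ := fun k => c0 * M * (N k : ℝ) ^ (γ / 2) with hτ
  have hτ0 : ∀ k, 0 ≤ τ k := fun k => by
    have : 0 ≤ (N k : ℝ) ^ (γ / 2) := Real.rpow_nonneg (Nat.cast_nonneg _) _
    simp only [hτ]
    positivity
  have hcM : 0 < c0 * M := mul_pos hc00 hMpos
  have claim1 : ∀ t : ℝ, 0 < t → (volume.restrict cube) {x | t < ‖S a x‖}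
      ≤ ∑' k, (Ioo 0 (τ k)).indicator (fun t => ENNReal.ofReal (4 / t ^ 2 * ‖a k‖ ^ 2)) t := by
    intro t ht
    set X : ℝ := (t / (c0 * M)) ^ (2 / γ) with hX
    have htc : 0 < t / (c0 * M) := div_pos ht hcM
    have hX0 : 0 ≤ X := Real.rpow_nonneg htc.le _
    set n : ℕ := ⌊X⌋₊ with hn
    have hnX : (n : ℝ) ≤ X := Nat.floor_le hX0
    set R : Set K3 := {k | N k ≤ n} with hR
    have hlow : ∀ x, ‖S (R.indicator a) x‖ ≤ t / 2 := by
      intro x
      refine (norm_S_le (ha.summable.indicator R) x).trans ?_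
      have e1 : ∑' k, ‖R.indicator a k‖ = ∑ k ∈ B n, ‖a k‖ := by
        rw [tsum_eq_sum (s := B n)]
        · refine Finset.sum_congr rfl fun k hk => ?_
          have hkR : k ∈ R := (mem_B n k).1 hk
          rw [indicator_of_mem hkR]
        · intro k hk
          have hkR : k ∉ R := fun h => hk ((mem_B n k).2 h)
          rw [indicator_of_notMem hkR, norm_zero]
      rw [e1]
      refine (low_le h0.le h1 ha ha0 n).trans ?_
      have e2 : (n : ℝ) ^ γ ≤ (t / (c0 * M)) ^ 2 := by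
        have := Real.rpow_le_rpow (Nat.cast_nonneg n) hnX hγ0.le
        rw [hX, ← Real.rpow_mul htc.le, div_mul_cancel₀ _ hγ0.ne'] at this
        rwa [show (2 : ℝ) = ((2 : ℕ) : ℝ) by norm_num, Real.rpow_natCast] at this
      have e3 : Real.sqrt (K0 * (n : ℝ) ^ γ) ≤ Real.sqrt K0 * (t / (c0 * M)) := by
        rw [Real.sqrt_mul hK00.le]
        refine mul_le_mul_of_nonneg_left ?_ hsK.le
        calc Real.sqrt ((n : ℝ) ^ γ) ≤ Real.sqrt ((t / (c0 * M)) ^ 2) := Real.sqrt_le_sqrt e2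
          _ = _ := Real.sqrt_sq htc.le
      calc Real.sqrt (K0 * (n : ℝ) ^ γ) * M ≤ Real.sqrt K0 * (t / (c0 * M)) * M :=
            mul_le_mul_of_nonneg_right e3 hM0
        _ = t / 2 := by
          rw [hc0]
          field_simp
    have hsub : {x | t < ‖S a x‖} ⊆ {x | t / 2 ≤ ‖S (Rᶜ.indicator a) x‖} := by
      intro x hx
      rw [mem_ofPred_eq] at hx ⊢
      rw [S_split ha.summable R x] at hx
      have := norm_add_le (S (R.indicator a) x) (S (Rᶜ.indicator a) x)
      have := hlow x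
      linarith
    refine (measure_mono hsub).trans ((meas_high (ha.summable.indicator Rᶜ)
      (half_pos ht)).trans ?_)
    have hs2 : Summable fun k => ‖Rᶜ.indicator a k‖ ^ 2 := summable_sq (ha.summable.indicator Rᶜ)
    rw [← tsum_mul_left, ENNReal.ofReal_tsum_of_nonneg (fun k => by positivity)
      (hs2.mul_left _)]
    refine ENNReal.tsum_le_tsum fun k => ?_
    by_cases hk : k ∈ Rᶜ
    · rw [indicator_of_mem hk]
      have hNk : n < N k := not_le.1 hk
      have hNk1 : X < (N k : ℝ) := by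
        have h3 := Nat.lt_floor_add_one X
        have h4 : (n : ℝ) + 1 ≤ N k := by exact_mod_cast hNk
        linarith
      have hmem : t ∈ Ioo 0 (τ k) := by
        refine ⟨ht, ?_⟩
        have h3 : t / (c0 * M) < (N k : ℝ) ^ (γ / 2) := by
          have h4 := Real.rpow_lt_rpow hX0 hNk1 (half_pos hγ0)
          rw [hX, ← Real.rpow_mul htc.le] at h4
          have e : 2 / γ * (γ / 2) = 1 := by field_simp
          rwa [e, Real.rpow_one] at h4
        rw [div_lt_iff₀ hcM] at h3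
        simp only [hτ]
        linarith
      rw [indicator_of_mem hmem]
      refine le_of_eq ?_
      congr 1
      field_simp
      ring
    · rw [indicator_of_notMem hk]
      simp
  have claim2 : ∫⁻ t in Ioi (0 : ℝ), (volume.restrict cube) {x | t < ‖S a x‖}
      * ENNReal.ofReal (t ^ (r - 1))
      ≤ ∑' k, ENNReal.ofReal (4 * ‖a k‖ ^ 2 * (τ k ^ (r - 2) / (r - 2))) := by
    calc ∫⁻ t in Ioi (0 : ℝ), (volume.restrict cube) {x | t < ‖S a x‖}
          * ENNReal.ofReal (t ^ (r - 1))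
        ≤ ∫⁻ t in Ioi (0 : ℝ), ∑' k, (Ioo 0 (τ k)).indicator
          (fun t => ENNReal.ofReal (4 * ‖a k‖ ^ 2 * t ^ (r - 3))) t := by
          refine setLIntegral_mono' measurableSet_Ioi fun t ht => ?_
          have ht' : (0 : ℝ) < t := ht
          refine (mul_le_mul_left (claim1 t ht') _).trans ?_
          rw [← ENNReal.tsum_mul_right]
          refine ENNReal.tsum_le_tsum fun k => ?_
          by_cases hk : t ∈ Ioo 0 (τ k)
          · rw [indicator_of_mem hk, indicator_of_mem hk,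
              ← ENNReal.ofReal_mul (by positivity)]
            refine le_of_eq ?_
            congr 1
            have e : t ^ (r - 1) = t ^ (r - 3) * t ^ 2 := by
              rw [← Real.rpow_natCast t 2, ← Real.rpow_add ht']
              congr 1
              push_cast
              ring
            rw [e]
            field_simp
          · rw [indicator_of_notMem hk, zero_mul]
            exact zero_le
      _ = ∑' k, ∫⁻ t in Ioi (0 : ℝ), (Ioo 0 (τ k)).indicator
          (fun t => ENNReal.ofReal (4 * ‖a k‖ ^ 2 * t ^ (r - 3))) t := by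
          rw [lintegral_tsum]
          intro k
          refine (Measurable.indicator ?_ measurableSet_Ioo).aemeasurable
          exact ENNReal.measurable_ofReal.comp ((measurable_id.pow_const _).const_mul _)
      _ ≤ _ := by
          refine ENNReal.tsum_le_tsum fun k => ?_
          rw [lintegral_indicator measurableSet_Ioo, Measure.restrict_restrict measurableSet_Ioo]
          have e1 : Ioo 0 (τ k) ∩ Ioi 0 = Ioo 0 (τ k) :=
            inter_eq_left.2 fun t ht => ht.1
          rw [e1]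
          have e2 : ∀ t : ℝ, ENNReal.ofReal (4 * ‖a k‖ ^ 2 * t ^ (r - 3))
              = ENNReal.ofReal (4 * ‖a k‖ ^ 2) * ENNReal.ofReal (t ^ (r - 3)) := fun t =>
            ENNReal.ofReal_mul (by positivity)
          simp_rw [e2]
          have hme : Measurable fun t : ℝ => ENNReal.ofReal (t ^ (r - 3)) :=
            ENNReal.measurable_ofReal.comp (measurable_id.pow_const _)
          rw [lintegral_const_mul _ hme,
            lint_rpow hr2 (hτ0 k), ← ENNReal.ofReal_mul (by positivity)]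
  have claim3 : ∑' k, ENNReal.ofReal (4 * ‖a k‖ ^ 2 * (τ k ^ (r - 2) / (r - 2)))
      ≤ ENNReal.ofReal (4 * c0 ^ (r - 2) / (r - 2) * M ^ r) := by
    have hr20 : 0 < r - 2 := by linarith
    have e1 : ∀ k, τ k ^ (r - 2) = (c0 * M) ^ (r - 2) * (N k : ℝ) ^ (2 * σ) := by
      intro k
      simp only [hτ]
      rw [Real.mul_rpow hcM.le (Real.rpow_nonneg (Nat.cast_nonneg _) _),
        ← Real.rpow_mul (Nat.cast_nonneg _)]
      congr 2
      rw [hr]
      field_simp
      rw [hγ]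
      ring
    have hb : ∀ k, 4 * ‖a k‖ ^ 2 * (τ k ^ (r - 2) / (r - 2))
        ≤ 4 * (c0 * M) ^ (r - 2) / (r - 2) * (wt σ k * ‖a k‖ ^ 2) := by
      intro k
      rw [e1]
      have h3 := N_rpow_le_wt h0.le k
      have h4 : 0 ≤ (c0 * M) ^ (r - 2) := Real.rpow_nonneg hcM.le _
      calc 4 * ‖a k‖ ^ 2 * ((c0 * M) ^ (r - 2) * (N k : ℝ) ^ (2 * σ) / (r - 2))
          = 4 * (c0 * M) ^ (r - 2) / (r - 2) * ((N k : ℝ) ^ (2 * σ) * ‖a k‖ ^ 2) := by ring
        _ ≤ _ := by
          gcongr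
    calc _ ≤ ∑' k, ENNReal.ofReal (4 * (c0 * M) ^ (r - 2) / (r - 2) * (wt σ k * ‖a k‖ ^ 2)) :=
          ENNReal.tsum_le_tsum fun k => ENNReal.ofReal_le_ofReal (hb k)
      _ = ENNReal.ofReal (4 * (c0 * M) ^ (r - 2) / (r - 2) * hs σ a) := by
          have h4 : 0 ≤ (c0 * M) ^ (r - 2) := Real.rpow_nonneg hcM.le _
          rw [← ENNReal.ofReal_tsum_of_nonneg
            (fun k => mul_nonneg (by positivity) (mul_nonneg (wt_nonneg _ _) (sq_nonneg _)))
            (hsum.mul_left _), tsum_mul_left]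
          rfl
      _ = _ := by
          congr 1
          rw [← hM2, Real.mul_rpow hc00.le hM0]
          have e : M ^ r = M ^ (r - 2) * M ^ 2 := by
            rw [← Real.rpow_natCast M 2, ← Real.rpow_add hMpos]
            congr 1
            push_cast
            ring
          rw [e]
          ring
  -- conclusion
  rw [eLpNorm_eq_lintegral_rpow_enorm_toReal hp0 ENNReal.ofReal_ne_top,
    ENNReal.toReal_ofReal hr0.le]
  have e1 : ∀ x, ‖S a x‖ₑ ^ r = ENNReal.ofReal (‖S a x‖ ^ r) := by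
    intro x
    rw [← ENNReal.ofReal_rpow_of_nonneg (norm_nonneg _) hr0.le, ofReal_norm]
  simp_rw [e1]
  have h2 := lintegral_rpow_eq_lintegral_meas_lt_mul (volume.restrict cube)
    (f := fun x => ‖S a x‖) (Eventually.of_forall fun x => norm_nonneg _)
    (S_continuous ha.summable).norm.aemeasurable hr0
  rw [h2]
  have h3 : ENNReal.ofReal r * ∫⁻ t in Ioi (0 : ℝ), (volume.restrict cube) {x | t < ‖S a x‖}
      * ENNReal.ofReal (t ^ (r - 1)) ≤ ENNReal.ofReal (Q * M ^ r) := by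
    refine (mul_le_mul_right (claim2.trans claim3) _).trans (le_of_eq ?_)
    rw [← ENNReal.ofReal_mul hr0.le]
    congr 1
    rw [hQ]
    ring
  refine (ENNReal.rpow_le_rpow h3 (by positivity)).trans (le_of_eq ?_)
  rw [ENNReal.ofReal_rpow_of_nonneg (mul_nonneg hQ0 (Real.rpow_nonneg hM0 _)) (by positivity)]
  congr 1
  rw [Real.mul_rpow hQ0 (Real.rpow_nonneg hM0 _), ← Real.rpow_mul hM0,
    mul_one_div_cancel hr0.ne', Real.rpow_one]

/-- **the Sobolev embedding** of order `0 ≤ σ < 3/2` -/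
theorem sob {σ : ℝ} (h0 : 0 ≤ σ) (h1 : σ < 3 / 2) : ∃ C : ℝ, 0 ≤ C ∧ ∀ a : K3 → ℂ, Rap a →
    a 0 = 0 → eLpNorm (S a) (ENNReal.ofReal (6 / (3 - 2 * σ))) (volume.restrict cube)
      ≤ ENNReal.ofReal (C * Real.sqrt (hs σ a)) := by
  rcases eq_or_lt_of_le h0 with h | h
  · subst h
    refine ⟨1, zero_le_one, fun a ha _ => ?_⟩
    have e0 : (6 : ℝ) / (3 - 2 * 0) = 2 := by norm_num
    rw [e0]
    have e1 : ENNReal.ofReal 2 = 2 := by norm_num
    rw [e1, eLpNorm_eq_lintegral_rpow_enorm_toReal (by norm_num) (by norm_num)]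
    have e2 : (2 : ℝ≥0∞).toReal = 2 := by norm_num
    rw [e2]
    have e3 : ∀ x, ‖S a x‖ₑ ^ (2 : ℝ) = ENNReal.ofReal (‖S a x‖ ^ 2) := by
      intro x
      rw [← ofReal_norm, ENNReal.ofReal_rpow_of_nonneg (norm_nonneg _) (by norm_num)]
      congr 1
      rw [show (2 : ℝ) = ((2 : ℕ) : ℝ) by norm_num, Real.rpow_natCast]
    simp_rw [e3]
    have hc2 : Continuous fun x => ‖S a x‖ ^ 2 := (S_continuous ha.summable).norm.pow 2
    rw [← ofReal_integral_eq_lintegral_ofReal (integrableOn_cube hc2)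
      (Eventually.of_forall fun x => sq_nonneg _), integral_norm_sq ha.summable, n2_sq,
      ENNReal.ofReal_rpow_of_nonneg (tsum_nonneg fun _ => sq_nonneg _) (by norm_num), one_mul]
    refine le_of_eq ?_
    congr 1
    rw [← Real.sqrt_eq_rpow]
    congr 1
    unfold hs
    exact tsum_congr fun k => by rw [wt_zero_left, one_mul]
  · exact sob_pos h h1

end Pool.Agent.U172.NS
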