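import Pool.Agent.H459R3.NS.Final

/-!
Fractional Sobolev norms of rapidly decreasing Fourier coefficients.
-/

open MeasureTheory Set Filter Topology
open scoped ENNReal ComplexConjugate

set_option autoImplicit false

namespace Pool.Agent.U172.NS

open H459R3.NS

/-- `|2 π k|²` -/
noncomputable def q2 (k : K3) : ℝ := (2 * Real.pi) ^ 2 * ∑ j, (k j : ℝ) ^ 2

/-- `|2 π k|^(2 s)` -/
noncomputable def wt (s : ℝ) (k : K3) : ℝ := q2 k ^ s

/-- the square of the norm of order `s` -/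
noncomputable def hs (s : ℝ) (a : K3 → ℂ) : ℝ := ∑' k, wt s k * ‖a k‖ ^ 2

theorem q2_nonneg (k : K3) : 0 ≤ q2 k := by unfold q2; positivity

theorem wt_nonneg (s : ℝ) (k : K3) : 0 ≤ wt s k := Real.rpow_nonneg (q2_nonneg k) s

theorem q2_zero : q2 0 = 0 := by simp [q2]

theorem wt_zero {s : ℝ} (hs : s ≠ 0) : wt s 0 = 0 := by
  unfold wt; rw [q2_zero, Real.zero_rpow hs]

theorem wt_zero_left (k : K3) : wt 0 k = 1 := by unfold wt; rw [Real.rpow_zero]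

theorem N_sq_le_q2 (k : K3) : (N k : ℝ) ^ 2 ≤ q2 k := by
  have h1 := H459R3.NS.N_sq_le k
  have h2 : 0 ≤ ∑ j, (k j : ℝ) ^ 2 := Finset.sum_nonneg fun _ _ => sq_nonneg _
  have h3 : (1 : ℝ) ≤ (2 * Real.pi) ^ 2 := by nlinarith [Real.pi_gt_three]
  unfold q2
  nlinarith

theorem q2_le (k : K3) : q2 k ≤ 192 * (N k : ℝ) ^ 2 := by
  have h1 : ∀ j, (k j : ℝ) ^ 2 ≤ (N k : ℝ) ^ 2 := by
    intro j
    have h := (N_le_iff k (N k)).1 le_rfl j
    have h1 : |(k j : ℝ)| ≤ N k := by exact_mod_cast h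
    rw [← sq_abs (k j : ℝ)]
    exact pow_le_pow_left₀ (abs_nonneg _) h1 2
  have h2 : ∑ j, (k j : ℝ) ^ 2 ≤ 3 * (N k : ℝ) ^ 2 := by
    rw [Fin.sum_univ_three]
    linarith [h1 0, h1 1, h1 2]
  have h3 : (2 * Real.pi) ^ 2 ≤ 64 := by nlinarith [Real.pi_le_four, Real.pi_gt_three]
  have h4 : 0 ≤ ∑ j, (k j : ℝ) ^ 2 := Finset.sum_nonneg fun _ _ => sq_nonneg _
  unfold q2
  calc (2 * Real.pi) ^ 2 * ∑ j, (k j : ℝ) ^ 2 ≤ 64 * (3 * (N k : ℝ) ^ 2) := by gcongr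
    _ = _ := by ring

theorem one_le_N {k : K3} (hk : k ≠ 0) : (1 : ℝ) ≤ N k := by
  have : N k ≠ 0 := fun h => hk (N_eq_zero.1 h)
  exact_mod_cast Nat.one_le_iff_ne_zero.2 this

theorem one_le_q2 {k : K3} (hk : k ≠ 0) : 1 ≤ q2 k := by
  have h1 := one_le_N hk
  have h2 := N_sq_le_q2 k
  nlinarith

theorem q2_pos {k : K3} (hk : k ≠ 0) : 0 < q2 k := lt_of_lt_of_le one_pos (one_le_q2 hk)

theorem wt_mul_q2 {s : ℝ} (hs : 0 ≤ s) (k : K3) : wt s k * q2 k = wt (s + 1) k := by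
  by_cases hk : k = 0
  · subst hk
    rw [q2_zero, mul_zero, wt_zero (by linarith)]
  · unfold wt
    rw [Real.rpow_add (q2_pos hk), Real.rpow_one]

theorem wt_le_N {s : ℝ} (hs : s ≤ 2) (k : K3) : wt s k ≤ 192 ^ 2 * (N k : ℝ) ^ 4 + 1 := by
  by_cases hk : k = 0
  · subst hk
    unfold wt
    rw [q2_zero]
    rcases eq_or_ne s 0 with h | h
    · rw [h, Real.rpow_zero]
      have : (0:ℝ) ≤ 192 ^ 2 * (N (0 : K3) : ℝ) ^ 4 := by positivity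
      linarith
    · rw [Real.zero_rpow h]; positivity
  · have h1 : wt s k ≤ q2 k ^ (2 : ℝ) := by
      unfold wt
      exact Real.rpow_le_rpow_of_exponent_le (one_le_q2 hk) hs
    have h2 : q2 k ^ (2 : ℝ) = q2 k ^ 2 := by
      rw [show (2 : ℝ) = ((2 : ℕ) : ℝ) by norm_num, Real.rpow_natCast]
    have h3 : q2 k ^ 2 ≤ (192 * (N k : ℝ) ^ 2) ^ 2 := pow_le_pow_left₀ (q2_nonneg k) (q2_le k) 2
    calc wt s k ≤ (192 * (N k : ℝ) ^ 2) ^ 2 := by rw [h2] at h1; exact h1.trans h3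
      _ ≤ _ := by nlinarith

/-- weighted coefficients are summable -/
theorem summable_wt {s : ℝ} (hs : s ≤ 2) {a : K3 → ℂ} (ha : Rap a) :
    Summable fun k => wt s k * ‖a k‖ := by
  have h := ((ha 4).mul_left (192 ^ 2)).add ha.summable.norm
  refine Summable.of_nonneg_of_le (fun k => mul_nonneg (wt_nonneg s k) (norm_nonneg _))
    (fun k => ?_) h
  have := mul_le_mul_of_nonneg_right (wt_le_N hs k) (norm_nonneg (a k))
  linarith

theorem bdd_of_rap {a : K3 → ℂ} (ha : Rap a) : ∃ C : ℝ, 0 ≤ C ∧ ∀ k, ‖a k‖ ≤ C := by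
  refine ⟨∑' k, ‖a k‖, tsum_nonneg fun _ => norm_nonneg _, fun k => ?_⟩
  exact ha.summable.norm.le_tsum k fun _ _ => norm_nonneg _

theorem summable_hs {s : ℝ} (hs : s ≤ 2) {a : K3 → ℂ} (ha : Rap a) :
    Summable fun k => wt s k * ‖a k‖ ^ 2 := by
  obtain ⟨C, hC0, hC⟩ := bdd_of_rap ha
  refine Summable.of_nonneg_of_le (fun k => mul_nonneg (wt_nonneg s k) (sq_nonneg _))
    (fun k => ?_) ((summable_wt hs ha).mul_right C)
  have h1 : ‖a k‖ ^ 2 ≤ ‖a k‖ * C := by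
    rw [sq]; exact mul_le_mul_of_nonneg_left (hC k) (norm_nonneg _)
  calc wt s k * ‖a k‖ ^ 2 ≤ wt s k * (‖a k‖ * C) := mul_le_mul_of_nonneg_left h1 (wt_nonneg s k)
    _ = _ := by ring

theorem hs_nonneg (s : ℝ) (a : K3 → ℂ) : 0 ≤ hs s a :=
  tsum_nonneg fun k => mul_nonneg (wt_nonneg s k) (sq_nonneg _)

/-- interpolation -/
theorem hs_interp {s θ : ℝ} (hs0 : 0 ≤ s) (hs1 : s + 1 ≤ 2) (hθ0 : 0 ≤ θ) (hθ1 : θ ≤ 1)
    {a : K3 → ℂ} (ha : Rap a) :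
    hs (s + θ) a ≤ hs s a ^ (1 - θ) * hs (s + 1) a ^ θ := by
  rcases eq_or_lt_of_le hθ0 with h0 | h0
  · rw [← h0]; simp
  rcases eq_or_lt_of_le hθ1 with h1 | h1
  · rw [h1]; simp
  have hpq : (1 / (1 - θ)).HolderConjugate (1 / θ) := by
    rw [Real.holderConjugate_iff]
    refine ⟨?_, ?_⟩
    · rw [lt_div_iff₀ (by linarith)]; linarith
    · simp
  set f : K3 → ℝ := fun k => (wt s k * ‖a k‖ ^ 2) ^ (1 - θ) with hf
  set g : K3 → ℝ := fun k => (wt (s + 1) k * ‖a k‖ ^ 2) ^ θ with hg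
  have hf0 : ∀ k, 0 ≤ wt s k * ‖a k‖ ^ 2 := fun k => mul_nonneg (wt_nonneg s k) (sq_nonneg _)
  have hg0 : ∀ k, 0 ≤ wt (s + 1) k * ‖a k‖ ^ 2 := fun k =>
    mul_nonneg (wt_nonneg _ k) (sq_nonneg _)
  have ef : ∀ k, f k ^ (1 / (1 - θ)) = wt s k * ‖a k‖ ^ 2 := by
    intro k
    rw [hf]
    show ((wt s k * ‖a k‖ ^ 2) ^ (1 - θ)) ^ (1 / (1 - θ)) = _
    rw [← Real.rpow_mul (hf0 k), mul_one_div_cancel (by linarith), Real.rpow_one]
  have eg : ∀ k, g k ^ (1 / θ) = wt (s + 1) k * ‖a k‖ ^ 2 := by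
    intro k
    rw [hg]
    show ((wt (s + 1) k * ‖a k‖ ^ 2) ^ θ) ^ (1 / θ) = _
    rw [← Real.rpow_mul (hg0 k), mul_one_div_cancel h0.ne', Real.rpow_one]
  have key := Real.inner_le_Lp_mul_Lq_tsum_of_nonneg hpq (f := f) (g := g)
    (fun k => Real.rpow_nonneg (hf0 k) _) (fun k => Real.rpow_nonneg (hg0 k) _)
    (by simp_rw [ef]; exact summable_hs (by linarith) ha)
    (by simp_rw [eg]; exact summable_hs hs1 ha)
  simp_rw [ef, eg] at key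
  rw [one_div_one_div, one_div_one_div] at key
  refine le_trans (le_of_eq ?_) key
  unfold hs
  refine tsum_congr fun k => ?_
  rw [hf, hg]
  show _ = (wt s k * ‖a k‖ ^ 2) ^ (1 - θ) * (wt (s + 1) k * ‖a k‖ ^ 2) ^ θ
  rw [Real.mul_rpow (wt_nonneg s k) (sq_nonneg _), Real.mul_rpow (wt_nonneg _ k) (sq_nonneg _)]
  have e1 : (‖a k‖ ^ 2 : ℝ) ^ (1 - θ) * (‖a k‖ ^ 2) ^ θ = ‖a k‖ ^ 2 := by
    rcases eq_or_lt_of_le (sq_nonneg ‖a k‖) with h | h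
    · rw [← h, Real.zero_rpow (by linarith : (1 : ℝ) - θ ≠ 0), zero_mul]
    · rw [← Real.rpow_add h]; simp
  have e2 : wt s k ^ (1 - θ) * wt (s + 1) k ^ θ = wt (s + θ) k := by
    unfold wt
    rw [← Real.rpow_mul (q2_nonneg k), ← Real.rpow_mul (q2_nonneg k)]
    by_cases hk : k = 0
    · subst hk
      rw [q2_zero, Real.zero_rpow (by linarith : s + θ ≠ 0),
        Real.zero_rpow (by nlinarith : (s + 1) * θ ≠ 0), mul_zero]
    · rw [← Real.rpow_add (q2_pos hk)]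
      congr 1
      ring
  calc wt (s + θ) k * ‖a k‖ ^ 2
      = (wt s k ^ (1 - θ) * wt (s + 1) k ^ θ) * ((‖a k‖ ^ 2) ^ (1 - θ) * (‖a k‖ ^ 2) ^ θ) := by
        rw [e1, e2]
    _ = _ := by ring

end Pool.Agent.U172.NS
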