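import Pool.Agent.U172.NS.Bd

/-!
Integration over the height `τ` (by a monotone quantity).
-/

open MeasureTheory Set Filter Topology
open scoped ENNReal ComplexConjugate ContDiff

set_option autoImplicit false

namespace Pool.Agent.U172.NS

open H459R3.NS

/-- `(2 τ l / (1 + 2 τ l))^a` -/
noncomputable def ph2 (a l τ : ℝ) : ℝ := (2 * τ * l / (1 + 2 * τ * l)) ^ a

/-- its derivative -/
noncomputable def dph2 (a l τ : ℝ) : ℝ :=
  2 * l / (1 + 2 * τ * l) ^ 2 * a * (2 * τ * l / (1 + 2 * τ * l)) ^ (a - 1)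

theorem ph2_nonneg {a l τ : ℝ} (hl : 0 ≤ l) (hτ : 0 ≤ τ) : 0 ≤ ph2 a l τ := by
  unfold ph2
  positivity

theorem ph2_le {a l τ : ℝ} (ha : 0 ≤ a) (hl : 0 ≤ l) (hτ : 0 ≤ τ) : ph2 a l τ ≤ 1 := by
  unfold ph2
  refine Real.rpow_le_one (by positivity) ?_ ha
  rw [div_le_one (by positivity)]
  linarith

theorem ph2_zero {a l : ℝ} (ha : 0 < a) : ph2 a l 0 = 0 := by
  unfold ph2
  simp [ha.ne']

theorem ph2_l_zero {a τ : ℝ} (ha : 0 < a) : ph2 a 0 τ = 0 := by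
  unfold ph2
  simp [ha.ne']

theorem ph2_continuousOn {a l : ℝ} (ha : 0 ≤ a) (hl : 0 ≤ l) : ContinuousOn (ph2 a l) (Ici 0) := by
  unfold ph2
  refine ContinuousOn.rpow_const ?_ fun _ _ => Or.inr ha
  refine ContinuousOn.div (by fun_prop) (by fun_prop) fun τ hτ => ?_
  have : (0 : ℝ) ≤ τ := hτ
  positivity

theorem ph2_hasDerivAt {a l τ : ℝ} (ha : 0 < a) (hl : 0 ≤ l) (hτ : 0 < τ) :
    HasDerivAt (ph2 a l) (dph2 a l τ) τ := by
  rcases eq_or_lt_of_le hl with h0 | h0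
  · subst h0
    have e : ph2 a 0 = fun _ => 0 := funext fun τ => ph2_l_zero ha
    rw [e]
    refine (hasDerivAt_const τ (0 : ℝ)).congr_deriv ?_
    unfold dph2
    simp
  · have hz : 0 < 2 * τ * l := by positivity
    have h1 : HasDerivAt (fun τ : ℝ => 2 * τ * l) (2 * 1 * l) τ :=
      ((hasDerivAt_id τ).const_mul 2).mul_const l
    have h2 : HasDerivAt (fun τ : ℝ => 1 + 2 * τ * l) (2 * 1 * l) τ := h1.const_add 1
    have h3 := h1.div h2 (by positivity)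
    have h4 := h3.rpow_const (p := a) (Or.inl (by
      simp only [Pi.div_apply]
      positivity))
    refine h4.congr_deriv ?_
    unfold dph2
    simp only [Pi.div_apply]
    field_simp
    ring

theorem dph2_nonneg {a l τ : ℝ} (ha : 0 < a) (hl : 0 ≤ l) (hτ : 0 < τ) : 0 ≤ dph2 a l τ := by
  unfold dph2
  positivity

theorem dph2_le {a l τ τ1 : ℝ} (ha : 0 < a) (ha1 : a ≤ 1) (hl : l = 0 ∨ 1 ≤ l) (hτ1 : 0 < τ1)
    (hτ : τ1 ≤ τ) : dph2 a l τ ≤ (2 * a * (2 * τ1 / (1 + 2 * τ1)) ^ (a - 1)) * l := by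
  rcases hl with h0 | h1
  · subst h0
    unfold dph2
    simp
  · have hl0 : 0 < l := by linarith
    have hτ0 : 0 < τ := by linarith
    have e1 : 2 * l / (1 + 2 * τ * l) ^ 2 ≤ 2 * l := by
      refine div_le_self (by positivity) ?_
      have : 0 ≤ 2 * τ * l := by positivity
      nlinarith
    have e2 : (2 * τ * l / (1 + 2 * τ * l)) ^ (a - 1) ≤ (2 * τ1 / (1 + 2 * τ1)) ^ (a - 1) := by
      refine Real.rpow_le_rpow_of_nonpos (by positivity) ?_ (by linarith)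
      rw [div_le_div_iff₀ (by positivity) (by positivity)]
      have : τ1 ≤ τ * l := by nlinarith
      nlinarith
    unfold dph2
    calc 2 * l / (1 + 2 * τ * l) ^ 2 * a * (2 * τ * l / (1 + 2 * τ * l)) ^ (a - 1)
        ≤ 2 * l * a * (2 * τ1 / (1 + 2 * τ1)) ^ (a - 1) := by gcongr
      _ = _ := by ring

theorem dph2_ge {a l τ : ℝ} (ha : 0 < a) (ha1 : a ≤ 1) (hl : 0 ≤ l) (hτ : 0 < τ) :
    a * (2 * τ) ^ (a - 1) * (l ^ a * Real.exp (-(2 * τ * l))) ≤ dph2 a l τ := by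
  rcases eq_or_lt_of_le hl with h0 | h0
  · subst h0
    rw [Real.zero_rpow ha.ne']
    unfold dph2
    simp
  · set z : ℝ := 2 * τ * l with hz
    have hz0 : 0 < z := by positivity
    have h1 : z ^ (a - 1) ≤ (z / (1 + z)) ^ (a - 1) := by
      refine Real.rpow_le_rpow_of_nonpos (by positivity) ?_ (by linarith)
      exact div_le_self hz0.le (by linarith)
    have h2 : Real.exp (-z) ≤ 2 / (1 + z) ^ 2 := by
      rw [Real.exp_neg, le_div_iff₀ (by positivity), inv_mul_le_iff₀ (Real.exp_pos _)]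
      have := Real.quadratic_le_exp_of_nonneg hz0.le
      nlinarith
    have h3 : (2 * τ) ^ (a - 1) * l ^ a = l * z ^ (a - 1) := by
      rw [hz, Real.mul_rpow (by positivity) h0.le, Real.rpow_sub_one h0.ne']
      field_simp
    unfold dph2
    rw [← hz]
    calc a * (2 * τ) ^ (a - 1) * (l ^ a * Real.exp (-z))
        = a * l * Real.exp (-z) * z ^ (a - 1) := by
          rw [show a * (2 * τ) ^ (a - 1) * (l ^ a * Real.exp (-z))
            = a * Real.exp (-z) * ((2 * τ) ^ (a - 1) * l ^ a) by ring, h3]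
          ring
      _ ≤ a * l * (2 / (1 + z) ^ 2) * (z / (1 + z)) ^ (a - 1) := by gcongr
      _ = _ := by ring

/-- the monotone quantity -/
noncomputable def Gw (a ζ : ℝ) (U : Fin 3 → K3 → ℂ) (τ : ℝ) : ℝ :=
  ∑ i, ∑' k, wt ζ k * ‖U i k‖ ^ 2 * ph2 a (lam k) τ

section
variable {a ζ : ℝ} {U : Fin 3 → K3 → ℂ} (ha : 0 < a) (ha1 : a ≤ 1) (hζ : ζ ≤ 2)
  (hU : ∀ i, Rap (U i))

include ha hζ hU in
theorem Gw_le {τ : ℝ} (hτ : 0 ≤ τ) : Gw a ζ U τ ≤ EU ζ U := by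
  unfold Gw EU hs
  refine Finset.sum_le_sum fun i _ => ?_
  have hle : ∀ k, wt ζ k * ‖U i k‖ ^ 2 * ph2 a (lam k) τ ≤ wt ζ k * ‖U i k‖ ^ 2 := fun k =>
    mul_le_of_le_one_right (mul_nonneg (wt_nonneg _ _) (sq_nonneg _))
      (ph2_le ha.le (lam_nonneg k) hτ)
  have hs := summable_hs hζ (hU i)
  refine (Summable.of_nonneg_of_le (fun k => ?_) hle hs).tsum_le_tsum hle hs
  exact mul_nonneg (mul_nonneg (wt_nonneg _ _) (sq_nonneg _)) (ph2_nonneg (lam_nonneg k) hτ)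

include ha in
theorem Gw_zero : Gw a ζ U 0 = 0 := by
  unfold Gw
  simp [ph2_zero ha]

include ha hζ hU in
theorem Gw_continuousOn : ContinuousOn (Gw a ζ U) (Ici 0) := by
  unfold Gw
  refine continuousOn_finsetSum _ fun i _ => ?_
  refine continuousOn_tsum (fun k => ?_) (summable_hs hζ (hU i)) (fun k τ hτ => ?_)
  · exact continuousOn_const.mul (ph2_continuousOn ha.le (lam_nonneg k))
  · have h0 : (0 : ℝ) ≤ τ := hτ
    have h1 := ph2_nonneg (a := a) (lam_nonneg k) h0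
    have h2 : 0 ≤ wt ζ k * ‖U i k‖ ^ 2 := mul_nonneg (wt_nonneg _ _) (sq_nonneg _)
    rw [Real.norm_of_nonneg (mul_nonneg h2 h1)]
    exact mul_le_of_le_one_right h2 (ph2_le ha.le (lam_nonneg k) h0)

include hζ hU in
theorem summable_wl (i : Fin 3) : Summable fun k => lam k * (wt ζ k * ‖U i k‖ ^ 2) := by
  obtain ⟨C, hC0, hC⟩ := bdd_of_rap (hU i)
  refine Summable.of_nonneg_of_le (fun k => mul_nonneg (lam_nonneg k)
    (mul_nonneg (wt_nonneg ζ k) (sq_nonneg _))) (fun k => ?_)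
    ((summable_wt hζ (rap_La (hU i))).mul_right C)
  unfold La
  rw [norm_mul, Complex.norm_real, Real.norm_of_nonneg (lam_nonneg k)]
  have h1 : ‖U i k‖ ^ 2 ≤ ‖U i k‖ * C := by
    rw [sq]
    exact mul_le_mul_of_nonneg_left (hC k) (norm_nonneg _)
  calc lam k * (wt ζ k * ‖U i k‖ ^ 2) ≤ lam k * (wt ζ k * (‖U i k‖ * C)) :=
        mul_le_mul_of_nonneg_left (mul_le_mul_of_nonneg_left h1 (wt_nonneg _ _)) (lam_nonneg k)
    _ = _ := by ring

include ha ha1 hζ hU in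
theorem Gw_hasDerivAt {τ : ℝ} (hτ : 0 < τ) :
    HasDerivAt (Gw a ζ U) (∑ i, ∑' k, wt ζ k * ‖U i k‖ ^ 2 * dph2 a (lam k) τ) τ := by
  unfold Gw
  refine HasDerivAt.fun_sum fun i _ => ?_
  set C : ℝ := 2 * a * (2 * (τ / 2) / (1 + 2 * (τ / 2))) ^ (a - 1) with hC
  have hl : ∀ k, lam k = 0 ∨ 1 ≤ lam k := by
    intro k
    by_cases hk : k = 0
    · left; rw [hk, lam_zero]
    · right; exact one_le_lam hk
  have hmem : τ ∈ Ioi (τ / 2) := mem_Ioi.2 (by linarith)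
  refine hasDerivAt_tsum_of_isPreconnected (𝕜 := ℝ) (t := Ioi (τ / 2))
    (g := fun (k : K3) (τ : ℝ) => wt ζ k * ‖U i k‖ ^ 2 * ph2 a (lam k) τ)
    (g' := fun (k : K3) (τ : ℝ) => wt ζ k * ‖U i k‖ ^ 2 * dph2 a (lam k) τ)
    (u := fun k => C * (lam k * (wt ζ k * ‖U i k‖ ^ 2)))
    ((summable_wl hζ hU i).mul_left C) isOpen_Ioi (convex_Ioi _).isPreconnected
    (fun k s hs => ?_) (fun k s hs => ?_) (y₀ := τ) hmem ?_ hmem
  · have hs0 : 0 < s := by
      have : τ / 2 < s := hs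
      linarith
    exact (ph2_hasDerivAt ha (lam_nonneg k) hs0).const_mul _
  · have hs1 : τ / 2 < s := hs
    have hs0 : 0 < s := by linarith
    have h2 : 0 ≤ wt ζ k * ‖U i k‖ ^ 2 := mul_nonneg (wt_nonneg _ _) (sq_nonneg _)
    rw [Real.norm_of_nonneg (mul_nonneg h2 (dph2_nonneg ha (lam_nonneg k) hs0))]
    have h3 := dph2_le ha ha1 (hl k) (by linarith : 0 < τ / 2) hs1.le
    calc wt ζ k * ‖U i k‖ ^ 2 * dph2 a (lam k) s ≤ wt ζ k * ‖U i k‖ ^ 2 * (C * lam k) :=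
          mul_le_mul_of_nonneg_left h3 h2
      _ = _ := by ring
  · refine Summable.of_nonneg_of_le (fun k => ?_) (fun k => ?_) (summable_hs hζ (hU i))
    · exact mul_nonneg (mul_nonneg (wt_nonneg _ _) (sq_nonneg _))
        (ph2_nonneg (lam_nonneg k) hτ.le)
    · exact mul_le_of_le_one_right (mul_nonneg (wt_nonneg _ _) (sq_nonneg _))
        (ph2_le ha.le (lam_nonneg k) hτ.le)

include ha ha1 hζ hU in
theorem Gw_deriv_ge (hζ1 : ζ + a / 2 ≤ 2) (hζ0 : 0 < ζ) {τ : ℝ} (hτ : 0 < τ) :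
    a * (2 * τ) ^ (a - 1) * EU (ζ + a / 2) (FlV τ U)
      ≤ ∑ i, ∑' k, wt ζ k * ‖U i k‖ ^ 2 * dph2 a (lam k) τ := by
  unfold EU hs
  rw [Finset.mul_sum]
  refine Finset.sum_le_sum fun i _ => ?_
  rw [← tsum_mul_left]
  set C : ℝ := 2 * a * (2 * τ / (1 + 2 * τ)) ^ (a - 1) with hC
  have hl : ∀ k, lam k = 0 ∨ 1 ≤ lam k := by
    intro k
    by_cases hk : k = 0
    · left; rw [hk, lam_zero]
    · right; exact one_le_lam hk
  have hnn : ∀ k, 0 ≤ wt ζ k * ‖U i k‖ ^ 2 := fun k => mul_nonneg (wt_nonneg _ _) (sq_nonneg _)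
  have hs2 : Summable fun k => wt ζ k * ‖U i k‖ ^ 2 * dph2 a (lam k) τ := by
    refine Summable.of_nonneg_of_le (fun k => mul_nonneg (hnn k)
      (dph2_nonneg ha (lam_nonneg k) hτ)) (fun k => ?_) ((summable_wl hζ hU i).mul_left C)
    have h3 := dph2_le ha ha1 (hl k) hτ le_rfl
    calc wt ζ k * ‖U i k‖ ^ 2 * dph2 a (lam k) τ ≤ wt ζ k * ‖U i k‖ ^ 2 * (C * lam k) :=
          mul_le_mul_of_nonneg_left h3 (hnn k)
      _ = _ := by ring
  have hs1 := (summable_hs hζ1 (rap_FlV hU hτ.le i)).mul_left (a * (2 * τ) ^ (a - 1))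
  refine hs1.tsum_le_tsum (fun k => ?_) hs2
  have e1 : ‖FlV τ U i k‖ ^ 2 = Real.exp (-(2 * τ * lam k)) * ‖U i k‖ ^ 2 := by
    unfold FlV Fl
    rw [norm_mul, Complex.norm_real, Real.norm_of_nonneg (Real.exp_pos _).le, mul_pow,
      ← Real.exp_nat_mul]
    congr 2
    push_cast
    ring
  have e2 : wt (ζ + a / 2) k = wt ζ k * lam k ^ a := by
    by_cases hk : k = 0
    · subst hk
      rw [wt_zero (by linarith), wt_zero hζ0.ne', zero_mul]
    · unfold lam wt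
      rw [← Real.rpow_mul (q2_nonneg k), ← Real.rpow_add (q2_pos hk)]
      congr 1
      ring
  have h1 := dph2_ge ha ha1 (lam_nonneg k) hτ
  calc a * (2 * τ) ^ (a - 1) * (wt (ζ + a / 2) k * ‖FlV τ U i k‖ ^ 2)
      = wt ζ k * ‖U i k‖ ^ 2 * (a * (2 * τ) ^ (a - 1)
        * (lam k ^ a * Real.exp (-(2 * τ * lam k)))) := by
        rw [e1, e2]; ring
    _ ≤ _ := mul_le_mul_of_nonneg_left h1 (hnn k)

end

/-- **the production is controlled by one helical part of the vorticity** -/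
theorem prod_le {a : ℝ} (ha : 0 < a) (ha1 : a ≤ 1) {P : ℝ≥0∞} {y : ℝ}
    (hy : 3 * (P⁻¹).toReal = 2 * y) (hP0 : P ≠ 0) (hy0 : 0 ≤ y) (hy1 : y ≤ 1) :
    ∃ K : ℝ, 0 ≤ K ∧
    ∀ (U : Fin 3 → K3 → ℂ) (σ B : ℝ), (∀ i, Rap (U i)) → (∀ i, Hm (U i)) →
      (∀ k, ∑ i, D i (U i) k = 0) → (σ = 1 ∨ σ = -1) → 0 ≤ B →
      (∀ τ, 0 < τ → eLpNorm (fun x => len (fun i => (Vf (FlV τ (cu U)) x i
        + σ * Vf (FlV τ (LaV U)) x i) / 2)) P (volume.restrict cube)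
          ≤ ENNReal.ofReal (B * τ ^ (a - 1))) →
      -TD (cu U) U (LaV U) ≤ K * B * EU (1 + y - a / 2) U := by
  obtain ⟨K, hK0, hK⟩ := fixed_bound hy hP0 hy0 hy1
  refine ⟨K / (a * 2 ^ (a - 1)), by positivity, fun U σ B hU hU' hdiv hσ hB hX => ?_⟩
  set ζ : ℝ := 1 + y - a / 2 with hζ
  have hζ2 : ζ ≤ 2 := by rw [hζ]; linarith
  have hζ0 : 0 < ζ := by rw [hζ]; linarith
  have hζa : ζ + a / 2 = 1 + y := by rw [hζ]; ring
  set Ψ : ℝ → ℝ := fun τ => TD (FlV τ (cu U)) (FlV τ U) (FlV τ (LaV U)) with hΨ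
  have hΨc : ContinuousOn Ψ (Ici 0) :=
    TD_continuousOn (rap_cu hU) hU (rap_LaV hU) (hm_cu hU') hU' (hm_LaV hU')
  have hΨt : Tendsto Ψ atTop (𝓝 0) :=
    TD_tendsto (rap_cu hU) hU (rap_LaV hU) (hm_cu hU') hU' (hm_LaV hU') (cu_zero U)
  set c : ℝ := K / (a * 2 ^ (a - 1)) * B with hc
  have hc0 : 0 ≤ c := by positivity
  set h : ℝ → ℝ := fun τ => c * Gw a ζ U τ - Ψ τ with hh
  have hhc : ContinuousOn h (Ici 0) :=
    (continuousOn_const.mul (Gw_continuousOn ha hζ2 hU)).sub hΨc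
  have hderiv : ∀ τ, 0 < τ → HasDerivAt h
      (c * (∑ i, ∑' k, wt ζ k * ‖U i k‖ ^ 2 * dph2 a (lam k) τ)
        - (Qf (Vf (FlV τ U)) (Vf (FlV τ (cu U))) - Qf (Vf (FlV τ U)) (Vf (FlV τ (LaV U))))) τ :=
    fun τ hτ => ((Gw_hasDerivAt ha ha1 hζ2 hU hτ).const_mul c).sub (Psi_hasDerivAt hU hU' hdiv hτ)
  have hnn : ∀ τ, 0 < τ → 0 ≤ c * (∑ i, ∑' k, wt ζ k * ‖U i k‖ ^ 2 * dph2 a (lam k) τ)
        - (Qf (Vf (FlV τ U)) (Vf (FlV τ (cu U))) - Qf (Vf (FlV τ U)) (Vf (FlV τ (LaV U)))) := by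
    intro τ hτ
    have h1 := Gw_deriv_ge ha ha1 hζ2 hU (by rw [hζa]; linarith) hζ0 hτ
    rw [hζa] at h1
    have hBτ : 0 ≤ B * τ ^ (a - 1) := by positivity
    have h2 := hK (FlV τ U) σ (B * τ ^ (a - 1)) (rap_FlV hU hτ.le) hσ hBτ (by
      rw [cu_Fl]
      have e : LaV (FlV τ U) = FlV τ (LaV U) := funext fun i => La_Fl τ (U i)
      rw [e]
      exact hX τ hτ)
    have e : LaV (FlV τ U) = FlV τ (LaV U) := funext fun i => La_Fl τ (U i)
    rw [e, cu_Fl] at h2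
    have h3 := mul_le_mul_of_nonneg_left h1 hc0
    have h4 : c * (a * (2 * τ) ^ (a - 1) * EU (1 + y) (FlV τ U))
        = K * (B * τ ^ (a - 1)) * EU (1 + y) (FlV τ U) := by
      rw [hc, Real.mul_rpow (by norm_num) hτ.le]
      field_simp
    linarith
  have hmono : MonotoneOn h (Ici 0) := by
    refine monotoneOn_of_deriv_nonneg (convex_Ici 0) hhc ?_ ?_
    · rw [interior_Ici]
      exact fun τ hτ => (hderiv τ hτ).differentiableAt.differentiableWithinAt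
    · rw [interior_Ici]
      intro τ hτ
      rw [(hderiv τ hτ).deriv]
      exact hnn τ hτ
  have hfin : ∀ᶠ r in atTop, -TD (cu U) U (LaV U) ≤ c * EU ζ U - Ψ r := by
    filter_upwards [eventually_ge_atTop (0 : ℝ)] with r hr
    have h1 := hmono (mem_Ici.2 le_rfl) (mem_Ici.2 hr) hr
    simp only [hh] at h1
    have h0 : Ψ 0 = TD (cu U) U (LaV U) := by
      simp only [hΨ]
      have e : ∀ A : Fin 3 → K3 → ℂ, FlV 0 A = A := fun A => funext fun i => Fl_zero (A i)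
      rw [e, e, e]
    rw [Gw_zero ha, h0] at h1
    have h2 := mul_le_mul_of_nonneg_left (Gw_le ha hζ2 hU hr) hc0
    linarith
  have hlim : Tendsto (fun r => c * EU ζ U - Ψ r) atTop (𝓝 (c * EU ζ U - 0)) :=
    tendsto_const_nhds.sub hΨt
  rw [sub_zero] at hlim
  exact ge_of_tendsto hlim hfin

end Pool.Agent.U172.NS
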